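import Pool.Agent.Helper38K9.NI.Sel2

/-!
Interfaces close to a given set, after rewriting a sparse set of edges: statements.
-/

set_option maxHeartbeats 1000000

namespace NI38

open H974 H973 H934E Finset MeasureTheory TopologicalSpace

/-- The sets which the interface can be close to. -/
def Target (R : Rect) (K : Set ℂ) : Prop :=
  K ⊆ rectS R ∧ (⟨0, 0⟩ : ℂ) ∈ K ∧ (⟨R.t, R.H⟩ : ℂ) ∈ K ∧
    ∀ y₁ y₂ : ℝ, 0 ≤ y₁ → y₁ ≤ y₂ → y₂ ≤ R.H → IsConnected (K ∩ {z | y₁ ≤ z.im ∧ z.im ≤ y₂})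

/-- [SEL] The columns `s j` (one for each row `j`), constant on the strips `[k m, k m + m - 1]`.
Proof. `N` large (say `N ≥ 8 (A + B + 2 H + 1) / κ`), `m = y1 / N ^ 2`, `δ0` small, exactly as in
`SelL.dense` (file Sel2.lean). For `k : ℤ` put `l = k % N`, `Y k = max 0 (min H (δ k m))`; let `q k`
be a point of `K` with `|q.im - δ k m| ≤ κ / 2` (for `0 ≤ k ≤ (y1 + 1) / m`; there is one, as
`K ∩ {Y ≤ im ≤ Y}` is nonempty), and with `|q.re + A - l (A + B) / N| ≤ (A + B) / N` in addition if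
there is such a point (`by_cases`, choice). Put
`s j = max x0 (min x1 ⌊(q (j / m)).re / δ⌋)`, so that `|δ s j - (q (j/m)).re| ≤ 2 δ`. The last
clause: `SelL.pick` for `p.re + A` and for `p.im` gives `l`, `b`, and `k = N b + l`. -/
def S_SEL : Prop := ∀ (R : Rect) (κ : ℝ), 0 < κ → ∃ (N : ℕ) (δ0 r : ℝ), 0 < N ∧ 0 < δ0 ∧ 0 < r ∧
  ∀ δ : ℝ, 0 < δ → δ < δ0 → ∃ m : ℤ, 0 < m ∧ r ≤ δ * m ∧ δ * m ≤ κ ∧ (N:ℤ)^2 * m ≤ R.y1 δ ∧
    ∀ K : Set ℂ, Target R K → ∃ s : ℤ → ℤ, (∀ j, R.x0 δ ≤ s j ∧ s j ≤ R.x1 δ) ∧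
      (∀ k j : ℤ, k * m ≤ j → j ≤ k * m + m - 1 → s j = s (k * m)) ∧
      (∀ j, 0 ≤ j → j ≤ R.y1 δ → ∃ q ∈ K, |q.im - δ * j| ≤ κ ∧ |q.re - δ * s j| ≤ κ) ∧
      (∀ p ∈ K, ∃ k : ℕ, k < N^2 ∧ |p.re - δ * s ((k:ℤ) * m)| ≤ κ ∧
        |p.im - δ * (((k:ℤ) * m : ℤ) : ℝ)| ≤ κ)

/-- The connected set has a point with given real part between those of two of its points, in the
same band. -/
theorem between {R : Rect} {K : Set ℂ} (hK : Target R K) {y₁ y₂ : ℝ} (h0 : 0 ≤ y₁) (h1 : y₁ ≤ y₂)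
    (h2 : y₂ ≤ R.H) {p q : ℂ} (hp : p ∈ K) (hp1 : y₁ ≤ p.im ∧ p.im ≤ y₂) (hq : q ∈ K)
    (hq1 : y₁ ≤ q.im ∧ q.im ≤ y₂) {x : ℝ} (hx : p.re ≤ x) (hx' : x ≤ q.re) :
    ∃ w ∈ K, (y₁ ≤ w.im ∧ w.im ≤ y₂) ∧ w.re = x := by
  have hc := (hK.2.2.2 y₁ y₂ h0 h1 h2).isPreconnected
  have := hc.intermediate_value (a := p) (b := q) ⟨hp, hp1⟩ ⟨hq, hq1⟩
    (f := fun z : ℂ => z.re) Complex.continuous_re.continuousOn
  obtain ⟨w, ⟨hw, hw1⟩, hw2⟩ := this ⟨hx, hx'⟩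
  exact ⟨w, hw, hw1, hw2⟩

/-- [UP] No point of the path is far from `K`.
Proof. `FwL.part1` gives `v`, `f`, `i`, `j`. Put `a = i L - 1`, `b = (i+1) L + 1`, `y = j L - 1`,
`w = (j+1) L + 1`, `x = δ v.1`, `h = δ v.2`, `μ = ⌈2 κ / δ⌉` (so `1 ≤ μ ≤ m`, `δ μ ≤ 3 κ`). Suppose that no `q ∈ K` is within `12 κ` of `z` (both
coordinates). For the rows `r` in `[y - μ, w + μ] ∩ [0, y1]` (for example `r = v.2`) the point `q_r`
of the hypothesis is in the band `h - 6 κ ≤ im ≤ h + 6 κ` (clipped to `[0, H]`), so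
`|δ s r - x| > 5 κ`; by `between`, either `δ s r > x + 5 κ` for all these `r` (case L) or
`δ s r < x - 5 κ` for all of them (case R). Case L: the face `f` is joined to some `g ∈ R.outer δ`;
`g` is not in the enlarged box: right side, since `s r ≤ x1`; bottom, by `between` with the point
`0` of `K`; top, with the point `t + i H`. `BoxL.exit_box` and `BoxL.four_of_reach` as in `cb`
(Cb.lean) give `Four a b y w μ (dmp (edges \ P))`, as an edge of `edges` in the enlarged box is in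
`sel ..` iff it is in `P` (its first coordinate is less than `s (row)`). Case R: in the same way
with `v`, the vertices of the wired arc and `cd` (Cd.lean): `Four a b y w μ M`. -/
def S_UP : Prop := ∀ (R : Rect) (δ κ : ℝ) (L n m : ℤ), FwL.Msh R δ κ L n m →
  ∀ K : Set ℂ, Target R K → ∀ s : ℤ → ℤ, (∀ j, R.x0 δ ≤ s j ∧ s j ≤ R.x1 δ) →
  (∀ j, 0 ≤ j → j ≤ R.y1 δ → ∃ q ∈ K, |q.im - δ * j| ≤ κ ∧ |q.re - δ * s j| ≤ κ) →
  ∀ P M : Finset Edg, P ⊆ R.edges δ → M ⊆ R.edges δ →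
  (∀ i j : ℤ, (-(n + 1) ≤ i ∧ i ≤ n + 1) → (-(n + 1) ≤ j ∧ j ≤ n + 1) →
    ¬ BoxL.Four (i * L - 1) ((i + 1) * L + 1) (j * L - 1) ((j + 1) * L + 1) ⌈2 * κ / δ⌉
        (dmp (R.edges δ \ P)) ∧
      ¬ BoxL.Four (i * L - 1) ((i + 1) * L + 1) (j * L - 1) ((j + 1) * L + 1) ⌈2 * κ / δ⌉ M) →
  ∀ z ∈ R.path δ (SelL.sel (R.edges δ) P M s), ∃ q ∈ K, |z.re - q.re| ≤ 12 * κ ∧
    |z.im - q.im| ≤ 12 * κ

end NI38
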