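import Pool.Agent.Helper38K9.NI.Sel3
import Pool.Agent.Helper38K9.NI.Tgt

/-!
Above the density `δ^(3/4)`, the edges of a sparse set can be rewritten so that the interface is
close to any target.
-/

set_option maxHeartbeats 1000000

namespace NI38

open H974 H973 H934E Finset MeasureTheory TopologicalSpace

namespace AsmL

/-- Each point of `K` has a point of the path next to it. -/
theorem low {R : Rect} {δ κ : ℝ} (hδ : 0 < δ) (h5 : 5 * δ ≤ κ) (hsm : Sm R δ) {N : ℕ} {m : ℤ}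
    (hm : 0 < m) (hδm : δ * m ≤ κ) (hNm : (N:ℤ)^2 * m ≤ R.y1 δ) {K : Set ℂ} {s : ℤ → ℤ}
    (h1 : ∀ j, R.x0 δ ≤ s j ∧ s j ≤ R.x1 δ)
    (h2 : ∀ k j : ℤ, k * m ≤ j → j ≤ k * m + m - 1 → s j = s (k * m))
    (h4 : ∀ p ∈ K, ∃ k : ℕ, k < N^2 ∧ |p.re - δ * s ((k:ℤ) * m)| ≤ κ ∧
      |p.im - δ * (((k:ℤ) * m : ℤ) : ℝ)| ≤ κ)
    {P M : Finset Edg} (hP : P ⊆ R.edges δ)
    (hX : ∀ k ∈ Finset.range (N^2), LRc (R.x0 δ) (R.x1 δ) ((k:ℤ) * m) ((k:ℤ) * m + m - 1) P ∧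
      LRc (R.x0 δ) (R.x1 δ) ((k:ℤ) * m) ((k:ℤ) * m + m - 1) (dmp (R.edges δ \ M))) :
    ∀ p ∈ K, ∃ z ∈ R.path δ (SelL.sel (R.edges δ) P M s),
      |p.re - z.re| ≤ 3 * κ ∧ |p.im - z.im| ≤ 3 * κ := by
  intro p hp
  obtain ⟨k, hk, hk1, hk2⟩ := h4 p hp
  obtain ⟨c1, c2⟩ := hX k (Finset.mem_range.mpr hk)
  have hk1' : (k:ℤ) + 1 ≤ (N:ℤ)^2 := by exact_mod_cast hk
  have hk3 : ((k:ℤ) + 1) * m ≤ (N:ℤ)^2 * m := mul_le_mul_of_nonneg_right hk1' hm.le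
  have hkm : (k:ℤ) * m + m ≤ R.y1 δ := by linarith
  have hkm0 : 0 ≤ (k:ℤ) * m := by positivity
  have hs : ∀ j, (k:ℤ) * m ≤ j → j ≤ (k:ℤ) * m + m - 1 → s j = s ((k:ℤ) * m) :=
    fun j a b => h2 k j a b
  have A1 := SelL.left (M := M) hsm hP hs (h1 _).1 (h1 _).2 hkm0 (by omega) c1
  have A2 := SelL.right (P := P) hsm hs (h1 _).1 (h1 _).2 hkm0 (by omega) c2
  obtain ⟨κ', hκ, ⟨i1, i2⟩, i3, i4⟩ := pot R δ hsm _ SelL.sel_sub _ _ _ _ A1 A2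
  obtain ⟨z, hz, hz1, hz2⟩ := HauL.path_of_corner hδ hκ
  refine ⟨z, hz, ?_, ?_⟩
  · have i1r : δ * (s ((k:ℤ) * m) : ℝ) ≤ δ * κ'.1.1 :=
      mul_le_mul_of_nonneg_left (by exact_mod_cast i1) hδ.le
    have i2r : δ * (κ'.1.1:ℝ) ≤ δ * ((s ((k:ℤ) * m) : ℝ) + 1) :=
      mul_le_mul_of_nonneg_left (by exact_mod_cast i2) hδ.le
    have u1 := abs_le.mp hk1
    have u2 := abs_le.mp hz1
    rw [abs_le]
    constructor
    · linarith
    · linarith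
  · have i3r : δ * (((k:ℤ) * m : ℤ) : ℝ) ≤ δ * κ'.1.2 :=
      mul_le_mul_of_nonneg_left (by exact_mod_cast i3) hδ.le
    have i4r : δ * (κ'.1.2:ℝ) ≤ δ * ((((k:ℤ) * m : ℤ) : ℝ) + m) := by
      apply mul_le_mul_of_nonneg_left _ hδ.le
      have : κ'.1.2 ≤ (k:ℤ) * m + m := by omega
      exact_mod_cast this
    have u1 := abs_le.mp hk2
    have u2 := abs_le.mp hz2
    rw [abs_le]
    constructor
    · linarith
    · linarith

/-- Union bound over finitely many events of the same probability. -/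
theorem un {Ω : Type} [MeasurableSpace Ω] {μ : Measure Ω} {S : Finset Edg} {p : Edg → ℝ}
    {X : Ω → Finset Edg} (hp : ∀ e, 0 ≤ p e ∧ p e ≤ 1) (hX : IsBer μ S p X) {ι : Type}
    (B : Finset ι) (E : ι → Finset Edg → Prop) {u v : ℝ} (hu : 0 ≤ u)
    (h : ∀ k ∈ B, Pr p S (E k) ≤ u) (huv : B.card * u ≤ v) :
    μ {ω | ∃ k ∈ B, E k (X ω)} ≤ ENNReal.ofReal v := by
  rw [(ibp Ω μ S _ _ hp hX (fun F => ∃ k ∈ B, E k F)).2]
  apply ENNReal.ofReal_le_ofReal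
  refine le_trans ?_ huv
  have := FwL.pr_bad hp S B (fun _ => True) (fun _ => False) E (fun _ _ => True) hu (le_refl 0)
    (fun k hk _ => h k hk) (fun k _ hk => hk.elim)
  rw [add_zero] at this
  refine le_trans (le_of_eq ?_) this
  apply Pr_congr
  intro F _
  simp

end AsmL

open AsmL in
theorem anyK (hsel : S_SEL) (hup : S_UP) (R : Rect) (ε : ℝ) (hε : 0 < ε) :
    ∃ c C δ0 : ℝ, 0 < c ∧ 0 < C ∧ 0 < δ0 ∧
    ∀ (δ : ℝ), 0 < δ → δ < δ0 → ∀ t : ℝ, 0 ≤ t → t ≤ 1 →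
    ∀ (Ω : Type) [MeasurableSpace Ω] (μ : Measure Ω) (F G : Ω → Finset Edg),
      IsBer μ (R.edges δ) (fun _ => 1/2) F → IsBer μ (R.edges δ) (fun _ => t) G →
      (∀ T U : Finset Edg, T ⊆ R.edges δ → U ⊆ R.edges δ →
        μ {ω | F ω = T ∧ G ω = U} = μ {ω | F ω = T} * μ {ω | G ω = U}) →
      μ {ω | ¬ ∀ K : Set ℂ, Target R K → ∃ F' : Finset Edg, Agr (R.edges δ) (F ω) (G ω) F' ∧
          Metric.hausdorffDist (R.path δ F') K ≤ ε} ≤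
        ENNReal.ofReal (C * Real.exp (-(c * (t * δ ^ (-(3/4 : ℝ))) ^ (4/3 : ℝ)))) := by
  have hH := R.hH
  obtain ⟨κ, hκ⟩ : ∃ κ : ℝ, κ = min (ε / 24) (R.H / 2) := ⟨_, rfl⟩
  have hκ0 : 0 < κ := by rw [hκ]; exact lt_min (by positivity) (by positivity)
  have hκ1 : 24 * κ ≤ ε := by
    have : κ ≤ ε / 24 := by rw [hκ]; exact min_le_left _ _
    linarith
  have hκH : κ ≤ R.H / 2 := by rw [hκ]; exact min_le_right _ _
  obtain ⟨d1, hd1, hd11, n, hM⟩ := FwL.msh sml R hκ0 hκH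
  obtain ⟨N, d3, r, hN, hd3, hr, H3⟩ := hsel R κ hκ0
  obtain ⟨c4, C4, d4, hc4, hC4, hd4, H4⟩ := SelL.cross R hr
  obtain ⟨c5, C5, hc5, hC5, H5⟩ := BoxL.four_bound wuF (r := 2 * κ) (by positivity)
  have hhalf : (0:ℝ) < (1/2:ℝ)^(4/3:ℝ) := Real.rpow_pos_of_pos (by norm_num) _
  refine ⟨min c4 c5 * (1/2:ℝ)^(4/3:ℝ), 2 * ((N:ℝ)^2 * C4) + 2 * ((2 * (n:ℝ) + 3)^2 * C5),
    min d1 (min d3 d4), by positivity, by positivity, lt_min hd1 (lt_min hd3 hd4), ?_⟩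
  intro δ hδ hlt t h0 h1 Ω _ μ F G hF hG hind
  have l1 : δ < d1 := lt_of_lt_of_le hlt (min_le_left _ _)
  have l3 : δ < d3 := lt_of_lt_of_le hlt ((min_le_right _ _).trans (min_le_left _ _))
  have l4 : δ < d4 := lt_of_lt_of_le hlt ((min_le_right _ _).trans (min_le_right _ _))
  set Y : ℝ := Real.exp (-(min c4 c5 * (1/2:ℝ)^(4/3:ℝ) *
    (t * δ ^ (-(3/4 : ℝ))) ^ (4/3 : ℝ))) with hY
  have k4 : min c4 c5 * (1/2:ℝ)^(4/3:ℝ) ≤ c4 * (1/2:ℝ)^(4/3:ℝ) :=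
    mul_le_mul_of_nonneg_right (min_le_left _ _) hhalf.le
  have k5 : min c4 c5 * (1/2:ℝ)^(4/3:ℝ) ≤ c5 * (1/2:ℝ)^(4/3:ℝ) :=
    mul_le_mul_of_nonneg_right (min_le_right _ _) hhalf.le
  obtain ⟨e1, e2⟩ := era (R.edges δ) t h0 h1 Ω μ F G hF hG hind
  have okp : ∀ e : Edg, 0 ≤ (fun _ : Edg => 1/2 + t/2) e ∧ (fun _ : Edg => 1/2 + t/2) e ≤ 1 :=
    fun _ => ⟨by simp only; linarith, by simp only; linarith⟩
  have okm : ∀ e : Edg, 0 ≤ (fun _ : Edg => 1/2 - t/2) e ∧ (fun _ : Edg => 1/2 - t/2) e ≤ 1 :=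
    fun _ => ⟨by simp only; linarith, by simp only; linarith⟩
  have s1 : 1/2 + t/2 - 1/2 = t/2 := by ring
  have s2 : 1/2 - (1/2 - t/2) = t/2 := by ring
  obtain ⟨L, mM, MM⟩ := hM δ hδ l1
  obtain ⟨m, hm, hrm, hδm, hNm, H⟩ := H3 δ hδ l3
  have hstrip : ∀ k ∈ Finset.range (N^2), 0 ≤ (k:ℤ) * m ∧ (k:ℤ) * m ≤ (k:ℤ) * m + m - 1 ∧
      (k:ℤ) * m + m - 1 ≤ R.y1 δ - 1 ∧ r ≤ δ * ((((k:ℤ) * m + m - 1 : ℤ) : ℝ) -
        (((k:ℤ) * m : ℤ) : ℝ) + 1) := by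
    intro k hk
    rw [Finset.mem_range] at hk
    have hk1 : (k:ℤ) + 1 ≤ (N:ℤ)^2 := by exact_mod_cast hk
    have hk2 : ((k:ℤ) + 1) * m ≤ (N:ℤ)^2 * m := mul_le_mul_of_nonneg_right hk1 hm.le
    refine ⟨by positivity, by omega, by linarith, ?_⟩
    have e : ((((k:ℤ) * m + m - 1 : ℤ) : ℝ) - (((k:ℤ) * m : ℤ) : ℝ) + 1) = m := by
      push_cast
      ring
    rw [e]
    exact hrm
  have hexp : 0 ≤ C4 * Real.exp (-(c4 * ((t/2)^(4/3:ℝ)/δ))) := by positivity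
  have hexp5 : 0 ≤ C5 * Real.exp (-(c5 * ((t/2)^(4/3:ℝ)/δ))) := by positivity
  have hN4 : ((Finset.range (N^2)).card : ℝ) * (C4 * Real.exp (-(c4 * ((t/2)^(4/3:ℝ)/δ)))) ≤
      (N:ℝ)^2 * C4 * Y := by
    rw [Finset.card_range]
    push_cast
    have h5 := mul_le_mul_of_nonneg_left (SelL.expb hδ h0 hC4.le k4)
      (by positivity : (0:ℝ) ≤ (N:ℝ)^2)
    refine h5.trans (le_of_eq ?_)
    rw [hY]
    ring
  have hN5 : ((FwL.Ix (n:ℤ)).card : ℝ) * (C5 * Real.exp (-(c5 * ((t/2)^(4/3:ℝ)/δ)))) ≤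
      (2 * (n:ℝ) + 3)^2 * C5 * Y := by
    rw [FwL.Ix_card n]
    have h5 := mul_le_mul_of_nonneg_left (SelL.expb hδ h0 hC5.le k5)
      (by positivity : (0:ℝ) ≤ (2 * (n:ℝ) + 3)^2)
    refine h5.trans (le_of_eq ?_)
    rw [hY]
    ring
  have f3 := un okp e2 (Finset.range (N^2))
    (fun k F => ¬ LRc (R.x0 δ) (R.x1 δ) ((k:ℤ) * m) ((k:ℤ) * m + m - 1) F) hexp (by
      intro k hk
      obtain ⟨a1, a2, a3, a4⟩ := hstrip k hk
      have := (H4 δ hδ l4 _ _ a1 a2 a3 a4).1 (1/2 + t/2) (by linarith) (by linarith)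
      rw [s1] at this
      exact this) hN4
  have f4 := un okm e1 (Finset.range (N^2))
    (fun k F => ¬ LRc (R.x0 δ) (R.x1 δ) ((k:ℤ) * m) ((k:ℤ) * m + m - 1)
      (dmp (R.edges δ \ F))) hexp (by
      intro k hk
      obtain ⟨a1, a2, a3, a4⟩ := hstrip k hk
      have := (H4 δ hδ l4 _ _ a1 a2 a3 a4).2 (1/2 - t/2) (by linarith) (by linarith)
      rw [s2] at this
      exact this) hN4
  have hL := MM.L0
  have hL1 := MM.L1
  have hk5 := MM.k5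
  have hbox : ∀ i j : ℤ, i * L - 1 ≤ (i + 1) * L + 1 ∧ j * L - 1 ≤ (j + 1) * L + 1 ∧
      δ * ((((i + 1) * L + 1 : ℤ) : ℝ) - ((i * L - 1 : ℤ) : ℝ)) ≤ 2 * κ ∧
      δ * ((((j + 1) * L + 1 : ℤ) : ℝ) - ((j * L - 1 : ℤ) : ℝ)) ≤ 2 * κ := by
    intro i j
    refine ⟨by nlinarith, by nlinarith, ?_, ?_⟩
    · push_cast
      nlinarith
    · push_cast
      nlinarith
  have f5 := un okp e2 (FwL.Ix (n:ℤ))
    (fun k F => BoxL.Four (k.1 * L - 1) ((k.1 + 1) * L + 1) (k.2 * L - 1) ((k.2 + 1) * L + 1)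
      ⌈2 * κ / δ⌉ (dmp (R.edges δ \ F))) hexp5 (by
      intro k _
      obtain ⟨a1, a2, a3, a4⟩ := hbox k.1 k.2
      have := H5 δ hδ _ _ _ _ a1 a2 a3 a4 (1/2 - t/2) (by linarith) (by linarith)
        (dmp (R.edges δ))
      rw [s2, pr_dmp] at this
      have e3 := Pr_compl (fun _ : Edg => 1/2 + t/2) (R.edges δ) (fun F => BoxL.Four
        (k.1 * L - 1) ((k.1 + 1) * L + 1) (k.2 * L - 1) ((k.2 + 1) * L + 1)
        ⌈2 * κ / δ⌉ (dmp F))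
      have e4 : (fun _ : Edg => 1 - (1/2 + t/2)) = (fun _ : Edg => 1/2 - t/2) := by
        funext _
        ring
      rw [e4] at e3
      rw [e3] at this
      exact this) hN5
  have f6 := un okm e1 (FwL.Ix (n:ℤ))
    (fun k F => BoxL.Four (k.1 * L - 1) ((k.1 + 1) * L + 1) (k.2 * L - 1) ((k.2 + 1) * L + 1)
      ⌈2 * κ / δ⌉ F) hexp5 (by
      intro k _
      obtain ⟨a1, a2, a3, a4⟩ := hbox k.1 k.2
      have := H5 δ hδ _ _ _ _ a1 a2 a3 a4 (1/2 - t/2) (by linarith) (by linarith)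
        (R.edges δ)
      rw [s2] at this
      exact this) hN5
  have hY0 : 0 ≤ Y := (Real.exp_pos _).le
  have hsum : ENNReal.ofReal ((2 * ((N:ℝ)^2 * C4) + 2 * ((2 * (n:ℝ) + 3)^2 * C5)) * Y) =
      ENNReal.ofReal ((N:ℝ)^2 * C4 * Y) + ENNReal.ofReal ((N:ℝ)^2 * C4 * Y) +
        ENNReal.ofReal ((2 * (n:ℝ) + 3)^2 * C5 * Y) +
        ENNReal.ofReal ((2 * (n:ℝ) + 3)^2 * C5 * Y) := by
    rw [← ENNReal.ofReal_add (by positivity) (by positivity),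
      ← ENNReal.ofReal_add (by positivity) (by positivity),
      ← ENNReal.ofReal_add (by positivity) (by positivity)]
    congr 1
    ring
  rw [hsum]
  refine le_trans ?_ (add_le_add (add_le_add (add_le_add f3 f4) f5) f6)
  refine le_trans (measure_mono ?_) ((measure_union_le _ _).trans (add_le_add
    ((measure_union_le _ _).trans (add_le_add (measure_union_le _ _) (le_refl _))) (le_refl _)))
  intro ω hω
  by_contra hcon
  apply hω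
  rw [Set.mem_union, Set.mem_union, Set.mem_union, not_or, not_or, not_or] at hcon
  obtain ⟨⟨⟨g3, g4⟩, g5⟩, g6⟩ := hcon
  simp only [Set.mem_ofPred_eq, not_exists, not_and, not_not] at g3 g4 g5 g6
  have hFS := hF.1 ω
  have hGS := hG.1 ω
  intro K hK
  obtain ⟨s, hs1, hs2, hs3, hs4⟩ := H K hK
  refine ⟨SelL.sel (R.edges δ) (F ω ∪ G ω) (F ω \ G ω) s, ⟨SelL.sel_sub, ?_⟩, ?_⟩
  · intro e heS he
    rw [SelL.mem_sel]
    simp only [heS, Finset.mem_union, Finset.mem_sdiff, he, or_false, not_false_eq_true,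
      and_true, true_and]
    tauto
  · apply Metric.hausdorffDist_le_of_mem_dist hε.le
    · intro z hz
      obtain ⟨q, hq, hq1, hq2⟩ := hup R δ κ L n mM MM K hK s hs1 hs3 (F ω ∪ G ω) (F ω \ G ω)
        (Finset.union_subset hFS hGS) (Finset.sdiff_subset.trans hFS)
        (fun i j hi hj => ⟨g5 (i, j) (FwL.mem_Ix hi hj), g6 (i, j) (FwL.mem_Ix hi hj)⟩) z hz
      exact ⟨q, hq, (HauL.dist_le_abs _ _).trans (by linarith)⟩
    · intro p hp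
      obtain ⟨z, hz, hz1, hz2⟩ := low hδ hk5 MM.sm hm hδm hNm hs1 hs2 hs4
        (Finset.union_subset hFS hGS) (fun k hk => ⟨g3 k hk, g4 k hk⟩) p hp
      exact ⟨z, hz, (HauL.dist_le_abs _ _).trans (by linarith)⟩

end NI38
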