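import Pool.Agent.Helper38K9.NI.Stm

/-! Crossing probabilities of horizontal bands. -/

namespace NI38

open H974 H973 H934E Finset MeasureTheory TopologicalSpace Filter Topology

namespace BandL

theorem band_bound (hS : S_SML) (hW : S_WU) (R : Rect) {r : ℝ} (hr : 0 < r) :
    ∃ c C δ0 : ℝ, 0 < c ∧ 0 < C ∧ 0 < δ0 ∧ δ0 ≤ 1 ∧ ∀ δ : ℝ, 0 < δ → δ < δ0 →
      (Sm R δ ∧ δ * (R.y1 δ + 1) < R.H) ∧
      ∀ k : ℤ, r ≤ δ * k → δ * k ≤ R.H → ∀ p : ℝ, 0 ≤ p → p ≤ 1/2 →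
        hh p k (R.x1 δ - R.x0 δ - 1) ≤ C * Real.exp (-(c * ((1/2 - p) ^ (4/3 : ℝ) / δ))) := by
  obtain ⟨δ1, h1, h2, h3⟩ := hS R
  have hAB : 0 < R.A + R.B := add_pos R.hA R.hB
  obtain ⟨K, hK⟩ := exists_nat_ge (2 * R.H / (R.A + R.B) + (R.A + R.B) / r)
  have hK1 : 2 * R.H / (R.A + R.B) ≤ K := by
    have : 0 < (R.A + R.B) / r := by positivity
    linarith
  have hK2 : (R.A + R.B) / r ≤ K := by
    have : 0 < 2 * R.H / (R.A + R.B) := by have := R.hH; positivity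
    linarith
  have hK3 : 1 ≤ K := by
    have h4 : (0:ℝ) < K := lt_of_lt_of_le (by have := R.hH; positivity) hK1
    have h5 : 0 < K := by exact_mod_cast h4
    exact h5
  obtain ⟨c, C, hc, hC, hB⟩ := hW K hK3
  refine ⟨c * r, C, min δ1 ((R.A + R.B) / 6), by positivity, hC, lt_min h1 (by positivity),
    (min_le_left _ _).trans h2, ?_⟩
  intro δ hδ hδ0
  have hδ1 : δ < δ1 := lt_of_lt_of_le hδ0 (min_le_left _ _)
  have hδ2 : δ < (R.A + R.B) / 6 := lt_of_lt_of_le hδ0 (min_le_right _ _)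
  obtain ⟨hsm, ⟨ha1, ha2⟩, ⟨hb1, hb2⟩, ⟨hc1, hc2⟩, _⟩ := h3 δ hδ hδ1
  refine ⟨⟨hsm, by linarith⟩, ?_⟩
  intro k hk1 hk2 p hp0 hp1
  have hkpos : 0 < k := by
    have h5 : 0 < δ * (k : ℝ) := lt_of_lt_of_le hr hk1
    have h6 : (0:ℝ) < k := by
      by_contra hcon
      push Not at hcon
      have := mul_nonpos_of_nonneg_of_nonpos hδ.le hcon
      linarith
    exact_mod_cast h6
  obtain ⟨n, hn⟩ := Int.eq_ofNat_of_zero_le hkpos.le
  have hx0 := hsm.x0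
  have hx1 := hsm.x1
  obtain ⟨l, hl⟩ := Int.eq_ofNat_of_zero_le (show 0 ≤ R.x1 δ - R.x0 δ - 1 by omega)
  have hnr : (n : ℝ) = (k : ℝ) := by rw [hn]; simp
  have hlr : (l : ℝ) = (R.x1 δ : ℝ) - R.x0 δ - 1 := by
    have : ((l : ℤ) : ℝ) = ((R.x1 δ - R.x0 δ - 1 : ℤ) : ℝ) := by rw [hl]
    push_cast at this
    exact this
  have hl1 : δ * (l : ℝ) ≤ R.A + R.B := by
    rw [hlr]
    nlinarith
  have hl2 : (R.A + R.B) / 2 ≤ δ * (l : ℝ) := by
    rw [hlr]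
    nlinarith
  have hnl : n ≤ K * l := by
    have h7 : δ * (n : ℝ) ≤ δ * (K * l) := by
      calc δ * (n : ℝ) ≤ R.H := by rw [hnr]; exact hk2
        _ = (2 * R.H / (R.A + R.B)) * ((R.A + R.B) / 2) := by field_simp
        _ ≤ K * ((R.A + R.B) / 2) := mul_le_mul_of_nonneg_right hK1 (by positivity)
        _ ≤ K * (δ * l) := mul_le_mul_of_nonneg_left hl2 (Nat.cast_nonneg _)
        _ = δ * (K * l) := by ring
    have h8 : (n : ℝ) ≤ K * l := le_of_mul_le_mul_left h7 hδ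
    exact_mod_cast h8
  have hln : l ≤ K * n := by
    have h7 : δ * (l : ℝ) ≤ δ * (K * n) := by
      calc δ * (l : ℝ) ≤ R.A + R.B := hl1
        _ = ((R.A + R.B) / r) * r := by field_simp
        _ ≤ K * r := mul_le_mul_of_nonneg_right hK2 hr.le
        _ ≤ K * (δ * n) := mul_le_mul_of_nonneg_left (by rw [hnr]; exact hk1) (Nat.cast_nonneg _)
        _ = δ * (K * n) := by ring
    have h8 : (l : ℝ) ≤ K * n := le_of_mul_le_mul_left h7 hδ
    exact_mod_cast h8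
  have h9 := hB p hp0 hp1 n l (by omega) hnl hln
  rw [← hn, ← hl] at h9
  refine h9.trans ?_
  apply mul_le_mul_of_nonneg_left _ hC.le
  apply Real.exp_le_exp.mpr
  apply neg_le_neg
  have hp : 0 ≤ (1/2 - p) ^ (4/3 : ℝ) := Real.rpow_nonneg (by linarith) _
  have hrk : r / δ ≤ (n : ℝ) := by
    rw [div_le_iff₀ hδ, hnr]
    linarith
  calc c * r * ((1/2 - p) ^ (4/3 : ℝ) / δ) = c * ((r / δ) * (1/2 - p) ^ (4/3 : ℝ)) := by ring
    _ ≤ c * (n * (1/2 - p) ^ (4/3 : ℝ)) := by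
      apply mul_le_mul_of_nonneg_left _ hc.le
      exact mul_le_mul_of_nonneg_right hrk hp

end BandL

end NI38
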