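import Pool.Agent.Helper38K9.NI.Stm

/-! Crossings of an annulus around a box, and their probabilities below criticality. -/

namespace NI38

open H974 H973 H934E Finset MeasureTheory TopologicalSpace Filter Topology

namespace BoxL

/-- One of the four rectangles around the box is crossed in the short direction. -/
def Four (a b y z m : ℤ) (F : Finset Edg) : Prop :=
  (LRc (a - m) a (y - m) (z + m) F ∨ LRc b (b + m) (y - m) (z + m) F) ∨
    (TBc (a - m) (b + m) (y - m) y F ∨ TBc (a - m) (b + m) z (z + m) F)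

theorem four_of_reach {F : Finset Edg} {a b y z m : ℤ} (hm : 1 ≤ m) {u w : Vtx}
    (hu : inR a b y z u)
    (h : Reach (↑F ∩ ↑(RE (a - m) (b + m) (y - m) (z + m))) u w)
    (hw : w.1 = a - m ∨ w.1 = b + m ∨ w.2 = y - m ∨ w.2 = z + m) : Four a b y z m F := by
  obtain ⟨⟨hu1, hu2⟩, hu3, hu4⟩ := hu
  rcases hw with hw | hw | hw | hw
  · left; left
    obtain ⟨y1, y2, h1, h2, h3, -⟩ := sub_LR (a := a - m) (b := a) (c := y - m) (d := z + m)
      (by omega)
      (by rintro x y ⟨-, h⟩ _ _; simp only [mem_coe, mem_RE_true] at h; omega)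
      (by rintro x y ⟨-, h⟩ _ _; simp only [mem_coe, mem_RE_false] at h; omega)
      h.symm hw.le hu1
    refine ⟨y1, y2, h1, h2, h3.mono ?_⟩
    rintro e ⟨⟨h4, _⟩, h5⟩
    exact ⟨h4, h5⟩
  · left; right
    obtain ⟨y1, y2, h1, h2, h3, -⟩ := sub_LR (a := b) (b := b + m) (c := y - m) (d := z + m)
      (by omega)
      (by rintro x y ⟨-, h⟩ _ _; simp only [mem_coe, mem_RE_true] at h; omega)
      (by rintro x y ⟨-, h⟩ _ _; simp only [mem_coe, mem_RE_false] at h; omega)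
      h hu2 hw.ge
    refine ⟨y1, y2, h1, h2, h3.mono ?_⟩
    rintro e ⟨⟨h4, _⟩, h5⟩
    exact ⟨h4, h5⟩
  · right; left
    obtain ⟨y1, y2, h1, h2, h3, -⟩ := sub_TB (a := a - m) (b := b + m) (c := y - m) (d := y)
      (by omega)
      (by rintro x y ⟨-, h⟩ _ _; simp only [mem_coe, mem_RE_false] at h; omega)
      (by rintro x y ⟨-, h⟩ _ _; simp only [mem_coe, mem_RE_true] at h; omega)
      h.symm hw.le hu3
    refine ⟨y1, y2, h1, h2, h3.mono ?_⟩
    rintro e ⟨⟨h4, _⟩, h5⟩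
    exact ⟨h4, h5⟩
  · right; right
    obtain ⟨y1, y2, h1, h2, h3, -⟩ := sub_TB (a := a - m) (b := b + m) (c := z) (d := z + m)
      (by omega)
      (by rintro x y ⟨-, h⟩ _ _; simp only [mem_coe, mem_RE_false] at h; omega)
      (by rintro x y ⟨-, h⟩ _ _; simp only [mem_coe, mem_RE_true] at h; omega)
      h hu4 hw.ge
    refine ⟨y1, y2, h1, h2, h3.mono ?_⟩
    rintro e ⟨⟨h4, _⟩, h5⟩
    exact ⟨h4, h5⟩

/-- A path from the box to a vertex outside of the enlarged box. -/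
theorem exit_box {G : Set Edg} {a b y z m : ℤ} (hm : 1 ≤ m) {u v : Vtx}
    (hu : inR a b y z u) (h : Reach G u v)
    (hv : ¬ inR (a - m) (b + m) (y - m) (z + m) v) :
    ∃ w, (w.1 = a - m ∨ w.1 = b + m ∨ w.2 = y - m ∨ w.2 = z + m) ∧
      Reach (G ∩ ↑(RE (a - m) (b + m) (y - m) (z + m))) u w := by
  obtain ⟨w, _, h2, h3⟩ := first_exit (a := a - m) (b := b + m) (c := y - m) (d := z + m)
    (u := u) (v := v) (by unfold inR at *; omega) h (by unfold inR at hv; omega)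
  exact ⟨w, h2, h3⟩

theorem pr_four {q : ℝ} (h0 : 0 ≤ q) (h1 : q ≤ 1) (S : Finset Edg) (a b y z m : ℤ) :
    Pr (fun _ => q) S (Four a b y z m) ≤
      2 * hh q m (z - y + 2 * m) + 2 * hh q m (b - a + 2 * m) := by
  have ok := okq h0 h1
  have hL : ∀ a b c d : ℤ, Pr (fun _ => q) S (LRc a b c d) ≤ hh q (b - a) (d - c) := by
    intro a b c d
    rw [← pr_LRc q (Finset.subset_union_right (s₁ := S) (s₂ := LRE a b c d))]
    exact Pr_mono_set ok Finset.subset_union_left (LRc_incr _ _ _ _ _)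
  have hT : ∀ a b c d : ℤ, Pr (fun _ => q) S (TBc a b c d) ≤ hh q (d - c) (b - a) := by
    intro a b c d
    rw [← pr_TBc q (Finset.subset_union_right (s₁ := S) (s₂ := TBE a b c d))]
    exact Pr_mono_set ok Finset.subset_union_left (TBc_incr _ _ _ _ _)
  have e1 := hL (a - m) a (y - m) (z + m)
  have e2 := hL b (b + m) (y - m) (z + m)
  have e3 := hT (a - m) (b + m) (y - m) y
  have e4 := hT (a - m) (b + m) z (z + m)
  rw [show a - (a - m) = m by ring, show z + m - (y - m) = z - y + 2 * m by ring] at e1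
  rw [show b + m - b = m by ring, show z + m - (y - m) = z - y + 2 * m by ring] at e2
  rw [show y - (y - m) = m by ring, show b + m - (a - m) = b - a + 2 * m by ring] at e3
  rw [show z + m - z = m by ring, show b + m - (a - m) = b - a + 2 * m by ring] at e4
  have f1 := Pr_or_le ok S
    (fun F => LRc (a - m) a (y - m) (z + m) F ∨ LRc b (b + m) (y - m) (z + m) F)
    (fun F => TBc (a - m) (b + m) (y - m) y F ∨ TBc (a - m) (b + m) z (z + m) F)
  have f2 := Pr_or_le ok S (LRc (a - m) a (y - m) (z + m)) (LRc b (b + m) (y - m) (z + m))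
  have f3 := Pr_or_le ok S (TBc (a - m) (b + m) (y - m) y) (TBc (a - m) (b + m) z (z + m))
  have f4 : Pr (fun _ => q) S (Four a b y z m) = Pr (fun _ => q) S
    (fun F => (LRc (a - m) a (y - m) (z + m) F ∨ LRc b (b + m) (y - m) (z + m) F) ∨
      (TBc (a - m) (b + m) (y - m) y F ∨ TBc (a - m) (b + m) z (z + m) F)) := rfl
  linarith

/-- The probability of a crossing around a box of side at most `r`, at distance `r`. -/
theorem four_bound (hW : S_WU) {r : ℝ} (hr : 0 < r) : ∃ c C : ℝ, 0 < c ∧ 0 < C ∧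
    ∀ δ : ℝ, 0 < δ → ∀ a b y z : ℤ, a ≤ b → y ≤ z → δ * (b - a) ≤ r → δ * (z - y) ≤ r →
      ∀ q : ℝ, 0 ≤ q → q ≤ 1/2 → ∀ S : Finset Edg,
      Pr (fun _ => q) S (Four a b y z ⌈r / δ⌉) ≤
        C * Real.exp (-(c * ((1/2 - q) ^ (4/3 : ℝ) / δ))) := by
  obtain ⟨c, C, hc, hC, hB⟩ := hW 3 (by norm_num)
  refine ⟨c * r, 4 * C, by positivity, by positivity, ?_⟩
  intro δ hδ a b y z hab hyz h1 h2 q hq0 hq1 S
  have hm0 : 0 < ⌈r / δ⌉ := Int.ceil_pos.mpr (div_pos hr hδ)
  have hmr : r / δ ≤ (⌈r / δ⌉ : ℝ) := Int.le_ceil _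
  set m := ⌈r / δ⌉ with hm
  obtain ⟨n, hn⟩ := Int.eq_ofNat_of_zero_le hm0.le
  have hn1 : 1 ≤ n := by omega
  have key : ∀ s : ℤ, 0 ≤ s → δ * s ≤ r →
      hh q m (s + 2 * m) ≤ C * Real.exp (-(c * r * ((1/2 - q) ^ (4/3 : ℝ) / δ))) := by
    intro s hs0 hs
    have hsm : s ≤ m := by
      have h3 : (s : ℝ) ≤ r / δ := by rw [le_div_iff₀ hδ]; linarith
      have h4 : (s : ℝ) ≤ (m : ℝ) := h3.trans hmr
      exact_mod_cast h4
    obtain ⟨k, hk⟩ := Int.eq_ofNat_of_zero_le hs0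
    have h5 := hB q hq0 hq1 n (k + 2 * n) hn1 (by omega) (by omega)
    have e1 : ((n : ℕ) : ℤ) = m := hn.symm
    have e2 : (((k + 2 * n : ℕ)) : ℤ) = s + 2 * m := by push_cast; rw [e1, hk]
    rw [e1, e2] at h5
    refine h5.trans ?_
    apply mul_le_mul_of_nonneg_left _ hC.le
    apply Real.exp_le_exp.mpr
    apply neg_le_neg
    have hp : 0 ≤ (1/2 - q) ^ (4/3 : ℝ) := Real.rpow_nonneg (by linarith) _
    have e3 : ((n : ℕ) : ℝ) = (m : ℝ) := by exact_mod_cast e1
    rw [e3]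
    calc c * r * ((1/2 - q) ^ (4/3 : ℝ) / δ) = c * ((r / δ) * (1/2 - q) ^ (4/3 : ℝ)) := by ring
      _ ≤ c * (m * (1/2 - q) ^ (4/3 : ℝ)) := by
        apply mul_le_mul_of_nonneg_left _ hc.le
        exact mul_le_mul_of_nonneg_right hmr hp
  have h3 := pr_four hq0 (by linarith) S a b y z m
  have k1 := key (z - y) (by omega) (by push_cast; exact h2)
  have k2 := key (b - a) (by omega) (by push_cast; exact h1)
  linarith

end BoxL

end NI38
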