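import Pool.Agent.Helper38K9.NI.Band

/-! Leaf [CA]: above the window the wired cluster meets every box of the domain. -/

namespace NI38

open H974 H973 H934E Finset MeasureTheory TopologicalSpace Filter Topology

namespace CaL

theorem bottom {R : Rect} {δ : ℝ} (G : Set Edg) (n : ℕ) (h : R.x0 δ ≤ -(n : ℤ)) :
    Reach (G ∪ R.wired δ) (0, 0) (-(n : ℤ), 0) := by
  induction n with
  | zero => simpa using Reach.refl _ _
  | succ n ih =>
    have h1 := ih (by push_cast at h; omega)
    refine h1.trans (Adj.reach ⟨(-(n : ℤ) - 1, 0, true), ?_, Or.inr ⟨?_, ?_⟩⟩)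
    · right
      unfold Rect.wired
      right; right
      refine ⟨rfl, rfl, ?_, ?_⟩
      · push_cast at h; simp only; omega
      · simp only; omega
    · simp only [src_mk, Prod.mk.injEq, and_true]; push_cast; ring
    · simp only [tgt_true, Prod.mk.injEq, and_true]; ring

theorem side {R : Rect} {δ : ℝ} (G : Set Edg) (h0 : R.x0 δ ≤ 0) (n : ℕ) (h : (n : ℤ) ≤ R.y1 δ) :
    Reach (G ∪ R.wired δ) (0, 0) (R.x0 δ, (n : ℤ)) := by
  induction n with
  | zero =>
    obtain ⟨k, hk⟩ := Int.eq_ofNat_of_zero_le (show 0 ≤ -R.x0 δ by omega)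
    have := bottom (R := R) (δ := δ) G k (by omega)
    rw [← hk, neg_neg] at this
    simpa using this
  | succ n ih =>
    have h1 := ih (by push_cast at h; omega)
    refine h1.trans (Adj.reach ⟨(R.x0 δ, (n : ℤ), false), ?_, Or.inl ⟨rfl, ?_⟩⟩)
    · right
      unfold Rect.wired
      right; left
      refine ⟨rfl, rfl, ?_, ?_⟩
      · simp only; omega
      · push_cast at h; simp only; omega
    · simp only [tgt_false, Prod.mk.injEq, true_and]; push_cast; ring

end CaL

theorem ca : S_SML → S_WU → S_CA := by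
  intro hS hW R r hr
  obtain ⟨c, C, δ0, hc, hC, h1, h2, h3⟩ := BandL.band_bound hS hW R hr
  refine ⟨c, C, δ0, hc, hC, h1, h2, ?_⟩
  intro δ hδ hδ0 a b y z hxa hab hbx hy hz hrz q hq0 hq1
  obtain ⟨⟨hsm, hH⟩, h4⟩ := h3 δ hδ hδ0
  have hyz : 0 < z - y := by
    have h5 : 0 < δ * ((z : ℝ) - y) := lt_of_lt_of_le hr hrz
    have h6 : (0:ℝ) < (z : ℝ) - y := by
      by_contra hcon
      push Not at hcon
      have := mul_nonpos_of_nonneg_of_nonpos hδ.le hcon
      linarith
    have h7 : (0:ℝ) < ((z - y : ℤ) : ℝ) := by push_cast; exact h6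
    exact_mod_cast h7
  have hx0 := hsm.x0
  have hx1 := hsm.x1
  have hsub : LRE (R.x0 δ) (R.x1 δ) y z ⊆ R.edges δ := by
    intro e he
    unfold Rect.edges
    rw [mem_ES]
    obtain ⟨u, v, _ | _⟩ := e
    · rw [mem_LRE_false] at he
      simp only [src_mk, tgt_false, R.mem_verts']
      omega
    · rw [mem_LRE_true] at he
      simp only [src_mk, tgt_true, R.mem_verts']
      omega
  have h5 := h4 (z - y + 1) (by push_cast; nlinarith) (by
    have h6 : ((z - y + 1 : ℤ) : ℝ) ≤ (R.y1 δ : ℝ) + 1 := by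
      have : z - y + 1 ≤ R.y1 δ + 1 := by omega
      exact_mod_cast this
    have := mul_le_mul_of_nonneg_left h6 hδ.le
    linarith) (1 - q) (by linarith) (by linarith)
  rw [show (1/2 : ℝ) - (1 - q) = q - 1/2 by ring] at h5
  have h6 := hh_dual (q := q) (w := R.x1 δ - R.x0 δ) (h := z - y) (by omega) hyz.le
  have h7 : Pr (fun _ => q) (R.edges δ) (fun F => ¬ LRc (R.x0 δ) (R.x1 δ) y z F) =
      hh (1 - q) (z - y + 1) (R.x1 δ - R.x0 δ - 1) := by
    rw [Pr_not, pr_LRc q hsub, h6]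
    ring
  rw [← h7] at h5
  refine le_trans ?_ h5
  apply Pr_mono (okq (by linarith) hq1)
  intro F _ hF hcon
  apply hF
  obtain ⟨u, u', h8, h9, h10⟩ := hcon
  have hleft : ∀ j : ℤ, y ≤ j → j ≤ z → Reach (↑F ∪ R.wired δ) (0, 0) (R.x0 δ, j) := by
    intro j hj1 hj2
    obtain ⟨k, hk⟩ := Int.eq_ofNat_of_zero_le (show 0 ≤ j by omega)
    rw [hk]
    exact CaL.side _ (by omega) k (by omega)
  rcases eq_or_lt_of_le hxa with h11 | h11
  · refine ⟨(R.x0 δ, u), hleft u h8.1 h8.2, ?_⟩
    unfold inR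
    simp only
    omega
  · obtain ⟨y1, y2, k1, k2, k3, -⟩ := sub_LR (a := R.x0 δ) (b := a) (c := y) (d := z) h11
      (by rintro x y ⟨-, h⟩ _ _; simp only [mem_coe, mem_LRE_true] at h; omega)
      (by rintro x y ⟨-, h⟩ _ _; simp only [mem_coe, mem_LRE_false] at h; omega)
      h10 (le_refl _) (by simp only; omega)
    refine ⟨(a, y2), (hleft y1 k1.1 k1.2).trans (k3.mono ?_), ?_⟩
    · rintro e ⟨⟨h12, _⟩, _⟩
      exact Or.inl h12
    · unfold inR
      simp only
      omega

end NI38
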