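import Pool.Agent.Helper38K9.NI.Box

/-! Leaf [CB]: above the window the dual cluster of the free arc does not meet a box away from
the free arc. -/

namespace NI38

open H974 H973 H934E Finset MeasureTheory TopologicalSpace Filter Topology

theorem cb : S_SML → S_WU → S_CB := by
  intro _ hW R r hr
  obtain ⟨c, C, hc, hC, hB⟩ := BoxL.four_bound hW hr
  refine ⟨c, C, 1, hc, hC, one_pos, le_refl _, ?_⟩
  intro δ hδ _ a b y z m hab hyz h1 h2 hm hout q hq0 hq1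
  have hb := hB δ hδ a b y z hab hyz h1 h2 (1 - q) (by linarith) (by linarith)
    (dmp (R.edges δ))
  rw [show (1/2 : ℝ) - (1 - q) = q - 1/2 by ring, pr_dmp, Pr_compl (fun _ : Edg => q)] at hb
  refine le_trans ?_ hb
  apply Pr_mono (okq (by linarith) hq1)
  intro F _ hF
  have hm0 : 0 < ⌈r / δ⌉ := Int.ceil_pos.mpr (div_pos hr hδ)
  have hmm : ⌈r / δ⌉ ≤ m := by
    rw [Int.ceil_le, div_le_iff₀ hδ]
    linarith
  obtain ⟨f, ⟨g, hg, hgf⟩, hfR⟩ := hF
  have hout' : ¬ inR (a - ⌈r / δ⌉) (b + ⌈r / δ⌉) (y - ⌈r / δ⌉) (z + ⌈r / δ⌉) g := by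
    intro h
    apply hout g hg
    unfold inR at *
    omega
  have hr1 : Reach (dl '' (↑(R.edges δ) \ (↑F ∪ R.wired δ))) f g := reach_dl.mpr hgf.symm
  obtain ⟨w, hw1, hw2⟩ := BoxL.exit_box (by omega) hfR hr1 hout'
  refine BoxL.four_of_reach (by omega) hfR (hw2.mono ?_) hw1
  rintro e ⟨h3, h4⟩
  refine ⟨?_, h4⟩
  rw [coe_dmp]
  refine Set.image_mono ?_ h3
  rintro x ⟨h5, h6⟩
  rw [Finset.coe_sdiff]
  exact ⟨h5, fun h7 => h6 (Or.inl h7)⟩

end NI38
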