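import Pool.Agent.Helper38K9.NI.Band

/-! Leaf [CC]: below the window the dual cluster of the free arc meets every box of the domain. -/

namespace NI38

open H974 H973 H934E Finset MeasureTheory TopologicalSpace Filter Topology

theorem cc : S_SML → S_WU → S_CC := by
  intro hS hW R r hr
  obtain ⟨c, C, δ0, hc, hC, h1, h2, h3⟩ := BandL.band_bound hS hW R hr
  refine ⟨c, C, δ0, hc, hC, h1, h2, ?_⟩
  intro δ hδ hδ0 a b y z hxa hab hbx hy hz hrz q hq0 hq1
  obtain ⟨⟨hsm, hH⟩, h4⟩ := h3 δ hδ hδ0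
  have hyz : 0 < z - y := by
    have h5 : 0 < δ * ((z : ℝ) - y) := lt_of_lt_of_le hr hrz
    have h6 : (0:ℝ) < (z : ℝ) - y := by
      by_contra hcon
      push Not at hcon
      have := mul_nonpos_of_nonneg_of_nonpos hδ.le hcon
      linarith
    have h7 : (0:ℝ) < ((z - y : ℤ) : ℝ) := by push_cast; exact h6
    exact_mod_cast h7
  have hx0 := hsm.x0
  have hx1 := hsm.x1
  obtain ⟨z', hz1, hz2, hz3⟩ : ∃ z' : ℤ, z' ≤ z ∧ z - 1 ≤ z' ∧ z' ≤ R.y1 δ - 1 := by
    refine ⟨min z (R.y1 δ - 1), min_le_left _ _, ?_, min_le_right _ _⟩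
    exact le_min (by omega) (by omega)
  have hsub : LRE (R.x0 δ) (R.x1 δ) y z' ⊆ dmp (R.edges δ) := by
    intro e he
    rw [mem_dmp]
    unfold Rect.edges
    rw [mem_ES]
    obtain ⟨u, v, _ | _⟩ := e
    · rw [mem_LRE_false] at he
      simp only [dls_f, src_mk, tgt_true, R.mem_verts']
      omega
    · rw [mem_LRE_true] at he
      simp only [dls_t, src_mk, tgt_false, R.mem_verts']
      omega
  have h5 := h4 (z' - y + 1) (by
    have h6 : ((z - y : ℤ) : ℝ) ≤ ((z' - y + 1 : ℤ) : ℝ) := by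
      have : z - y ≤ z' - y + 1 := by omega
      exact_mod_cast this
    have h7 := mul_le_mul_of_nonneg_left h6 hδ.le
    push_cast at h7 ⊢
    linarith) (by
    have h6 : ((z' - y + 1 : ℤ) : ℝ) ≤ (R.y1 δ : ℝ) + 1 := by
      have : z' - y + 1 ≤ R.y1 δ + 1 := by omega
      exact_mod_cast this
    have := mul_le_mul_of_nonneg_left h6 hδ.le
    linarith) q hq0 hq1
  have h6 := hh_dual (q := 1 - q) (w := R.x1 δ - R.x0 δ) (h := z' - y) (by omega) (by omega)
  have e1 : (1:ℝ) - (1 - q) = q := by ring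
  rw [e1] at h6
  have h7 : Pr (fun _ => 1 - q) (dmp (R.edges δ)) (fun F => ¬ LRc (R.x0 δ) (R.x1 δ) y z' F) =
      hh q (z' - y + 1) (R.x1 δ - R.x0 δ - 1) := by
    rw [Pr_not, pr_LRc (1 - q) hsub, h6]
    ring
  rw [← h7, pr_dmp, Pr_compl (fun _ : Edg => q)] at h5
  refine le_trans ?_ h5
  apply Pr_mono (okq hq0 (by linarith))
  intro F _ hF hcon
  apply hF
  obtain ⟨u, u', h8, h9, h10⟩ := hcon
  have hout : ∀ j : ℤ, y ≤ j → j ≤ z' → ((R.x1 δ, j) : Vtx) ∈ R.outer δ := by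
    intro j hj1 hj2
    exact Or.inr (Or.inl ⟨rfl, by simp only; omega, by simp only; omega⟩)
  have hcl : (↑(dmp (R.edges δ \ F)) : Set Edg) ∩ ↑(LRE (R.x0 δ) (R.x1 δ) y z') ⊆
      dl '' (↑(R.edges δ) \ (↑F ∪ R.wired δ)) := by
    rintro e ⟨he1, he2⟩
    rw [mem_coe, mem_dmp, Finset.mem_sdiff] at he1
    refine ⟨dl.symm e, ⟨he1.1, ?_⟩, by simp⟩
    rintro (h | h)
    · exact he1.2 h
    · obtain ⟨u, v, _ | _⟩ := e
      · rw [mem_coe, mem_LRE_false] at he2
        simp only [dls_f, Rect.wired, Set.mem_ofPred_eq] at h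
        simp at h
        omega
      · rw [mem_coe, mem_LRE_true] at he2
        simp only [dls_t, Rect.wired, Set.mem_ofPred_eq] at h
        simp at h
        omega
  rcases eq_or_lt_of_le (hab.trans hbx) with h11 | h11
  · refine ⟨(R.x1 δ, u'), ⟨(R.x1 δ, u'), hout u' h9.1 h9.2, DReach.refl _ _⟩, ?_⟩
    unfold inR
    simp only
    omega
  · obtain ⟨y1, y2, k1, k2, k3, -⟩ := sub_LR (a := a) (b := R.x1 δ) (c := y) (d := z') h11
      (by rintro x y ⟨-, h⟩ _ _; simp only [mem_coe, mem_LRE_true] at h; omega)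
      (by rintro x y ⟨-, h⟩ _ _; simp only [mem_coe, mem_LRE_false] at h; omega)
      h10 (by simp only; omega) (le_refl _)
    refine ⟨(a, y1), ⟨(R.x1 δ, y2), hout y2 k2.1 k2.2, ?_⟩, ?_⟩
    · rw [← reach_dl]
      exact k3.symm.mono (fun e he => hcl he.1)
    · unfold inR
      simp only
      omega

end NI38
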