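import Pool.Agent.Helper38K9.NI.Box

/-! Leaf [CD]: below the window the wired cluster does not meet a box away from the wired arc. -/

namespace NI38

open H974 H973 H934E Finset MeasureTheory TopologicalSpace Filter Topology

theorem cd : S_SML → S_WU → S_CD := by
  intro _ hW R r hr
  obtain ⟨c, C, hc, hC, hB⟩ := BoxL.four_bound hW hr
  refine ⟨c, C, 1, hc, hC, one_pos, le_refl _, ?_⟩
  intro δ hδ _ a b y z m hab hyz h1 h2 hm hout q hq0 hq1
  refine le_trans ?_ (hB δ hδ a b y z hab hyz h1 h2 q hq0 hq1 (R.edges δ))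
  apply Pr_mono (okq hq0 (by linarith))
  intro F _ hF
  have hm0 : 0 < ⌈r / δ⌉ := Int.ceil_pos.mpr (div_pos hr hδ)
  have hmm : ⌈r / δ⌉ ≤ m := by
    rw [Int.ceil_le, div_le_iff₀ hδ]
    linarith
  obtain ⟨v, hv, hvR⟩ := hF
  have hout' : ∀ v ∈ wv R δ,
      ¬ inR (a - ⌈r / δ⌉) (b + ⌈r / δ⌉) (y - ⌈r / δ⌉) (z + ⌈r / δ⌉) v := by
    intro v hv h
    apply hout v hv
    unfold inR at *
    omega
  have hr1 : Reach (↑F ∪ R.wired δ) v (0, 0) := (show Reach (↑F ∪ R.wired δ) (0, 0) v from hv).symm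
  obtain ⟨w, hw1, hw2⟩ := BoxL.exit_box (by omega) hvR hr1 (hout' (0, 0) (Or.inl rfl))
  refine BoxL.four_of_reach (by omega) hvR (hw2.mono ?_) hw1
  rintro e ⟨h3, h4⟩
  refine ⟨?_, h4⟩
  rcases h3 with h3 | h3
  · exact h3
  · exfalso
    apply hout' (src e) (Or.inr ⟨e, h3, Or.inl rfl⟩)
    obtain ⟨x, y', _ | _⟩ := e
    · simp only [mem_coe, mem_RE_false] at h4
      simp only [src_mk]
      unfold inR
      simp only
      omega
    · simp only [mem_coe, mem_RE_true] at h4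
      simp only [src_mk]
      unfold inR
      simp only
      omega

end NI38
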