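import Pool.Agent.Helper38K9.NI.Hau

/-!
The union bound for a family of boxes, and the quantitative forms of [HAU] and [CPL].
-/

set_option maxHeartbeats 1000000

namespace NI38

open H974 H973 H934E Finset MeasureTheory TopologicalSpace

/-- The wired cluster, as a set of points of the plane. -/
noncomputable def cluS (R : Rect) (δ : ℝ) (F : Finset Edg) : Set ℂ := pt δ '' R.clu δ F

/-- The centre of the face `f`. -/
noncomputable def fpt (δ : ℝ) (f : Vtx) : ℂ := ⟨δ * (f.1 + 1/2), δ * (f.2 + 1 + 1/2)⟩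

/-- The dual cluster of the free arc, as a set of points of the plane (centres of faces). -/
noncomputable def dcluS (R : Rect) (δ : ℝ) (F : Finset Edg) : Set ℂ := fpt δ '' R.dclu δ F

/-- The traces, the wired clusters and the dual clusters are within `ε`. -/
def Close (R : Rect) {δ : ℝ} (hδ : 0 < δ) (ε : ℝ) (F G : Finset Edg) : Prop :=
  dist (R.trace hδ F) (R.trace hδ G) ≤ ε ∧
    Metric.hausdorffDist (cluS R δ F) (cluS R δ G) ≤ ε ∧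
    Metric.hausdorffDist (dcluS R δ F) (dcluS R δ G) ≤ ε

/-- [HAQ] `K / ε²` boxes determine the trace up to `ε`. -/
def S_HAQ : Prop := ∀ R : Rect, ∃ ρ K δ0 : ℝ, 0 < ρ ∧ 0 < K ∧ 0 < δ0 ∧ δ0 ≤ 1 ∧
  ∀ ε : ℝ, 0 < ε → ε ≤ 1 → ∀ δ : ℝ, ∀ hδ : 0 < δ, δ < δ0 → 100 * δ < ε →
    Sm R δ ∧ ∃ B : Finset (ℤ × ℤ × ℤ × ℤ), (B.card : ℝ) ≤ K / ε ^ 2 ∧
    (∀ k ∈ B, (k.1 ≤ k.2.1 ∧ k.2.2.1 ≤ k.2.2.2) ∧
      (|δ * k.1| ≤ ρ ∧ |δ * k.2.1| ≤ ρ ∧ |δ * k.2.2.1| ≤ ρ ∧ |δ * k.2.2.2| ≤ ρ)) ∧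
    ∀ F G : Finset Edg, F ⊆ R.edges δ → G ⊆ R.edges δ →
      (∀ k ∈ B, (HA R δ k.1 k.2.1 k.2.2.1 k.2.2.2 F ↔ HA R δ k.1 k.2.1 k.2.2.1 k.2.2.2 G) ∧
        (HB R δ k.1 k.2.1 k.2.2.1 k.2.2.2 F ↔ HB R δ k.1 k.2.1 k.2.2.1 k.2.2.2 G)) →
      Close R hδ ε F G

/-- [CPQ] Quantitative form of [CPL]. -/
def S_CPQ : Prop := ∀ R : Rect, ∃ C δ0 : ℝ, 0 < C ∧ 0 < δ0 ∧ δ0 ≤ 1 ∧
  ∀ ε : ℝ, 0 < ε → ε ≤ 1 → ∀ δ : ℝ, ∀ hδ : 0 < δ, δ < δ0 → 100 * δ < ε →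
    ∀ x : ℝ, 0 ≤ x → x ≤ 1/2 →
    ∀ (Ω : Type) [MeasurableSpace Ω] (μ : Measure Ω) (Fm Fp : Ω → Finset Edg),
      IsBer μ (R.edges δ) (fun _ => 1/2 - x) Fm → IsBer μ (R.edges δ) (fun _ => 1/2 + x) Fp →
      (∀ ω, Fm ω ⊆ Fp ω) →
      μ {ω | ∃ F G : Finset Edg, (Fm ω ⊆ F ∧ F ⊆ Fp ω) ∧ (Fm ω ⊆ G ∧ G ⊆ Fp ω) ∧
        ¬ Close R hδ ε F G} ≤
        ENNReal.ofReal (C / ε ^ 2 * (x * δ ^ (-(3/4 : ℝ))))

theorem ha_mono {R : Rect} {δ : ℝ} {a b c d : ℤ} {F G : Finset Edg} (h : F ⊆ G)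
    (hF : HA R δ a b c d F) : HA R δ a b c d G := by
  obtain ⟨v, hv, hv1⟩ := hF
  exact ⟨v, W.mono h hv, hv1⟩

theorem hb_anti {R : Rect} {δ : ℝ} {a b c d : ℤ} {F G : Finset Edg} (h : F ⊆ G)
    (hG : HB R δ a b c d G) : HB R δ a b c d F := by
  obtain ⟨v, ⟨g, hg, hr⟩, hv1⟩ := hG
  refine ⟨v, ⟨g, hg, DReach.mono ?_ hr⟩, hv1⟩
  rintro e ⟨h1, h2⟩
  refine ⟨h1, fun h3 => h2 ?_⟩
  rcases h3 with h3 | h3
  · left
    exact Finset.mem_coe.mpr (h (Finset.mem_coe.mp h3))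
  · right; exact h3

/-- The probability that a monotone event separates the two configurations. -/
theorem diff_bound (hibp : S_IBP) {Ω : Type} [MeasurableSpace Ω] {μ : Measure Ω}
    {S : Finset Edg} {c : ℝ} {U V : Ω → Finset Edg} {u v : ℝ}
    (hu0 : 0 ≤ u ∧ u ≤ 1) (hv0 : 0 ≤ v ∧ v ≤ 1)
    (hU : IsBer μ S (fun _ => u) U) (hV : IsBer μ S (fun _ => v) V)
    {A : Finset Edg → Prop} (hUV : ∀ ω, A (U ω) → A (V ω))
    (hu : |Pr (fun _ => u) S A - Pr (fun _ => 1/2) S A| ≤ c)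
    (hv : |Pr (fun _ => v) S A - Pr (fun _ => 1/2) S A| ≤ c) :
    μ {ω | A (V ω) ∧ ¬ A (U ω)} ≤ ENNReal.ofReal (2 * c) := by
  obtain ⟨m1, e1⟩ := hibp Ω μ S (fun _ => u) U (fun _ => hu0) hU A
  obtain ⟨m2, e2⟩ := hibp Ω μ S (fun _ => v) V (fun _ => hv0) hV A
  have hset : {ω | A (V ω) ∧ ¬ A (U ω)} = {ω | A (V ω)} \ {ω | A (U ω)} := rfl
  have hsd : {ω | A (U ω)} ⊆ {ω | A (V ω)} := fun ω hω => hUV ω hω
  rw [hset, measure_sdiff hsd m1.nullMeasurableSet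
    (by rw [e1]; exact ENNReal.ofReal_ne_top), e1, e2,
    ← ENNReal.ofReal_sub _ (Pr_nonneg (fun _ => hu0) _ _)]
  apply ENNReal.ofReal_le_ofReal
  have := abs_le.mp hu
  have := abs_le.mp hv
  linarith

/-- The union bound. -/
theorem cpl_core (hibp : S_IBP) {R : Rect} {δ x c : ℝ} (h0 : 0 ≤ x)
    (h1 : x ≤ 1/2) (hc : 0 ≤ c) {B : Finset (ℤ × ℤ × ℤ × ℤ)}
    {Good : Finset Edg → Finset Edg → Prop}
    (hdet : ∀ F G : Finset Edg, F ⊆ R.edges δ → G ⊆ R.edges δ →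
      (∀ k ∈ B, (HA R δ k.1 k.2.1 k.2.2.1 k.2.2.2 F ↔ HA R δ k.1 k.2.1 k.2.2.1 k.2.2.2 G) ∧
        (HB R δ k.1 k.2.1 k.2.2.1 k.2.2.2 F ↔ HB R δ k.1 k.2.1 k.2.2.1 k.2.2.2 G)) →
      Good F G)
    (hA : ∀ k ∈ B, ∀ q : ℝ, (q = 1/2 - x ∨ q = 1/2 + x) →
      |Pr (fun _ => q) (R.edges δ) (HA R δ k.1 k.2.1 k.2.2.1 k.2.2.2) -
        Pr (fun _ => 1/2) (R.edges δ) (HA R δ k.1 k.2.1 k.2.2.1 k.2.2.2)| ≤ c)
    (hB : ∀ k ∈ B, ∀ q : ℝ, (q = 1/2 - x ∨ q = 1/2 + x) →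
      |Pr (fun _ => q) (R.edges δ) (HB R δ k.1 k.2.1 k.2.2.1 k.2.2.2) -
        Pr (fun _ => 1/2) (R.edges δ) (HB R δ k.1 k.2.1 k.2.2.1 k.2.2.2)| ≤ c)
    {Ω : Type} [MeasurableSpace Ω] {μ : Measure Ω} {Fm Fp : Ω → Finset Edg}
    (hm : IsBer μ (R.edges δ) (fun _ => 1/2 - x) Fm)
    (hp : IsBer μ (R.edges δ) (fun _ => 1/2 + x) Fp) (hmp : ∀ ω, Fm ω ⊆ Fp ω) :
    μ {ω | ∃ F G : Finset Edg, (Fm ω ⊆ F ∧ F ⊆ Fp ω) ∧ (Fm ω ⊆ G ∧ G ⊆ Fp ω) ∧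
        ¬ Good F G} ≤ ENNReal.ofReal (4 * c * B.card) := by
  have hsub : {ω | ∃ F G : Finset Edg, (Fm ω ⊆ F ∧ F ⊆ Fp ω) ∧ (Fm ω ⊆ G ∧ G ⊆ Fp ω) ∧
        ¬ Good F G} ⊆
      ⋃ k ∈ B, ({ω | HA R δ k.1 k.2.1 k.2.2.1 k.2.2.2 (Fp ω) ∧
        ¬ HA R δ k.1 k.2.1 k.2.2.1 k.2.2.2 (Fm ω)} ∪
        {ω | HB R δ k.1 k.2.1 k.2.2.1 k.2.2.2 (Fm ω) ∧
        ¬ HB R δ k.1 k.2.1 k.2.2.1 k.2.2.2 (Fp ω)}) := by
    rintro ω ⟨F, G, ⟨f1, f2⟩, ⟨g1, g2⟩, hd⟩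
    by_contra hno
    rw [Set.mem_iUnion₂] at hno
    push Not at hno
    apply hd
    have hFe : F ⊆ R.edges δ := f2.trans (hp.1 ω)
    have hGe : G ⊆ R.edges δ := g2.trans (hp.1 ω)
    apply hdet F G hFe hGe
    intro k hk
    have hk' := hno k hk
    rw [Set.mem_union, not_or] at hk'
    obtain ⟨k1, k2⟩ := hk'
    simp only [Set.mem_ofPred_eq, not_and, not_not] at k1 k2
    constructor
    · constructor
      · intro h; exact ha_mono g1 (k1 (ha_mono f2 h))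
      · intro h; exact ha_mono f1 (k1 (ha_mono g2 h))
    · constructor
      · intro h; exact hb_anti g2 (k2 (hb_anti f1 h))
      · intro h; exact hb_anti f2 (k2 (hb_anti g1 h))
  have hm0 : (0:ℝ) ≤ 1/2 - x ∧ 1/2 - x ≤ 1 := ⟨by linarith, by linarith⟩
  have hp0 : (0:ℝ) ≤ 1/2 + x ∧ 1/2 + x ≤ 1 := ⟨by linarith, by linarith⟩
  refine (measure_mono hsub).trans ((measure_biUnion_finset_le _ _).trans ?_)
  have hone : ∀ k ∈ B, μ ({ω | HA R δ k.1 k.2.1 k.2.2.1 k.2.2.2 (Fp ω) ∧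
        ¬ HA R δ k.1 k.2.1 k.2.2.1 k.2.2.2 (Fm ω)} ∪
        {ω | HB R δ k.1 k.2.1 k.2.2.1 k.2.2.2 (Fm ω) ∧
        ¬ HB R δ k.1 k.2.1 k.2.2.1 k.2.2.2 (Fp ω)}) ≤ ENNReal.ofReal (4 * c) := by
    intro k hk
    refine (measure_union_le _ _).trans ?_
    have a1 := diff_bound hibp hm0 hp0 hm hp
      (A := HA R δ k.1 k.2.1 k.2.2.1 k.2.2.2) (fun ω h => ha_mono (hmp ω) h)
      (hA k hk _ (Or.inl rfl)) (hA k hk _ (Or.inr rfl))
    have a2 := diff_bound hibp hp0 hm0 hp hm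
      (A := HB R δ k.1 k.2.1 k.2.2.1 k.2.2.2) (fun ω h => hb_anti (hmp ω) h)
      (hB k hk _ (Or.inr rfl)) (hB k hk _ (Or.inl rfl))
    calc _ ≤ ENNReal.ofReal (2 * c) + ENNReal.ofReal (2 * c) := add_le_add a1 a2
      _ = ENNReal.ofReal (4 * c) := by
        rw [← ENNReal.ofReal_add (by positivity) (by positivity)]
        congr 1; ring
  refine (Finset.sum_le_sum hone).trans ?_
  have hr : ENNReal.ofReal (4 * c * B.card) = ENNReal.ofReal (4 * c) * B.card := by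
    rw [ENNReal.ofReal_mul (by positivity), ENNReal.ofReal_natCast]
  rw [Finset.sum_const, nsmul_eq_mul, hr, mul_comm]

/-- Two vertices of one box. -/
theorem near_pt {R : Rect} {δ κ : ℝ} (hδ : 0 < δ) (hκ : 5 * δ ≤ κ) {L : ℤ} (hL : 0 < L)
    (hL2 : δ * L ≤ κ) {n : ℤ} (hn1 : R.x1 δ + 1 < (n + 1) * L) (hn2 : -(n * L) ≤ R.x0 δ)
    (hn3 : R.y1 δ + 1 < (n + 1) * L) (hn0 : 0 ≤ n) {P Q : Vtx → Prop}
    (hPQ : ∀ i j : ℤ, -n ≤ i → i ≤ n → -n ≤ j → j ≤ n →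
      (∃ v, P v ∧ inR (i * L - 1) ((i + 1) * L + 1) (j * L - 1) ((j + 1) * L + 1) v) →
      (∃ v, Q v ∧ inR (i * L - 1) ((i + 1) * L + 1) (j * L - 1) ((j + 1) * L + 1) v))
    {v : Vtx} (hv : (R.x0 δ - 1 ≤ v.1 ∧ v.1 ≤ R.x1 δ) ∧ (-1 ≤ v.2 ∧ v.2 ≤ R.y1 δ)) (hP : P v) :
    ∃ w, Q w ∧ (δ * |(v.1:ℝ) - w.1| ≤ 2 * κ ∧ δ * |(v.2:ℝ) - w.2| ≤ 2 * κ) := by
  obtain ⟨⟨a1, a2⟩, a3, a4⟩ := hv
  obtain ⟨i, hi⟩ : ∃ i, i = (v.1 + 1) / L := ⟨_, rfl⟩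
  obtain ⟨j, hj⟩ : ∃ j, j = (v.2 + 1) / L := ⟨_, rfl⟩
  have i1 : i * L ≤ v.1 + 1 := by rw [hi]; exact Int.ediv_mul_le _ hL.ne'
  have i2 : v.1 + 1 < (i + 1) * L := by rw [hi]; exact Int.lt_ediv_add_one_mul_self _ hL
  have j1 : j * L ≤ v.2 + 1 := by rw [hj]; exact Int.ediv_mul_le _ hL.ne'
  have j2 : v.2 + 1 < (j + 1) * L := by rw [hj]; exact Int.lt_ediv_add_one_mul_self _ hL
  have bi1 : i ≤ n := by
    by_contra hc
    push Not at hc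
    have : (n + 1) * L ≤ i * L := mul_le_mul_of_nonneg_right (by omega) hL.le
    linarith
  have bi2 : -n ≤ i := by
    by_contra hc
    push Not at hc
    have : (i + 1) * L ≤ (-n) * L := mul_le_mul_of_nonneg_right (by omega) hL.le
    linarith
  have bj1 : j ≤ n := by
    by_contra hc
    push Not at hc
    have : (n + 1) * L ≤ j * L := mul_le_mul_of_nonneg_right (by omega) hL.le
    linarith
  have bj2 : -n ≤ j := by
    by_contra hc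
    push Not at hc
    have : (j + 1) * L ≤ (-n) * L := mul_le_mul_of_nonneg_right (by omega) hL.le
    have h3 : 0 ≤ n * L := mul_nonneg hn0 hL.le
    linarith
  obtain ⟨w, hw, ⟨⟨w1, w2⟩, w3, w4⟩⟩ := hPQ i j bi2 bi1 bj2 bj1 ⟨v, hP, by
    unfold inR
    refine ⟨⟨?_, ?_⟩, ?_, ?_⟩ <;> linarith⟩
  refine ⟨w, hw, ?_⟩
  have hLr : (0:ℝ) < L := by exact_mod_cast hL
  have key : ∀ a b : ℤ, a - b ≤ L + 2 → b - a ≤ L + 2 → δ * |(a:ℝ) - b| ≤ 2 * κ := by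
    intro a b h1 h2
    have h1' : (a:ℝ) - b ≤ L + 2 := by exact_mod_cast h1
    have h2' : (b:ℝ) - a ≤ L + 2 := by exact_mod_cast h2
    have h3 : |(a:ℝ) - b| ≤ L + 2 := by
      rw [abs_le]
      constructor <;> linarith
    have h4 := mul_le_mul_of_nonneg_left h3 hδ.le
    nlinarith
  have e1 : (i + 1) * L = i * L + L := by ring
  have e2 : (j + 1) * L = j * L + L := by ring
  exact ⟨key _ _ (by linarith) (by linarith), key _ _ (by linarith) (by linarith)⟩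

theorem dist_pt_le {δ κ : ℝ} (hδ : 0 < δ) {v w : Vtx}
    (h : δ * |(v.1:ℝ) - w.1| ≤ 2 * κ ∧ δ * |(v.2:ℝ) - w.2| ≤ 2 * κ) :
    dist (pt δ v) (pt δ w) ≤ 4 * κ := by
  refine (HauL.dist_le_abs _ _).trans ?_
  have e1 : (pt δ v).re - (pt δ w).re = δ * ((v.1:ℝ) - w.1) := by unfold pt; ring
  have e2 : (pt δ v).im - (pt δ w).im = δ * ((v.2:ℝ) - w.2) := by unfold pt; ring
  rw [e1, e2, abs_mul, abs_mul, abs_of_pos hδ]
  linarith [h.1, h.2]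

theorem dist_fpt_le {δ κ : ℝ} (hδ : 0 < δ) {v w : Vtx}
    (h : δ * |(v.1:ℝ) - w.1| ≤ 2 * κ ∧ δ * |(v.2:ℝ) - w.2| ≤ 2 * κ) :
    dist (fpt δ v) (fpt δ w) ≤ 4 * κ := by
  refine (HauL.dist_le_abs _ _).trans ?_
  have e1 : (fpt δ v).re - (fpt δ w).re = δ * ((v.1:ℝ) - w.1) := by unfold fpt; ring
  have e2 : (fpt δ v).im - (fpt δ w).im = δ * ((v.2:ℝ) - w.2) := by unfold fpt; ring
  rw [e1, e2, abs_mul, abs_mul, abs_of_pos hδ]
  linarith [h.1, h.2]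

open HauL in
theorem haq : S_SML → S_POT → S_HAQ := by
  intro hsml hpot R
  obtain ⟨δ1, hδ1, hδ11, hsm⟩ := hsml R
  have hA := R.hA
  have hB := R.hB
  have hH := R.hH
  obtain ⟨s, hs0⟩ : ∃ s : ℝ, s = R.A + R.B + R.H := ⟨_, rfl⟩
  have hsp : 0 < s := by rw [hs0]; positivity
  refine ⟨2 * s + 2, (80 * s + 5) ^ 2, δ1, by positivity, by positivity, hδ1, hδ11, ?_⟩
  intro ε hε hε1 δ hδ hlt1 hlt
  obtain ⟨κ, hκ⟩ : ∃ κ : ℝ, κ = ε / 20 := ⟨_, rfl⟩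
  have hκ0 : 0 < κ := by rw [hκ]; positivity
  obtain ⟨n, hn⟩ : ∃ n : ℕ, n = ⌈2 * (R.A + R.B + R.H) / κ⌉₊ + 1 := ⟨_, rfl⟩
  have hnr : 2 * (R.A + R.B + R.H) ≤ κ * n := by
    have h1 := Nat.le_ceil (2 * (R.A + R.B + R.H) / κ)
    have h2 : (n:ℝ) = (⌈2 * (R.A + R.B + R.H) / κ⌉₊ : ℝ) + 1 := by rw [hn]; push_cast; ring
    rw [div_le_iff₀ hκ0] at h1
    rw [h2]
    nlinarith
  have hnu : κ * n ≤ 2 * s + 2 * κ := by
    have h1 := Nat.ceil_lt_add_one (show 0 ≤ 2 * (R.A + R.B + R.H) / κ by positivity)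
    have h2 : (n:ℝ) = (⌈2 * (R.A + R.B + R.H) / κ⌉₊ : ℝ) + 1 := by rw [hn]; push_cast; ring
    have h3 : κ * (2 * (R.A + R.B + R.H) / κ) = 2 * s := by rw [hs0]; field_simp
    have h4 : (n:ℝ) ≤ 2 * (R.A + R.B + R.H) / κ + 2 := by rw [h2]; linarith
    have h5 := mul_le_mul_of_nonneg_left h4 hκ0.le
    rw [mul_add, h3] at h5
    linarith
  have hlt2 : δ < κ / 5 := by rw [hκ]; linarith
  obtain ⟨hs, p1, p2, p3, p4⟩ := hsm δ hδ hlt1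
  refine ⟨hs, ?_⟩
  obtain ⟨L, hL⟩ : ∃ L : ℤ, L = ⌊κ / δ⌋ := ⟨_, rfl⟩
  have L1 : δ * L ≤ κ := by
    have := Int.floor_le (κ / δ)
    rw [← hL, le_div_iff₀ hδ] at this
    linarith
  have L2 : κ - δ < δ * L := by
    have := Int.lt_floor_add_one (κ / δ)
    rw [← hL, div_lt_iff₀ hδ] at this
    linarith
  have L3 : κ / 2 ≤ δ * L := by linarith
  have L0 : 0 < L := by
    have h2 : (0:ℝ) < L := by
      by_contra hc
      push Not at hc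
      have := mul_nonpos_of_nonneg_of_nonpos hδ.le hc
      linarith
    exact_mod_cast h2
  have conv : ∀ u v : ℤ, δ * (u:ℝ) < δ * v → u < v := by
    intro u v h
    have := lt_of_mul_lt_mul_left h hδ.le
    exact_mod_cast this
  have conv' : ∀ u v : ℤ, δ * (u:ℝ) ≤ δ * v → u ≤ v := by
    intro u v h
    have := le_of_mul_le_mul_left h hδ
    exact_mod_cast this
  have hn0 : (0:ℝ) ≤ n := Nat.cast_nonneg n
  have big : R.A + R.B + R.H ≤ δ * L * n := by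
    have : κ / 2 * n ≤ δ * L * n := mul_le_mul_of_nonneg_right L3 hn0
    linarith
  have hn1 : R.x1 δ < ((n:ℤ) + 1) * L := by
    apply conv; push_cast; nlinarith [p2.2]
  have hn3 : R.y1 δ < ((n:ℤ) + 1) * L := by
    apply conv; push_cast; nlinarith [p3.2]
  have hn2 : -((n:ℤ) * L) ≤ R.x0 δ := by
    apply conv'; push_cast; nlinarith [p1.1]
  refine ⟨((Finset.Icc (-(n:ℤ)) n) ×ˢ (Finset.Icc (-(n:ℤ)) n)).image
    (fun k => (k.1 * L - 1, (k.1 + 1) * L + 1, k.2 * L - 1, (k.2 + 1) * L + 1)), ?_, ?_, ?_⟩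
  · have hcard : (((Finset.Icc (-(n:ℤ)) n) ×ˢ (Finset.Icc (-(n:ℤ)) n)).image
        (fun k : ℤ × ℤ =>
          (k.1 * L - 1, (k.1 + 1) * L + 1, k.2 * L - 1, (k.2 + 1) * L + 1))).card ≤
        (2 * n + 1) * (2 * n + 1) := by
      refine Finset.card_image_le.trans ?_
      rw [Finset.card_product, Int.card_Icc]
      have : ((n:ℤ) + 1 - (-(n:ℤ))).toNat = 2 * n + 1 := by omega
      rw [this]
    have hcr : ((((Finset.Icc (-(n:ℤ)) n) ×ˢ (Finset.Icc (-(n:ℤ)) n)).image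
        (fun k : ℤ × ℤ =>
          (k.1 * L - 1, (k.1 + 1) * L + 1, k.2 * L - 1, (k.2 + 1) * L + 1))).card : ℝ) ≤
        (2 * (n:ℝ) + 1) * (2 * n + 1) := by exact_mod_cast hcard
    refine hcr.trans ?_
    have h6 : ε * (2 * (n:ℝ) + 1) ≤ 80 * s + 5 := by
      have h7 : ε * n ≤ 40 * s + 2 * ε := by
        have : κ * n = ε * n / 20 := by rw [hκ]; ring
        rw [this, hκ] at hnu
        linarith
      nlinarith
    rw [le_div_iff₀ (by positivity)]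
    have h8 : 0 ≤ ε * (2 * (n:ℝ) + 1) := by positivity
    calc (2 * (n:ℝ) + 1) * (2 * n + 1) * ε ^ 2 = (ε * (2 * (n:ℝ) + 1)) ^ 2 := by ring
      _ ≤ (80 * s + 5) ^ 2 := pow_le_pow_left₀ h8 h6 2
  · intro k hk
    rw [Finset.mem_image] at hk
    obtain ⟨⟨i, j⟩, hij, rfl⟩ := hk
    rw [Finset.mem_product, Finset.mem_Icc, Finset.mem_Icc] at hij
    obtain ⟨⟨i1, i2⟩, j1, j2⟩ := hij
    simp only at i1 i2 j1 j2 ⊢
    have hκ1 : κ ≤ 1 / 20 := by rw [hκ]; linarith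
    have bd : ∀ i : ℤ, -(n:ℤ) ≤ i → i ≤ n → |δ * (((i * L - 1 : ℤ)) : ℝ)| ≤ 2 * s + 2 ∧
        |δ * ((((i + 1) * L + 1 : ℤ)) : ℝ)| ≤ 2 * s + 2 := by
      intro i h1 h2
      have h1' : -(n:ℝ) ≤ i := by exact_mod_cast h1
      have h2' : (i:ℝ) ≤ n := by exact_mod_cast h2
      have hLp : (0:ℝ) < δ * L := by linarith
      have a1 : (i:ℝ) * (δ * L) ≤ n * (δ * L) := mul_le_mul_of_nonneg_right h2' hLp.le
      have a2 : -(n:ℝ) * (δ * L) ≤ i * (δ * L) := mul_le_mul_of_nonneg_right h1' hLp.le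
      have a3 : (n:ℝ) * (δ * L) ≤ n * κ := mul_le_mul_of_nonneg_left L1 hn0
      constructor
      · push_cast
        rw [abs_le]
        constructor <;> nlinarith
      · push_cast
        rw [abs_le]
        constructor <;> nlinarith
    refine ⟨⟨?_, ?_⟩, (bd i i1 i2).1, (bd i i1 i2).2, (bd j j1 j2).1, (bd j j1 j2).2⟩
    · linarith [show (i + 1) * L = i * L + L by ring]
    · linarith [show (j + 1) * L = j * L + L by ring]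
  · intro F G hF hG hFG
    have hmem : ∀ i j : ℤ, -(n:ℤ) ≤ i → i ≤ n → -(n:ℤ) ≤ j → j ≤ n →
        (i * L - 1, (i + 1) * L + 1, j * L - 1, (j + 1) * L + 1) ∈
        ((Finset.Icc (-(n:ℤ)) n) ×ˢ (Finset.Icc (-(n:ℤ)) n)).image
        (fun k : ℤ × ℤ => (k.1 * L - 1, (k.1 + 1) * L + 1, k.2 * L - 1, (k.2 + 1) * L + 1)) := by
      intro i j h1 h2 h3 h4
      rw [Finset.mem_image]
      exact ⟨(i, j), by
        rw [Finset.mem_product, Finset.mem_Icc, Finset.mem_Icc]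
        exact ⟨⟨h1, h2⟩, h3, h4⟩, rfl⟩
    have hm1 : R.x1 δ + 1 < ((n:ℤ) + 1) * L := by
      apply conv; push_cast; nlinarith [p2.2]
    have hm3 : R.y1 δ + 1 < ((n:ℤ) + 1) * L := by
      apply conv; push_cast; nlinarith [p3.2]
    refine ⟨?_, ?_, ?_⟩
    · rw [Metric.NonemptyCompacts.dist_eq]
      apply Metric.hausdorffDist_le_of_mem_dist hε.le
      · intro z hz
        obtain ⟨w, hw, hd⟩ := incl hpot hδ hs (by linarith) L0 L1 hn1 hn2 hn3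
          (Int.natCast_nonneg n) hF hG (fun i j h1 h2 h3 h4 hA hB =>
            ⟨(hFG _ (hmem i j h1 h2 h3 h4)).1.mp hA, (hFG _ (hmem i j h1 h2 h3 h4)).2.mp hB⟩) hz
        exact ⟨w, hw, hd.trans (by rw [hκ]; linarith)⟩
      · intro z hz
        obtain ⟨w, hw, hd⟩ := incl hpot hδ hs (by linarith) L0 L1 hn1 hn2 hn3
          (Int.natCast_nonneg n) hG hF (fun i j h1 h2 h3 h4 hA hB =>
            ⟨(hFG _ (hmem i j h1 h2 h3 h4)).1.mpr hA, (hFG _ (hmem i j h1 h2 h3 h4)).2.mpr hB⟩) hz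
        exact ⟨w, hw, hd.trans (by rw [hκ]; linarith)⟩
    · apply Metric.hausdorffDist_le_of_mem_dist hε.le
      · rintro z ⟨v, hv, rfl⟩
        obtain ⟨w, hw, hd⟩ := near_pt (P := fun v => v ∈ R.clu δ F) (Q := fun v => v ∈ R.clu δ G)
          hδ (by linarith) L0 L1 hm1 hn2 hm3 (Int.natCast_nonneg n)
          (fun i j h1 h2 h3 h4 h => (hFG _ (hmem i j h1 h2 h3 h4)).1.mp h)
          (by
            obtain ⟨⟨⟨a1, a2⟩, a3, a4⟩, -⟩ := PotL.clu_val hs hF hv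
            exact ⟨⟨by omega, by omega⟩, by omega, by omega⟩) hv
        exact ⟨pt δ w, ⟨w, hw, rfl⟩, (dist_pt_le hδ hd).trans (by rw [hκ]; linarith)⟩
      · rintro z ⟨v, hv, rfl⟩
        obtain ⟨w, hw, hd⟩ := near_pt (P := fun v => v ∈ R.clu δ G) (Q := fun v => v ∈ R.clu δ F)
          hδ (by linarith) L0 L1 hm1 hn2 hm3 (Int.natCast_nonneg n)
          (fun i j h1 h2 h3 h4 h => (hFG _ (hmem i j h1 h2 h3 h4)).1.mpr h)
          (by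
            obtain ⟨⟨⟨a1, a2⟩, a3, a4⟩, -⟩ := PotL.clu_val hs hG hv
            exact ⟨⟨by omega, by omega⟩, by omega, by omega⟩) hv
        refine ⟨pt δ w, ⟨w, hw, rfl⟩, (dist_pt_le hδ hd).trans (by rw [hκ]; linarith)⟩
    · apply Metric.hausdorffDist_le_of_mem_dist hε.le
      · rintro z ⟨v, hv, rfl⟩
        obtain ⟨w, hw, hd⟩ := near_pt (P := fun v => v ∈ R.dclu δ F)
          (Q := fun v => v ∈ R.dclu δ G)
          hδ (by linarith) L0 L1 hm1 hn2 hm3 (Int.natCast_nonneg n)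
          (fun i j h1 h2 h3 h4 h => (hFG _ (hmem i j h1 h2 h3 h4)).2.mp h)
          (PotL.dclu_val hs hv).1 hv
        exact ⟨fpt δ w, ⟨w, hw, rfl⟩, (dist_fpt_le hδ hd).trans (by rw [hκ]; linarith)⟩
      · rintro z ⟨v, hv, rfl⟩
        obtain ⟨w, hw, hd⟩ := near_pt (P := fun v => v ∈ R.dclu δ G)
          (Q := fun v => v ∈ R.dclu δ F)
          hδ (by linarith) L0 L1 hm1 hn2 hm3 (Int.natCast_nonneg n)
          (fun i j h1 h2 h3 h4 h => (hFG _ (hmem i j h1 h2 h3 h4)).2.mpr h)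
          (PotL.dclu_val hs hv).1 hv
        exact ⟨fpt δ w, ⟨w, hw, rfl⟩, (dist_fpt_le hδ hd).trans (by rw [hκ]; linarith)⟩

theorem cpq : S_HAQ → S_STA → S_STD → S_IBP → S_CPQ := by
  intro hhaq hsta hstd hibp R
  obtain ⟨ρ, K, δ1, hρ, hK, hδ1, hδ11, hq⟩ := hhaq R
  obtain ⟨C1, d1, hC1, hd1, hd11, hA⟩ := hsta R ρ hρ
  obtain ⟨C2, d2, hC2, hd2, hd21, hB⟩ := hstd R ρ hρ
  refine ⟨4 * (C1 + C2) * K, min δ1 (min d1 d2), by positivity,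
    lt_min hδ1 (lt_min hd1 hd2), (min_le_left _ _).trans hδ11, ?_⟩
  intro ε hε hε1 δ hδ hlt h100 x h0 h1 Ω _ μ Fm Fp hm hp hmp
  have l1 : δ < δ1 := lt_of_lt_of_le hlt (min_le_left _ _)
  have l2 : δ < d1 := lt_of_lt_of_le hlt ((min_le_right _ _).trans (min_le_left _ _))
  have l3 : δ < d2 := lt_of_lt_of_le hlt ((min_le_right _ _).trans (min_le_right _ _))
  obtain ⟨hs, B, hBc, hBb, hdet⟩ := hq ε hε hε1 δ hδ l1 h100
  have hd0 : 0 ≤ δ ^ (-(3/4 : ℝ)) := Real.rpow_nonneg hδ.le _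
  obtain ⟨c, hc⟩ : ∃ c : ℝ, c = (C1 + C2) * x * δ ^ (-(3/4 : ℝ)) := ⟨_, rfl⟩
  have hc0 : 0 ≤ c := by rw [hc]; positivity
  have hx : ∀ q : ℝ, (q = 1/2 - x ∨ q = 1/2 + x) → |q - 1/2| = x ∧ 0 ≤ q ∧ q ≤ 1 := by
    intro q hq
    rcases hq with rfl | rfl
    · refine ⟨?_, by linarith, by linarith⟩
      rw [show 1/2 - x - 1/2 = -x by ring, abs_neg, abs_of_nonneg h0]
    · refine ⟨?_, by linarith, by linarith⟩
      rw [show 1/2 + x - 1/2 = x by ring, abs_of_nonneg h0]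
  have hcore := cpl_core hibp h0 h1 hc0 (B := B) (Good := Close R hδ ε) hdet
    (fun k hk q hq => by
      obtain ⟨e1, e2, e3⟩ := hx q hq
      obtain ⟨⟨b1, b2⟩, b3⟩ := hBb k hk
      refine (hA δ hδ l2 _ _ _ _ b1 b2 b3 q e2 e3).trans ?_
      rw [e1, hc]
      apply mul_le_mul_of_nonneg_right _ hd0
      apply mul_le_mul_of_nonneg_right _ h0
      linarith)
    (fun k hk q hq => by
      obtain ⟨e1, e2, e3⟩ := hx q hq
      obtain ⟨⟨b1, b2⟩, b3⟩ := hBb k hk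
      refine (hB δ hδ l3 _ _ _ _ b1 b2 b3 q e2 e3).trans ?_
      rw [e1, hc]
      apply mul_le_mul_of_nonneg_right _ hd0
      apply mul_le_mul_of_nonneg_right _ h0
      linarith) hm hp hmp
  refine hcore.trans (ENNReal.ofReal_le_ofReal ?_)
  calc 4 * c * (B.card : ℝ) ≤ 4 * c * (K / ε ^ 2) :=
        mul_le_mul_of_nonneg_left hBc (by positivity)
    _ = 4 * (C1 + C2) * K / ε ^ 2 * (x * δ ^ (-(3/4 : ℝ))) := by rw [hc]; ring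

end NI38
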