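import Pool.Agent.Helper38K9.NI.Stm

/-!
[CPL]: monotone couplings.
-/

set_option maxHeartbeats 400000

namespace NI38

open H974 H973 H934E Finset MeasureTheory TopologicalSpace Filter Topology

theorem HA_mono {R : Rect} {δ : ℝ} {a b c d : ℤ} {F G : Finset Edg} (h : F ⊆ G)
    (hF : HA R δ a b c d F) : HA R δ a b c d G := by
  obtain ⟨v, hv, hi⟩ := hF
  refine ⟨v, ?_, hi⟩
  refine Reach.mono ?_ hv
  intro e he
  rcases he with he | he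
  · exact Or.inl (h he)
  · exact Or.inr he

theorem HB_anti {R : Rect} {δ : ℝ} {a b c d : ℤ} {F G : Finset Edg} (h : F ⊆ G)
    (hG : HB R δ a b c d G) : HB R δ a b c d F := by
  obtain ⟨f, ⟨g, hg, hr⟩, hi⟩ := hG
  refine ⟨f, ⟨g, hg, ?_⟩, hi⟩
  refine DReach.mono ?_ hr
  rintro e ⟨he1, he2⟩
  refine ⟨he1, fun he3 => he2 ?_⟩
  rcases he3 with he3 | he3
  · exact Or.inl (h he3)
  · exact Or.inr he3

theorem cpl : S_HAU → S_STA → S_STD → S_IBP → S_CPL := by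
  intro hau sta std ibp R ε hε
  obtain ⟨ρ, δh, M, hρ, hδh, hδh1, H⟩ := hau R ε hε
  obtain ⟨Ca, δa, hCa, hδa, hδa1, hA⟩ := sta R ρ hρ
  obtain ⟨Cd, δd, hCd, hδd, hδd1, hD⟩ := std R ρ hρ
  refine ⟨2 * ((M : ℝ) + 1) * (Ca + Cd), min δh (min δa δd), by positivity, by positivity,
    le_trans (min_le_left _ _) hδh1, ?_⟩
  intro δ hδ hδlt x hx0 hx1 Ω _ μ Fm Fp hm hp hsub
  have hl1 : δ < δh := lt_of_lt_of_le hδlt (min_le_left _ _)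
  have hl2 : δ < δa := lt_of_lt_of_le hδlt (le_trans (min_le_right _ _) (min_le_left _ _))
  have hl3 : δ < δd := lt_of_lt_of_le hδlt (le_trans (min_le_right _ _) (min_le_right _ _))
  obtain ⟨_, B, hBc, hBb, hB⟩ := H δ hδ hl1
  have okm : ∀ e : Edg, 0 ≤ (fun _ : Edg => 1/2 - x) e ∧ (fun _ : Edg => 1/2 - x) e ≤ 1 := by
    intro e
    constructor
    · show 0 ≤ 1/2 - x
      linarith
    · show 1/2 - x ≤ 1
      linarith
  have okp : ∀ e : Edg, 0 ≤ (fun _ : Edg => 1/2 + x) e ∧ (fun _ : Edg => 1/2 + x) e ≤ 1 := by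
    intro e
    constructor
    · show 0 ≤ 1/2 + x
      linarith
    · show 1/2 + x ≤ 1
      linarith
  have IM := ibp Ω μ (R.edges δ) (fun _ => 1/2 - x) Fm okm hm
  have IP := ibp Ω μ (R.edges δ) (fun _ => 1/2 + x) Fp okp hp
  have hpow : 0 ≤ δ ^ (-(3/4 : ℝ)) := Real.rpow_nonneg hδ.le _
  -- one box
  have hA1 : ∀ k ∈ B, μ ({ω | HA R δ k.1 k.2.1 k.2.2.1 k.2.2.2 (Fp ω)} \
      {ω | HA R δ k.1 k.2.1 k.2.2.1 k.2.2.2 (Fm ω)}) ≤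
      ENNReal.ofReal (2 * Ca * (x * δ ^ (-(3/4 : ℝ)))) := by
    intro k hk
    obtain ⟨⟨hk1, hk2⟩, hk3⟩ := hBb k hk
    have hs : {ω | HA R δ k.1 k.2.1 k.2.2.1 k.2.2.2 (Fm ω)} ⊆
        {ω | HA R δ k.1 k.2.1 k.2.2.1 k.2.2.2 (Fp ω)} := fun ω hω => HA_mono (hsub ω) hω
    have im := IM (HA R δ k.1 k.2.1 k.2.2.1 k.2.2.2)
    have ip := IP (HA R δ k.1 k.2.1 k.2.2.1 k.2.2.2)
    rw [measure_sdiff hs im.1.nullMeasurableSet
      (by rw [im.2]; exact ENNReal.ofReal_ne_top), im.2, ip.2,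
      ← ENNReal.ofReal_sub _ (Pr_nonneg okm _ _)]
    apply ENNReal.ofReal_le_ofReal
    have h1 := hA δ hδ hl2 k.1 k.2.1 k.2.2.1 k.2.2.2 hk1 hk2 hk3 (1/2 + x) (by linarith)
      (by linarith)
    have h2 := hA δ hδ hl2 k.1 k.2.1 k.2.2.1 k.2.2.2 hk1 hk2 hk3 (1/2 - x) (by linarith)
      (by linarith)
    rw [show (1/2 + x - 1/2 : ℝ) = x by ring, abs_of_nonneg hx0] at h1
    rw [show (1/2 - x - 1/2 : ℝ) = -x by ring, abs_neg, abs_of_nonneg hx0] at h2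
    have h1' := (abs_le.mp h1).2
    have h2' := (abs_le.mp h2).1
    nlinarith
  have hA2 : ∀ k ∈ B, μ ({ω | HB R δ k.1 k.2.1 k.2.2.1 k.2.2.2 (Fm ω)} \
      {ω | HB R δ k.1 k.2.1 k.2.2.1 k.2.2.2 (Fp ω)}) ≤
      ENNReal.ofReal (2 * Cd * (x * δ ^ (-(3/4 : ℝ)))) := by
    intro k hk
    obtain ⟨⟨hk1, hk2⟩, hk3⟩ := hBb k hk
    have hs : {ω | HB R δ k.1 k.2.1 k.2.2.1 k.2.2.2 (Fp ω)} ⊆
        {ω | HB R δ k.1 k.2.1 k.2.2.1 k.2.2.2 (Fm ω)} := fun ω hω => HB_anti (hsub ω) hω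
    have im := IM (HB R δ k.1 k.2.1 k.2.2.1 k.2.2.2)
    have ip := IP (HB R δ k.1 k.2.1 k.2.2.1 k.2.2.2)
    rw [measure_sdiff hs ip.1.nullMeasurableSet
      (by rw [ip.2]; exact ENNReal.ofReal_ne_top), im.2, ip.2,
      ← ENNReal.ofReal_sub _ (Pr_nonneg okp _ _)]
    apply ENNReal.ofReal_le_ofReal
    have h1 := hD δ hδ hl3 k.1 k.2.1 k.2.2.1 k.2.2.2 hk1 hk2 hk3 (1/2 + x) (by linarith)
      (by linarith)
    have h2 := hD δ hδ hl3 k.1 k.2.1 k.2.2.1 k.2.2.2 hk1 hk2 hk3 (1/2 - x) (by linarith)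
      (by linarith)
    rw [show (1/2 + x - 1/2 : ℝ) = x by ring, abs_of_nonneg hx0] at h1
    rw [show (1/2 - x - 1/2 : ℝ) = -x by ring, abs_neg, abs_of_nonneg hx0] at h2
    have h1' := (abs_le.mp h1).1
    have h2' := (abs_le.mp h2).2
    nlinarith
  have hcover : {ω | ∃ F G : Finset Edg, (Fm ω ⊆ F ∧ F ⊆ Fp ω) ∧ (Fm ω ⊆ G ∧ G ⊆ Fp ω) ∧
        ε < dist (R.trace hδ F) (R.trace hδ G)} ⊆
      ⋃ k ∈ B, (({ω | HA R δ k.1 k.2.1 k.2.2.1 k.2.2.2 (Fp ω)} \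
      {ω | HA R δ k.1 k.2.1 k.2.2.1 k.2.2.2 (Fm ω)}) ∪
      ({ω | HB R δ k.1 k.2.1 k.2.2.1 k.2.2.2 (Fm ω)} \
      {ω | HB R δ k.1 k.2.1 k.2.2.1 k.2.2.2 (Fp ω)})) := by
    rintro ω ⟨F, G, ⟨hF1, hF2⟩, ⟨hG1, hG2⟩, hlt⟩
    by_contra hcon
    have hno : ∀ k ∈ B, ω ∉ (({ω | HA R δ k.1 k.2.1 k.2.2.1 k.2.2.2 (Fp ω)} \
      {ω | HA R δ k.1 k.2.1 k.2.2.1 k.2.2.2 (Fm ω)}) ∪
      ({ω | HB R δ k.1 k.2.1 k.2.2.1 k.2.2.2 (Fm ω)} \
      {ω | HB R δ k.1 k.2.1 k.2.2.1 k.2.2.2 (Fp ω)})) := by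
      intro k hk hmem
      exact hcon (Set.mem_biUnion hk hmem)
    have := hB F G (hF2.trans (hp.1 ω)) (hG2.trans (hp.1 ω)) (fun k hk => by
      have h1 := hno k hk
      have h2 : HA R δ k.1 k.2.1 k.2.2.1 k.2.2.2 (Fp ω) →
          HA R δ k.1 k.2.1 k.2.2.1 k.2.2.2 (Fm ω) := by
        intro h3
        by_contra h4
        exact h1 (Or.inl ⟨h3, h4⟩)
      have h5 : HB R δ k.1 k.2.1 k.2.2.1 k.2.2.2 (Fm ω) →
          HB R δ k.1 k.2.1 k.2.2.1 k.2.2.2 (Fp ω) := by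
        intro h3
        by_contra h4
        exact h1 (Or.inr ⟨h3, h4⟩)
      refine ⟨⟨fun h => HA_mono hG1 (h2 (HA_mono hF2 h)), fun h => HA_mono hF1 (h2 (HA_mono hG2 h))⟩,
        ⟨fun h => HB_anti hG2 (h5 (HB_anti hF1 h)), fun h => HB_anti hF2 (h5 (HB_anti hG1 h))⟩⟩)
    linarith
  calc μ _ ≤ μ _ := measure_mono hcover
    _ ≤ ∑ k ∈ B, μ (({ω | HA R δ k.1 k.2.1 k.2.2.1 k.2.2.2 (Fp ω)} \
      {ω | HA R δ k.1 k.2.1 k.2.2.1 k.2.2.2 (Fm ω)}) ∪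
      ({ω | HB R δ k.1 k.2.1 k.2.2.1 k.2.2.2 (Fm ω)} \
      {ω | HB R δ k.1 k.2.1 k.2.2.1 k.2.2.2 (Fp ω)})) := measure_biUnion_finset_le _ _
    _ ≤ ∑ _k ∈ B, ENNReal.ofReal (2 * (Ca + Cd) * (x * δ ^ (-(3/4 : ℝ)))) := by
        apply Finset.sum_le_sum
        intro k hk
        refine (measure_union_le _ _).trans ?_
        refine (add_le_add (hA1 k hk) (hA2 k hk)).trans ?_
        rw [← ENNReal.ofReal_add (by positivity) (by positivity)]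
        apply ENNReal.ofReal_le_ofReal
        apply le_of_eq
        ring
    _ = ENNReal.ofReal (B.card * (2 * (Ca + Cd) * (x * δ ^ (-(3/4 : ℝ))))) := by
        rw [Finset.sum_const, nsmul_eq_mul, ENNReal.ofReal_mul (p := (B.card : ℝ)) (by positivity),
          ENNReal.ofReal_natCast]
    _ ≤ ENNReal.ofReal (2 * ((M : ℝ) + 1) * (Ca + Cd) * x * δ ^ (-(3/4 : ℝ))) := by
        apply ENNReal.ofReal_le_ofReal
        have h1 : (B.card : ℝ) ≤ (M : ℝ) + 1 := by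
          have : (B.card : ℝ) ≤ (M : ℝ) := by exact_mod_cast hBc
          linarith
        have h2 : 0 ≤ 2 * (Ca + Cd) * (x * δ ^ (-(3/4 : ℝ))) := by positivity
        calc (B.card : ℝ) * (2 * (Ca + Cd) * (x * δ ^ (-(3/4 : ℝ))))
            ≤ ((M : ℝ) + 1) * (2 * (Ca + Cd) * (x * δ ^ (-(3/4 : ℝ)))) :=
              mul_le_mul_of_nonneg_right h1 h2
          _ = _ := by ring

end NI38
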