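import Pool.Agent.Helper38K9.NI.Stm2

/-!
Covering numbers of curves (copies of lemmas of `TH291/NW/Poly.lean`, with a light import).
-/

set_option maxHeartbeats 1000000

namespace NI38

open H974 H12S H973N H973N.WHX Finset TH291.NW

theorem cov_mono {B B' : Set (ℝ × ℝ)} {M M' s : ℝ} (h : B' ⊆ B) (hM : M ≤ M') (hB : Cov B M s) :
    Cov B' M' s := by
  intro r hr hr1
  obtain ⟨F, h1, h2⟩ := hB r hr hr1
  exact ⟨F, h1.trans (mul_le_mul_of_nonneg_right hM (Real.rpow_nonneg hr.le _)),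
    fun x hx => h2 x (h hx)⟩

theorem cov_union {B B' : Set (ℝ × ℝ)} {M M' s : ℝ} (hB : Cov B M s) (hB' : Cov B' M' s) :
    Cov (B ∪ B') (M + M') s := by
  classical
  intro r hr hr1
  obtain ⟨F, h1, h2⟩ := hB r hr hr1
  obtain ⟨F', h1', h2'⟩ := hB' r hr hr1
  refine ⟨F ∪ F', ?_, ?_⟩
  · have h3 : ((F ∪ F').card : ℝ) ≤ F.card + F'.card := by
      exact_mod_cast Finset.card_union_le F F'
    rw [add_mul]
    linarith
  · rintro x (hx | hx)
    · obtain ⟨y, hy, hd⟩ := h2 x hx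
      exact ⟨y, Finset.mem_union_left _ hy, hd⟩
    · obtain ⟨y, hy, hd⟩ := h2' x hx
      exact ⟨y, Finset.mem_union_right _ hy, hd⟩

/-- Curves of finite length. -/
theorem cov_curve {f : ℝ → ℝ × ℝ} (hf : ∀ s t, dist (f s) (f t) ≤ |s - t|) {b c ℓ : ℝ}
    (hℓ : c - b ≤ ℓ) (hℓ0 : 0 ≤ ℓ) : Cov (f '' Set.Icc b c) (ℓ + 1) 1 := by
  classical
  intro r hr hr1
  refine ⟨(Finset.range (⌊ℓ / r⌋₊ + 1)).image (fun k : ℕ => f (b + k * r)), ?_, ?_⟩
  · have h1 : (((Finset.range (⌊ℓ / r⌋₊ + 1)).image (fun k : ℕ => f (b + k * r))).card : ℝ) ≤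
        ((⌊ℓ / r⌋₊ + 1 : ℕ) : ℝ) := by
      have := Finset.card_image_le (s := Finset.range (⌊ℓ / r⌋₊ + 1))
        (f := fun k : ℕ => f (b + k * r))
      rw [Finset.card_range] at this
      exact_mod_cast this
    refine h1.trans ?_
    push_cast
    have h2 : (⌊ℓ / r⌋₊ : ℝ) ≤ ℓ / r := Nat.floor_le (by positivity)
    have h3 : (1:ℝ) ≤ 1 / r := by rw [le_div_iff₀ hr]; linarith
    rw [Real.rpow_neg_one, ← div_eq_mul_inv, add_div]
    linarith
  · rintro x ⟨t, ht, rfl⟩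
    have h0 : 0 ≤ (t - b) / r := div_nonneg (by linarith [ht.1]) hr.le
    refine ⟨f (b + (⌊(t - b) / r⌋₊ : ℕ) * r), ?_, ?_⟩
    · rw [Finset.mem_image]
      refine ⟨⌊(t - b) / r⌋₊, ?_, rfl⟩
      rw [Finset.mem_range, Nat.lt_succ_iff]
      apply Nat.floor_le_floor
      apply div_le_div_of_nonneg_right _ hr.le
      linarith [ht.2]
    · refine (hf _ _).trans ?_
      have h1 : (⌊(t - b) / r⌋₊ : ℝ) ≤ (t - b) / r := Nat.floor_le h0
      have h2 : (t - b) / r < ⌊(t - b) / r⌋₊ + 1 := Nat.lt_floor_add_one _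
      rw [le_div_iff₀ hr] at h1
      rw [div_lt_iff₀ hr] at h2
      rw [abs_le]
      constructor <;> linarith

end NI38
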