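import Pool.Agent.Helper38K9.NI.Stm

/-! Leaf [ERA]: erasing or adding the edges of an independent random set. -/

namespace NI38

open H974 H973 H934E Finset MeasureTheory TopologicalSpace Filter Topology

namespace EraL

theorem ex_sdiff (p q : Edg → ℝ) (S : Finset Edg) (g : Finset Edg → ℝ) :
    Ex p S (fun A => Ex q S (fun B => g (A \ B))) = Ex (fun e => p e * (1 - q e)) S g := by
  induction S using Finset.induction_on generalizing g with
  | empty => simp [Ex_empty]
  | insert a S ha ih =>
    rw [Ex_insert p ha, Ex_insert _ ha]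
    have h1 : Ex p S (fun A => Ex q (insert a S) (fun B => g (insert a A \ B))) =
        Ex p S (fun A => q a * Ex q S (fun B => g (A \ B)) +
          (1 - q a) * Ex q S (fun B => g (insert a (A \ B)))) := by
      apply Ex_congr
      intro A hA
      rw [Ex_insert q ha]
      have haA : a ∉ A := fun h => ha (hA h)
      congr 1
      · congr 1
        apply Ex_congr
        intro B hB
        congr 1
        ext x
        simp only [Finset.mem_sdiff, Finset.mem_insert]
        constructor
        · rintro ⟨h1, h2⟩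
          push Not at h2
          rcases h1 with h1 | h1
          · exact absurd h1 h2.1
          · exact ⟨h1, h2.2⟩
        · rintro ⟨h1, h2⟩
          refine ⟨Or.inr h1, ?_⟩
          push Not
          exact ⟨fun h => haA (h ▸ h1), h2⟩
      · congr 1
        apply Ex_congr
        intro B hB
        rw [Finset.insert_sdiff_of_notMem _ (fun h => ha (hB h))]
    have h2 : Ex p S (fun A => Ex q (insert a S) (fun B => g (A \ B))) =
        Ex p S (fun A => Ex q S (fun B => g (A \ B))) := by
      apply Ex_congr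
      intro A hA
      rw [Ex_insert q ha]
      have haA : a ∉ A := fun h => ha (hA h)
      have : Ex q S (fun B => g (A \ insert a B)) = Ex q S (fun B => g (A \ B)) := by
        apply Ex_congr
        intro B hB
        congr 1
        ext x
        simp only [Finset.mem_sdiff, Finset.mem_insert]
        constructor
        · rintro ⟨h1, h2⟩
          exact ⟨h1, fun h => h2 (Or.inr h)⟩
        · rintro ⟨h1, h2⟩
          refine ⟨h1, ?_⟩
          rintro (h | h)
          · exact haA (h ▸ h1)
          · exact h2 h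
      rw [this]
      ring
    rw [h1, h2, Ex_add, Ex_mul_left, Ex_mul_left, ih g, ih (fun C => g (insert a C))]
    ring

theorem ex_union (p q : Edg → ℝ) (S : Finset Edg) (g : Finset Edg → ℝ) :
    Ex p S (fun A => Ex q S (fun B => g (A ∪ B))) = Ex (fun e => p e + q e - p e * q e) S g := by
  induction S using Finset.induction_on generalizing g with
  | empty => simp [Ex_empty]
  | insert a S ha ih =>
    rw [Ex_insert p ha, Ex_insert _ ha]
    have h1 : Ex p S (fun A => Ex q (insert a S) (fun B => g (insert a A ∪ B))) =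
        Ex p S (fun A => Ex q S (fun B => g (insert a (A ∪ B)))) := by
      apply Ex_congr
      intro A hA
      rw [Ex_insert q ha]
      have e1 : ∀ B, insert a A ∪ insert a B = insert a (A ∪ B) := by
        intro B
        ext x
        simp only [Finset.mem_union, Finset.mem_insert]
        tauto
      have e2 : ∀ B, insert a A ∪ B = insert a (A ∪ B) := by
        intro B
        ext x
        simp only [Finset.mem_union, Finset.mem_insert]
        tauto
      simp only [e1, e2]
      ring
    have h2 : Ex p S (fun A => Ex q (insert a S) (fun B => g (A ∪ B))) =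
        Ex p S (fun A => q a * Ex q S (fun B => g (insert a (A ∪ B))) +
          (1 - q a) * Ex q S (fun B => g (A ∪ B))) := by
      apply Ex_congr
      intro A hA
      rw [Ex_insert q ha]
      have e1 : ∀ B, A ∪ insert a B = insert a (A ∪ B) := by
        intro B
        ext x
        simp only [Finset.mem_union, Finset.mem_insert]
        tauto
      simp only [e1]
    rw [h1, h2, Ex_add, Ex_mul_left, Ex_mul_left, ih g, ih (fun C => g (insert a C))]
    ring

theorem ex_ind (p : Edg → ℝ) {S T : Finset Edg} (hT : T ⊆ S) :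
    Ex p S (fun A => ind (A = T)) = (∏ e ∈ T, p e) * ∏ e ∈ S \ T, (1 - p e) := by
  unfold Ex
  rw [Finset.sum_eq_single_of_mem T (Finset.mem_powerset.mpr hT)]
  · show _ * ind (T = T) = _
    rw [ind_of rfl, mul_one]
  · intro A _ hA
    show _ * ind (A = T) = _
    rw [ind_not_of hA, mul_zero]

theorem pair {Ω : Type} [MeasurableSpace Ω] {μ : Measure Ω} {S : Finset Edg} {p q : Edg → ℝ}
    {F G : Ω → Finset Edg} (hp : ∀ e, 0 ≤ p e ∧ p e ≤ 1) (hq : ∀ e, 0 ≤ q e ∧ q e ≤ 1)
    (hF : IsBer μ S p F) (hG : IsBer μ S q G)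
    (hi : ∀ T U : Finset Edg, T ⊆ S → U ⊆ S →
      μ {ω | F ω = T ∧ G ω = U} = μ {ω | F ω = T} * μ {ω | G ω = U})
    (h : Finset Edg → Finset Edg → Prop) :
    MeasurableSet {ω | h (F ω) (G ω)} ∧
      μ {ω | h (F ω) (G ω)} = ENNReal.ofReal (Ex p S (fun A => Ex q S (fun B => ind (h A B)))) := by
  classical
  have hset : {ω | h (F ω) (G ω)} =
      ⋃ k ∈ (S.powerset ×ˢ S.powerset).filter (fun k => h k.1 k.2),
        {ω | F ω = k.1 ∧ G ω = k.2} := by
    ext ω
    simp only [Set.mem_ofPred_eq, Set.mem_iUnion, Finset.mem_filter, Finset.mem_powerset,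
      Finset.mem_product, exists_prop]
    constructor
    · intro h1
      exact ⟨(F ω, G ω), ⟨⟨hF.1 ω, hG.1 ω⟩, h1⟩, rfl, rfl⟩
    · rintro ⟨k, ⟨_, h2⟩, h3, h4⟩
      rw [h3, h4]
      exact h2
  have hm : ∀ k ∈ (S.powerset ×ˢ S.powerset).filter (fun k => h k.1 k.2),
      MeasurableSet {ω | F ω = k.1 ∧ G ω = k.2} := by
    intro k hk
    obtain ⟨hk1, hk2⟩ := Finset.mem_product.mp (Finset.mem_filter.mp hk).1
    exact (hF.2 k.1 (Finset.mem_powerset.mp hk1)).1.inter
      (hG.2 k.2 (Finset.mem_powerset.mp hk2)).1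
  have pos : ∀ (r : Edg → ℝ), (∀ e, 0 ≤ r e ∧ r e ≤ 1) → ∀ T : Finset Edg,
      0 ≤ (∏ e ∈ T, r e) * ∏ e ∈ S \ T, (1 - r e) := by
    intro r hr T
    apply mul_nonneg
    · exact Finset.prod_nonneg (fun e _ => (hr e).1)
    · exact Finset.prod_nonneg (fun e _ => by linarith [(hr e).2])
  constructor
  · rw [hset]
    exact Finset.measurableSet_biUnion _ hm
  · rw [hset, measure_biUnion_finset ?_ hm]
    · have h1 : ∀ k ∈ (S.powerset ×ˢ S.powerset).filter (fun k => h k.1 k.2),
          μ {ω | F ω = k.1 ∧ G ω = k.2} = ENNReal.ofReal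
            (((∏ e ∈ k.1, p e) * ∏ e ∈ S \ k.1, (1 - p e)) *
              ((∏ e ∈ k.2, q e) * ∏ e ∈ S \ k.2, (1 - q e))) := by
        intro k hk
        obtain ⟨hk1, hk2⟩ := Finset.mem_product.mp (Finset.mem_filter.mp hk).1
        rw [hi k.1 k.2 (Finset.mem_powerset.mp hk1) (Finset.mem_powerset.mp hk2),
          (hF.2 k.1 (Finset.mem_powerset.mp hk1)).2, (hG.2 k.2 (Finset.mem_powerset.mp hk2)).2,
          ENNReal.ofReal_mul (pos p hp k.1)]
      rw [Finset.sum_congr rfl h1, ← ENNReal.ofReal_sum_of_nonneg]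
      · congr 1
        rw [Finset.sum_filter, Finset.sum_product]
        unfold Ex
        apply Finset.sum_congr rfl
        intro A _
        rw [Finset.mul_sum]
        apply Finset.sum_congr rfl
        intro B _
        by_cases hT : h A B
        · simp only [if_pos hT, ind_of hT, mul_one]
        · simp only [if_neg hT, ind_not_of hT, mul_zero]
      · intro k _
        exact mul_nonneg (pos p hp _) (pos q hq _)
    · intro k _ l _ hkl
      rw [Function.onFun, Set.disjoint_left]
      intro ω h1 h2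
      exact hkl (Prod.ext (h1.1.symm.trans h2.1) (h1.2.symm.trans h2.2))

end EraL

theorem era : S_ERA := by
  intro S t ht0 ht1 Ω _ μ F G hF hG hi
  have hp : ∀ e : Edg, (0:ℝ) ≤ (fun _ : Edg => (1/2 : ℝ)) e ∧ (fun _ : Edg => (1/2 : ℝ)) e ≤ 1 :=
    fun _ => ⟨by norm_num, by norm_num⟩
  have hq : ∀ e : Edg, (0:ℝ) ≤ (fun _ : Edg => t) e ∧ (fun _ : Edg => t) e ≤ 1 :=
    fun _ => ⟨ht0, ht1⟩
  constructor
  · refine ⟨fun ω => Finset.sdiff_subset.trans (hF.1 ω), fun T hT => ?_⟩
    obtain ⟨h1, h2⟩ := EraL.pair hp hq hF hG hi (fun A B => A \ B = T)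
    refine ⟨h1, ?_⟩
    rw [h2, EraL.ex_sdiff _ _ _ (fun C => ind (C = T)), EraL.ex_ind _ hT]
    congr 1
    congr 1
    · exact Finset.prod_congr rfl (fun e _ => by ring)
    · exact Finset.prod_congr rfl (fun e _ => by ring)
  · refine ⟨fun ω => Finset.union_subset (hF.1 ω) (hG.1 ω), fun T hT => ?_⟩
    obtain ⟨h1, h2⟩ := EraL.pair hp hq hF hG hi (fun A B => A ∪ B = T)
    refine ⟨h1, ?_⟩
    rw [h2, EraL.ex_union _ _ _ (fun C => ind (C = T)), EraL.ex_ind _ hT]
    congr 1
    congr 1
    · exact Finset.prod_congr rfl (fun e _ => by ring)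
    · exact Finset.prod_congr rfl (fun e _ => by ring)

end NI38
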