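import Pool.Agent.Helper38K9.NI.Fw2

/-! Leaf [FAR]: above the window the trace is close to the free arc. -/

set_option maxHeartbeats 1000000

namespace NI38

open H974 H973 H934E Finset MeasureTheory TopologicalSpace

namespace FarL

open FwL

variable {R : Rect} {δ κ : ℝ} {L n m : ℤ}

theorem farc_of_outer (M : Msh R δ κ L n m) {g : Vtx} (hg : g ∈ R.outer δ) :
    ∃ w ∈ farc R, |w.re - δ * g.1| ≤ δ ∧ |w.im - δ * (g.2 + 1)| ≤ δ := by
  have hd := M.d0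
  obtain ⟨b1, b2⟩ := M.p1
  obtain ⟨c1, c2⟩ := M.p2
  obtain ⟨d1, d2⟩ := M.p3
  have mul : ∀ u v : ℤ, u ≤ v → δ * (u:ℝ) ≤ δ * v := by
    intro u v h
    apply mul_le_mul_of_nonneg_left _ hd.le
    exact_mod_cast h
  have ht := R.ht2
  rcases hg with ⟨h1, h2, h3⟩ | ⟨h1, h2, h3⟩ | ⟨h1, h2, h3⟩
  · have k2 := mul _ _ h2
    have k3 := mul _ _ h3
    push_cast at k2
    refine ⟨⟨δ * g.1, 0⟩, Or.inl ⟨rfl, ?_, ?_⟩, ?_, ?_⟩
    · simp only; linarith
    · simp only; linarith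
    · simp only [sub_self, abs_zero]; exact hd.le
    · rw [h1]; simp; exact hd.le
  · have k2 := mul _ _ h2
    have k3 := mul _ _ h3
    push_cast at k2
    refine ⟨⟨R.B, δ * (g.2 + 1)⟩, Or.inr (Or.inl ⟨rfl, ?_, ?_⟩), ?_, ?_⟩
    · simp only; linarith
    · simp only; linarith
    · rw [h1]
      simp only
      rw [abs_le]
      constructor <;> linarith
    · simp only [sub_self, abs_zero]; exact hd.le
  · have k2 := mul _ _ h2
    have k3 := mul _ _ h3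
    refine ⟨⟨max R.t (δ * g.1), R.H⟩, Or.inr (Or.inr ⟨rfl, le_max_left _ _, ?_⟩), ?_, ?_⟩
    · exact max_le ht.le (by linarith)
    · simp only
      rw [abs_le]
      constructor
      · have := le_max_right R.t (δ * g.1)
        linarith
      · have : max R.t (δ * g.1) ≤ δ * g.1 + δ := max_le (by linarith) (by linarith)
        linarith
    · rw [h1]
      simp only
      rw [abs_le]
      constructor <;> linarith

theorem outer_of_farc (M : Msh R δ κ L n m) {z : ℂ} (hz : z ∈ farc R) :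
    ∃ g ∈ R.outer δ, ((R.x0 δ ≤ g.1 ∧ g.1 ≤ R.x1 δ) ∧ (-1 ≤ g.2 ∧ g.2 ≤ R.y1 δ)) ∧
      |z.re - δ * g.1| ≤ δ ∧ |z.im - δ * (g.2 + 1)| ≤ δ := by
  have hd := M.d0
  obtain ⟨b1, b2⟩ := M.p1
  obtain ⟨c1, c2⟩ := M.p2
  have hx0 := M.sm.x0
  have hx1 := M.sm.x1
  have hy1 := M.sm.y1
  have ht0 := M.sm.t0
  have ht1 := M.sm.t1
  rcases hz with ⟨h1, h2, h3⟩ | ⟨h1, h2, h3⟩ | ⟨h1, h2, h3⟩
  · have f0 : 0 ≤ ⌊z.re / δ⌋ := Int.floor_nonneg.mpr (div_nonneg h2 hd.le)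
    have f1 : 0 ≤ min (R.x1 δ) ⌊z.re / δ⌋ := le_min (by omega) f0
    have f2 := min_le_left (R.x1 δ) ⌊z.re / δ⌋
    refine ⟨(min (R.x1 δ) ⌊z.re / δ⌋, -1), Or.inl ⟨rfl, f1, f2⟩,
      ⟨⟨?_, f2⟩, le_refl _, ?_⟩, ?_, ?_⟩
    · simp only; omega
    · simp only; omega
    · exact round_min hd h3 b1
    · rw [h1]
      simp
      exact hd.le
  · have f0 : 0 ≤ ⌊z.im / δ⌋ := Int.floor_nonneg.mpr (div_nonneg h2 hd.le)
    have f1 : 0 ≤ min (R.y1 δ) ⌊z.im / δ⌋ := le_min (by omega) f0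
    have f2 := min_le_left (R.y1 δ) ⌊z.im / δ⌋
    refine ⟨(R.x1 δ, min (R.y1 δ) ⌊z.im / δ⌋), Or.inr (Or.inl ⟨rfl, ?_, f2⟩),
      ⟨⟨?_, le_refl _⟩, ?_, f2⟩, ?_, ?_⟩
    · simp only; omega
    · simp only; omega
    · simp only; omega
    · rw [h1]
      simp only
      rw [abs_le]
      constructor <;> linarith
    · exact round_ht hd h3 c1
  · have f0 : R.tc δ ≤ ⌊z.re / δ⌋ := by
      unfold Rect.tc
      exact Int.floor_le_floor (div_le_div_of_nonneg_right h2 hd.le)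
    have f1 : R.tc δ ≤ min (R.x1 δ) ⌊z.re / δ⌋ := le_min (by omega) f0
    have f2 := min_le_left (R.x1 δ) ⌊z.re / δ⌋
    refine ⟨(min (R.x1 δ) ⌊z.re / δ⌋, R.y1 δ), Or.inr (Or.inr ⟨rfl, f1, f2⟩),
      ⟨⟨?_, f2⟩, ?_, le_refl _⟩, ?_, ?_⟩
    · simp only; omega
    · simp only; omega
    · exact round_min hd h3 b1
    · rw [h1]
      simp only
      rw [abs_le]
      constructor <;> linarith

end FarL

theorem far : S_SML → S_POT → S_CA → S_CB → S_FAR := by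
  intro hsml hpot hCA hCB R ε hε
  have hH := R.hH
  obtain ⟨κ, hκ⟩ : ∃ κ : ℝ, κ = min (ε / 20) (R.H / 2) := ⟨_, rfl⟩
  have hκ0 : 0 < κ := by rw [hκ]; exact lt_min (by positivity) (by positivity)
  have hκ1 : 20 * κ ≤ ε := by
    have : κ ≤ ε / 20 := by rw [hκ]; exact min_le_left _ _
    linarith
  have hκH : κ ≤ R.H / 2 := by rw [hκ]; exact min_le_right _ _
  obtain ⟨cA, CA, dA, hcA, hCA0, hdA, hdA1, hA⟩ := hCA R (κ / 2) (by positivity)
  obtain ⟨cB, CB, dB, hcB, hCB0, hdB, hdB1, hB⟩ := hCB R (2 * κ) (by positivity)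
  obtain ⟨d1, hd1, hd11, n, hM⟩ := FwL.msh hsml R hκ0 hκH
  refine ⟨min cA cB, (2 * n + 3) ^ 2 * (CA + CB), min d1 (min dA dB), lt_min hcA hcB,
    by positivity, lt_min hd1 (lt_min hdA hdB), (min_le_left _ _).trans hd11, ?_⟩
  intro δ hδ hlt q hq0 hq1
  have l1 : δ < d1 := lt_of_lt_of_le hlt (min_le_left _ _)
  have l2 : δ < dA := lt_of_lt_of_le hlt ((min_le_right _ _).trans (min_le_left _ _))
  have l3 : δ < dB := lt_of_lt_of_le hlt ((min_le_right _ _).trans (min_le_right _ _))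
  obtain ⟨L, m, M⟩ := hM δ hδ l1
  have hX : 0 ≤ (q - 1/2) ^ (4/3 : ℝ) / δ :=
    div_nonneg (Real.rpow_nonneg (by linarith) _) hδ.le
  refine le_trans ?_ (FwL.fin_bound (cA := cA) (cB := cB) (CA := CA) (CB := CB) hX
    (by positivity : (0:ℝ) ≤ (2 * (n:ℝ) + 3) ^ 2) hCA0.le hCB0.le)
  rw [← FwL.Ix_card n]
  have ok : Ok (fun _ : Edg => q) := okq (by linarith) hq1
  refine le_trans ?_ (FwL.pr_bad ok (R.edges δ) (FwL.Ix (n : ℤ)) (FwL.C1 R δ κ L)
    (FwL.C2 (R.outer δ) L m)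
    (fun k F => ¬ HA R δ (max (R.x0 δ) ((k.1 - 1) * L)) (min (R.x1 δ) ((k.1 + 1) * L))
      (max 0 ((k.2 - 1) * L)) (min (R.y1 δ) ((k.2 + 2) * L)) F)
    (fun k F => HB R δ (k.1 * L - 1) ((k.1 + 1) * L + 1) (k.2 * L - 1) ((k.2 + 1) * L + 1) F)
    (mul_nonneg hCA0.le (Real.exp_nonneg _)) (mul_nonneg hCB0.le (Real.exp_nonneg _)) ?_ ?_)
  · apply Pr_mono ok
    intro F hF hlt'
    by_contra hcon
    push Not at hcon
    apply absurd hlt'
    rw [not_lt]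
    refine le_trans (FwL.det hpot M hF (farc R) (R.outer δ) (R.outer δ) ?_ ?_
      (fun g hg => FarL.farc_of_outer M hg) (fun z hz => FarL.outer_of_farc M hz)) hκ1
    · intro k hk v f _ hf _ hf2 hC2
      exact (hcon k hk).2 hC2 ⟨f, hf, hf2⟩
    · intro k hk hC1 g hg hg1 hg2
      have hL := M.L0
      constructor
      · have h1 := (hcon k hk).1 hC1
        exact FwL.HA.mono (le_max_right _ _) (min_le_right _ _) (le_max_right _ _)
          (min_le_right _ _) h1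
      · refine ⟨g, ⟨g, hg, DReach.refl _ _⟩, ?_⟩
        unfold inR
        refine ⟨⟨?_, hg1.2.le⟩, ?_, ?_⟩
        · nlinarith
        · nlinarith
        · nlinarith
  · intro k _ hk
    exact hA δ hδ l2 _ _ _ _ (le_max_left _ _) hk.1 (min_le_left _ _) (le_max_left _ _)
      (min_le_left _ _) hk.2 q hq0 hq1
  · intro k _ hk
    have hL := M.L0
    have hL1 := M.L1
    have hk5 := M.k5
    refine hB δ hδ l3 _ _ _ _ m ?_ ?_ ?_ ?_ M.m1 hk q hq0 hq1
    · nlinarith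
    · nlinarith
    · push_cast
      nlinarith
    · push_cast
      nlinarith

end NI38
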