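import Pool.Agent.Helper38K9.NI.Stm

/-! Leaf [IBP]: probabilities of events of a finite random set. -/

namespace NI38

open H974 H973 H934E Finset MeasureTheory TopologicalSpace Filter Topology

theorem ibp : S_IBP := by
  intro Ω _ μ S p F hp hF A
  classical
  have hset : {ω | A (F ω)} = ⋃ T ∈ S.powerset.filter A, {ω | F ω = T} := by
    ext ω
    simp only [Set.mem_ofPred_eq, Set.mem_iUnion, Finset.mem_filter, Finset.mem_powerset,
      exists_prop]
    constructor
    · intro h
      exact ⟨F ω, ⟨hF.1 ω, h⟩, rfl⟩
    · rintro ⟨T, ⟨_, h2⟩, h3⟩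
      rw [h3]
      exact h2
  have hm : ∀ T ∈ S.powerset.filter A, MeasurableSet {ω | F ω = T} := by
    intro T hT
    exact (hF.2 T (Finset.mem_powerset.mp (Finset.mem_filter.mp hT).1)).1
  constructor
  · rw [hset]
    exact Finset.measurableSet_biUnion _ hm
  · rw [hset, measure_biUnion_finset ?_ hm]
    · rw [Finset.sum_congr rfl (fun T hT =>
        (hF.2 T (Finset.mem_powerset.mp (Finset.mem_filter.mp hT).1)).2),
        ← ENNReal.ofReal_sum_of_nonneg]
      · congr 1
        unfold Pr Ex
        rw [Finset.sum_filter]
        apply Finset.sum_congr rfl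
        intro T _
        by_cases hT : A T
        · simp only [if_pos hT, ind_of hT, mul_one]
        · simp only [if_neg hT, ind_not_of hT, mul_zero]
      · intro T _
        apply mul_nonneg
        · exact Finset.prod_nonneg (fun e _ => (hp e).1)
        · exact Finset.prod_nonneg (fun e _ => by linarith [(hp e).2])
    · intro T _ U _ hTU
      rw [Function.onFun, Set.disjoint_left]
      intro ω h1 h2
      exact hTU (h1.symm.trans h2)

end NI38
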