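import Pool.Agent.Helper38K9.NI.Stm

/-!
[LAW]: laws of the traces in the window.
-/

set_option maxHeartbeats 400000

namespace NI38

open H974 H973 H934E Finset MeasureTheory TopologicalSpace Filter Topology

theorem lawpM_apply (R : Rect) {δ : ℝ} (hδ : 0 < δ) (p : Edg → unitInterval)
    {G : Set (NonemptyCompacts ℂ)} (hG : MeasurableSet G) :
    lawpM R hδ p G = ENNReal.ofReal (Pr (fun e => (p e : ℝ)) (R.edges δ)
      (fun F => R.trace hδ F ∈ G)) := by
  classical
  unfold lawpM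
  rw [Measure.finsetSum_apply]
  have hw : ∀ F : Finset Edg, 0 ≤ (∏ e ∈ F, (p e : ℝ)) * ∏ e ∈ R.edges δ \ F, (1 - (p e : ℝ)) := by
    intro F
    apply mul_nonneg
    · exact Finset.prod_nonneg (fun e _ => (p e).2.1)
    · exact Finset.prod_nonneg (fun e _ => by linarith [(p e).2.2])
  unfold Pr Ex
  rw [ENNReal.ofReal_sum_of_nonneg (fun F _ => mul_nonneg (hw F) (ind_nonneg _))]
  apply Finset.sum_congr rfl
  intro F _
  rw [Measure.smul_apply, Measure.dirac_apply' _ hG, smul_eq_mul, ENNReal.ofReal_mul (hw F)]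
  congr 1
  by_cases h : R.trace hδ F ∈ G
  · rw [ind_of h, Set.indicator_of_mem h]; simp
  · rw [ind_not_of h, Set.indicator_of_notMem h]; simp

theorem law_eq_lawp (R : Rect) {δ : ℝ} (hδ : 0 < δ) (p : Edg → unitInterval)
    (hp : ∀ e, (p e : ℝ) = 1/2) : R.lawM hδ = lawpM R hδ p := by
  ext G hG
  rw [R.lawM_apply hδ hG, lawpM_apply R hδ p hG]
  have : (fun e => (p e : ℝ)) = (fun _ : Edg => (1/2 : ℝ)) := funext hp
  rw [this]

theorem meas_trace (ibp : S_IBP) {Ω : Type} [MeasurableSpace Ω] {μ : Measure Ω} {R : Rect}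
    {δ : ℝ} (hδ : 0 < δ) {p : Edg → ℝ} (hp : ∀ e, 0 ≤ p e ∧ p e ≤ 1) {F : Ω → Finset Edg}
    (hF : IsBer μ (R.edges δ) p F) : Measurable (fun ω => R.trace hδ (F ω)) := by
  intro G _
  exact (ibp Ω μ (R.edges δ) p F hp hF (fun F => R.trace hδ F ∈ G)).1

theorem lawpM_eq_map (ibp : S_IBP) {Ω : Type} [MeasurableSpace Ω] {μ : Measure Ω} {R : Rect}
    {δ : ℝ} (hδ : 0 < δ) (p : Edg → unitInterval) {F : Ω → Finset Edg}
    (hF : IsBer μ (R.edges δ) (fun e => (p e : ℝ)) F) :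
    lawpM R hδ p = μ.map (fun ω => R.trace hδ (F ω)) := by
  have hp : ∀ e, 0 ≤ (fun e => (p e : ℝ)) e ∧ (fun e => (p e : ℝ)) e ≤ 1 := fun e => (p e).2
  ext G hG
  rw [lawpM_apply R hδ p hG, Measure.map_apply (meas_trace ibp hδ hp hF) hG]
  exact ((ibp Ω μ (R.edges δ) _ F hp hF (fun F => R.trace hδ F ∈ G)).2).symm

theorem int_diff {Ω E : Type*} [MeasurableSpace Ω] (ν : Measure Ω) [IsProbabilityMeasure ν]
    [PseudoMetricSpace E] [MeasurableSpace E] [BorelSpace E] {X Y : Ω → E} (hX : Measurable X)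
    (hY : Measurable Y) (f : E → ℝ) (Cb : ℝ) (hCb : 0 ≤ Cb)
    (hb : ∀ x y, dist (f x) (f y) ≤ Cb) (L : NNReal)
    (hL : LipschitzWith L f) (ε : ℝ) (hε : 0 ≤ ε) (η : ℝ) (hη : 0 ≤ η)
    (hν : ν {ω | ε < dist (X ω) (Y ω)} ≤ ENNReal.ofReal η) :
    |∫ x, f x ∂(ν.map X) - ∫ x, f x ∂(ν.map Y)| ≤ L * ε + Cb * η := by
  have hfm : Measurable f := hL.continuous.measurable
  obtain ⟨ω0⟩ : Nonempty Ω := by
    by_contra h
    rw [not_nonempty_iff] at h
    have h1 : ν Set.univ = 1 := measure_univ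
    rw [Set.univ_eq_empty_iff.mpr h, measure_empty] at h1
    exact zero_ne_one h1
  have hbd : ∀ x, ‖f x‖ ≤ ‖f (X ω0)‖ + Cb := by
    intro x
    have h1 := hb x (X ω0)
    rw [Real.dist_eq] at h1
    have h2 := abs_sub_abs_le_abs_sub (f x) (f (X ω0))
    rw [Real.norm_eq_abs, Real.norm_eq_abs]
    linarith
  have iX : Integrable (fun ω => f (X ω)) ν :=
    Integrable.of_bound (hfm.comp hX).aestronglyMeasurable _ (ae_of_all _ fun ω => hbd _)
  have iY : Integrable (fun ω => f (Y ω)) ν :=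
    Integrable.of_bound (hfm.comp hY).aestronglyMeasurable _ (ae_of_all _ fun ω => hbd _)
  set T := toMeasurable ν {ω | ε < dist (X ω) (Y ω)} with hT
  have hTm : MeasurableSet T := measurableSet_toMeasurable _ _
  have hTν : ν T ≤ ENNReal.ofReal η := by rw [hT, measure_toMeasurable]; exact hν
  rw [integral_map hX.aemeasurable hfm.aestronglyMeasurable,
    integral_map hY.aemeasurable hfm.aestronglyMeasurable, ← integral_sub iX iY,
    ← Real.norm_eq_abs]
  have hg : Integrable (fun ω => L * ε + Cb * T.indicator (fun _ => (1:ℝ)) ω) ν :=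
    (integrable_const _).add (((integrable_const (1:ℝ)).indicator hTm).const_mul Cb)
  refine (norm_integral_le_of_norm_le hg (ae_of_all _ fun ω => ?_)).trans ?_
  · show ‖f (X ω) - f (Y ω)‖ ≤ L * ε + Cb * T.indicator (fun _ => (1:ℝ)) ω
    by_cases hω : ε < dist (X ω) (Y ω)
    · have hωT : ω ∈ T := subset_toMeasurable _ _ hω
      rw [Set.indicator_of_mem hωT, mul_one]
      have h1 := hb (X ω) (Y ω)
      rw [dist_eq_norm] at h1
      have : 0 ≤ (L : ℝ) * ε := by positivity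
      linarith
    · rw [not_lt] at hω
      have h1 := hL.dist_le_mul (X ω) (Y ω)
      rw [dist_eq_norm] at h1
      have h2 : (L : ℝ) * dist (X ω) (Y ω) ≤ L * ε :=
        mul_le_mul_of_nonneg_left hω (NNReal.coe_nonneg L)
      have h3 : 0 ≤ Cb * T.indicator (fun _ => (1:ℝ)) ω := by
        apply mul_nonneg hCb
        apply Set.indicator_nonneg
        intro _ _
        norm_num
      linarith
  · rw [integral_add (integrable_const _)
      (((integrable_const (1:ℝ)).indicator hTm).const_mul Cb), integral_const, probReal_univ,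
      one_smul, integral_const_mul, integral_indicator_const (1:ℝ) hTm, smul_eq_mul, mul_one]
    have h1 : ν.real T ≤ η := by
      rw [measureReal_def]
      exact ENNReal.toReal_le_of_le_ofReal hη hTν
    nlinarith [mul_le_mul_of_nonneg_left h1 hCb]

theorem law : S_CPL → S_UNI → S_IBP → S_LAW := by
  intro cpl uni ibp R δ hδ hδ0 p x hpx hx0 μ
  set ν := Measure.infinitePi (fun _ : Edg => (volume : Measure unitInterval)) with hν
  have hxn : ∀ n, 0 ≤ x n := fun n => le_trans (abs_nonneg _) (hpx n (0, 0, true))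
  let half : unitInterval := ⟨1/2, by norm_num, by norm_num⟩
  let Fc : (Edg → ℝ) → ℕ → (Edg → unitInterval) → Finset Edg := fun q n U =>
    (R.edges (δ n)).filter (fun e => (U e : ℝ) ≤ q e)
  have okx : ∀ n, ∀ e : Edg, 0 ≤ (fun e => (p n e : ℝ)) e ∧ (fun e => (p n e : ℝ)) e ≤ 1 :=
    fun n e => (p n e).2
  have okh : ∀ e : Edg, 0 ≤ (fun _ : Edg => (half : ℝ)) e ∧ (fun _ : Edg => (half : ℝ)) e ≤ 1 :=
    fun _ => half.2
  have hX : ∀ n, IsBer ν (R.edges (δ n)) (fun e => (p n e : ℝ))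
      (Fc (fun e => (p n e : ℝ)) n) := fun n => uni _ _ (okx n)
  have hY : ∀ n, IsBer ν (R.edges (δ n)) (fun _ => (half : ℝ))
      (Fc (fun _ => (half : ℝ)) n) := fun n => uni _ _ okh
  have e1 : ∀ n, ((lawp R (hδ n) (p n)) : Measure (NonemptyCompacts ℂ)) =
      ν.map (fun U => R.trace (hδ n) (Fc (fun e => (p n e : ℝ)) n U)) :=
    fun n => lawpM_eq_map ibp (hδ n) (p n) (hX n)
  have e2 : ∀ n, (R.law (hδ n) : Measure (NonemptyCompacts ℂ)) =
      ν.map (fun U => R.trace (hδ n) (Fc (fun _ => (half : ℝ)) n U)) :=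
    fun n => (law_eq_lawp R (hδ n) (fun _ => half) (fun _ => rfl)).trans
      (lawpM_eq_map ibp (hδ n) (fun _ => half) (hY n))
  have key : ∀ f : NonemptyCompacts ℂ → ℝ, (∃ C : ℝ, ∀ x y, dist (f x) (f y) ≤ C) →
      (∃ L, LipschitzWith L f) →
      Tendsto (fun n => ∫ ω, f ω ∂(lawp R (hδ n) (p n) : Measure (NonemptyCompacts ℂ)) -
        ∫ ω, f ω ∂(R.law (hδ n) : Measure (NonemptyCompacts ℂ))) atTop (𝓝 0) := by
    rintro f ⟨Cb, hb⟩ ⟨L, hL⟩
    rw [Metric.tendsto_nhds]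
    intro ε' hε'
    have hCb : 0 ≤ Cb := le_trans dist_nonneg (hb (R.trace (hδ 0) ∅) (R.trace (hδ 0) ∅))
    have hLn : (0:ℝ) ≤ L := NNReal.coe_nonneg L
    obtain ⟨C, δ0, hC, hδ0', hδ01, HC⟩ := cpl R (ε' / (2 * (L + 1))) (by positivity)
    have ev1 : ∀ᶠ n in atTop, δ n < δ0 := hδ0.eventually_lt_const hδ0'
    have ev3 : ∀ᶠ n in atTop, δ n < 1 := hδ0.eventually_lt_const one_pos
    have ev2 : ∀ᶠ n in atTop, x n * δ n ^ (-(3/4:ℝ)) < min (1/2) (ε' / (2 * (Cb * C + 1))) :=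
      hx0.eventually_lt_const (by positivity)
    filter_upwards [ev1, ev2, ev3] with n h1 h2 h3
    have hδp : 1 ≤ δ n ^ (-(3/4:ℝ)) :=
      Real.one_le_rpow_of_pos_of_le_one_of_nonpos (hδ n) h3.le (by norm_num)
    have h2a : x n * δ n ^ (-(3/4:ℝ)) < 1/2 := lt_of_lt_of_le h2 (min_le_left _ _)
    have h2b : x n * δ n ^ (-(3/4:ℝ)) < ε' / (2 * (Cb * C + 1)) :=
      lt_of_lt_of_le h2 (min_le_right _ _)
    have hx12 : x n ≤ 1/2 := by
      have : x n * 1 ≤ x n * δ n ^ (-(3/4:ℝ)) := mul_le_mul_of_nonneg_left hδp (hxn n)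
      linarith
    have okm : ∀ e : Edg, 0 ≤ (fun _ : Edg => 1/2 - x n) e ∧ (fun _ : Edg => 1/2 - x n) e ≤ 1 := by
      intro e
      constructor
      · show 0 ≤ 1/2 - x n
        linarith
      · show 1/2 - x n ≤ 1
        linarith [hxn n]
    have okp : ∀ e : Edg, 0 ≤ (fun _ : Edg => 1/2 + x n) e ∧ (fun _ : Edg => 1/2 + x n) e ≤ 1 := by
      intro e
      constructor
      · show 0 ≤ 1/2 + x n
        linarith [hxn n]
      · show 1/2 + x n ≤ 1
        linarith
    have hsub : ∀ q q' : Edg → ℝ, (∀ e, q e ≤ q' e) → ∀ U, Fc q n U ⊆ Fc q' n U := by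
      intro q q' hqq U e he
      have he' := Finset.mem_filter.mp he
      exact Finset.mem_filter.mpr ⟨he'.1, he'.2.trans (hqq e)⟩
    have hc := HC (δ n) (hδ n) h1 (x n) (hxn n) hx12 (Edg → unitInterval) ν
      (Fc (fun _ => 1/2 - x n) n) (Fc (fun _ => 1/2 + x n) n) (uni _ _ okm) (uni _ _ okp)
      (hsub _ _ (fun e => by linarith [hxn n]))
    have hd : ν {U | ε' / (2 * (L + 1)) < dist (R.trace (hδ n) (Fc (fun e => (p n e : ℝ)) n U))
        (R.trace (hδ n) (Fc (fun _ => (half : ℝ)) n U))} ≤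
        ENNReal.ofReal (C * x n * δ n ^ (-(3/4 : ℝ))) := by
      refine (measure_mono ?_).trans hc
      intro U hU
      refine ⟨Fc (fun e => (p n e : ℝ)) n U, Fc (fun _ => (half : ℝ)) n U,
        ⟨hsub _ _ (fun e => ?_) U, hsub _ _ (fun e => ?_) U⟩,
        ⟨hsub _ _ (fun e => ?_) U, hsub _ _ (fun e => ?_) U⟩, hU⟩
      · have := (abs_le.mp (hpx n e)).1
        linarith
      · have := (abs_le.mp (hpx n e)).2
        linarith
      · show 1/2 - x n ≤ 1/2
        linarith [hxn n]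
      · show 1/2 ≤ 1/2 + x n
        linarith [hxn n]
    have hxd : 0 ≤ x n * δ n ^ (-(3/4:ℝ)) :=
      mul_nonneg (hxn n) (Real.rpow_nonneg (hδ n).le _)
    have hfin := int_diff ν (meas_trace ibp (hδ n) (okx n) (hX n))
      (meas_trace ibp (hδ n) okh (hY n)) f Cb hCb hb L hL (ε' / (2 * (L + 1))) (by positivity)
      (C * x n * δ n ^ (-(3/4 : ℝ))) (by rw [mul_assoc]; positivity) hd
    rw [e1 n, e2 n, Real.dist_eq, sub_zero]
    refine lt_of_le_of_lt hfin ?_
    have a1 : (L : ℝ) * (ε' / (2 * (L + 1))) ≤ ε' / 2 := by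
      rw [mul_div_assoc', div_le_div_iff₀ (by positivity) (by norm_num)]
      nlinarith
    have a2 : Cb * (C * x n * δ n ^ (-(3/4 : ℝ))) < ε' / 2 := by
      have a3 : Cb * C * (x n * δ n ^ (-(3/4 : ℝ))) ≤ Cb * C * (ε' / (2 * (Cb * C + 1))) :=
        mul_le_mul_of_nonneg_left h2b.le (by positivity)
      have a4 : Cb * C * (ε' / (2 * (Cb * C + 1))) < ε' / 2 := by
        rw [mul_div_assoc', div_lt_div_iff₀ (by positivity) (by norm_num)]
        have : 0 ≤ Cb * C := by positivity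
        nlinarith
      calc Cb * (C * x n * δ n ^ (-(3/4 : ℝ))) = Cb * C * (x n * δ n ^ (-(3/4 : ℝ))) := by ring
        _ ≤ _ := a3
        _ < _ := a4
    linarith
  rw [tendsto_iff_forall_lipschitz_integral_tendsto,
    tendsto_iff_forall_lipschitz_integral_tendsto]
  constructor
  · intro h f hb hL
    have h1 := (h f hb hL).sub (key f hb hL)
    simpa using h1
  · intro h f hb hL
    have h1 := (h f hb hL).add (key f hb hL)
    simpa using h1

end NI38
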