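import Pool.Agent.Helper38K9.NI.Stm

/-!
[SML]: small meshes.
-/

set_option maxHeartbeats 1000000

namespace NI38

open H974 H973 H934E Finset

theorem sml : S_SML := by
  intro R
  obtain ⟨m, hm⟩ : ∃ m, m = min 1 (min (R.A / 4) (min (R.B / 4) (min ((R.t + R.A) / 4)
    (min ((R.B - R.t) / 4) (R.H / 8))))) := ⟨_, rfl⟩
  have hA := R.hA
  have hB := R.hB
  have hH := R.hH
  have ht1 := R.ht1
  have ht2 := R.ht2
  have m1 : m ≤ 1 := by rw [hm]; exact min_le_left _ _
  have m2 : m ≤ R.A / 4 := by
    rw [hm]; exact (min_le_right _ _).trans (min_le_left _ _)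
  have m3 : m ≤ R.B / 4 := by
    rw [hm]; exact (min_le_right _ _).trans ((min_le_right _ _).trans (min_le_left _ _))
  have m4 : m ≤ (R.t + R.A) / 4 := by
    rw [hm]; exact (min_le_right _ _).trans ((min_le_right _ _).trans ((min_le_right _ _).trans
      (min_le_left _ _)))
  have m5 : m ≤ (R.B - R.t) / 4 := by
    rw [hm]; exact (min_le_right _ _).trans ((min_le_right _ _).trans ((min_le_right _ _).trans
      ((min_le_right _ _).trans (min_le_left _ _))))
  have m6 : m ≤ R.H / 8 := by
    rw [hm]; exact (min_le_right _ _).trans ((min_le_right _ _).trans ((min_le_right _ _).trans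
      ((min_le_right _ _).trans (min_le_right _ _))))
  have m0 : 0 < m := by
    rw [hm]
    refine lt_min one_pos (lt_min (by linarith) (lt_min (by linarith) (lt_min (by linarith)
      (lt_min (by linarith) (by linarith)))))
  refine ⟨m, m0, m1, ?_⟩
  intro δ hδ hlt
  have p1 : -R.A < δ * R.x0 δ ∧ δ * R.x0 δ ≤ -R.A + δ := by
    unfold Rect.x0
    have h1 := Int.floor_le (-(R.A / δ))
    have h2 := Int.lt_floor_add_one (-(R.A / δ))
    push_cast
    have e : δ * (-(R.A / δ)) = -R.A := by field_simp
    constructor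
    · have := mul_lt_mul_of_pos_left h2 hδ
      rwa [e] at this
    · have := mul_le_mul_of_nonneg_left h1 hδ.le
      rw [e] at this
      linarith
  have p2 : R.B - δ ≤ δ * R.x1 δ ∧ δ * R.x1 δ < R.B := by
    unfold Rect.x1
    have h1 := Int.le_ceil (R.B / δ)
    have h2 := Int.ceil_lt_add_one (R.B / δ)
    push_cast
    have e : δ * (R.B / δ) = R.B := by field_simp
    constructor
    · have := mul_le_mul_of_nonneg_left h1 hδ.le
      rw [e] at this
      linarith
    · have := mul_lt_mul_of_pos_left h2 hδ
      rw [mul_add, e] at this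
      linarith
  have p3 : R.H - 2 * δ ≤ δ * R.y1 δ ∧ δ * R.y1 δ < R.H - δ := by
    unfold Rect.y1
    have h1 := Int.le_ceil (R.H / δ)
    have h2 := Int.ceil_lt_add_one (R.H / δ)
    push_cast
    have e : δ * (R.H / δ) = R.H := by field_simp
    constructor
    · have := mul_le_mul_of_nonneg_left h1 hδ.le
      rw [e] at this
      linarith
    · have := mul_lt_mul_of_pos_left h2 hδ
      rw [mul_add, e] at this
      linarith
  have p4 : R.t - δ < δ * R.tc δ ∧ δ * R.tc δ ≤ R.t := by
    unfold Rect.tc
    have h1 := Int.floor_le (R.t / δ)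
    have h2 := Int.lt_floor_add_one (R.t / δ)
    have e : δ * (R.t / δ) = R.t := by field_simp
    constructor
    · have := mul_lt_mul_of_pos_left h2 hδ
      rw [mul_add, e] at this
      linarith
    · have := mul_le_mul_of_nonneg_left h1 hδ.le
      rwa [e] at this
  have conv : ∀ u v : ℤ, δ * (u:ℝ) < δ * v → u < v := by
    intro u v h
    have := lt_of_mul_lt_mul_left h hδ.le
    exact_mod_cast this
  refine ⟨⟨?_, ?_, ?_, ?_, ?_⟩, p1, p2, p3, p4⟩
  · apply conv; push_cast; linarith [p1.2]
  · apply conv; push_cast; linarith [p2.1]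
  · apply conv; push_cast; linarith [p1.2, p4.1]
  · apply conv; push_cast; linarith [p4.2, p2.1]
  · apply conv; push_cast; linarith [p3.1]

end NI38
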