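import Pool.Agent.Helper38K9.NI.Cv

/-!
[STB]: near-critical stability in a rectangle minus a box.
-/

set_option maxHeartbeats 1000000

namespace NI38

open H974 H12S H973N H973N.WHX Finset TH291.NW

namespace StbL

theorem isClosed_Rc (δ : ℝ) (X0 X1 Y0 Y1 : ℤ) : IsClosed (Rc δ X0 X1 Y0 Y1) := by
  have c1 : Continuous (fun x : ℝ × ℝ => x.1) := continuous_fst
  have c2 : Continuous (fun x : ℝ × ℝ => x.2) := continuous_snd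
  have e : Rc δ X0 X1 Y0 Y1 = ({x : ℝ × ℝ | δ * X0 ≤ x.1} ∩ {x : ℝ × ℝ | x.1 ≤ δ * X1}) ∩
      ({x : ℝ × ℝ | δ * Y0 ≤ x.2} ∩ {x : ℝ × ℝ | x.2 ≤ δ * Y1}) := rfl
  rw [e]
  exact ((isClosed_le continuous_const c1).inter (isClosed_le c1 continuous_const)).inter
    ((isClosed_le continuous_const c2).inter (isClosed_le c2 continuous_const))

theorem isOpen_Ro (δ : ℝ) (X0 X1 Y0 Y1 : ℤ) : IsOpen (Ro δ X0 X1 Y0 Y1) := by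
  have c1 : Continuous (fun x : ℝ × ℝ => x.1) := continuous_fst
  have c2 : Continuous (fun x : ℝ × ℝ => x.2) := continuous_snd
  have e : Ro δ X0 X1 Y0 Y1 = ({x : ℝ × ℝ | δ * X0 < x.1} ∩ {x : ℝ × ℝ | x.1 < δ * X1}) ∩
      ({x : ℝ × ℝ | δ * Y0 < x.2} ∩ {x : ℝ × ℝ | x.2 < δ * Y1}) := rfl
  rw [e]
  exact ((isOpen_lt continuous_const c1).inter (isOpen_lt c1 continuous_const)).inter
    ((isOpen_lt continuous_const c2).inter (isOpen_lt c2 continuous_const))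

theorem Ro_sub_Rc (δ : ℝ) (X0 X1 Y0 Y1 : ℤ) : Ro δ X0 X1 Y0 Y1 ⊆ Rc δ X0 X1 Y0 Y1 :=
  fun _ h => ⟨⟨h.1.1.le, h.1.2.le⟩, h.2.1.le, h.2.2.le⟩

theorem frontier_Dm {δ : ℝ} {X0 X1 Y0 Y1 a b c d : ℤ} {P : Set (ℝ × ℝ)}
    (hP : P ⊆ Rc δ X0 X1 Y0 Y1) : frontier (Dm δ X0 X1 Y0 Y1 a b c d P) ⊆
      (Rc δ X0 X1 Y0 Y1 \ Ro δ X0 X1 Y0 Y1) ∪ (Rc δ a b c d \ Ro δ a b c d) := by
  intro x hx
  have hsub : Dm δ X0 X1 Y0 Y1 a b c d P ⊆ Rc δ X0 X1 Y0 Y1 := by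
    rintro y ⟨hy | hy, _⟩
    · exact Ro_sub_Rc _ _ _ _ _ hy
    · exact hP hy
  have h1 : x ∈ Rc δ X0 X1 Y0 Y1 :=
    closure_minimal hsub (isClosed_Rc _ _ _ _ _) (frontier_subset_closure hx)
  have h2 : x ∉ Ro δ a b c d := by
    have hsub2 : Dm δ X0 X1 Y0 Y1 a b c d P ⊆ (Ro δ a b c d)ᶜ := fun y hy => hy.2
    exact closure_minimal hsub2 (isOpen_Ro _ _ _ _ _).isClosed_compl
      (frontier_subset_closure hx)
  by_cases h3 : x ∈ Ro δ X0 X1 Y0 Y1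
  · right
    refine ⟨?_, h2⟩
    by_contra hc
    have hop : IsOpen (Ro δ X0 X1 Y0 Y1 ∩ (Rc δ a b c d)ᶜ) :=
      (isOpen_Ro _ _ _ _ _).inter (isClosed_Rc _ _ _ _ _).isOpen_compl
    have hin : Ro δ X0 X1 Y0 Y1 ∩ (Rc δ a b c d)ᶜ ⊆ Dm δ X0 X1 Y0 Y1 a b c d P := by
      rintro y ⟨hy1, hy2⟩
      exact ⟨Or.inl hy1, fun hy3 => hy2 (Ro_sub_Rc _ _ _ _ _ hy3)⟩
    have : x ∈ interior (Dm δ X0 X1 Y0 Y1 a b c d P) := interior_maximal hin hop ⟨h3, hc⟩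
    exact hx.2 this
  · left
    exact ⟨h1, h3⟩

theorem cov_ring {δ ρ : ℝ} (hρ : 0 < ρ) {X0 X1 Y0 Y1 : ℤ}
    (h1 : |δ * (X0:ℝ)| ≤ ρ) (h2 : |δ * (X1:ℝ)| ≤ ρ) (h3 : |δ * (Y0:ℝ)| ≤ ρ)
    (h4 : |δ * (Y1:ℝ)| ≤ ρ) :
    Cov (Rc δ X0 X1 Y0 Y1 \ Ro δ X0 X1 Y0 Y1) (4 * (2 * ρ + 1)) 1 := by
  have g1 := abs_le.mp h1
  have g2 := abs_le.mp h2
  have g3 := abs_le.mp h3
  have g4 := abs_le.mp h4
  have v : ∀ c : ℝ, Cov ((fun t : ℝ => ((c, t) : ℝ × ℝ)) '' Set.Icc (δ * Y0) (δ * Y1))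
      (2 * ρ + 1) 1 := fun c => cov_curve (fun s t => by
        rw [Prod.dist_eq, max_le_iff]
        exact ⟨by simp, by simp [Real.dist_eq]⟩) (by linarith) (by linarith)
  have h : ∀ c : ℝ, Cov ((fun t : ℝ => ((t, c) : ℝ × ℝ)) '' Set.Icc (δ * X0) (δ * X1))
      (2 * ρ + 1) 1 := fun c => cov_curve (fun s t => by
        rw [Prod.dist_eq, max_le_iff]
        exact ⟨by simp [Real.dist_eq], by simp⟩) (by linarith) (by linarith)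
  refine cov_mono ?_ ?_ (cov_union (cov_union (v (δ * X0)) (v (δ * X1)))
    (cov_union (h (δ * Y0)) (h (δ * Y1))))
  · rintro ⟨x, y⟩ ⟨⟨⟨a1, a2⟩, a3, a4⟩, hno⟩
    simp only at a1 a2 a3 a4
    by_cases k1 : x = δ * X0
    · left; left; exact ⟨y, ⟨a3, a4⟩, by rw [k1]⟩
    by_cases k2 : x = δ * X1
    · left; right; exact ⟨y, ⟨a3, a4⟩, by rw [k2]⟩
    by_cases k3 : y = δ * Y0
    · right; left; exact ⟨x, ⟨a1, a2⟩, by rw [k3]⟩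
    by_cases k4 : y = δ * Y1
    · right; right; exact ⟨x, ⟨a1, a2⟩, by rw [k4]⟩
    exfalso
    apply hno
    exact ⟨⟨lt_of_le_of_ne a1 (Ne.symm k1), lt_of_le_of_ne a2 k2⟩,
      lt_of_le_of_ne a3 (Ne.symm k3), lt_of_le_of_ne a4 k4⟩
  · linarith

theorem bdy_ring {δ : ℝ} (hδ : 0 < δ) {X0 X1 Y0 Y1 : ℤ} {v : Vtx} (hv : v ∈ bdy X0 X1 Y0 Y1) :
    pt δ v ∈ Rc δ X0 X1 Y0 Y1 \ Ro δ X0 X1 Y0 Y1 := by
  obtain ⟨⟨⟨a1, a2⟩, a3, a4⟩, h⟩ := hv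
  have conv : ∀ u w : ℤ, u ≤ w → δ * (u:ℝ) ≤ δ * w := by
    intro u w h
    apply mul_le_mul_of_nonneg_left _ hδ.le
    exact_mod_cast h
  refine ⟨⟨⟨conv _ _ a1, conv _ _ a2⟩, conv _ _ a3, conv _ _ a4⟩, ?_⟩
  rintro ⟨⟨b1, b2⟩, b3, b4⟩
  simp only [pt] at b1 b2 b3 b4
  rcases h with h | h | h | h
  · rw [h] at b1; exact lt_irrefl _ b1
  · rw [h] at b2; exact lt_irrefl _ b2
  · rw [h] at b3; exact lt_irrefl _ b3
  · rw [h] at b4; exact lt_irrefl _ b4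

end StbL

open StbL

theorem stb : S_STB := by
  intro hst ρ hρ
  obtain ⟨C, hC, hmain⟩ := dom_stab hst ρ (8 * (2 * ρ + 1)) 1 1 (by positivity) (by norm_num)
    (by norm_num) (by norm_num)
  refine ⟨C, hC, ?_⟩
  intro δ hδ hδ1 X0 X1 Y0 Y1 a b c d hX hY hab hcd hb P hP N hN I hI q h0 h1
  obtain ⟨⟨b1, b2, b3, b4⟩, b5, b6, b7, b8⟩ := hb
  refine hmain (Dm δ X0 X1 Y0 Y1 a b c d P)
    ((Rc δ X0 X1 Y0 Y1 \ Ro δ X0 X1 Y0 Y1) ∪ (Rc δ a b c d \ Ro δ a b c d))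
    (frontier_Dm hP) ?_ ?_ δ hδ hδ1 N hN I (bdy a b c d) ?_ q h0 h1
  · intro x hx
    have hx' : x ∈ Rc δ X0 X1 Y0 Y1 := by
      rcases hx with ⟨hx | hx, _⟩
      · exact Ro_sub_Rc _ _ _ _ _ hx
      · exact hP hx
    obtain ⟨⟨c1, c2⟩, c3, c4⟩ := hx'
    have g1 := abs_le.mp b1
    have g2 := abs_le.mp b2
    have g3 := abs_le.mp b3
    have g4 := abs_le.mp b4
    constructor
    · rw [abs_le]; constructor <;> linarith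
    · rw [abs_le]; constructor <;> linarith
  · refine cov_mono (le_refl _) ?_ (cov_union (cov_ring hρ b1 b2 b3 b4) (cov_ring hρ b5 b6 b7 b8))
    linarith
  · rintro v (hv | hv)
    · exact ⟨pt δ v, Or.inl (bdy_ring hδ (hI hv)), by rw [dist_self]; positivity⟩
    · exact ⟨pt δ v, Or.inr (bdy_ring hδ hv), by rw [dist_self]; positivity⟩

end NI38
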