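import Pool.Agent.Helper38K9.NI.Sta

/-!
[STD]: near-critical stability of the event that the dual cluster of the free arc meets a box.
-/

set_option maxHeartbeats 1000000

namespace NI38

open H974 H12S H973 H934E Finset TH291.NW

namespace StdL

variable {R : Rect} {δ : ℝ}

open Classical in
/-- The edges which are not wired. -/
noncomputable def K0 (R : Rect) (δ : ℝ) : Finset Edg :=
  (R.edges δ).filter (fun e => e ∉ R.wired δ)

theorem mem_K0 {e : Edg} : e ∈ K0 R δ ↔ e ∈ R.edges δ ∧ e ∉ R.wired δ := by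
  classical
  unfold K0
  rw [Finset.mem_filter]

theorem coe_K0 (F : Finset Edg) :
    (↑(R.edges δ) \ (↑F ∪ R.wired δ) : Set Edg) = ↑(K0 R δ \ F) := by
  ext e
  rw [Finset.coe_sdiff]
  simp only [Set.mem_sdiff, Set.mem_union, Finset.mem_coe, mem_K0]
  tauto

/-- The points of the outer faces. -/
def PP (R : Rect) (δ : ℝ) : Set (ℝ × ℝ) := {z | ∃ g ∈ R.outer δ, z = TH291.NW.pt δ g}

theorem conv_le {δ : ℝ} (hδ : 0 < δ) {u w : ℤ} (h : u ≤ w) : δ * (u:ℝ) ≤ δ * w := by
  apply mul_le_mul_of_nonneg_left _ hδ.le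
  exact_mod_cast h

theorem conv_lt {δ : ℝ} (hδ : 0 < δ) {u w : ℤ} (h : u < w) : δ * (u:ℝ) < δ * w := by
  apply mul_lt_mul_of_pos_left _ hδ
  exact_mod_cast h

theorem cv_lt {δ : ℝ} (hδ : 0 < δ) {u w : ℤ} (h : δ * (u:ℝ) < δ * w) : u < w := by
  have := lt_of_mul_lt_mul_left h hδ.le
  exact_mod_cast this

theorem PP_sub (hδ : 0 < δ) (hs : Sm R δ) :
    PP R δ ⊆ Rc δ (R.x0 δ - 1) (R.x1 δ) (-1) (R.y1 δ) := by
  rintro z ⟨g, hg, rfl⟩
  obtain ⟨⟨a1, a2⟩, a3, a4⟩ := PotL.outer_in hs hg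
  exact ⟨⟨conv_le hδ a1, conv_le hδ a2⟩, conv_le hδ a3, conv_le hδ a4⟩

theorem outer_bdy (hs : Sm R δ) : R.outer δ ⊆ bdy (R.x0 δ - 1) (R.x1 δ) (-1) (R.y1 δ) := by
  intro g hg
  obtain ⟨⟨a1, a2⟩, a3, a4⟩ := PotL.outer_in hs hg
  refine ⟨⟨⟨a1, a2⟩, a3, a4⟩, ?_⟩
  rcases hg with h | h | h <;> omega

theorem pt_inj (hδ : 0 < δ) {u v : Vtx} (h : TH291.NW.pt δ u = TH291.NW.pt δ v) : u = v := by
  have h1 := congrArg Prod.fst h
  have h2 := congrArg Prod.snd h
  simp only [TH291.NW.pt] at h1 h2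
  have e1 := mul_left_cancel₀ hδ.ne' h1
  have e2 := mul_left_cancel₀ hδ.ne' h2
  exact Prod.ext (by exact_mod_cast e1) (by exact_mod_cast e2)

/-- The lattice points of the domain. -/
theorem pt_dom (hδ : 0 < δ) {v : Vtx} {a b c d : ℤ}
    (h : TH291.NW.pt δ v ∈ Dm δ (R.x0 δ - 1) (R.x1 δ) (-1) (R.y1 δ) a b c d (PP R δ)) :
    ((R.x0 δ - 1 < v.1 ∧ v.1 < R.x1 δ) ∧ (-1 < v.2 ∧ v.2 < R.y1 δ)) ∨ v ∈ R.outer δ := by
  rcases h.1 with ⟨⟨b1, b2⟩, b3, b4⟩ | ⟨g, hg, he⟩
  · left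
    simp only [TH291.NW.pt] at b1 b2 b3 b4
    exact ⟨⟨cv_lt hδ b1, cv_lt hδ b2⟩, cv_lt hδ b3, cv_lt hδ b4⟩
  · right
    rw [pt_inj hδ he]
    exact hg

theorem half_int {δ : ℝ} (hδ : 0 < δ) {u w : ℤ} (h : δ * ((u:ℝ) + 1/2) = δ * w) : False := by
  have e := mul_left_cancel₀ hδ.ne' h
  have : (2 * (u:ℝ) + 1) = 2 * w := by linarith
  have h2 : 2 * u + 1 = 2 * w := by exact_mod_cast this
  omega

theorem mid_v (x y : ℤ) : (δ * (x:ℝ), δ * ((y:ℝ) + 1/2)) ∈
    segment ℝ (TH291.NW.pt δ (src (x, y, false))) (TH291.NW.pt δ (tgt (x, y, false))) := by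
  rw [segment_eq_image]
  refine ⟨1/2, ⟨by norm_num, by norm_num⟩, ?_⟩
  simp only [TH291.NW.pt, src_mk, tgt_false, Prod.smul_mk, Prod.mk_add_mk, smul_eq_mul]
  push_cast
  exact Prod.ext (by ring) (by ring)

theorem mid_h (x y : ℤ) : (δ * ((x:ℝ) + 1/2), δ * (y:ℝ)) ∈
    segment ℝ (TH291.NW.pt δ (src (x, y, true))) (TH291.NW.pt δ (tgt (x, y, true))) := by
  rw [segment_eq_image]
  refine ⟨1/2, ⟨by norm_num, by norm_num⟩, ?_⟩
  simp only [TH291.NW.pt, src_mk, tgt_true, Prod.smul_mk, Prod.mk_add_mk, smul_eq_mul]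
  push_cast
  exact Prod.ext (by ring) (by ring)

/-- The edge set of the continuous domain. -/
noncomputable def S1 (R : Rect) (δ : ℝ) (N : ℕ) (a b c d : ℤ) : Finset Edg :=
  SE (Dm δ (R.x0 δ - 1) (R.x1 δ) (-1) (R.y1 δ) a b c d (PP R δ)) δ N

theorem S1_sub (hδ : 0 < δ) (hs : Sm R δ) {N : ℕ} {a b c d : ℤ} {e : Edg}
    (he : e ∈ S1 R δ N a b c d) : dl.symm e ∈ K0 R δ := by
  unfold S1 at he
  rw [mem_SE] at he
  obtain ⟨-, he⟩ := he
  obtain ⟨s1, s2, s3, s4, s5⟩ := hs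
  have hsrc := pt_dom hδ (he (left_mem_segment ℝ _ _))
  have htgt := pt_dom hδ (he (right_mem_segment ℝ _ _))
  obtain ⟨i, j, b⟩ := e
  rw [mem_K0]
  cases b
  · -- vertical dual edge
    have hm : (δ * (i:ℝ), δ * ((j:ℝ) + 1/2)) ∈ Ro δ (R.x0 δ - 1) (R.x1 δ) (-1) (R.y1 δ) := by
      rcases (he (mid_v i j)).1 with h | ⟨g, _, h⟩
      · exact h
      · exfalso
        have h2 := congrArg Prod.snd h
        simp only [TH291.NW.pt] at h2
        exact half_int hδ h2
    obtain ⟨⟨b1, b2⟩, b3, b4⟩ := hm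
    simp only at b1 b2 b3 b4
    have c1 := cv_lt hδ b1
    have c2 := cv_lt hδ b2
    have c3 : -1 < j + 1 := by
      apply cv_lt hδ; push_cast at b3 ⊢; nlinarith
    have c4 : j < R.y1 δ := by
      apply cv_lt hδ; nlinarith
    rw [src_mk] at hsrc
    rw [tgt_false] at htgt
    rw [dls_f]
    simp only [Rect.outer, Set.mem_ofPred_eq] at hsrc htgt
    constructor
    · rw [PotL.mem_edges]
      simp only [if_true]
      omega
    · rintro (⟨d1, d2, d3, d4⟩ | ⟨d1, d2, d3, d4⟩ | ⟨d1, d2, d3, d4⟩)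
      · simp only at d1 d2 d3 d4; omega
      · simp only at d1; exact absurd d1 (by decide)
      · simp only at d1 d2 d3 d4; omega
  · have hm : (δ * ((i:ℝ) + 1/2), δ * (j:ℝ)) ∈ Ro δ (R.x0 δ - 1) (R.x1 δ) (-1) (R.y1 δ) := by
      rcases (he (mid_h i j)).1 with h | ⟨g, _, h⟩
      · exact h
      · exfalso
        have h2 := congrArg Prod.fst h
        simp only [TH291.NW.pt] at h2
        exact half_int hδ h2
    obtain ⟨⟨b1, b2⟩, b3, b4⟩ := hm
    simp only at b1 b2 b3 b4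
    have c1 : R.x0 δ - 1 < i + 1 := by
      apply cv_lt hδ; push_cast at b1 ⊢; nlinarith
    have c2 : i < R.x1 δ := by
      apply cv_lt hδ; nlinarith
    have c3 := cv_lt hδ b3
    have c4 := cv_lt hδ b4
    rw [src_mk] at hsrc
    rw [tgt_true] at htgt
    rw [dls_t]
    simp only [Rect.outer, Set.mem_ofPred_eq] at hsrc htgt
    constructor
    · rw [PotL.mem_edges]
      simp only [Bool.false_eq_true, if_false]
      omega
    · rintro (⟨d1, d2, d3, d4⟩ | ⟨d1, d2, d3, d4⟩ | ⟨d1, d2, d3, d4⟩)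
      · simp only at d1; exact absurd d1 (by decide)
      · simp only at d1 d2 d3 d4; omega
      · simp only at d1; exact absurd d1 (by decide)

theorem mem_S1 (hδ : 0 < δ) (hs : Sm R δ) {N : ℕ} {a b c d : ℤ}
    (n1 : -(N:ℤ) ≤ R.x0 δ - 1) (n2 : R.x1 δ ≤ N) (n3 : R.y1 δ ≤ N) (n4 : 1 ≤ N) {e : Edg}
    (he : dl.symm e ∈ K0 R δ) (h : ¬ inR a b c d (src e) ∨ ¬ inR a b c d (tgt e)) :
    e ∈ S1 R δ N a b c d := by
  obtain ⟨s1, s2, s3, s4, s5⟩ := hs
  rw [mem_K0] at he
  unfold S1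
  rw [mem_SE]
  obtain ⟨i, j, s⟩ := e
  cases s
  · rw [dls_f, PotL.mem_edges] at he
    simp only [if_true] at he
    obtain ⟨⟨⟨⟨e1, e2⟩, e3, e4⟩, e5⟩, hw⟩ := he
    constructor
    · rw [mem_RE_false]; omega
    · intro z hz
      refine ⟨?_, HitL.seg_avoid hδ h hz⟩
      obtain ⟨z1, z2, z3⟩ := HitL.segF hδ hz
      have c1 := conv_lt hδ (show R.x0 δ - 1 < i by omega)
      have c2 := conv_lt hδ (show i < R.x1 δ by omega)
      have c3 := conv_le hδ (show -1 ≤ j by omega)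
      have c4 := conv_le hδ (show j + 1 ≤ R.y1 δ by omega)
      push_cast at c3 c4
      by_cases k1 : z.2 = δ * (-1)
      · right
        have hj : j = -1 := by
          by_contra hne
          have := conv_le hδ (show 0 ≤ j by omega)
          push_cast at this
          linarith
        refine ⟨(i, -1), ?_, ?_⟩
        · left
          refine ⟨rfl, ?_, ?_⟩
          · show 0 ≤ i
            by_contra hc
            apply hw
            right; right
            refine ⟨rfl, ?_, ?_, ?_⟩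
            · show j + 1 = 0; omega
            · show R.x0 δ ≤ i; omega
            · show i < 0; omega
          · show i ≤ R.x1 δ; omega
        · exact Prod.ext (by rw [z1]; rfl) (by rw [k1]; simp [TH291.NW.pt])
      by_cases k2 : z.2 = δ * (R.y1 δ)
      · right
        have hj : j + 1 = R.y1 δ := by
          by_contra hne
          have := conv_lt hδ (show j + 1 < R.y1 δ by omega)
          push_cast at this
          linarith
        refine ⟨(i, R.y1 δ), ?_, ?_⟩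
        · right; right
          refine ⟨rfl, ?_, ?_⟩
          · show R.tc δ ≤ i
            by_contra hc
            apply hw
            left
            refine ⟨rfl, ?_, ?_, ?_⟩
            · show j + 1 = R.y1 δ; omega
            · show R.x0 δ ≤ i; omega
            · show i < R.tc δ; omega
          · show i ≤ R.x1 δ; omega
        · exact Prod.ext (by rw [z1]; rfl) (by rw [k2]; simp [TH291.NW.pt])
      left
      refine ⟨⟨by rw [z1]; exact c1, by rw [z1]; exact c2⟩, ?_, ?_⟩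
      · push_cast
        exact lt_of_le_of_ne (by linarith) (fun h => k1 (by rw [← h]))
      · exact lt_of_le_of_ne (by linarith) k2
  · rw [dls_t, PotL.mem_edges] at he
    simp only [Bool.false_eq_true, if_false] at he
    obtain ⟨⟨⟨⟨e1, e2⟩, e3, e4⟩, e5⟩, hw⟩ := he
    have hx : R.x0 δ ≤ i := by
      by_contra hc
      apply hw
      right; left
      refine ⟨rfl, ?_, ?_, ?_⟩
      · show i + 1 = R.x0 δ; omega
      · show 0 ≤ j; omega
      · show j < R.y1 δ; omega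
    constructor
    · rw [mem_RE_true]; omega
    · intro z hz
      refine ⟨?_, HitL.seg_avoid hδ h hz⟩
      obtain ⟨z1, z2, z3⟩ := HitL.segT hδ hz
      have c1 := conv_lt hδ (show R.x0 δ - 1 < i by omega)
      have c2 := conv_le hδ (show i + 1 ≤ R.x1 δ by omega)
      have c3 := conv_lt hδ (show -1 < j by omega)
      have c4 := conv_lt hδ (show j < R.y1 δ by omega)
      push_cast at c2
      by_cases k1 : z.1 = δ * (R.x1 δ)
      · right
        refine ⟨(R.x1 δ, j), ?_, ?_⟩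
        · right; left
          refine ⟨rfl, ?_, ?_⟩
          · show -1 ≤ j; omega
          · show j ≤ R.y1 δ; omega
        · exact Prod.ext (by rw [k1]; rfl) (by rw [z1]; rfl)
      left
      refine ⟨⟨by linarith, ?_⟩, by rw [z1]; exact c3, by rw [z1]; exact c4⟩
      exact lt_of_le_of_ne (by linarith) k1

end StdL

open StdL StaL

theorem std : StIn → S_SML → S_STB → S_STD := by
  intro hst hsml hstb R ρ hρ
  obtain ⟨δ1, hδ1, hδ11, hsm⟩ := hsml R
  have hA := R.hA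
  have hB := R.hB
  have hH := R.hH
  obtain ⟨ρ', hρ'⟩ : ∃ ρ' : ℝ, ρ' = ρ + (R.A + R.B + R.H) + 1 := ⟨_, rfl⟩
  have hρ0 : 0 < ρ' := by rw [hρ']; positivity
  obtain ⟨C, hC, hmain⟩ := hstb hst ρ' hρ0
  refine ⟨C, δ1, hC, hδ1, hδ11, ?_⟩
  intro δ hδ hlt a b c d hab hcd hb q h0 h1
  obtain ⟨hs, p1, p2, p3, p4⟩ := hsm δ hδ hlt
  by_cases hmeet : ∃ v ∈ R.outer δ, inR a b c d v
  · obtain ⟨v, hv, hv1⟩ := hmeet
    have hall : ∀ F : Finset Edg, F ⊆ R.edges δ → HB R δ a b c d F := fun F _ =>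
      ⟨v, PotL.outer_dclu hv, hv1⟩
    rw [Pr_true _ hall, Pr_true _ hall, sub_self, abs_zero]
    have : 0 ≤ δ ^ (-(3/4 : ℝ)) := Real.rpow_nonneg hδ.le _
    have := abs_nonneg (q - 1/2)
    positivity
  · push Not at hmeet
    obtain ⟨N, hN⟩ : ∃ N : ℕ, ρ' + δ ≤ δ * N := by
      refine ⟨⌈(ρ' + δ) / δ⌉₊, ?_⟩
      have := Nat.le_ceil ((ρ' + δ) / δ)
      rw [div_le_iff₀ hδ] at this
      linarith
    have cv : ∀ u w : ℤ, δ * (u:ℝ) ≤ δ * w → u ≤ w := by
      intro u w h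
      have := le_of_mul_le_mul_left h hδ
      exact_mod_cast this
    have n1 : -(N:ℤ) ≤ R.x0 δ - 1 := by
      apply cv; push_cast; linarith [p1.1]
    have n2 : R.x1 δ ≤ N := by
      apply cv; push_cast; linarith [p2.2]
    have n3 : R.y1 δ ≤ N := by
      apply cv; push_cast; linarith [p3.2]
    have n4 : 1 ≤ N := by
      have : (1:ℤ) ≤ (N:ℤ) := by
        apply cv; push_cast; linarith
      exact_mod_cast this
    have q1 := hs.x0
    have q2 := hs.x1
    have q5 := hs.y1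
    have sg1 : (R.x0 δ : ℝ) < 0 := by exact_mod_cast (by omega : R.x0 δ < 0)
    have sg2 : (0:ℝ) < R.x1 δ := by exact_mod_cast (by omega : 0 < R.x1 δ)
    have sg3 : (0:ℝ) < R.y1 δ := by exact_mod_cast (by omega : 0 < R.y1 δ)
    obtain ⟨S', hS'⟩ : ∃ S', S' = S1 R δ N a b c d := ⟨_, rfl⟩
    obtain ⟨K1, hK1⟩ : ∃ K1 : Finset Edg, K1 = S'.map dl.symm.toEmbedding := ⟨_, rfl⟩
    have hdK : dmp K1 = S' := by
      ext e
      rw [mem_dmp, hK1, Finset.mem_map]
      constructor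
      · rintro ⟨e', he', h⟩
        have : e' = e := dl.symm.injective h
        rw [← this]; exact he'
      · intro h
        exact ⟨e, h, rfl⟩
    have hK10 : K1 ⊆ K0 R δ := by
      intro e he
      rw [hK1, Finset.mem_map] at he
      obtain ⟨e', he', rfl⟩ := he
      rw [hS'] at he'
      exact S1_sub hδ hs he'
    have hK0 : K0 R δ ⊆ R.edges δ := fun e he => (mem_K0.mp he).1
    have hequiv : ∀ F : Finset Edg, F ⊆ R.edges δ →
        (HB R δ a b c d F ↔ Cn (R.outer δ) (bdy a b c d) ↑(dmp (K1 \ F))) := by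
      intro F hF
      have hset : (↑(dmp (K0 R δ \ F)) : Set Edg) ∩ ↑S' = ↑(dmp (K1 \ F)) := by
        ext e
        rw [← hdK]
        simp only [Set.mem_inter_iff, Finset.mem_coe, mem_dmp, Finset.mem_sdiff]
        constructor
        · rintro ⟨⟨_, h2⟩, h3⟩; exact ⟨h3, h2⟩
        · rintro ⟨h1, h2⟩; exact ⟨⟨hK10 h1, h2⟩, h1⟩
      constructor
      · rintro ⟨f, ⟨g, hg, hr⟩, hf⟩
        rw [coe_K0, ← reach_dl, ← coe_dmp] at hr
        rw [← hset]
        refine HitL.hit (G := ↑(dmp (K0 R δ \ F))) (W := ∅) (E' := ↑S') (I := R.outer δ) hmeet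
          (fun e he => absurd he (Set.notMem_empty e)) (fun e he h => ?_) hg
          (by rw [Set.union_empty]; exact hr) hf
        rw [hS']
        rw [Finset.mem_coe, mem_dmp, Finset.mem_sdiff] at he
        exact Finset.mem_coe.mpr (mem_S1 hδ hs n1 n2 n3 n4 he.1 h)
      · rintro ⟨g, hg, f, hf, hr⟩
        refine ⟨f, ⟨g, hg, ?_⟩, hf.1⟩
        rw [coe_K0, ← reach_dl, ← coe_dmp]
        rw [← hset] at hr
        exact Reach.mono (fun e he => he.1) hr
    have hpr : ∀ p : ℝ, Pr (fun _ => p) (R.edges δ) (HB R δ a b c d) =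
        Pr (fun _ => 1 - p) S' (fun F => Cn (R.outer δ) (bdy a b c d) ↑F) := by
      intro p
      rw [Pr_congr (B := fun F => Cn (R.outer δ) (bdy a b c d) ↑(dmp (K1 \ F))) hequiv,
        Pr_local (hK10.trans hK0) (fun F _ => by
          have : K1 \ (F ∩ K1) = K1 \ F := by
            ext e; simp only [Finset.mem_sdiff, Finset.mem_inter]; tauto
          rw [this]), ← hdK, pr_dmp]
      exact (Pr_compl (fun _ : Edg => p) K1
        (fun F => Cn (R.outer δ) (bdy a b c d) ↑(dmp F))).symm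
    rw [hpr, hpr, hS']
    have h12 : (1:ℝ) - 1/2 = 1/2 := by norm_num
    rw [h12]
    have habs : |q - 1/2| = |1 - q - 1/2| := by
      rw [show 1 - q - 1/2 = -(q - 1/2) by ring, abs_neg]
    rw [habs]
    apply hmain δ hδ (by linarith) (R.x0 δ - 1) (R.x1 δ) (-1) (R.y1 δ) a b c d (by omega)
      (by omega) hab hcd ?_ _ (PP_sub hδ hs) N hN _ (outer_bdy hs) (1 - q) (by linarith)
      (by linarith)
    obtain ⟨hb1, hb2, hb3, hb4⟩ := hb
    have hle : ρ ≤ ρ' := by rw [hρ']; linarith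
    refine ⟨⟨?_, ?_, ?_, ?_⟩, hb1.trans hle, hb2.trans hle, hb3.trans hle, hb4.trans hle⟩
    · push_cast
      rw [abs_le]; constructor <;> nlinarith [p1.1]
    · rw [abs_le]; constructor <;> nlinarith [p2.2]
    · push_cast
      rw [abs_le]; constructor <;> linarith
    · rw [abs_le]; constructor <;> nlinarith [p3.2]

end NI38
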