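import Pool.Agent.Helper38K9.NI.Stm

/-! Leaf [UNI]: uniform labels. -/

namespace NI38

open H974 H973 H934E Finset MeasureTheory TopologicalSpace Filter Topology

theorem uni : S_UNI := by
  intro S p hp
  classical
  refine ⟨fun U => Finset.filter_subset _ _, fun T hT => ?_⟩
  have hset : {U : Edg → unitInterval | S.filter (fun e => (U e : ℝ) ≤ p e) = T} =
      Set.pi (S : Set Edg) (fun e => if e ∈ T then Set.Iic (⟨p e, hp e⟩ : unitInterval)
        else Set.Ioi (⟨p e, hp e⟩ : unitInterval)) := by
    ext U
    simp only [Set.mem_ofPred_eq, Set.mem_pi, Finset.mem_coe]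
    constructor
    · intro h e he
      by_cases heT : e ∈ T
      · rw [if_pos heT]
        have : e ∈ S.filter (fun e => (U e : ℝ) ≤ p e) := by rw [h]; exact heT
        exact (Finset.mem_filter.mp this).2
      · rw [if_neg heT]
        have : e ∉ S.filter (fun e => (U e : ℝ) ≤ p e) := by rw [h]; exact heT
        rw [Finset.mem_filter, not_and] at this
        exact not_le.mp (this he)
    · intro h
      ext e
      rw [Finset.mem_filter]
      constructor
      · rintro ⟨h1, h2⟩
        by_contra heT
        have h3 := h e h1
        rw [if_neg heT] at h3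
        exact absurd h2 (not_le.mpr h3)
      · intro h1
        have h3 := h e (hT h1)
        rw [if_pos h1] at h3
        exact ⟨hT h1, h3⟩
  have hmeas : ∀ e : Edg, MeasurableSet (if e ∈ T then Set.Iic (⟨p e, hp e⟩ : unitInterval)
        else Set.Ioi (⟨p e, hp e⟩ : unitInterval)) := by
    intro e
    split_ifs
    · exact measurableSet_Iic
    · exact measurableSet_Ioi
  rw [hset]
  constructor
  · exact MeasurableSet.pi (Finset.countable_toSet S) (fun e _ => hmeas e)
  · rw [Measure.infinitePi_pi _ (fun e _ => hmeas e)]
    have hST : S = T ∪ (S \ T) := by rw [Finset.union_sdiff_of_subset hT]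
    have hs : ∏ i ∈ S, (volume : Measure unitInterval) (if i ∈ T then
        Set.Iic (⟨p i, hp i⟩ : unitInterval) else Set.Ioi (⟨p i, hp i⟩ : unitInterval)) =
        (∏ i ∈ T, ENNReal.ofReal (p i)) * ∏ i ∈ S \ T, ENNReal.ofReal (1 - p i) := by
      conv_lhs => rw [hST]
      rw [Finset.prod_union Finset.disjoint_sdiff]
      congr 1
      · apply Finset.prod_congr rfl
        intro e he
        rw [if_pos he, unitInterval.volume_Iic]
      · apply Finset.prod_congr rfl
        intro e he
        rw [if_neg (Finset.mem_sdiff.mp he).2, unitInterval.volume_Ioi]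
    rw [hs, ENNReal.ofReal_mul (Finset.prod_nonneg (fun e _ => (hp e).1)),
      ENNReal.ofReal_prod_of_nonneg (fun e _ => (hp e).1),
      ENNReal.ofReal_prod_of_nonneg (fun e _ => by linarith [(hp e).2])]

end NI38
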