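import Pool.Agent.Helper38K9.NI.Core
import Pool.Agent.Helper38K9.NI.Stb
import Pool.Agent.Helper38K9.NI.Std
import Pool.Agent.Helper38K9.NI.Sml
import Pool.Agent.Helper38K9.NI.Ibp
import Pool.Agent.Helper38K9.NI.Uni
import Pool.Agent.Helper38K9.NI.Era
import Pool.Agent.Helper38K9.NI.Cpl
import Pool.Agent.Helper38K9.NI.Law
import Pool.Agent.Helper38K9.NI.Ca
import Pool.Agent.Helper38K9.NI.Cb
import Pool.Agent.Helper38K9.NI.Cc
import Pool.Agent.Helper38K9.NI.Cd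
import Pool.Agent.Helper38K9.NI.Far
import Pool.Agent.Helper38K9.NI.War
import Pool.Agent.W424.NC.Win
import Pool.Agent.TH291.NW.Slab

/-!
Assembly: near-critical and noisy exploration paths.
-/

set_option maxHeartbeats 1000000

namespace NI38

open H974 H973 H934E Finset MeasureTheory TopologicalSpace

theorem wuF : S_WU := Pool.Agent.W424.NC.win_upper

theorem staF : S_STA := sta TH291.NW.stU sml stb

theorem stdF : S_STD := std TH291.NW.stU sml stb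

theorem cpqF : S_CPQ := cpq (haq sml pot) staF stdF ibp

theorem lawF : S_LAW := law (cpl (hau sml pot) staF stdF ibp) uni ibp

theorem farF : S_FAR := far sml pot (ca sml wuF) (cb sml wuF)

theorem warF : S_WAR := war sml pot (cc sml wuF) (cd sml wuF)

namespace ArcL

theorem farc_closed (R : Rect) : IsClosed (farc R) := by
  have c1 : Continuous (fun z : ℂ => z.re) := Complex.continuous_re
  have c2 : Continuous (fun z : ℂ => z.im) := Complex.continuous_im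
  have e : farc R = ({z : ℂ | z.im = 0} ∩ ({z : ℂ | 0 ≤ z.re} ∩ {z : ℂ | z.re ≤ R.B})) ∪
      (({z : ℂ | z.re = R.B} ∩ ({z : ℂ | 0 ≤ z.im} ∩ {z : ℂ | z.im ≤ R.H})) ∪
      ({z : ℂ | z.im = R.H} ∩ ({z : ℂ | R.t ≤ z.re} ∩ {z : ℂ | z.re ≤ R.B}))) := rfl
  rw [e]
  exact ((isClosed_eq c2 continuous_const).inter ((isClosed_le continuous_const c1).inter
    (isClosed_le c1 continuous_const))).union (((isClosed_eq c1 continuous_const).inter
    ((isClosed_le continuous_const c2).inter (isClosed_le c2 continuous_const))).union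
    ((isClosed_eq c2 continuous_const).inter ((isClosed_le continuous_const c1).inter
    (isClosed_le c1 continuous_const))))

theorem warc_closed (R : Rect) : IsClosed (warc R) := by
  have c1 : Continuous (fun z : ℂ => z.re) := Complex.continuous_re
  have c2 : Continuous (fun z : ℂ => z.im) := Complex.continuous_im
  have e : warc R = ({z : ℂ | z.im = 0} ∩ ({z : ℂ | -R.A ≤ z.re} ∩ {z : ℂ | z.re ≤ 0})) ∪
      (({z : ℂ | z.re = -R.A} ∩ ({z : ℂ | 0 ≤ z.im} ∩ {z : ℂ | z.im ≤ R.H})) ∪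
      ({z : ℂ | z.im = R.H} ∩ ({z : ℂ | -R.A ≤ z.re} ∩ {z : ℂ | z.re ≤ R.t}))) := rfl
  rw [e]
  exact ((isClosed_eq c2 continuous_const).inter ((isClosed_le continuous_const c1).inter
    (isClosed_le c1 continuous_const))).union (((isClosed_eq c1 continuous_const).inter
    ((isClosed_le continuous_const c2).inter (isClosed_le c2 continuous_const))).union
    ((isClosed_eq c2 continuous_const).inter ((isClosed_le continuous_const c1).inter
    (isClosed_le c1 continuous_const))))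

theorem bdd_of {S : Set ℂ} {M : ℝ} (h : ∀ z ∈ S, |z.re| ≤ M ∧ |z.im| ≤ M) :
    Bornology.IsBounded S := by
  refine (Metric.isBounded_closedBall (x := (0:ℂ)) (r := M + M)).subset ?_
  intro z hz
  rw [Metric.mem_closedBall, dist_zero_right]
  exact (Complex.norm_le_abs_re_add_abs_im z).trans (add_le_add (h z hz).1 (h z hz).2)

/-- The free arc as a nonempty compact set. -/
noncomputable def fA (R : Rect) : NonemptyCompacts ℂ :=
  ⟨⟨farc R, Metric.isCompact_of_isClosed_isBounded (farc_closed R)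
    (bdd_of (M := R.A + R.B + R.H) (by
      have := R.hA
      have := R.hB
      have := R.hH
      have := R.ht1
      have := R.ht2
      rintro z (⟨h1, h2, h3⟩ | ⟨h1, h2, h3⟩ | ⟨h1, h2, h3⟩)
      · rw [h1, abs_zero, abs_le]
        exact ⟨⟨by linarith, by linarith⟩, by linarith⟩
      · rw [h1, abs_le, abs_le]
        exact ⟨⟨by linarith, by linarith⟩, ⟨by linarith, by linarith⟩⟩
      · rw [h1, abs_le, abs_le]
        exact ⟨⟨by linarith, by linarith⟩, ⟨by linarith, by linarith⟩⟩))⟩,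
    ⟨0, Or.inl ⟨rfl, le_rfl, R.hB.le⟩⟩⟩

/-- The wired arc as a nonempty compact set. -/
noncomputable def wA (R : Rect) : NonemptyCompacts ℂ :=
  ⟨⟨warc R, Metric.isCompact_of_isClosed_isBounded (warc_closed R)
    (bdd_of (M := R.A + R.B + R.H) (by
      have := R.hA
      have := R.hB
      have := R.hH
      have := R.ht1
      have := R.ht2
      rintro z (⟨h1, h2, h3⟩ | ⟨h1, h2, h3⟩ | ⟨h1, h2, h3⟩)
      · rw [h1, abs_zero, abs_le]
        exact ⟨⟨by linarith, by linarith⟩, by linarith⟩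
      · rw [h1, abs_le, abs_le]
        exact ⟨⟨by linarith, by linarith⟩, ⟨by linarith, by linarith⟩⟩
      · rw [h1, abs_le, abs_le]
        exact ⟨⟨by linarith, by linarith⟩, ⟨by linarith, by linarith⟩⟩))⟩,
    ⟨0, Or.inl ⟨rfl, by simpa using R.hA.le, le_rfl⟩⟩⟩

theorem meas_far (S : NonemptyCompacts ℂ) (ε : ℝ) : MeasurableSet
    {K : NonemptyCompacts ℂ | ε < Metric.hausdorffDist (K : Set ℂ) (S : Set ℂ)} := by
  have e : {K : NonemptyCompacts ℂ | ε < Metric.hausdorffDist (K : Set ℂ) (S : Set ℂ)} =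
      {K : NonemptyCompacts ℂ | ε < dist K S} := by
    ext K
    rw [Set.mem_ofPred_eq, Set.mem_ofPred_eq, Metric.NonemptyCompacts.dist_eq]
  rw [e]
  exact (isOpen_lt continuous_const (continuous_id.dist continuous_const)).measurableSet

theorem lam_eq {δ : ℝ} (hδ : 0 < δ) {y : ℝ} (hy : 0 ≤ y) :
    (y * δ ^ (-(3/4 : ℝ))) ^ (4/3 : ℝ) = y ^ (4/3 : ℝ) / δ := by
  rw [Real.mul_rpow hy (Real.rpow_nonneg hδ.le _), ← Real.rpow_mul hδ.le]
  rw [show (-(3/4 : ℝ)) * (4/3) = -1 by norm_num, Real.rpow_neg_one]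
  exact (div_eq_mul_inv _ _).symm

end ArcL

open ArcL

/-- Above the window, in terms of the law. -/
theorem far_law (R : Rect) (ε : ℝ) (hε : 0 < ε) : ∃ c C δ0 : ℝ, 0 < c ∧ 0 < C ∧ 0 < δ0 ∧
    ∀ (δ : ℝ) (hδ : 0 < δ), δ < δ0 → ∀ q : unitInterval, 1/2 ≤ (q : ℝ) →
      (lawp R hδ (fun _ => q) : Measure (NonemptyCompacts ℂ))
        {K | ε < Metric.hausdorffDist (K : Set ℂ) (farc R)} ≤
        ENNReal.ofReal (C * Real.exp (-(c * (((q : ℝ) - 1/2) * δ ^ (-(3/4 : ℝ))) ^ (4/3 : ℝ)))) := by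
  obtain ⟨c, C, δ0, hc, hC, hδ0, -, h⟩ := farF R ε hε
  refine ⟨c, C, δ0, hc, hC, hδ0, ?_⟩
  intro δ hδ hlt q hq
  have hm := meas_far (fA R) ε
  have e1 : (lawp R hδ (fun _ => q) : Measure (NonemptyCompacts ℂ)) =
      lawpM R hδ (fun _ => q) := rfl
  rw [e1]
  refine (le_of_eq (lawpM_apply R hδ (fun _ => q) hm)).trans ?_
  apply ENNReal.ofReal_le_ofReal
  rw [lam_eq hδ (by linarith)]
  exact h δ hδ hlt q hq q.2.2

/-- Below the window, in terms of the law. -/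
theorem war_law (R : Rect) (ε : ℝ) (hε : 0 < ε) : ∃ c C δ0 : ℝ, 0 < c ∧ 0 < C ∧ 0 < δ0 ∧
    ∀ (δ : ℝ) (hδ : 0 < δ), δ < δ0 → ∀ q : unitInterval, (q : ℝ) ≤ 1/2 →
      (lawp R hδ (fun _ => q) : Measure (NonemptyCompacts ℂ))
        {K | ε < Metric.hausdorffDist (K : Set ℂ) (warc R)} ≤
        ENNReal.ofReal (C * Real.exp (-(c * ((1/2 - (q : ℝ)) * δ ^ (-(3/4 : ℝ))) ^ (4/3 : ℝ)))) := by
  obtain ⟨c, C, δ0, hc, hC, hδ0, -, h⟩ := warF R ε hε
  refine ⟨c, C, δ0, hc, hC, hδ0, ?_⟩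
  intro δ hδ hlt q hq
  have hm := meas_far (wA R) ε
  have e1 : (lawp R hδ (fun _ => q) : Measure (NonemptyCompacts ℂ)) =
      lawpM R hδ (fun _ => q) := rfl
  rw [e1]
  refine (le_of_eq (lawpM_apply R hδ (fun _ => q) hm)).trans ?_
  apply ENNReal.ofReal_le_ofReal
  rw [lam_eq hδ (by linarith)]
  exact h δ hδ hlt q q.2.1 hq

/-- The window. -/
theorem window (R : Rect) : ∃ C δ0 : ℝ, 0 < C ∧ 0 < δ0 ∧ ∀ ε : ℝ, 0 < ε → ε ≤ 1 →
    ∀ (δ : ℝ) (hδ : 0 < δ), δ < δ0 → 100 * δ < ε → ∀ x : ℝ, 0 ≤ x → x ≤ 1/2 →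
    ∀ (Ω : Type) [MeasurableSpace Ω] (μ : Measure Ω) (Fm Fp : Ω → Finset Edg),
      IsBer μ (R.edges δ) (fun _ => 1/2 - x) Fm → IsBer μ (R.edges δ) (fun _ => 1/2 + x) Fp →
      (∀ ω, Fm ω ⊆ Fp ω) →
      μ {ω | ∃ F G : Finset Edg, (Fm ω ⊆ F ∧ F ⊆ Fp ω) ∧ (Fm ω ⊆ G ∧ G ⊆ Fp ω) ∧
        ¬ Close R hδ ε F G} ≤
        ENNReal.ofReal (C * (x * δ ^ (-(3/4 : ℝ))) / ε ^ 2) := by
  obtain ⟨C, δ0, hC, hδ0, -, h⟩ := cpqF R
  refine ⟨C, δ0, hC, hδ0, ?_⟩
  intro ε hε hε1 δ hδ hlt h100 x h0 h1 Ω _ μ Fm Fp hm hp hmp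
  refine (h ε hε hε1 δ hδ hlt h100 x h0 h1 Ω μ Fm Fp hm hp hmp).trans (le_of_eq ?_)
  congr 1
  ring

/-- Arbitrary changes on an independent sparse set. -/
theorem sparse (R : Rect) : ∃ C δ0 : ℝ, 0 < C ∧ 0 < δ0 ∧ ∀ ε : ℝ, 0 < ε → ε ≤ 1 →
    ∀ (δ : ℝ) (hδ : 0 < δ), δ < δ0 → 100 * δ < ε → ∀ t : ℝ, 0 ≤ t → t ≤ 1 →
    ∀ (Ω : Type) [MeasurableSpace Ω] (μ : Measure Ω) (F G : Ω → Finset Edg),
      IsBer μ (R.edges δ) (fun _ => 1/2) F → IsBer μ (R.edges δ) (fun _ => t) G →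
      (∀ T U : Finset Edg, T ⊆ R.edges δ → U ⊆ R.edges δ →
        μ {ω | F ω = T ∧ G ω = U} = μ {ω | F ω = T} * μ {ω | G ω = U}) →
      μ {ω | ∃ F1 F2 : Finset Edg, (F1 ⊆ R.edges δ ∧ ∀ e ∈ R.edges δ, e ∉ G ω →
          (e ∈ F1 ↔ e ∈ F ω)) ∧ (F2 ⊆ R.edges δ ∧ ∀ e ∈ R.edges δ, e ∉ G ω →
          (e ∈ F2 ↔ e ∈ F ω)) ∧ ¬ Close R hδ ε F1 F2} ≤
        ENNReal.ofReal (C * (t * δ ^ (-(3/4 : ℝ))) / ε ^ 2) := by
  obtain ⟨C, δ0, hC, hδ0, h⟩ := window R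
  refine ⟨C / 2, δ0, by positivity, hδ0, ?_⟩
  intro ε hε hε1 δ hδ hlt h100 t h0 h1 Ω _ μ F G hF hG hind
  obtain ⟨e1, e2⟩ := era (R.edges δ) t h0 h1 Ω μ F G hF hG hind
  have hle := h ε hε hε1 δ hδ hlt h100 (t / 2) (by linarith) (by linarith) Ω μ
    (fun ω => F ω \ G ω) (fun ω => F ω ∪ G ω) e1 e2
    (fun ω => Finset.sdiff_subset.trans Finset.subset_union_left)
  refine (measure_mono ?_).trans (hle.trans (le_of_eq (by congr 1; ring)))
  rintro ω ⟨F1, F2, ⟨a1, a2⟩, ⟨b1, b2⟩, hc⟩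
  have key : ∀ F' : Finset Edg, F' ⊆ R.edges δ →
      (∀ e ∈ R.edges δ, e ∉ G ω → (e ∈ F' ↔ e ∈ F ω)) → F ω \ G ω ⊆ F' ∧ F' ⊆ F ω ∪ G ω := by
    intro F' c1 c2
    constructor
    · intro e he
      rw [Finset.mem_sdiff] at he
      exact (c2 e (hF.1 ω he.1) he.2).mpr he.1
    · intro e he
      rw [Finset.mem_union]
      by_cases hg : e ∈ G ω
      · exact Or.inr hg
      · exact Or.inl ((c2 e (c1 he) hg).mp he)
  exact ⟨F1, F2, key F1 a1 a2, key F2 b1 b2, hc⟩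

end NI38
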