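import Pool.Agent.Helper38K9.NI.Hau
import Pool.Agent.Helper38K9.NI.Ca

/-! Tools for [FAR] and [WAR]: the grid of boxes, and the two boundary arcs. -/

set_option maxHeartbeats 1000000

namespace NI38

open H974 H973 H934E Finset MeasureTheory TopologicalSpace

namespace FwL

/-- The grid: `L` is the side of the boxes, `n` bounds the indices, `m` is the enlargement. -/
structure Msh (R : Rect) (δ κ : ℝ) (L n m : ℤ) : Prop where
  d0 : 0 < δ
  sm : Sm R δ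
  k5 : 5 * δ ≤ κ
  kH : κ ≤ R.H / 2
  L0 : 0 < L
  L1 : δ * L ≤ κ
  L2 : κ / 2 ≤ δ * L
  n0 : 0 ≤ n
  n1 : R.x1 δ < (n + 1) * L
  n2 : -(n * L) ≤ R.x0 δ
  n3 : R.y1 δ < (n + 1) * L
  m1 : 2 * κ ≤ δ * m
  m2 : δ * m ≤ 3 * κ
  p0 : -R.A < δ * R.x0 δ ∧ δ * R.x0 δ ≤ -R.A + δ
  p1 : R.B - δ ≤ δ * R.x1 δ ∧ δ * R.x1 δ < R.B
  p2 : R.H - 2 * δ ≤ δ * R.y1 δ ∧ δ * R.y1 δ < R.H - δ
  p3 : R.t - δ < δ * R.tc δ ∧ δ * R.tc δ ≤ R.t

theorem msh (hsml : S_SML) (R : Rect) {κ : ℝ} (hκ0 : 0 < κ) (hκH : κ ≤ R.H / 2) :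
    ∃ δ0 : ℝ, 0 < δ0 ∧ δ0 ≤ 1 ∧ ∃ n : ℕ, ∀ δ : ℝ, 0 < δ → δ < δ0 →
      ∃ L m : ℤ, Msh R δ κ L n m := by
  obtain ⟨δ1, hδ1, hδ11, hsm⟩ := hsml R
  have hA := R.hA
  have hB := R.hB
  have hH := R.hH
  obtain ⟨n, hn⟩ : ∃ n : ℕ, n = ⌈2 * (R.A + R.B + R.H) / κ⌉₊ + 1 := ⟨_, rfl⟩
  have hnr : 2 * (R.A + R.B + R.H) ≤ κ * n := by
    have h1 := Nat.le_ceil (2 * (R.A + R.B + R.H) / κ)
    have h2 : (n:ℝ) = (⌈2 * (R.A + R.B + R.H) / κ⌉₊ : ℝ) + 1 := by rw [hn]; push_cast; ring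
    rw [div_le_iff₀ hκ0] at h1
    rw [h2]
    nlinarith
  refine ⟨min δ1 (κ / 5), lt_min hδ1 (by positivity), (min_le_left _ _).trans hδ11, n, ?_⟩
  intro δ hδ hlt
  have hlt1 : δ < δ1 := lt_of_lt_of_le hlt (min_le_left _ _)
  have hlt2 : δ < κ / 5 := lt_of_lt_of_le hlt (min_le_right _ _)
  obtain ⟨hs, p1, p2, p3, p4⟩ := hsm δ hδ hlt1
  obtain ⟨L, hL⟩ : ∃ L : ℤ, L = ⌊κ / δ⌋ := ⟨_, rfl⟩
  have L1 : δ * L ≤ κ := by
    have := Int.floor_le (κ / δ)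
    rw [← hL, le_div_iff₀ hδ] at this
    linarith
  have L2 : κ - δ < δ * L := by
    have := Int.lt_floor_add_one (κ / δ)
    rw [← hL, div_lt_iff₀ hδ] at this
    linarith
  have L3 : κ / 2 ≤ δ * L := by linarith
  have L0 : 0 < L := by
    have : 0 < δ * (L:ℝ) := by linarith
    have h2 : (0:ℝ) < L := by
      by_contra hc
      push Not at hc
      have := mul_nonpos_of_nonneg_of_nonpos hδ.le hc
      linarith
    exact_mod_cast h2
  have conv : ∀ u v : ℤ, δ * (u:ℝ) < δ * v → u < v := by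
    intro u v h
    have := lt_of_mul_lt_mul_left h hδ.le
    exact_mod_cast this
  have conv' : ∀ u v : ℤ, δ * (u:ℝ) ≤ δ * v → u ≤ v := by
    intro u v h
    have := le_of_mul_le_mul_left h hδ
    exact_mod_cast this
  have hn0 : (0:ℝ) ≤ n := Nat.cast_nonneg n
  have big : R.A + R.B + R.H ≤ δ * L * n := by
    have : κ / 2 * n ≤ δ * L * n := mul_le_mul_of_nonneg_right L3 hn0
    linarith
  have hn1 : R.x1 δ < ((n:ℤ) + 1) * L := by
    apply conv; push_cast; nlinarith [p2.2]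
  have hn3 : R.y1 δ < ((n:ℤ) + 1) * L := by
    apply conv; push_cast; nlinarith [p3.2]
  have hn2 : -((n:ℤ) * L) ≤ R.x0 δ := by
    apply conv'; push_cast; nlinarith [p1.1]
  refine ⟨L, ⌈2 * κ / δ⌉, ?_⟩
  refine ⟨hδ, hs, by linarith, hκH, L0, L1, L3, Int.natCast_nonneg n, hn1, hn2, hn3, ?_, ?_,
    p1, p2, p3, p4⟩
  · have := Int.le_ceil (2 * κ / δ)
    rw [div_le_iff₀ hδ] at this
    linarith
  · have := Int.ceil_lt_add_one (2 * κ / δ)
    have h2 := mul_lt_mul_of_pos_left this hδ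
    have h3 : δ * (2 * κ / δ + 1) = 2 * κ + δ := by field_simp
    linarith

section
variable {R : Rect} {δ κ : ℝ} {L n m : ℤ}

theorem idx (M : Msh R δ κ L n m) {v : Vtx} (h1 : R.x0 δ ≤ v.1) (h2 : v.1 ≤ R.x1 δ)
    (h3 : -1 ≤ v.2) (h4 : v.2 ≤ R.y1 δ) : ∃ i j : ℤ, (-(n + 1) ≤ i ∧ i ≤ n + 1) ∧
      (-(n + 1) ≤ j ∧ j ≤ n + 1) ∧ (i * L ≤ v.1 ∧ v.1 < (i + 1) * L) ∧
      (j * L ≤ v.2 ∧ v.2 < (j + 1) * L) := by
  have hL := M.L0
  have i1 : v.1 / L * L ≤ v.1 := Int.ediv_mul_le _ hL.ne'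
  have i2 : v.1 < (v.1 / L + 1) * L := Int.lt_ediv_add_one_mul_self _ hL
  have j1 : v.2 / L * L ≤ v.2 := Int.ediv_mul_le _ hL.ne'
  have j2 : v.2 < (v.2 / L + 1) * L := Int.lt_ediv_add_one_mul_self _ hL
  have hn1 := M.n1
  have hn2 := M.n2
  have hn3 := M.n3
  have hn0 := M.n0
  refine ⟨v.1 / L, v.2 / L, ⟨?_, ?_⟩, ⟨?_, ?_⟩, ⟨i1, i2⟩, ⟨j1, j2⟩⟩
  · by_contra hc
    push Not at hc
    have : (v.1 / L + 1) * L ≤ (-(n + 1)) * L := mul_le_mul_of_nonneg_right (by omega) hL.le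
    nlinarith
  · by_contra hc
    push Not at hc
    have : (n + 1) * L ≤ v.1 / L * L := mul_le_mul_of_nonneg_right (by omega) hL.le
    linarith
  · by_contra hc
    push Not at hc
    have : (v.2 / L + 1) * L ≤ (-(n + 1)) * L := mul_le_mul_of_nonneg_right (by omega) hL.le
    have h5 : 0 ≤ n * L := mul_nonneg hn0 hL.le
    nlinarith
  · by_contra hc
    push Not at hc
    have : (n + 1) * L ≤ v.2 / L * L := mul_le_mul_of_nonneg_right (by omega) hL.le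
    linarith

/-- A point of the path, and the box of its corner. -/
theorem part1 (M : Msh R δ κ L n m) {F : Finset Edg} (hF : F ⊆ R.edges δ) {z : ℂ}
    (hz : z ∈ R.path δ F) : ∃ v f : Vtx, v ∈ R.clu δ F ∧ f ∈ R.dclu δ F ∧ ∃ i j : ℤ,
      ((-(n + 1) ≤ i ∧ i ≤ n + 1) ∧ (-(n + 1) ≤ j ∧ j ≤ n + 1)) ∧
      inR (i * L - 1) ((i + 1) * L + 1) (j * L - 1) ((j + 1) * L + 1) v ∧
      inR (i * L - 1) ((i + 1) * L + 1) (j * L - 1) ((j + 1) * L + 1) f ∧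
      |z.re - δ * v.1| ≤ δ ∧ |z.im - δ * (v.2 + 1)| ≤ δ := by
  obtain ⟨⟨v, s⟩, hk, hz1, hz2⟩ := HauL.corner_of_path M.d0 hz
  obtain ⟨hv, hf⟩ := hk
  simp only at hv hf hz1 hz2
  obtain ⟨⟨⟨a1, a2⟩, a3, a4⟩, -⟩ := PotL.clu_val M.sm hF hv
  obtain ⟨i, j, hi, hj, ⟨i1, i2⟩, ⟨j1, j2⟩⟩ := idx M a1 a2 (by omega) a4
  obtain ⟨c1, c2⟩ := HauL.cface_cases v s
  refine ⟨v, cface v s, hv, hf, i, j, ⟨hi, hj⟩, ?_, ?_, hz1, hz2⟩
  · unfold inR
    refine ⟨⟨?_, ?_⟩, ?_, ?_⟩ <;> linarith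
  · unfold inR
    refine ⟨⟨?_, ?_⟩, ?_, ?_⟩
    · rcases c1 with h | h <;> rw [h] <;> linarith
    · rcases c1 with h | h <;> rw [h] <;> linarith
    · rcases c2 with h | h <;> rw [h] <;> linarith
    · rcases c2 with h | h <;> rw [h] <;> linarith

/-- Real distance of two integers. -/
theorem abs_le_of (hδ : 0 < δ) {a b c : ℤ} (h1 : a - b ≤ c) (h2 : b - a ≤ c) :
    |δ * (a:ℝ) - δ * b| ≤ δ * c := by
  rw [← mul_sub, abs_mul, abs_of_pos hδ]
  apply mul_le_mul_of_nonneg_left _ hδ.le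
  have h1' : (a:ℝ) - b ≤ c := by exact_mod_cast h1
  have h2' : (b:ℝ) - a ≤ c := by exact_mod_cast h2
  rw [abs_le]
  constructor <;> linarith

/-- A point next to the box and the points of the enlarged box. -/
theorem near1 (M : Msh R δ κ L n m) {v g : Vtx} {i j : ℤ} {z : ℂ}
    (hv : inR (i * L - 1) ((i + 1) * L + 1) (j * L - 1) ((j + 1) * L + 1) v)
    (hg : inR (i * L - 1 - m) ((i + 1) * L + 1 + m) (j * L - 1 - m) ((j + 1) * L + 1 + m) g)
    (hz1 : |z.re - δ * v.1| ≤ δ) (hz2 : |z.im - δ * (v.2 + 1)| ≤ δ) :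
    |z.re - δ * g.1| ≤ 5 * κ ∧ |z.im - δ * (g.2 + 1)| ≤ 5 * κ := by
  obtain ⟨⟨v1, v2⟩, v3, v4⟩ := hv
  obtain ⟨⟨g1, g2⟩, g3, g4⟩ := hg
  have e1 : (i + 1) * L = i * L + L := by ring
  have e2 : (j + 1) * L = j * L + L := by ring
  have h1 := abs_le_of M.d0 (a := v.1) (b := g.1) (c := L + 2 + m) (by linarith) (by linarith)
  have h2 := abs_le_of M.d0 (a := v.2) (b := g.2) (c := L + 2 + m) (by linarith) (by linarith)
  push_cast at h1 h2
  have hL := M.L1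
  have hm := M.m2
  have hk := M.k5
  have hd := M.d0
  constructor
  · have e : z.re - δ * g.1 = (z.re - δ * v.1) + (δ * (v.1:ℝ) - δ * g.1) := by ring
    rw [e]
    have t1 := abs_add_le (z.re - δ * v.1) (δ * (v.1:ℝ) - δ * g.1)
    nlinarith
  · have e : z.im - δ * (g.2 + 1) = (z.im - δ * (v.2 + 1)) + (δ * (v.2:ℝ) - δ * g.2) := by ring
    rw [e]
    have t1 := abs_add_le (z.im - δ * (v.2 + 1)) (δ * (v.2:ℝ) - δ * g.2)
    nlinarith

/-- Both clusters meet the box around `g`. -/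
theorem part2 (hpot : S_POT) (M : Msh R δ κ L n m) {F : Finset Edg} (hF : F ⊆ R.edges δ)
    {g : Vtx} {i j : ℤ} (hi : i * L ≤ g.1 ∧ g.1 < (i + 1) * L)
    (hj : j * L ≤ g.2 ∧ g.2 < (j + 1) * L)
    (hA : HA R δ ((i - 1) * L) ((i + 1) * L) ((j - 1) * L) ((j + 2) * L) F)
    (hB : HB R δ ((i - 1) * L) ((i + 1) * L) ((j - 1) * L) ((j + 2) * L) F) :
    ∃ w ∈ R.path δ F, |w.re - δ * g.1| ≤ 3 * κ ∧ |w.im - δ * (g.2 + 1)| ≤ 3 * κ := by
  obtain ⟨k, hk, ⟨⟨k1, k2⟩, k3, k4⟩⟩ := hpot R δ M.sm F hF _ _ _ _ hA hB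
  obtain ⟨w, hw, w1, w2⟩ := HauL.path_of_corner M.d0 hk
  have e1 : (i + 1) * L = i * L + L := by ring
  have e2 : (j + 2) * L = j * L + 2 * L := by ring
  have e3 : (i - 1) * L = i * L - L := by ring
  have e4 : (j - 1) * L = j * L - L := by ring
  have e5 : (j + 1) * L = j * L + L := by ring
  have h1 := abs_le_of M.d0 (a := k.1.1) (b := g.1) (c := 2 * L + 1) (by linarith) (by linarith)
  have h2 := abs_le_of M.d0 (a := k.1.2) (b := g.2) (c := 2 * L + 1) (by linarith) (by linarith)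
  push_cast at h1 h2
  have hL := M.L1
  have hk := M.k5
  have hd := M.d0
  refine ⟨w, hw, ?_, ?_⟩
  · have e : w.re - δ * g.1 = (w.re - δ * k.1.1) + (δ * (k.1.1:ℝ) - δ * g.1) := by ring
    rw [e]
    have t1 := abs_add_le (w.re - δ * k.1.1) (δ * (k.1.1:ℝ) - δ * g.1)
    nlinarith
  · have e : w.im - δ * (g.2 + 1) = (w.im - δ * (k.1.2 + 1)) + (δ * (k.1.2:ℝ) - δ * g.2) := by
      ring
    rw [e]
    have t1 := abs_add_le (w.im - δ * (k.1.2 + 1)) (δ * (k.1.2:ℝ) - δ * g.2)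
    nlinarith

/-- The part of the box in the domain is large. -/
theorem inner (M : Msh R δ κ L n m) {g : Vtx} {i j : ℤ} (h1 : R.x0 δ ≤ g.1) (h2 : g.1 ≤ R.x1 δ)
    (h3 : -1 ≤ g.2) (h4 : g.2 ≤ R.y1 δ) (hi : i * L ≤ g.1 ∧ g.1 < (i + 1) * L)
    (hj : j * L ≤ g.2 ∧ g.2 < (j + 1) * L) :
    max (R.x0 δ) ((i - 1) * L) ≤ min (R.x1 δ) ((i + 1) * L) ∧
      κ / 2 ≤ δ * ((min (R.y1 δ) ((j + 2) * L) : ℤ) - (max 0 ((j - 1) * L) : ℤ)) := by
  have hL := M.L0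
  have hx0 := M.sm.x0
  have hx1 := M.sm.x1
  have e1 : (i + 1) * L = i * L + L := by ring
  have e2 : (j + 2) * L = j * L + 2 * L := by ring
  have e3 : (i - 1) * L = i * L - L := by ring
  have e4 : (j - 1) * L = j * L - L := by ring
  have e5 : (j + 1) * L = j * L + L := by ring
  constructor
  · apply max_le
    · apply le_min
      · linarith
      · linarith
    · apply le_min
      · linarith
      · linarith
  · have key : min (R.y1 δ) L ≤ min (R.y1 δ) ((j + 2) * L) - max 0 ((j - 1) * L) := by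
      rcases le_total (R.y1 δ) ((j + 2) * L) with h5 | h5
      · rw [min_eq_left h5]
        rcases le_total 0 ((j - 1) * L) with h6 | h6
        · rw [max_eq_right h6]
          refine (min_le_right _ _).trans ?_
          linarith
        · rw [max_eq_left h6, sub_zero]
          exact min_le_left _ _
      · rw [min_eq_right h5]
        rcases le_total 0 ((j - 1) * L) with h6 | h6
        · rw [max_eq_right h6]
          refine (min_le_right _ _).trans ?_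
          linarith
        · rw [max_eq_left h6, sub_zero]
          refine (min_le_right _ _).trans ?_
          have h7 : 0 ≤ (j + 1) * L := by omega
          linarith
    have key2 : ((min (R.y1 δ) L : ℤ) : ℝ) ≤
        ((min (R.y1 δ) ((j + 2) * L) : ℤ) : ℝ) - ((max 0 ((j - 1) * L) : ℤ) : ℝ) := by
      have h8 : ((min (R.y1 δ) L : ℤ) : ℝ) ≤
        ((min (R.y1 δ) ((j + 2) * L) - max 0 ((j - 1) * L) : ℤ) : ℝ) := by exact_mod_cast key
      rw [Int.cast_sub] at h8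
      exact h8
    refine le_trans ?_ (mul_le_mul_of_nonneg_left key2 M.d0.le)
    rcases le_total (R.y1 δ) L with h9 | h9
    · rw [min_eq_left h9]
      have := M.p2.1
      have := M.kH
      have := M.k5
      have := M.d0
      linarith
    · rw [min_eq_right h9]
      exact M.L2

theorem HA.mono {a b c d a' b' c' d' : ℤ} {F : Finset Edg} (h1 : a' ≤ a) (h2 : b ≤ b')
    (h3 : c' ≤ c) (h4 : d ≤ d') (h : HA R δ a b c d F) : HA R δ a' b' c' d' F := by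
  obtain ⟨v, hv, ⟨i1, i2⟩, i3, i4⟩ := h
  exact ⟨v, hv, ⟨by omega, by omega⟩, by omega, by omega⟩

theorem HB.mono {a b c d a' b' c' d' : ℤ} {F : Finset Edg} (h1 : a' ≤ a) (h2 : b ≤ b')
    (h3 : c' ≤ c) (h4 : d ≤ d') (h : HB R δ a b c d F) : HB R δ a' b' c' d' F := by
  obtain ⟨v, hv, ⟨i1, i2⟩, i3, i4⟩ := h
  exact ⟨v, hv, ⟨by omega, by omega⟩, by omega, by omega⟩

/-! ### The arcs -/

/-- Rounding from below in an interval. -/
theorem round_min (hδ : 0 < δ) {s U : ℝ} {N : ℤ} (hs : s ≤ U) (hN : U - δ ≤ δ * N) :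
    |s - δ * (min N ⌊s / δ⌋ : ℤ)| ≤ δ := by
  have f1 := Int.floor_le (s / δ)
  rw [le_div_iff₀ hδ] at f1
  have f2 := Int.lt_floor_add_one (s / δ)
  rw [div_lt_iff₀ hδ] at f2
  rcases le_total N ⌊s / δ⌋ with h | h
  · rw [min_eq_left h]
    have h' : (N : ℝ) ≤ (⌊s / δ⌋ : ℤ) := by exact_mod_cast h
    have := mul_le_mul_of_nonneg_left h' hδ.le
    rw [abs_le]
    constructor <;> nlinarith
  · rw [min_eq_right h, abs_le]
    constructor <;> nlinarith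

/-- Rounding, heights. -/
theorem round_ht (hδ : 0 < δ) {s U : ℝ} {N : ℤ} (hs : s ≤ U) (hN : U - 2 * δ ≤ δ * N) :
    |s - δ * ((min N ⌊s / δ⌋ : ℤ) + 1)| ≤ δ := by
  have f1 := Int.floor_le (s / δ)
  rw [le_div_iff₀ hδ] at f1
  have f2 := Int.lt_floor_add_one (s / δ)
  rw [div_lt_iff₀ hδ] at f2
  rcases lt_or_ge N ⌊s / δ⌋ with h | h
  · rw [min_eq_left h.le]
    have h' : (N : ℝ) + 1 ≤ (⌊s / δ⌋ : ℤ) := by exact_mod_cast h
    have := mul_le_mul_of_nonneg_left h' hδ.le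
    rw [abs_le]
    constructor <;> nlinarith
  · rw [min_eq_right h, abs_le]
    constructor <;> nlinarith

/-- Rounding from above in an interval. -/
theorem round_max (hδ : 0 < δ) {s U : ℝ} {N : ℤ} (hs : U ≤ s) (hN : δ * N ≤ U + δ) :
    |s - δ * (max N ⌊s / δ⌋ : ℤ)| ≤ δ := by
  have f1 := Int.floor_le (s / δ)
  rw [le_div_iff₀ hδ] at f1
  have f2 := Int.lt_floor_add_one (s / δ)
  rw [div_lt_iff₀ hδ] at f2
  rcases lt_or_ge ⌊s / δ⌋ N with h | h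
  · rw [max_eq_left h.le]
    have h' : ((⌊s / δ⌋ : ℤ) : ℝ) + 1 ≤ N := by exact_mod_cast h
    have := mul_le_mul_of_nonneg_left h' hδ.le
    rw [abs_le]
    constructor <;> nlinarith
  · rw [max_eq_right h, abs_le]
    constructor <;> nlinarith

end

end FwL

end NI38
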