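import Pool.Agent.Helper38K9.NI.Fw

/-! Tools for [FAR] and [WAR]: the deterministic comparison and the union bound. -/

set_option maxHeartbeats 1000000

namespace NI38

open H974 H973 H934E Finset MeasureTheory TopologicalSpace

namespace FwL

/-- The part of the big box in the domain is large. -/
def C1 (R : Rect) (δ κ : ℝ) (L : ℤ) (k : ℤ × ℤ) : Prop :=
  max (R.x0 δ) ((k.1 - 1) * L) ≤ min (R.x1 δ) ((k.1 + 1) * L) ∧
    κ / 2 ≤ δ * ((min (R.y1 δ) ((k.2 + 2) * L) : ℤ) - (max 0 ((k.2 - 1) * L) : ℤ))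

/-- The enlarged box does not meet `T`. -/
def C2 (T : Set Vtx) (L m : ℤ) (k : ℤ × ℤ) : Prop :=
  ∀ g ∈ T, ¬ inR (k.1 * L - 1 - m) ((k.1 + 1) * L + 1 + m) (k.2 * L - 1 - m)
    ((k.2 + 1) * L + 1 + m) g

/-- The grid indices. -/
noncomputable def Ix (n : ℤ) : Finset (ℤ × ℤ) :=
  Finset.Icc (-(n + 1)) (n + 1) ×ˢ Finset.Icc (-(n + 1)) (n + 1)

theorem Ix_card (n : ℕ) : ((Ix (n : ℤ)).card : ℝ) = (2 * n + 3) ^ 2 := by
  unfold Ix
  rw [Finset.card_product, Int.card_Icc]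
  have : ((n:ℤ) + 1 + 1 - (-((n:ℤ) + 1))).toNat = 2 * n + 3 := by omega
  rw [this]
  push_cast
  ring

theorem mem_Ix {n i j : ℤ} (hi : -(n + 1) ≤ i ∧ i ≤ n + 1) (hj : -(n + 1) ≤ j ∧ j ≤ n + 1) :
    (i, j) ∈ Ix n := by
  unfold Ix
  rw [Finset.mem_product, Finset.mem_Icc, Finset.mem_Icc]
  exact ⟨hi, hj⟩

variable {R : Rect} {δ κ : ℝ} {L n m : ℤ}

theorem det (hpot : S_POT) (M : Msh R δ κ L n m) {F : Finset Edg} (hF : F ⊆ R.edges δ)
    (arc : Set ℂ) (T T' : Set Vtx)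
    (h1 : ∀ k ∈ Ix n, ∀ v f : Vtx, v ∈ R.clu δ F → f ∈ R.dclu δ F →
      inR (k.1 * L - 1) ((k.1 + 1) * L + 1) (k.2 * L - 1) ((k.2 + 1) * L + 1) v →
      inR (k.1 * L - 1) ((k.1 + 1) * L + 1) (k.2 * L - 1) ((k.2 + 1) * L + 1) f → ¬ C2 T L m k)
    (h2 : ∀ k ∈ Ix n, C1 R δ κ L k → ∀ g ∈ T',
      (k.1 * L ≤ g.1 ∧ g.1 < (k.1 + 1) * L) → (k.2 * L ≤ g.2 ∧ g.2 < (k.2 + 1) * L) →
      HA R δ ((k.1 - 1) * L) ((k.1 + 1) * L) ((k.2 - 1) * L) ((k.2 + 2) * L) F ∧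
      HB R δ ((k.1 - 1) * L) ((k.1 + 1) * L) ((k.2 - 1) * L) ((k.2 + 2) * L) F)
    (a1 : ∀ g ∈ T, ∃ w ∈ arc, |w.re - δ * g.1| ≤ δ ∧ |w.im - δ * (g.2 + 1)| ≤ δ)
    (a2 : ∀ z ∈ arc, ∃ g ∈ T', ((R.x0 δ ≤ g.1 ∧ g.1 ≤ R.x1 δ) ∧ (-1 ≤ g.2 ∧ g.2 ≤ R.y1 δ)) ∧
      |z.re - δ * g.1| ≤ δ ∧ |z.im - δ * (g.2 + 1)| ≤ δ) :
    Metric.hausdorffDist (R.path δ F) arc ≤ 20 * κ := by
  have hd := M.d0
  have hk := M.k5
  apply Metric.hausdorffDist_le_of_mem_dist (by linarith)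
  · intro z hz
    obtain ⟨v, f, hv, hf, i, j, ⟨hi, hj⟩, hv2, hf2, z1, z2⟩ := part1 M hF hz
    have h3 := h1 (i, j) (mem_Ix hi hj) v f hv hf hv2 hf2
    unfold C2 at h3
    push Not at h3
    obtain ⟨g, hg, hgR⟩ := h3
    obtain ⟨w, hw, w1, w2⟩ := a1 g hg
    obtain ⟨n1, n2⟩ := near1 M hv2 hgR z1 z2
    refine ⟨w, hw, (HauL.dist_le_abs z w).trans ?_⟩
    have e1 : z.re - w.re = (z.re - δ * g.1) - (w.re - δ * g.1) := by ring
    have e2 : z.im - w.im = (z.im - δ * (g.2 + 1)) - (w.im - δ * (g.2 + 1)) := by ring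
    rw [e1, e2]
    have t1 := abs_sub (z.re - δ * g.1) (w.re - δ * g.1)
    have t2 := abs_sub (z.im - δ * (g.2 + 1)) (w.im - δ * (g.2 + 1))
    linarith
  · intro z hz
    obtain ⟨g, hg, ⟨⟨g1, g2⟩, g3, g4⟩, z1, z2⟩ := a2 z hz
    obtain ⟨i, j, hi, hj, hi2, hj2⟩ := idx M g1 g2 g3 g4
    obtain ⟨hA, hB⟩ := h2 (i, j) (mem_Ix hi hj) (inner M g1 g2 g3 g4 hi2 hj2) g hg hi2 hj2
    obtain ⟨w, hw, w1, w2⟩ := part2 hpot M hF hi2 hj2 hA hB
    refine ⟨w, hw, (HauL.dist_le_abs z w).trans ?_⟩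
    have e1 : z.re - w.re = (z.re - δ * g.1) - (w.re - δ * g.1) := by ring
    have e2 : z.im - w.im = (z.im - δ * (g.2 + 1)) - (w.im - δ * (g.2 + 1)) := by ring
    rw [e1, e2]
    have t1 := abs_sub (z.re - δ * g.1) (w.re - δ * g.1)
    have t2 := abs_sub (z.im - δ * (g.2 + 1)) (w.im - δ * (g.2 + 1))
    linarith

/-- Union bound. -/
theorem pr_bad {p : Edg → ℝ} (hp : Ok p) (S : Finset Edg) {ι : Type} (B : Finset ι)
    (P Q : ι → Prop) (E G : ι → Finset Edg → Prop) {u v : ℝ} (hu : 0 ≤ u) (hv : 0 ≤ v)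
    (h1 : ∀ k ∈ B, P k → Pr p S (E k) ≤ u) (h2 : ∀ k ∈ B, Q k → Pr p S (G k) ≤ v) :
    Pr p S (fun F => ∃ k ∈ B, (P k ∧ E k F) ∨ (Q k ∧ G k F)) ≤ B.card * (u + v) := by
  classical
  induction B using Finset.induction_on with
  | empty =>
    have : Pr p S (fun F => ∃ k ∈ (∅ : Finset ι), (P k ∧ E k F) ∨ (Q k ∧ G k F)) =
        Pr p S (fun _ => ¬ True) := by
      apply Pr_congr
      intro F _
      simp
    rw [this, Pr_not, Pr_true S (fun _ _ => trivial)]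
    simp
  | insert a B ha ih =>
    have i1 := ih (fun k hk => h1 k (Finset.mem_insert_of_mem hk))
      (fun k hk => h2 k (Finset.mem_insert_of_mem hk))
    have e1 : Pr p S (fun F => P a ∧ E a F) ≤ u := by
      by_cases hP : P a
      · refine le_trans (Pr_mono hp (fun F _ h => h.2)) (h1 a (Finset.mem_insert_self _ _) hP)
      · have : Pr p S (fun F => P a ∧ E a F) = Pr p S (fun _ => ¬ True) := by
          apply Pr_congr
          intro F _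
          simp [hP]
        rw [this, Pr_not, Pr_true S (fun _ _ => trivial)]
        simpa using hu
    have e2 : Pr p S (fun F => Q a ∧ G a F) ≤ v := by
      by_cases hQ : Q a
      · refine le_trans (Pr_mono hp (fun F _ h => h.2)) (h2 a (Finset.mem_insert_self _ _) hQ)
      · have : Pr p S (fun F => Q a ∧ G a F) = Pr p S (fun _ => ¬ True) := by
          apply Pr_congr
          intro F _
          simp [hQ]
        rw [this, Pr_not, Pr_true S (fun _ _ => trivial)]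
        simpa using hv
    have e3 := Pr_or_le hp S (fun F => P a ∧ E a F) (fun F => Q a ∧ G a F)
    have e4 := Pr_or_le hp S (fun F => (P a ∧ E a F) ∨ (Q a ∧ G a F))
      (fun F => ∃ k ∈ B, (P k ∧ E k F) ∨ (Q k ∧ G k F))
    have e5 : Pr p S (fun F => ∃ k ∈ insert a B, (P k ∧ E k F) ∨ (Q k ∧ G k F)) ≤
        Pr p S (fun F => ((P a ∧ E a F) ∨ (Q a ∧ G a F)) ∨
          ∃ k ∈ B, (P k ∧ E k F) ∨ (Q k ∧ G k F)) := by
      apply Pr_mono hp
      rintro F _ ⟨k, hk, h⟩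
      rcases Finset.mem_insert.mp hk with rfl | hk
      · exact Or.inl h
      · exact Or.inr ⟨k, hk, h⟩
    rw [Finset.card_insert_of_notMem ha]
    push_cast
    linarith

/-- Final arithmetic. -/
theorem fin_bound {cA cB CA CB X N : ℝ} (hX : 0 ≤ X) (hN : 0 ≤ N) (hCA : 0 ≤ CA) (hCB : 0 ≤ CB) :
    N * (CA * Real.exp (-(cA * X)) + CB * Real.exp (-(cB * X))) ≤
      N * (CA + CB) * Real.exp (-(min cA cB * X)) := by
  have h1 : Real.exp (-(cA * X)) ≤ Real.exp (-(min cA cB * X)) := by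
    apply Real.exp_le_exp.mpr
    apply neg_le_neg
    exact mul_le_mul_of_nonneg_right (min_le_left _ _) hX
  have h2 : Real.exp (-(cB * X)) ≤ Real.exp (-(min cA cB * X)) := by
    apply Real.exp_le_exp.mpr
    apply neg_le_neg
    exact mul_le_mul_of_nonneg_right (min_le_right _ _) hX
  have h3 := mul_le_mul_of_nonneg_left h1 hCA
  have h4 := mul_le_mul_of_nonneg_left h2 hCB
  have h5 := mul_le_mul_of_nonneg_left (add_le_add h3 h4) hN
  calc N * (CA * Real.exp (-(cA * X)) + CB * Real.exp (-(cB * X))) ≤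
      N * (CA * Real.exp (-(min cA cB * X)) + CB * Real.exp (-(min cA cB * X))) := h5
    _ = N * (CA + CB) * Real.exp (-(min cA cB * X)) := by ring

end FwL

end NI38
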