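import Pool.Agent.Helper38K9.NI.Pot

/-!
[HAU]: finitely many boxes determine the trace up to `ε`.
-/

set_option maxHeartbeats 1000000

namespace NI38

open H974 H973 H934E Finset MeasureTheory TopologicalSpace

namespace HauL

/-- Points of the medial edges. -/
theorem cseg_near {δ : ℝ} (hδ : 0 < δ) {v : Vtx} {s : Bool × Bool} {z : ℂ}
    (h2 : z ∈ cseg δ v s) : |z.re - δ * v.1| ≤ δ ∧ |z.im - δ * (v.2 + 1)| ≤ δ := by
  unfold cseg at h2
  rw [segment_eq_image] at h2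
  obtain ⟨θ, ⟨h3, h4⟩, rfl⟩ := h2
  have ha : |if s.1 then δ / 2 else -(δ / 2)| ≤ δ := by
    split_ifs
    · rw [abs_of_pos (by positivity)]; linarith
    · rw [abs_neg, abs_of_pos (by positivity)]; linarith
  have hb : |if s.2 then δ / 2 else -(δ / 2)| ≤ δ := by
    split_ifs
    · rw [abs_of_pos (by positivity)]; linarith
    · rw [abs_neg, abs_of_pos (by positivity)]; linarith
  unfold pt
  simp only [Complex.add_re, Complex.add_im, Complex.real_smul, Complex.mul_re, Complex.mul_im,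
    Complex.sub_re, Complex.sub_im, Complex.one_re, Complex.one_im, Complex.ofReal_re,
    Complex.ofReal_im, zero_mul, sub_zero, add_zero, zero_add]
  constructor
  · have e : (1 - θ) * (δ * (v.1 : ℝ) + if s.1 then δ / 2 else -(δ / 2)) + θ * (δ * (v.1 : ℝ))
        - δ * (v.1 : ℝ) = (1 - θ) * (if s.1 then δ / 2 else -(δ / 2)) := by ring
    rw [e, abs_mul, abs_of_nonneg (by linarith)]
    calc (1 - θ) * |if s.1 then δ / 2 else -(δ / 2)| ≤ 1 * δ :=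
          mul_le_mul (by linarith) ha (abs_nonneg _) (by norm_num)
      _ = δ := one_mul _
  · have e : (1 - θ) * (δ * ((v.2 : ℝ) + 1)) + θ * (δ * ((v.2 : ℝ) + 1) +
        if s.2 then δ / 2 else -(δ / 2)) - δ * ((v.2 : ℝ) + 1) =
        θ * (if s.2 then δ / 2 else -(δ / 2)) := by ring
    rw [e, abs_mul, abs_of_nonneg h3]
    calc θ * |if s.2 then δ / 2 else -(δ / 2)| ≤ 1 * δ :=
          mul_le_mul h4 hb (abs_nonneg _) (by norm_num)
      _ = δ := one_mul _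

theorem cseg_nonempty (δ : ℝ) (v : Vtx) (s : Bool × Bool) : (cseg δ v s).Nonempty :=
  ⟨_, left_mem_segment ℝ _ _⟩

/-- A corner gives a point of the path next to its vertex. -/
theorem path_of_corner {R : Rect} {δ : ℝ} (hδ : 0 < δ) {F : Finset Edg}
    {k : Vtx × (Bool × Bool)} (hk : k ∈ R.corners δ F) :
    ∃ z ∈ R.path δ F, |z.re - δ * k.1.1| ≤ δ ∧ |z.im - δ * (k.1.2 + 1)| ≤ δ := by
  obtain ⟨z, hz⟩ := cseg_nonempty δ k.1 k.2
  refine ⟨z, ?_, cseg_near hδ hz⟩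
  unfold Rect.path
  rw [Set.mem_iUnion₂]
  exact ⟨k, hk, hz⟩

/-- A point of the path gives a corner next to it. -/
theorem corner_of_path {R : Rect} {δ : ℝ} (hδ : 0 < δ) {F : Finset Edg} {z : ℂ}
    (hz : z ∈ R.path δ F) :
    ∃ k ∈ R.corners δ F, |z.re - δ * k.1.1| ≤ δ ∧ |z.im - δ * (k.1.2 + 1)| ≤ δ := by
  unfold Rect.path at hz
  rw [Set.mem_iUnion₂] at hz
  obtain ⟨k, hk, h⟩ := hz
  exact ⟨k, hk, cseg_near hδ h⟩

theorem dist_le_abs (z w : ℂ) : dist z w ≤ |z.re - w.re| + |z.im - w.im| := by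
  rw [Complex.dist_eq]
  have := Complex.norm_le_abs_re_add_abs_im (z - w)
  simpa using this

theorem cface_cases (v : Vtx) (s : Bool × Bool) :
    ((cface v s).1 = v.1 ∨ (cface v s).1 = v.1 - 1) ∧
      ((cface v s).2 = v.2 ∨ (cface v s).2 = v.2 - 1) := by
  unfold cface
  constructor
  · by_cases h : s.1 = true <;> simp [h]
  · by_cases h : s.2 = true <;> simp [h]

/-- One inclusion. -/
theorem incl (hpot : S_POT) {R : Rect} {δ : ℝ} (hδ : 0 < δ) (hs : Sm R δ) {κ : ℝ}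
    (hκ : 5 * δ ≤ κ) {L : ℤ} (hL : 0 < L) (hL2 : δ * L ≤ κ) {n : ℤ}
    (hn1 : R.x1 δ < (n + 1) * L) (hn2 : -(n * L) ≤ R.x0 δ) (hn3 : R.y1 δ < (n + 1) * L)
    (hn0 : 0 ≤ n)
    {F G : Finset Edg} (hF : F ⊆ R.edges δ) (hG : G ⊆ R.edges δ)
    (hFG : ∀ i j : ℤ, -n ≤ i → i ≤ n → -n ≤ j → j ≤ n →
      HA R δ (i * L - 1) ((i + 1) * L + 1) (j * L - 1) ((j + 1) * L + 1) F →
      HB R δ (i * L - 1) ((i + 1) * L + 1) (j * L - 1) ((j + 1) * L + 1) F →
      HA R δ (i * L - 1) ((i + 1) * L + 1) (j * L - 1) ((j + 1) * L + 1) G ∧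
      HB R δ (i * L - 1) ((i + 1) * L + 1) (j * L - 1) ((j + 1) * L + 1) G) {z : ℂ}
    (hz : z ∈ R.path δ F) : ∃ w ∈ R.path δ G, dist z w ≤ 4 * κ := by
  obtain ⟨⟨v, s⟩, hk, hz1, hz2⟩ := corner_of_path hδ hz
  obtain ⟨hv, hf⟩ := hk
  simp only at hv hf hz1 hz2
  obtain ⟨⟨⟨a1, a2⟩, a3, a4⟩, -⟩ := PotL.clu_val hs hF hv
  obtain ⟨i, hi⟩ : ∃ i, i = v.1 / L := ⟨_, rfl⟩
  obtain ⟨j, hj⟩ : ∃ j, j = v.2 / L := ⟨_, rfl⟩
  have i1 : i * L ≤ v.1 := by rw [hi]; exact Int.ediv_mul_le _ hL.ne'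
  have i2 : v.1 < (i + 1) * L := by rw [hi]; exact Int.lt_ediv_add_one_mul_self _ hL
  have j1 : j * L ≤ v.2 := by rw [hj]; exact Int.ediv_mul_le _ hL.ne'
  have j2 : v.2 < (j + 1) * L := by rw [hj]; exact Int.lt_ediv_add_one_mul_self _ hL
  have bi1 : i ≤ n := by
    by_contra hc
    push Not at hc
    have : (n + 1) * L ≤ i * L := mul_le_mul_of_nonneg_right (by omega) hL.le
    linarith
  have bi2 : -n ≤ i := by
    by_contra hc
    push Not at hc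
    have : (i + 1) * L ≤ (-n) * L := mul_le_mul_of_nonneg_right (by omega) hL.le
    linarith
  have bj1 : j ≤ n := by
    by_contra hc
    push Not at hc
    have : (n + 1) * L ≤ j * L := mul_le_mul_of_nonneg_right (by omega) hL.le
    linarith
  have bj2 : -n ≤ j := by
    by_contra hc
    push Not at hc
    have : (j + 1) * L ≤ (-n) * L := mul_le_mul_of_nonneg_right (by omega) hL.le
    have h3 : 0 ≤ n * L := mul_nonneg hn0 hL.le
    linarith
  obtain ⟨c1, c2⟩ := cface_cases v s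
  have hA : HA R δ (i * L - 1) ((i + 1) * L + 1) (j * L - 1) ((j + 1) * L + 1) F := by
    refine ⟨v, hv, ?_⟩
    unfold inR
    refine ⟨⟨?_, ?_⟩, ?_, ?_⟩ <;> linarith
  have hB : HB R δ (i * L - 1) ((i + 1) * L + 1) (j * L - 1) ((j + 1) * L + 1) F := by
    refine ⟨_, hf, ?_⟩
    unfold inR
    refine ⟨⟨?_, ?_⟩, ?_, ?_⟩
    · rcases c1 with h | h <;> rw [h] <;> linarith
    · rcases c1 with h | h <;> rw [h] <;> linarith
    · rcases c2 with h | h <;> rw [h] <;> linarith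
    · rcases c2 with h | h <;> rw [h] <;> linarith
  obtain ⟨gA, gB⟩ := hFG i j bi2 bi1 bj2 bj1 hA hB
  obtain ⟨k, hk, ⟨⟨k1, k2⟩, k3, k4⟩⟩ := hpot R δ hs G hG _ _ _ _ gA gB
  obtain ⟨w, hw, w1, w2⟩ := path_of_corner hδ hk
  refine ⟨w, hw, (dist_le_abs z w).trans ?_⟩
  have hLr : (0:ℝ) < L := by exact_mod_cast hL
  have key : ∀ a b : ℤ, a - b ≤ L + 3 → b - a ≤ L + 3 → |δ * (a:ℝ) - δ * b| ≤ δ * (L + 3) := by
    intro a b h1 h2
    rw [← mul_sub, abs_mul, abs_of_pos hδ]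
    apply mul_le_mul_of_nonneg_left _ hδ.le
    have h1' : (a:ℝ) - b ≤ L + 3 := by exact_mod_cast h1
    have h2' : (b:ℝ) - a ≤ L + 3 := by exact_mod_cast h2
    rw [abs_le]
    constructor <;> linarith
  have e1 : (i + 1) * L = i * L + L := by ring
  have e2 : (j + 1) * L = j * L + L := by ring
  have q1 := key v.1 k.1.1 (by linarith) (by linarith)
  have q2 := key v.2 k.1.2 (by linarith) (by linarith)
  have r1 : |z.re - w.re| ≤ 2 * κ := by
    have e : z.re - w.re = (z.re - δ * v.1) + (δ * (v.1:ℝ) - δ * k.1.1) - (w.re - δ * k.1.1) := by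
      ring
    rw [e]
    have t1 := abs_sub ((z.re - δ * v.1) + (δ * (v.1:ℝ) - δ * k.1.1)) (w.re - δ * k.1.1)
    have t2 := abs_add_le (z.re - δ * v.1) (δ * (v.1:ℝ) - δ * k.1.1)
    nlinarith
  have r2 : |z.im - w.im| ≤ 2 * κ := by
    have e : z.im - w.im = (z.im - δ * (v.2 + 1)) + (δ * (v.2:ℝ) - δ * k.1.2) -
        (w.im - δ * (k.1.2 + 1)) := by
      ring
    rw [e]
    have t1 := abs_sub ((z.im - δ * (v.2 + 1)) + (δ * (v.2:ℝ) - δ * k.1.2))
      (w.im - δ * (k.1.2 + 1))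
    have t2 := abs_add_le (z.im - δ * (v.2 + 1)) (δ * (v.2:ℝ) - δ * k.1.2)
    nlinarith
  linarith

end HauL

open HauL

theorem hau : S_SML → S_POT → S_HAU := by
  intro hsml hpot R ε hε
  obtain ⟨δ1, hδ1, hδ11, hsm⟩ := hsml R
  obtain ⟨κ, hκ⟩ : ∃ κ : ℝ, κ = ε / 20 := ⟨_, rfl⟩
  have hκ0 : 0 < κ := by rw [hκ]; positivity
  have hA := R.hA
  have hB := R.hB
  have hH := R.hH
  obtain ⟨n, hn⟩ : ∃ n : ℕ, n = ⌈2 * (R.A + R.B + R.H) / κ⌉₊ + 1 := ⟨_, rfl⟩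
  have hnr : 2 * (R.A + R.B + R.H) ≤ κ * n := by
    have h1 := Nat.le_ceil (2 * (R.A + R.B + R.H) / κ)
    have h2 : (n:ℝ) = (⌈2 * (R.A + R.B + R.H) / κ⌉₊ : ℝ) + 1 := by rw [hn]; push_cast; ring
    rw [div_le_iff₀ hκ0] at h1
    rw [h2]
    nlinarith
  refine ⟨(n + 1) * κ + 1, min δ1 (κ / 5), (2 * n + 1) * (2 * n + 1), by positivity,
    lt_min hδ1 (by positivity), (min_le_left _ _).trans hδ11, ?_⟩
  intro δ hδ hlt
  have hlt1 : δ < δ1 := lt_of_lt_of_le hlt (min_le_left _ _)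
  have hlt2 : δ < κ / 5 := lt_of_lt_of_le hlt (min_le_right _ _)
  obtain ⟨hs, p1, p2, p3, p4⟩ := hsm δ hδ hlt1
  refine ⟨hs, ?_⟩
  obtain ⟨L, hL⟩ : ∃ L : ℤ, L = ⌊κ / δ⌋ := ⟨_, rfl⟩
  have L1 : δ * L ≤ κ := by
    have := Int.floor_le (κ / δ)
    rw [← hL, le_div_iff₀ hδ] at this
    linarith
  have L2 : κ - δ < δ * L := by
    have := Int.lt_floor_add_one (κ / δ)
    rw [← hL, div_lt_iff₀ hδ] at this
    linarith
  have L3 : κ / 2 ≤ δ * L := by linarith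
  have L0 : 0 < L := by
    have : 0 < δ * (L:ℝ) := by linarith
    have h2 : (0:ℝ) < L := by
      by_contra hc
      push Not at hc
      have := mul_nonpos_of_nonneg_of_nonpos hδ.le hc
      linarith
    exact_mod_cast h2
  have conv : ∀ u v : ℤ, δ * (u:ℝ) < δ * v → u < v := by
    intro u v h
    have := lt_of_mul_lt_mul_left h hδ.le
    exact_mod_cast this
  have conv' : ∀ u v : ℤ, δ * (u:ℝ) ≤ δ * v → u ≤ v := by
    intro u v h
    have := le_of_mul_le_mul_left h hδ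
    exact_mod_cast this
  have hn0 : (0:ℝ) ≤ n := Nat.cast_nonneg n
  have big : R.A + R.B + R.H ≤ δ * L * n := by
    have : κ / 2 * n ≤ δ * L * n := mul_le_mul_of_nonneg_right L3 hn0
    linarith
  have hn1 : R.x1 δ < ((n:ℤ) + 1) * L := by
    apply conv; push_cast; nlinarith [p2.2]
  have hn3 : R.y1 δ < ((n:ℤ) + 1) * L := by
    apply conv; push_cast; nlinarith [p3.2]
  have hn2 : -((n:ℤ) * L) ≤ R.x0 δ := by
    apply conv'; push_cast; nlinarith [p1.1]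
  refine ⟨((Finset.Icc (-(n:ℤ)) n) ×ˢ (Finset.Icc (-(n:ℤ)) n)).image
    (fun k => (k.1 * L - 1, (k.1 + 1) * L + 1, k.2 * L - 1, (k.2 + 1) * L + 1)), ?_, ?_, ?_⟩
  · refine Finset.card_image_le.trans ?_
    rw [Finset.card_product, Int.card_Icc]
    have : ((n:ℤ) + 1 - (-(n:ℤ))).toNat = 2 * n + 1 := by omega
    rw [this]
  · intro k hk
    rw [Finset.mem_image] at hk
    obtain ⟨⟨i, j⟩, hij, rfl⟩ := hk
    rw [Finset.mem_product, Finset.mem_Icc, Finset.mem_Icc] at hij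
    obtain ⟨⟨i1, i2⟩, j1, j2⟩ := hij
    simp only at i1 i2 j1 j2 ⊢
    have bd : ∀ i : ℤ, -(n:ℤ) ≤ i → i ≤ n → |δ * (((i * L - 1 : ℤ)) : ℝ)| ≤ (n + 1) * κ + 1 ∧
        |δ * ((((i + 1) * L + 1 : ℤ)) : ℝ)| ≤ (n + 1) * κ + 1 := by
      intro i h1 h2
      have h1' : -(n:ℝ) ≤ i := by exact_mod_cast h1
      have h2' : (i:ℝ) ≤ n := by exact_mod_cast h2
      have hLp : (0:ℝ) < δ * L := by linarith
      have a1 : (i:ℝ) * (δ * L) ≤ n * (δ * L) := mul_le_mul_of_nonneg_right h2' hLp.le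
      have a2 : -(n:ℝ) * (δ * L) ≤ i * (δ * L) := mul_le_mul_of_nonneg_right h1' hLp.le
      have a3 : (n:ℝ) * (δ * L) ≤ n * κ := mul_le_mul_of_nonneg_left L1 hn0
      constructor
      · push_cast
        rw [abs_le]
        constructor <;> nlinarith
      · push_cast
        rw [abs_le]
        constructor <;> nlinarith
    refine ⟨⟨?_, ?_⟩, (bd i i1 i2).1, (bd i i1 i2).2, (bd j j1 j2).1, (bd j j1 j2).2⟩
    · linarith [show (i + 1) * L = i * L + L by ring]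
    · linarith [show (j + 1) * L = j * L + L by ring]
  · intro F G hF hG hFG
    rw [Metric.NonemptyCompacts.dist_eq]
    have hmem : ∀ i j : ℤ, -(n:ℤ) ≤ i → i ≤ n → -(n:ℤ) ≤ j → j ≤ n →
        (i * L - 1, (i + 1) * L + 1, j * L - 1, (j + 1) * L + 1) ∈
        ((Finset.Icc (-(n:ℤ)) n) ×ˢ (Finset.Icc (-(n:ℤ)) n)).image
        (fun k : ℤ × ℤ => (k.1 * L - 1, (k.1 + 1) * L + 1, k.2 * L - 1, (k.2 + 1) * L + 1)) := by
      intro i j h1 h2 h3 h4
      rw [Finset.mem_image]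
      exact ⟨(i, j), by
        rw [Finset.mem_product, Finset.mem_Icc, Finset.mem_Icc]
        exact ⟨⟨h1, h2⟩, h3, h4⟩, rfl⟩
    apply Metric.hausdorffDist_le_of_mem_dist hε.le
    · intro z hz
      obtain ⟨w, hw, hd⟩ := incl hpot hδ hs (by linarith) L0 L1 hn1 hn2 hn3
        (Int.natCast_nonneg n) hF hG (fun i j h1 h2 h3 h4 hA hB =>
          ⟨(hFG _ (hmem i j h1 h2 h3 h4)).1.mp hA, (hFG _ (hmem i j h1 h2 h3 h4)).2.mp hB⟩) hz
      exact ⟨w, hw, hd.trans (by rw [hκ]; linarith)⟩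
    · intro z hz
      obtain ⟨w, hw, hd⟩ := incl hpot hδ hs (by linarith) L0 L1 hn1 hn2 hn3
        (Int.natCast_nonneg n) hG hF (fun i j h1 h2 h3 h4 hA hB =>
          ⟨(hFG _ (hmem i j h1 h2 h3 h4)).1.mpr hA, (hFG _ (hmem i j h1 h2 h3 h4)).2.mpr hB⟩) hz
      exact ⟨w, hw, hd.trans (by rw [hκ]; linarith)⟩

end NI38
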