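import Pool.Agent.TH291.NW.Stb

/-!
Near-critical stability for connections in a rectangle minus a box: statement.
-/

set_option maxHeartbeats 400000

namespace NI38

open H974 H12S H973N H973N.WHX Finset TH291.NW

/-- Closed lattice rectangle, at mesh `δ`. -/
def Rc (δ : ℝ) (X0 X1 Y0 Y1 : ℤ) : Set (ℝ × ℝ) :=
  {x | (δ * X0 ≤ x.1 ∧ x.1 ≤ δ * X1) ∧ (δ * Y0 ≤ x.2 ∧ x.2 ≤ δ * Y1)}

/-- Open lattice rectangle, at mesh `δ`. -/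
def Ro (δ : ℝ) (X0 X1 Y0 Y1 : ℤ) : Set (ℝ × ℝ) :=
  {x | (δ * X0 < x.1 ∧ x.1 < δ * X1) ∧ (δ * Y0 < x.2 ∧ x.2 < δ * Y1)}

/-- An open rectangle with some boundary points, minus an open box. -/
def Dm (δ : ℝ) (X0 X1 Y0 Y1 a b c d : ℤ) (P : Set (ℝ × ℝ)) : Set (ℝ × ℝ) :=
  (Ro δ X0 X1 Y0 Y1 ∪ P) \ Ro δ a b c d

/-- The vertices on the boundary of a lattice box. -/
def bdy (a b c d : ℤ) : Set Vtx := {v | inR a b c d v ∧ (v.1 = a ∨ v.1 = b ∨ v.2 = c ∨ v.2 = d)}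

/-- [STB] Near-critical stability of the connection of a subset `I` of the boundary of a rectangle
to the boundary of a box, in the rectangle minus the box. `P` is an arbitrary set of points of the
closed rectangle. From `TH291.NW.dom_stab`, `Cov.union`, `cov_param` (`s = 1`). -/
def S_STB : Prop := StIn → ∀ ρ : ℝ, 0 < ρ → ∃ C : ℝ, 0 < C ∧ ∀ δ : ℝ, 0 < δ → δ ≤ 1 →
  ∀ X0 X1 Y0 Y1 a b c d : ℤ, X0 ≤ X1 → Y0 ≤ Y1 → a ≤ b → c ≤ d →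
    ((|δ * X0| ≤ ρ ∧ |δ * X1| ≤ ρ ∧ |δ * Y0| ≤ ρ ∧ |δ * Y1| ≤ ρ) ∧
      (|δ * a| ≤ ρ ∧ |δ * b| ≤ ρ ∧ |δ * c| ≤ ρ ∧ |δ * d| ≤ ρ)) →
    ∀ P : Set (ℝ × ℝ), P ⊆ Rc δ X0 X1 Y0 Y1 → ∀ N : ℕ, ρ + δ ≤ δ * N →
    ∀ I : Set Vtx, I ⊆ bdy X0 X1 Y0 Y1 → ∀ q : ℝ, 0 ≤ q → q ≤ 1 →
      |Pr (fun _ => q) (SE (Dm δ X0 X1 Y0 Y1 a b c d P) δ N) (fun F => Cn I (bdy a b c d) ↑F) -
        Pr (fun _ => 1/2) (SE (Dm δ X0 X1 Y0 Y1 a b c d P) δ N)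
          (fun F => Cn I (bdy a b c d) ↑F)| ≤ C * |q - 1/2| * δ ^ (-(3/4 : ℝ))

end NI38
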