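import Pool.Agent.Helper38K9.NI.Stm
import Pool.Agent.Helper38K9.NI.Stm2

/-!
Paths to a box: the first hit of the box, and the segments of the lattice which avoid it.
-/

set_option maxHeartbeats 1000000

namespace NI38

open H974 H973 Finset TH291.NW

namespace HitL

/-- First hit of a box by a path of `G ∪ W`, after the last visit of `I`. -/
theorem hit {G W E' : Set Edg} {I : Set Vtx} {a b c d : ℤ} (hI : ∀ v ∈ I, ¬ inR a b c d v)
    (hW : ∀ e ∈ W, src e ∈ I ∧ tgt e ∈ I)
    (hE : ∀ e ∈ G, (¬ inR a b c d (src e) ∨ ¬ inR a b c d (tgt e)) → e ∈ E')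
    {u v : Vtx} (hu : u ∈ I) (h : Reach (G ∪ W) u v) (hv : inR a b c d v) :
    ∃ u ∈ I, ∃ w ∈ bdy a b c d, Reach (G ∩ E') u w := by
  have key : ∀ z, Reach (G ∪ W) u z → (∃ u ∈ I, ∃ w ∈ bdy a b c d, Reach (G ∩ E') u w) ∨
      (¬ inR a b c d z ∧ ∃ u ∈ I, Reach (G ∩ E') u z) := by
    intro z hz
    induction hz with
    | refl => exact Or.inr ⟨hI u hu, u, hu, Reach.refl _ _⟩
    | @tail z z' _ hs ih =>
      rcases ih with ih | ⟨hz1, u', hu', hr⟩
      · exact Or.inl ih
      · obtain ⟨e, he, hc⟩ := hs
        rcases he with he | he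
        · have hEe : e ∈ E' := by
            apply hE e he
            rcases hc with ⟨h1, h2⟩ | ⟨h1, h2⟩
            · left; rw [h1]; exact hz1
            · right; rw [h2]; exact hz1
          have hr' : Reach (G ∩ E') u' z' := hr.trans (Adj.reach ⟨e, ⟨he, hEe⟩, hc⟩)
          by_cases hz2 : inR a b c d z'
          · left
            refine ⟨u', hu', z', ⟨hz2, ?_⟩, hr'⟩
            unfold inR at hz1 hz2
            obtain ⟨x, y, s⟩ := e
            cases s
            · rw [src_mk, tgt_false] at hc
              rcases hc with ⟨h1, h2⟩ | ⟨h1, h2⟩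
              · have k1 := congrArg Prod.fst h1
                have k2 := congrArg Prod.snd h1
                have k3 := congrArg Prod.fst h2
                have k4 := congrArg Prod.snd h2
                simp only at k1 k2 k3 k4
                omega
              · have k1 := congrArg Prod.fst h1
                have k2 := congrArg Prod.snd h1
                have k3 := congrArg Prod.fst h2
                have k4 := congrArg Prod.snd h2
                simp only at k1 k2 k3 k4
                omega
            · rw [src_mk, tgt_true] at hc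
              rcases hc with ⟨h1, h2⟩ | ⟨h1, h2⟩
              · have k1 := congrArg Prod.fst h1
                have k2 := congrArg Prod.snd h1
                have k3 := congrArg Prod.fst h2
                have k4 := congrArg Prod.snd h2
                simp only at k1 k2 k3 k4
                omega
              · have k1 := congrArg Prod.fst h1
                have k2 := congrArg Prod.snd h1
                have k3 := congrArg Prod.fst h2
                have k4 := congrArg Prod.snd h2
                simp only at k1 k2 k3 k4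
                omega
          · exact Or.inr ⟨hz2, u', hu', hr'⟩
        · have hz' : z' ∈ I := by
            rcases hc with ⟨h1, h2⟩ | ⟨h1, h2⟩
            · rw [← h2]; exact (hW e he).2
            · rw [← h1]; exact (hW e he).1
          exact Or.inr ⟨hI z' hz', z', hz', Reach.refl _ _⟩
  rcases key v h with h | ⟨h, _⟩
  · exact h
  · exact absurd hv h

theorem segT {δ : ℝ} (hδ : 0 < δ) {x y : ℤ} {z : ℝ × ℝ}
    (hz : z ∈ segment ℝ (pt δ (src (x, y, true))) (pt δ (tgt (x, y, true)))) :
    z.2 = δ * y ∧ δ * x ≤ z.1 ∧ z.1 ≤ δ * (x + 1) := by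
  rw [segment_eq_image] at hz
  obtain ⟨θ, ⟨h3, h4⟩, rfl⟩ := hz
  simp only [pt, src_mk, tgt_true, Prod.smul_mk, Prod.mk_add_mk, smul_eq_mul]
  push_cast
  refine ⟨by ring, ?_, ?_⟩
  · nlinarith
  · nlinarith

theorem segF {δ : ℝ} (hδ : 0 < δ) {x y : ℤ} {z : ℝ × ℝ}
    (hz : z ∈ segment ℝ (pt δ (src (x, y, false))) (pt δ (tgt (x, y, false)))) :
    z.1 = δ * x ∧ δ * y ≤ z.2 ∧ z.2 ≤ δ * (y + 1) := by
  rw [segment_eq_image] at hz
  obtain ⟨θ, ⟨h3, h4⟩, rfl⟩ := hz
  simp only [pt, src_mk, tgt_false, Prod.smul_mk, Prod.mk_add_mk, smul_eq_mul]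
  push_cast
  refine ⟨by ring, ?_, ?_⟩
  · nlinarith
  · nlinarith

/-- An edge with an end off the box does not meet the open box. -/
theorem seg_avoid {δ : ℝ} (hδ : 0 < δ) {a b c d : ℤ} {e : Edg}
    (h : ¬ inR a b c d (src e) ∨ ¬ inR a b c d (tgt e)) {z : ℝ × ℝ}
    (hz : z ∈ segment ℝ (pt δ (src e)) (pt δ (tgt e))) : z ∉ Ro δ a b c d := by
  rintro ⟨⟨b1, b2⟩, b3, b4⟩
  have cv : ∀ u w : ℤ, δ * (u:ℝ) < δ * w → u < w := by
    intro u w h
    have := lt_of_mul_lt_mul_left h hδ.le
    exact_mod_cast this
  obtain ⟨x, y, s⟩ := e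
  cases s
  · obtain ⟨h1, h2, h3⟩ := segF hδ hz
    have c1 : a < x := cv _ _ (by linarith)
    have c2 : x < b := cv _ _ (by linarith)
    have c3 : c < y + 1 := cv _ _ (by push_cast; linarith)
    have c4 : y < d := cv _ _ (by linarith)
    unfold inR at h
    rw [src_mk, tgt_false] at h
    simp only at h
    omega
  · obtain ⟨h1, h2, h3⟩ := segT hδ hz
    have c1 : a < x + 1 := cv _ _ (by push_cast; linarith)
    have c2 : x < b := cv _ _ (by linarith)
    have c3 : c < y := cv _ _ (by linarith)
    have c4 : y < d := cv _ _ (by linarith)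
    unfold inR at h
    rw [src_mk, tgt_true] at h
    simp only at h
    omega

end HitL

end NI38
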