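import Pool.Agent.Helper38K9.NI.Stm

/-!
[POT]: if both clusters meet a box then the exploration path has a corner next to it.
-/

set_option maxHeartbeats 1000000

namespace NI38

open H974 H973 H934E Finset

namespace PotL

/-- Indicator with values in `ZMod 2`. -/
noncomputable def iv (P : Prop) : ZMod 2 := by
  classical exact if P then 1 else 0

theorem iv_of {P : Prop} (h : P) : iv P = 1 := by simp [iv, h]

theorem iv_not {P : Prop} (h : ¬ P) : iv P = 0 := by simp [iv, h]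

theorem iv_congr {P Q : Prop} (h : P ↔ Q) : iv P = iv Q := by rw [propext h]

/-- The form whose potential is used. -/
noncomputable def DD (R : Rect) (δ : ℝ) (F : Finset Edg) (e : Edg) : ZMod 2 :=
  (iv (src e ∈ R.clu δ F) + iv (tgt e ∈ R.clu δ F)) * iv (dsrc e ∈ R.dclu δ F)

variable {R : Rect} {δ : ℝ} {F : Finset Edg}

theorem open_iff {e : Edg} (he : e ∈ (↑F ∪ R.wired δ : Set Edg)) :
    (src e ∈ R.clu δ F ↔ tgt e ∈ R.clu δ F) := by
  constructor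
  · intro h
    exact Reach.trans h (Adj.reach ⟨e, he, Or.inl ⟨rfl, rfl⟩⟩)
  · intro h
    exact Reach.trans h (Adj.reach ⟨e, he, Or.inr ⟨rfl, rfl⟩⟩)

theorem closed_iff {e : Edg} (he : e ∈ (↑(R.edges δ) \ (↑F ∪ R.wired δ) : Set Edg)) :
    (dsrc e ∈ R.dclu δ F ↔ dtgt e ∈ R.dclu δ F) := by
  constructor
  · rintro ⟨g, hg, h⟩
    exact ⟨g, hg, h.trans (DAdj.reach ⟨e, he, Or.inl ⟨rfl, rfl⟩⟩)⟩
  · rintro ⟨g, hg, h⟩
    exact ⟨g, hg, h.trans (DAdj.reach ⟨e, he, Or.inr ⟨rfl, rfl⟩⟩)⟩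

theorem DD_eq {e : Edg} (he : e ∈ R.edges δ) : DD R δ F e =
    (iv (src e ∈ R.clu δ F) + iv (tgt e ∈ R.clu δ F)) * iv (dtgt e ∈ R.dclu δ F) := by
  unfold DD
  by_cases h : e ∈ (↑F ∪ R.wired δ : Set Edg)
  · rw [iv_congr (open_iff h), zmod2_add_self, zero_mul, zero_mul]
  · rw [iv_congr (closed_iff ⟨Finset.mem_coe.mpr he, h⟩)]

theorem mem_edges {x y : ℤ} {b : Bool} : ((x, y, b) : Edg) ∈ R.edges δ ↔
    ((R.x0 δ ≤ x ∧ x ≤ R.x1 δ) ∧ (0 ≤ y ∧ y ≤ R.y1 δ)) ∧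
      (if b then x + 1 ≤ R.x1 δ else y + 1 ≤ R.y1 δ) := by
  unfold Rect.edges
  rw [mem_ES, R.mem_verts', R.mem_verts']
  cases b
  · simp only [src_mk, tgt_false, Bool.false_eq_true, if_false]
    constructor
    · rintro ⟨⟨h1, h2⟩, ⟨h3, h4⟩⟩; exact ⟨⟨h1, h2⟩, h4.2⟩
    · rintro ⟨⟨h1, h2⟩, h3⟩; exact ⟨⟨h1, h2⟩, ⟨h1, ⟨by omega, h3⟩⟩⟩
  · simp only [src_mk, tgt_true, if_true]
    constructor
    · rintro ⟨⟨h1, h2⟩, ⟨h3, h4⟩⟩; exact ⟨⟨h1, h2⟩, h3.2⟩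
    · rintro ⟨⟨h1, h2⟩, h3⟩; exact ⟨⟨h1, h2⟩, ⟨⟨by omega, h3⟩, h2⟩⟩

/-- The potential. -/
noncomputable def ss (R : Rect) (δ : ℝ) (F : Finset Edg) (x y : ℤ) : ZMod 2 :=
  ∑ i ∈ Finset.Ico (R.x0 δ) x, DD R δ F (i, 0, true) +
    ∑ j ∈ Finset.Ico (0:ℤ) y, DD R δ F (x, j, false)

theorem ss_v {x y : ℤ} (hy : 0 ≤ y) :
    ss R δ F x (y + 1) = ss R δ F x y + DD R δ F (x, y, false) := by
  unfold ss
  rw [sum_Ico_int_succ hy]
  ring

theorem face0 {x y : ℤ} (h1 : R.x0 δ ≤ x) (h2 : x < R.x1 δ) (h3 : 0 ≤ y) (h4 : y < R.y1 δ) :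
    DD R δ F (x, y, true) + DD R δ F (x + 1, y, false) =
      DD R δ F (x, y, false) + DD R δ F (x, y + 1, true) := by
  have e1 : ((x, y, true) : Edg) ∈ R.edges δ := mem_edges.mpr ⟨by omega, by simp; omega⟩
  have e2 : ((x, y, false) : Edg) ∈ R.edges δ := mem_edges.mpr ⟨by omega, by simp; omega⟩
  rw [DD_eq e1, DD_eq e2]
  unfold DD
  simp only [src_mk, tgt_true, tgt_false, dtgt_mk, dsrc_true, dsrc_false, add_sub_cancel_right]
  have k1 := zmod2_add_self (iv ((x + 1, y) ∈ R.clu δ F) * iv ((x, y) ∈ R.dclu δ F))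
  have k2 := zmod2_add_self (iv ((x, y + 1) ∈ R.clu δ F) * iv ((x, y) ∈ R.dclu δ F))
  linear_combination k1 - k2

theorem ss_h {x y : ℤ} (h1 : R.x0 δ ≤ x) (h2 : x < R.x1 δ) (h3 : 0 ≤ y) (h4 : y ≤ R.y1 δ) :
    ss R δ F (x + 1) y = ss R δ F x y + DD R δ F (x, y, true) := by
  revert h4
  induction y, h3 using Int.leInduction with
  | base =>
    intro _
    unfold ss
    rw [sum_Ico_int_succ h1]
    simp
  | succ y hy ih =>
    intro h4
    rw [ss_v hy, ss_v hy, ih (by omega)]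
    have := face0 (F := F) h1 h2 hy (by omega : y < R.y1 δ)
    linear_combination this

/-- `v` is a vertex of the rectangle at the face `f`. -/
def At (R : Rect) (δ : ℝ) (v f : Vtx) : Prop :=
  ((R.x0 δ ≤ v.1 ∧ v.1 ≤ R.x1 δ) ∧ (0 ≤ v.2 ∧ v.2 ≤ R.y1 δ)) ∧
    (f.1 = v.1 ∨ f.1 = v.1 - 1) ∧ (f.2 = v.2 ∨ f.2 = v.2 - 1)

theorem at_iff {x y x' y' : ℤ} : At R δ (x, y) (x', y') ↔
    (R.x0 δ ≤ x ∧ x ≤ R.x1 δ ∧ 0 ≤ y ∧ y ≤ R.y1 δ) ∧ (x' = x ∨ x' = x - 1) ∧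
      (y' = y ∨ y' = y - 1) := by
  constructor
  · rintro ⟨⟨⟨h1, h2⟩, h3, h4⟩, h5, h6⟩
    exact ⟨⟨h1, h2, h3, h4⟩, h5, h6⟩
  · rintro ⟨⟨h1, h2, h3, h4⟩, h5, h6⟩
    exact ⟨⟨⟨h1, h2⟩, h3, h4⟩, h5, h6⟩

/-- The value at the face `f`, computed at `v`. -/
noncomputable def tt (R : Rect) (δ : ℝ) (F : Finset Edg) (v f : Vtx) : ZMod 2 :=
  ss R δ F v.1 v.2 + iv (v ∈ R.clu δ F) * iv (f ∈ R.dclu δ F)

theorem tt_h {x y : ℤ} {f : Vtx} (h1 : At R δ (x, y) f) (h2 : At R δ (x + 1, y) f) :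
    tt R δ F (x, y) f = tt R δ F (x + 1, y) f := by
  obtain ⟨⟨⟨a1, a2⟩, a3, a4⟩, a5, a6⟩ := h1
  obtain ⟨⟨⟨b1, b2⟩, b3, b4⟩, b5, b6⟩ := h2
  simp only at a1 a2 a3 a4 a5 a6 b1 b2 b3 b4 b5 b6
  have hx : f.1 = x := by omega
  have e1 : ((x, y, true) : Edg) ∈ R.edges δ := mem_edges.mpr ⟨by omega, by simp; omega⟩
  unfold tt
  simp only
  rw [ss_h a1 (by omega) a3 a4]
  have key : DD R δ F (x, y, true) =
      (iv ((x, y) ∈ R.clu δ F) + iv ((x + 1, y) ∈ R.clu δ F)) * iv (f ∈ R.dclu δ F) := by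
    rcases a6 with h | h
    · rw [DD_eq e1]
      have : f = (x, y) := Prod.ext hx h
      rw [this]
      rfl
    · have : f = (x, y - 1) := Prod.ext hx h
      rw [this]
      rfl
  rw [key]
  have k1 := zmod2_add_self (iv ((x + 1, y) ∈ R.clu δ F) * iv (f ∈ R.dclu δ F))
  linear_combination -k1

theorem tt_v {x y : ℤ} {f : Vtx} (h1 : At R δ (x, y) f) (h2 : At R δ (x, y + 1) f) :
    tt R δ F (x, y) f = tt R δ F (x, y + 1) f := by
  obtain ⟨⟨⟨a1, a2⟩, a3, a4⟩, a5, a6⟩ := h1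
  obtain ⟨⟨⟨b1, b2⟩, b3, b4⟩, b5, b6⟩ := h2
  simp only at a1 a2 a3 a4 a5 a6 b1 b2 b3 b4 b5 b6
  have hy : f.2 = y := by omega
  have e1 : ((x, y, false) : Edg) ∈ R.edges δ := mem_edges.mpr ⟨by omega, by simp; omega⟩
  unfold tt
  simp only
  rw [ss_v a3]
  have key : DD R δ F (x, y, false) =
      (iv ((x, y) ∈ R.clu δ F) + iv ((x, y + 1) ∈ R.clu δ F)) * iv (f ∈ R.dclu δ F) := by
    rcases a5 with h | h
    · rw [DD_eq e1]
      have : f = (x, y) := Prod.ext h hy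
      rw [this]
      rfl
    · have : f = (x - 1, y) := Prod.ext h hy
      rw [this]
      rfl
  rw [key]
  have k1 := zmod2_add_self (iv ((x, y + 1) ∈ R.clu δ F) * iv (f ∈ R.dclu δ F))
  linear_combination -k1

theorem tt_h' {x x' y : ℤ} {f : Vtx} (h1 : At R δ (x, y) f) (h2 : At R δ (x', y) f) :
    tt R δ F (x, y) f = tt R δ F (x', y) f := by
  have a5 := h1.2.1
  have b5 := h2.2.1
  simp only at a5 b5
  have : x' = x ∨ x' = x + 1 ∨ x = x' + 1 := by omega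
  rcases this with h | h | h
  · rw [h]
  · subst h; exact tt_h h1 h2
  · subst h; exact (tt_h h2 h1).symm

theorem tt_v' {x y y' : ℤ} {f : Vtx} (h1 : At R δ (x, y) f) (h2 : At R δ (x, y') f) :
    tt R δ F (x, y) f = tt R δ F (x, y') f := by
  have a5 := h1.2.2
  have b5 := h2.2.2
  simp only at a5 b5
  have : y' = y ∨ y' = y + 1 ∨ y = y' + 1 := by omega
  rcases this with h | h | h
  · rw [h]
  · subst h; exact tt_v h1 h2
  · subst h; exact (tt_v h2 h1).symm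

theorem tt_eq {v w f : Vtx} (h1 : At R δ v f) (h2 : At R δ w f) :
    tt R δ F v f = tt R δ F w f := by
  obtain ⟨x, y⟩ := v
  obtain ⟨x', y'⟩ := w
  have h3 : At R δ (x', y) f := ⟨⟨h2.1.1, h1.1.2⟩, h2.2.1, h1.2.2⟩
  rw [tt_h' h1 h3, tt_v' h3 h2]

/-- Two faces of the dual cluster with a common vertex have the same value. -/
theorem tt_face {v f g : Vtx} (hf : f ∈ R.dclu δ F) (hg : g ∈ R.dclu δ F) :
    tt R δ F v f = tt R δ F v g := by
  unfold tt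
  rw [iv_of hf, iv_of hg]

theorem src_at {e : Edg} (he : e ∈ R.edges δ) :
    At R δ (src e) (dsrc e) ∧ At R δ (src e) (dtgt e) := by
  obtain ⟨x, y, b⟩ := e
  rw [mem_edges] at he
  cases b
  · simp only [Bool.false_eq_true, if_false] at he
    refine ⟨⟨he.1, ?_, ?_⟩, ⟨he.1, ?_, ?_⟩⟩ <;> simp
  · simp only [if_true] at he
    refine ⟨⟨he.1, ?_, ?_⟩, ⟨he.1, ?_, ?_⟩⟩ <;> simp

theorem wired_sub (hs : Sm R δ) {e : Edg} (he : e ∈ R.wired δ) : e ∈ R.edges δ := by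
  obtain ⟨x, y, b⟩ := e
  obtain ⟨h1, h2, h3, h4, h5⟩ := hs
  rw [mem_edges]
  rcases he with ⟨a1, a2, a3, a4⟩ | ⟨a1, a2, a3, a4⟩ | ⟨a1, a2, a3, a4⟩ <;>
    (simp only at a1 a2 a3 a4; subst a1; simp only [Bool.false_eq_true, if_false, if_true]; omega)

/-- The vertices of the open cluster. -/
theorem clu_val (hs : Sm R δ) (hF : F ⊆ R.edges δ) {v : Vtx} (hv : v ∈ R.clu δ F) :
    ((R.x0 δ ≤ v.1 ∧ v.1 ≤ R.x1 δ) ∧ (0 ≤ v.2 ∧ v.2 ≤ R.y1 δ)) ∧
      ss R δ F v.1 v.2 = ss R δ F 0 0 := by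
  have hv' : Reach (↑F ∪ R.wired δ) (0, 0) v := hv
  clear hv
  induction hv' with
  | refl =>
    obtain ⟨h1, h2, h3, h4, h5⟩ := hs
    exact ⟨⟨⟨by simp only; omega, by simp only; omega⟩, by simp only; omega, by simp only; omega⟩,
      rfl⟩
  | @tail w z hw hs' ih =>
    obtain ⟨e, he, hc⟩ := hs'
    have hE : e ∈ R.edges δ := by
      rcases he with h | h
      · exact hF (Finset.mem_coe.mp h)
      · exact wired_sub hs h
    have hwc : w ∈ R.clu δ F := hw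
    have hzc : z ∈ R.clu δ F := Reach.trans hw (Adj.reach ⟨e, he, hc⟩)
    have hst : src e ∈ R.clu δ F ∧ tgt e ∈ R.clu δ F := by
      rcases hc with ⟨h1, h2⟩ | ⟨h1, h2⟩
      · rw [h1, h2]; exact ⟨hwc, hzc⟩
      · rw [h1, h2]; exact ⟨hzc, hwc⟩
    have hD : DD R δ F e = 0 := by
      unfold DD
      rw [iv_of hst.1, iv_of hst.2, zmod2_add_self, zero_mul]
    obtain ⟨x, y, b⟩ := e
    have hE' := mem_edges.mp hE
    have key : ss R δ F (tgt (x, y, b)).1 (tgt (x, y, b)).2 =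
        ss R δ F (src (x, y, b)).1 (src (x, y, b)).2 := by
      cases b
      · simp only [Bool.false_eq_true, if_false] at hE'
        rw [tgt_false, src_mk, ss_v hE'.1.2.1, hD, add_zero]
      · simp only [if_true] at hE'
        rw [tgt_true, src_mk, ss_h hE'.1.1.1 (by omega) hE'.1.2.1 hE'.1.2.2, hD, add_zero]
    have hin : ((R.x0 δ ≤ (tgt (x, y, b)).1 ∧ (tgt (x, y, b)).1 ≤ R.x1 δ) ∧
        (0 ≤ (tgt (x, y, b)).2 ∧ (tgt (x, y, b)).2 ≤ R.y1 δ)) ∧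
        ((R.x0 δ ≤ (src (x, y, b)).1 ∧ (src (x, y, b)).1 ≤ R.x1 δ) ∧
        (0 ≤ (src (x, y, b)).2 ∧ (src (x, y, b)).2 ≤ R.y1 δ)) := by
      cases b
      · simp only [Bool.false_eq_true, if_false] at hE'
        simp only [tgt_false, src_mk]
        omega
      · simp only [if_true] at hE'
        simp only [tgt_true, src_mk]
        omega
    rcases hc with ⟨h1, h2⟩ | ⟨h1, h2⟩
    · rw [h1, h2] at key hin
      exact ⟨hin.1, key.trans ih.2⟩
    · rw [h1, h2] at key hin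
      exact ⟨hin.2, key.symm.trans ih.2⟩

theorem outer_dclu {g : Vtx} (hg : g ∈ R.outer δ) : g ∈ R.dclu δ F := ⟨g, hg, DReach.refl _ _⟩

/-- A vertex of the rectangle at a face. -/
noncomputable def cv (R : Rect) (δ : ℝ) (f : Vtx) : Vtx := (max f.1 (R.x0 δ), max f.2 0)

/-- The face lies in the rectangle of faces. -/
def InF (R : Rect) (δ : ℝ) (f : Vtx) : Prop :=
  (R.x0 δ - 1 ≤ f.1 ∧ f.1 ≤ R.x1 δ) ∧ (-1 ≤ f.2 ∧ f.2 ≤ R.y1 δ)

theorem cv_at (hs : Sm R δ) {f : Vtx} (hf : InF R δ f) : At R δ (cv R δ f) f := by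
  obtain ⟨h1, h2, h3, h4, h5⟩ := hs
  obtain ⟨⟨a1, a2⟩, a3, a4⟩ := hf
  refine ⟨⟨⟨?_, ?_⟩, ?_, ?_⟩, ?_, ?_⟩ <;> simp only [cv] <;> omega

theorem outer_in (hs : Sm R δ) {f : Vtx} (hf : f ∈ R.outer δ) : InF R δ f := by
  obtain ⟨h1, h2, h3, h4, h5⟩ := hs
  unfold InF
  rcases hf with ⟨a1, a2, a3⟩ | ⟨a1, a2, a3⟩ | ⟨a1, a2, a3⟩ <;> omega

theorem outer_bot (hs : Sm R δ) {x : ℤ} (h0 : 0 ≤ x) : x ≤ R.x1 δ →
    tt R δ F (cv R δ (x, -1)) (x, -1) = ss R δ F 0 0 + 1 := by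
  induction x, h0 using Int.leInduction with
  | base =>
    intro hx
    have ho : ((0:ℤ), (-1:ℤ)) ∈ R.outer δ := Or.inl ⟨rfl, le_rfl, hx⟩
    have hc : ((0:ℤ), (0:ℤ)) ∈ R.clu δ F := Reach.refl _ _
    have hA : At R δ (0, 0) (0, -1) := by
      obtain ⟨h1, h2, h3, h4, h5⟩ := hs
      rw [at_iff]
      omega
    rw [tt_eq (cv_at hs (outer_in hs ho)) hA]
    unfold tt
    rw [iv_of hc, iv_of (outer_dclu ho), mul_one]
  | succ x hx ih =>
    intro hx1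
    have ih' := ih (by omega)
    have o1 : ((x:ℤ), (-1:ℤ)) ∈ R.outer δ := Or.inl ⟨rfl, hx, by simp only; omega⟩
    have o2 : ((x + 1:ℤ), (-1:ℤ)) ∈ R.outer δ := Or.inl ⟨rfl, by simp only; omega, hx1⟩
    have a1 : At R δ (x + 1, 0) (x, -1) := by
      obtain ⟨h1, h2, h3, h4, h5⟩ := hs
      rw [at_iff]
      omega
    have a2 : At R δ (x + 1, 0) (x + 1, -1) := by
      obtain ⟨h1, h2, h3, h4, h5⟩ := hs
      rw [at_iff]
      omega
    rw [tt_eq (cv_at hs (outer_in hs o2)) a2, ← tt_face (outer_dclu o1) (outer_dclu o2),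
      tt_eq a1 (cv_at hs (outer_in hs o1))]
    exact ih'

theorem outer_right (hs : Sm R δ) {y : ℤ} (h0 : -1 ≤ y) : y ≤ R.y1 δ →
    tt R δ F (cv R δ (R.x1 δ, y)) (R.x1 δ, y) = ss R δ F 0 0 + 1 := by
  induction y, h0 using Int.leInduction with
  | base =>
    intro _
    exact outer_bot hs (by have := hs.x1; omega) le_rfl
  | succ y hy ih =>
    intro hy1
    have ih' := ih (by omega)
    have o1 : (R.x1 δ, y) ∈ R.outer δ := Or.inr (Or.inl ⟨rfl, hy, by simp only; omega⟩)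
    have o2 : (R.x1 δ, y + 1) ∈ R.outer δ := Or.inr (Or.inl ⟨rfl, by simp only; omega, hy1⟩)
    have a1 : At R δ (R.x1 δ, y + 1) (R.x1 δ, y) := by
      obtain ⟨h1, h2, h3, h4, h5⟩ := hs
      rw [at_iff]
      omega
    have a2 : At R δ (R.x1 δ, y + 1) (R.x1 δ, y + 1) := by
      obtain ⟨h1, h2, h3, h4, h5⟩ := hs
      rw [at_iff]
      omega
    rw [tt_eq (cv_at hs (outer_in hs o2)) a2, ← tt_face (outer_dclu o1) (outer_dclu o2),
      tt_eq a1 (cv_at hs (outer_in hs o1))]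
    exact ih'

theorem outer_top (hs : Sm R δ) (n : ℕ) : R.tc δ ≤ R.x1 δ - n →
    tt R δ F (cv R δ (R.x1 δ - n, R.y1 δ)) (R.x1 δ - n, R.y1 δ) = ss R δ F 0 0 + 1 := by
  induction n with
  | zero =>
    intro _
    have := outer_right (F := F) hs (by have := hs.y1; omega : -1 ≤ R.y1 δ) le_rfl
    simpa using this
  | succ n ih =>
    intro hn
    push_cast at hn ⊢
    have ih' := ih (by omega)
    have o1 : (R.x1 δ - n, R.y1 δ) ∈ R.outer δ :=
      Or.inr (Or.inr ⟨rfl, by simp only; omega, by simp only; omega⟩)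
    have o2 : (R.x1 δ - (n + 1), R.y1 δ) ∈ R.outer δ :=
      Or.inr (Or.inr ⟨rfl, hn, by simp only; omega⟩)
    have a1 : At R δ (R.x1 δ - n, R.y1 δ) (R.x1 δ - n, R.y1 δ) := by
      obtain ⟨h1, h2, h3, h4, h5⟩ := hs
      rw [at_iff]
      omega
    have a2 : At R δ (R.x1 δ - n, R.y1 δ) (R.x1 δ - (n + 1), R.y1 δ) := by
      obtain ⟨h1, h2, h3, h4, h5⟩ := hs
      rw [at_iff]
      omega
    rw [tt_eq (cv_at hs (outer_in hs o2)) a2, ← tt_face (outer_dclu o1) (outer_dclu o2),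
      tt_eq a1 (cv_at hs (outer_in hs o1))]
    exact ih'

theorem outer_val (hs : Sm R δ) {g : Vtx} (hg : g ∈ R.outer δ) :
    tt R δ F (cv R δ g) g = ss R δ F 0 0 + 1 := by
  obtain ⟨x, y⟩ := g
  rcases hg with ⟨a1, a2, a3⟩ | ⟨a1, a2, a3⟩ | ⟨a1, a2, a3⟩
  · simp only at a1 a2 a3
    subst a1
    exact outer_bot hs a2 a3
  · simp only at a1 a2 a3
    subst a1
    exact outer_right hs a2 a3
  · simp only at a1 a2 a3
    subst a1
    have h := outer_top (F := F) hs (R.x1 δ - x).toNat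
    have e : ((R.x1 δ - x).toNat : ℤ) = R.x1 δ - x := Int.toNat_of_nonneg (by omega)
    rw [e] at h
    have e2 : R.x1 δ - (R.x1 δ - x) = x := by ring
    rw [e2] at h
    exact h a2

theorem dclu_val (hs : Sm R δ) {f : Vtx} (hf : f ∈ R.dclu δ F) :
    InF R δ f ∧ tt R δ F (cv R δ f) f = ss R δ F 0 0 + 1 := by
  obtain ⟨g, hg, h⟩ := hf
  induction h with
  | refl => exact ⟨outer_in hs hg, outer_val hs hg⟩
  | @tail w z hw hs' ih =>
    obtain ⟨e, he, hc⟩ := hs'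
    have hE : e ∈ R.edges δ := Finset.mem_coe.mp he.1
    have hwc : w ∈ R.dclu δ F := ⟨g, hg, hw⟩
    have hzc : z ∈ R.dclu δ F := ⟨g, hg, hw.tail ⟨e, he, hc⟩⟩
    obtain ⟨s1, s2⟩ := src_at hE
    have hwz : At R δ (src e) w ∧ At R δ (src e) z := by
      rcases hc with ⟨h1, h2⟩ | ⟨h1, h2⟩
      · rw [h1] at s1; rw [h2] at s2; exact ⟨s1, s2⟩
      · rw [h1] at s1; rw [h2] at s2; exact ⟨s2, s1⟩
    have hInz : InF R δ z := by
      obtain ⟨⟨⟨b1, b2⟩, b3, b4⟩, b5, b6⟩ := hwz.2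
      unfold InF
      omega
    refine ⟨hInz, ?_⟩
    rw [tt_eq (cv_at hs hInz) hwz.2, tt_face hzc hwc, tt_eq hwz.1 (cv_at hs ih.1)]
    exact ih.2

theorem const_h {p q y : ℤ} (h1 : R.x0 δ ≤ p) (h2 : q ≤ R.x1 δ) (h3 : 0 ≤ y) (h4 : y ≤ R.y1 δ)
    (hD : ∀ x, p ≤ x → x < q → DD R δ F (x, y, true) = 0) {x : ℤ} (hx : p ≤ x) :
    x ≤ q → ss R δ F x y = ss R δ F p y := by
  induction x, hx using Int.leInduction with
  | base => intro _; rfl
  | succ x hx ih =>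
    intro hq
    rw [ss_h (by omega) (by omega) h3 h4, hD x hx (by omega), add_zero]
    exact ih (by omega)

theorem const_v {p q x : ℤ} (h3 : 0 ≤ p)
    (hD : ∀ y, p ≤ y → y < q → DD R δ F (x, y, false) = 0) {y : ℤ} (hy : p ≤ y) :
    y ≤ q → ss R δ F x y = ss R δ F x p := by
  induction y, hy using Int.leInduction with
  | base => intro _; rfl
  | succ y hy ih =>
    intro hq
    rw [ss_v (by omega), hD y hy (by omega), add_zero]
    exact ih (by omega)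

/-- A corner from an edge with non-zero value. -/
theorem corner_of {e : Edg} (h : DD R δ F e ≠ 0) :
    ∃ k ∈ R.corners δ F, k.1 = src e ∨ k.1 = tgt e := by
  have hd : dsrc e ∈ R.dclu δ F := by
    by_contra hc
    apply h
    unfold DD
    rw [iv_not hc, mul_zero]
  obtain ⟨x, y, b⟩ := e
  have hst : src (x, y, b) ∈ R.clu δ F ∨ tgt (x, y, b) ∈ R.clu δ F := by
    by_contra hc
    rw [not_or] at hc
    apply h
    unfold DD
    rw [iv_not hc.1, iv_not hc.2, add_zero, zero_mul]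
  cases b
  · rcases hst with hv | hv
    · refine ⟨(src (x, y, false), (false, true)), ⟨hv, ?_⟩, Or.inl rfl⟩
      simpa [cface] using hd
    · refine ⟨(tgt (x, y, false), (false, false)), ⟨hv, ?_⟩, Or.inr rfl⟩
      simpa [cface] using hd
  · rcases hst with hv | hv
    · refine ⟨(src (x, y, true), (true, false)), ⟨hv, ?_⟩, Or.inl rfl⟩
      simpa [cface] using hd
    · refine ⟨(tgt (x, y, true), (false, false)), ⟨hv, ?_⟩, Or.inr rfl⟩
      simpa [cface] using hd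

/-- A corner from a vertex at a face. -/
theorem corner_at {v f : Vtx} (hA : At R δ v f) (hv : v ∈ R.clu δ F) (hf : f ∈ R.dclu δ F) :
    ∃ k ∈ R.corners δ F, k.1 = v := by
  obtain ⟨_, h1, h2⟩ := hA
  obtain ⟨x, y⟩ := v
  obtain ⟨x', y'⟩ := f
  simp only at h1 h2
  rcases h1 with h1 | h1 <;> rcases h2 with h2 | h2 <;> subst h1 <;> subst h2
  · exact ⟨((x', y'), (true, true)), ⟨hv, by simpa [cface] using hf⟩, rfl⟩
  · exact ⟨((x', y), (true, false)), ⟨hv, by simpa [cface] using hf⟩, rfl⟩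
  · exact ⟨((x, y'), (false, true)), ⟨hv, by simpa [cface] using hf⟩, rfl⟩
  · exact ⟨((x, y), (false, false)), ⟨hv, by simpa [cface] using hf⟩, rfl⟩

end PotL

open PotL

theorem pot : S_POT := by
  intro R δ hs F hF a b c d ⟨u, hu, hu1⟩ ⟨g, hg, hg1⟩
  by_contra hno
  push Not at hno
  obtain ⟨hub, hus⟩ := clu_val hs hF hu
  obtain ⟨hgf, hgs⟩ := dclu_val hs hg
  have hat := cv_at hs hgf
  obtain ⟨⟨u1, u2⟩, u3, u4⟩ := hu1
  obtain ⟨⟨g1, g2⟩, g3, g4⟩ := hg1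
  -- the form vanishes in the box
  have hDt : ∀ x y : ℤ, a ≤ x → x < b + 1 → c ≤ y → y ≤ d + 1 → DD R δ F (x, y, true) = 0 := by
    intro x y h1 h2 h3 h4
    by_contra hne
    obtain ⟨k, hk, hk1⟩ := corner_of hne
    apply hno k hk
    rcases hk1 with h | h
    · rw [h, src_mk]; unfold inR; simp only; omega
    · rw [h, tgt_true]; unfold inR; simp only; omega
  have hDf : ∀ x y : ℤ, a ≤ x → x ≤ b + 1 → c ≤ y → y < d + 1 → DD R δ F (x, y, false) = 0 := by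
    intro x y h1 h2 h3 h4
    by_contra hne
    obtain ⟨k, hk, hk1⟩ := corner_of hne
    apply hno k hk
    rcases hk1 with h | h
    · rw [h, src_mk]; unfold inR; simp only; omega
    · rw [h, tgt_false]; unfold inR; simp only; omega
  obtain ⟨⟨⟨v1, v2⟩, v3, v4⟩, v5, v6⟩ := hat
  obtain ⟨v, hv⟩ : ∃ v, v = cv R δ g := ⟨_, rfl⟩
  rw [← hv] at v1 v2 v3 v4 v5 v6 hgs
  have hvb : inR a (b + 1) c (d + 1) v := by
    obtain ⟨⟨w1, w2⟩, w3, w4⟩ := hub
    have e1 : v.1 = max g.1 (R.x0 δ) := by rw [hv]; rfl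
    have e2 : v.2 = max g.2 0 := by rw [hv]; rfl
    unfold inR
    omega
  obtain ⟨⟨b1, b2⟩, b3, b4⟩ := hvb
  obtain ⟨⟨w1, w2⟩, w3, w4⟩ := hub
  -- horizontal step
  have s1 : ss R δ F v.1 u.2 = ss R δ F u.1 u.2 := by
    rcases le_total u.1 v.1 with h | h
    · exact const_h (p := u.1) (q := v.1) w1 v2 w3 w4
        (fun x hx1 hx2 => hDt x u.2 (by omega) (by omega) (by omega) (by omega)) h le_rfl
    · exact (const_h (p := v.1) (q := u.1) v1 w2 w3 w4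
        (fun x hx1 hx2 => hDt x u.2 (by omega) (by omega) (by omega) (by omega)) h le_rfl).symm
  have s2 : ss R δ F v.1 v.2 = ss R δ F v.1 u.2 := by
    rcases le_total u.2 v.2 with h | h
    · exact const_v (p := u.2) (q := v.2) w3
        (fun y hy1 hy2 => hDf v.1 y (by omega) (by omega) (by omega) (by omega)) h le_rfl
    · exact (const_v (p := v.2) (q := u.2) v3
        (fun y hy1 hy2 => hDf v.1 y (by omega) (by omega) (by omega) (by omega)) h le_rfl).symm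
  have hval : ss R δ F v.1 v.2 = ss R δ F 0 0 := (s2.trans s1).trans hus
  unfold tt at hgs
  rw [hval, iv_of hg, mul_one] at hgs
  have hvc : v ∈ R.clu δ F := by
    by_contra hc
    rw [iv_not hc] at hgs
    have : (0 : ZMod 2) = 1 := by
      have := add_left_cancel hgs
      exact this
    exact absurd this (by decide)
  obtain ⟨k, hk, hk1⟩ := corner_at ⟨⟨⟨v1, v2⟩, v3, v4⟩, v5, v6⟩ hvc hg
  apply hno k hk
  rw [hk1]
  exact ⟨⟨b1, b2⟩, b3, b4⟩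

end NI38
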