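import Pool.Agent.Helper38K9.NI.Fin

/-!
Interfaces which come close to every point of the rectangle, after rewriting a sparse set of edges:
deterministic part.
-/

set_option maxHeartbeats 1000000

namespace NI38

open H974 H973 H934E Finset MeasureTheory TopologicalSpace

namespace SelL

/-- The configuration `P` to the left of the column `s (row)`, and `M` to the right. -/
noncomputable def sel (S P M : Finset Edg) (s : ℤ → ℤ) : Finset Edg :=
  S.filter (fun e => (e.1 < s e.2.1 ∧ e ∈ P) ∨ (¬ e.1 < s e.2.1 ∧ e ∈ M))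

theorem mem_sel {S P M : Finset Edg} {s : ℤ → ℤ} {e : Edg} : e ∈ sel S P M s ↔
    e ∈ S ∧ ((e.1 < s e.2.1 ∧ e ∈ P) ∨ (¬ e.1 < s e.2.1 ∧ e ∈ M)) := by
  unfold sel
  rw [Finset.mem_filter]

theorem sel_sub {S P M : Finset Edg} {s : ℤ → ℤ} : sel S P M s ⊆ S := Finset.filter_subset _ _

theorem left {R : Rect} {δ : ℝ} (hsm : Sm R δ) {P M : Finset Edg} (hP : P ⊆ R.edges δ)
    {s : ℤ → ℤ} {σ y z : ℤ} (hs : ∀ j, y ≤ j → j ≤ z → s j = σ) (h1 : R.x0 δ ≤ σ)
    (h2 : σ ≤ R.x1 δ) (hy : 0 ≤ y) (hz : z ≤ R.y1 δ)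
    (h : LRc (R.x0 δ) (R.x1 δ) y z P) : HA R δ σ σ y z (sel (R.edges δ) P M s) := by
  obtain ⟨u, u', h8, h9, h10⟩ := h
  have hleft : ∀ j : ℤ, y ≤ j → j ≤ z →
      Reach (↑(sel (R.edges δ) P M s) ∪ R.wired δ) (0, 0) (R.x0 δ, j) := by
    intro j hj1 hj2
    obtain ⟨k, hk⟩ := Int.eq_ofNat_of_zero_le (show 0 ≤ j by omega)
    rw [hk]
    exact CaL.side _ (by have := hsm.x0; omega) k (by omega)
  rcases eq_or_lt_of_le h1 with h11 | h11
  · refine ⟨(R.x0 δ, u), hleft u h8.1 h8.2, ?_⟩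
    unfold inR
    simp only
    omega
  · obtain ⟨y1, y2, k1, k2, k3, -⟩ := sub_LR (a := R.x0 δ) (b := σ) (c := y) (d := z) h11
      (by rintro x y ⟨-, h⟩ _ _; simp only [mem_coe, mem_LRE_true] at h; omega)
      (by rintro x y ⟨-, h⟩ _ _; simp only [mem_coe, mem_LRE_false] at h; omega)
      h10 (le_refl _) (by simp only; omega)
    refine ⟨(σ, y2), (hleft y1 k1.1 k1.2).trans (k3.mono ?_), ?_⟩
    · rintro e ⟨⟨h12, _⟩, h13⟩
      left
      rw [mem_coe] at h12 h13 ⊢
      rw [mem_sel]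
      refine ⟨hP h12, Or.inl ⟨?_, h12⟩⟩
      obtain ⟨x, w, _ | _⟩ := e
      · rw [mem_LRE_false] at h13
        change x < s w
        rw [hs w (by omega) (by omega)]
        omega
      · rw [mem_LRE_true] at h13
        change x < s w
        rw [hs w (by omega) (by omega)]
        omega
    · unfold inR
      simp only
      omega

theorem right {R : Rect} {δ : ℝ} (hsm : Sm R δ) {P M : Finset Edg}
    {s : ℤ → ℤ} {σ y z : ℤ} (hs : ∀ j, y ≤ j → j ≤ z → s j = σ) (h1 : R.x0 δ ≤ σ)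
    (h2 : σ ≤ R.x1 δ) (hy : 0 ≤ y) (hz : z ≤ R.y1 δ - 1)
    (h : LRc (R.x0 δ) (R.x1 δ) y z (dmp (R.edges δ \ M))) :
    HB R δ σ σ y z (sel (R.edges δ) P M s) := by
  have hx0 := hsm.x0
  have hx1 := hsm.x1
  obtain ⟨u, u', h8, h9, h10⟩ := h
  have hout : ∀ j : ℤ, y ≤ j → j ≤ z → ((R.x1 δ, j) : Vtx) ∈ R.outer δ := by
    intro j hj1 hj2
    exact Or.inr (Or.inl ⟨rfl, by simp only; omega, by simp only; omega⟩)
  rcases eq_or_lt_of_le h2 with h11 | h11
  · refine ⟨(R.x1 δ, u'), ⟨(R.x1 δ, u'), hout u' h9.1 h9.2, DReach.refl _ _⟩, ?_⟩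
    unfold inR
    simp only
    omega
  · obtain ⟨y1, y2, k1, k2, k3, -⟩ := sub_LR (a := σ) (b := R.x1 δ) (c := y) (d := z) h11
      (by rintro x y ⟨-, h⟩ _ _; simp only [mem_coe, mem_LRE_true] at h; omega)
      (by rintro x y ⟨-, h⟩ _ _; simp only [mem_coe, mem_LRE_false] at h; omega)
      h10 (by simp only; omega) (le_refl _)
    refine ⟨(σ, y1), ⟨(R.x1 δ, y2), hout y2 k2.1 k2.2, ?_⟩, ?_⟩
    · rw [← reach_dl]
      refine k3.symm.mono ?_
      rintro e ⟨⟨he1, -⟩, he3⟩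
      rw [mem_coe, mem_dmp, Finset.mem_sdiff] at he1
      refine ⟨dl.symm e, ⟨he1.1, ?_⟩, by simp⟩
      rintro (h | h)
      · rw [mem_coe, mem_sel] at h
        rcases h.2 with ⟨h3, -⟩ | ⟨-, h3⟩
        · obtain ⟨u, v, _ | _⟩ := e
          · rw [mem_coe, mem_LRE_false] at he3
            simp only [dls_f] at h3
            rw [hs _ (by omega) (by omega)] at h3
            omega
          · rw [mem_coe, mem_LRE_true] at he3
            simp only [dls_t] at h3
            rw [hs _ (by omega) (by omega)] at h3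
            omega
        · exact he1.2 h3
      · obtain ⟨u, v, _ | _⟩ := e
        · rw [mem_coe, mem_LRE_false] at he3
          simp only [dls_f, Rect.wired, Set.mem_ofPred_eq] at h
          simp at h
          omega
        · rw [mem_coe, mem_LRE_true] at he3
          simp only [dls_t, Rect.wired, Set.mem_ofPred_eq] at h
          simp at h
          omega
    · unfold inR
      simp only
      omega

/-- A grid point close to `x`. -/
theorem pick {L : ℝ} (hL : 0 < L) {N : ℤ} (hN : 0 < N) {x : ℝ} (h0 : 0 ≤ x) (h1 : x ≤ L) :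
    ∃ l : ℤ, 0 ≤ l ∧ l < N ∧ |x - l * (L / N)| ≤ L / N := by
  have hNr : (0:ℝ) < N := by exact_mod_cast hN
  have hq : 0 < L / N := div_pos hL hNr
  rcases lt_or_ge x L with h | h
  · refine ⟨⌊x / (L / N)⌋, Int.floor_nonneg.mpr (div_nonneg h0 hq.le), ?_, ?_⟩
    · rw [Int.floor_lt, div_lt_iff₀ hq]
      have : (N:ℝ) * (L / N) = L := by field_simp
      rw [this]
      exact h
    · have h2 := Int.floor_le (x / (L / N))
      have h3 := Int.lt_floor_add_one (x / (L / N))
      rw [le_div_iff₀ hq] at h2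
      rw [div_lt_iff₀ hq] at h3
      rw [abs_le]
      constructor <;> nlinarith
  · refine ⟨N - 1, by omega, by omega, ?_⟩
    have hx : x = L := le_antisymm h1 h
    rw [hx]
    have : L - ((N - 1 : ℤ) : ℝ) * (L / N) = L / N := by
      push_cast
      field_simp
      ring
    rw [this, abs_of_pos hq]

end SelL

end NI38
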