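import Pool.Agent.Helper38K9.NI.Sel

/-!
Interfaces which come close to every point of the rectangle: the deterministic statement, and the
crossing probabilities.
-/

set_option maxHeartbeats 4000000

namespace NI38

open H974 H973 H934E Finset MeasureTheory TopologicalSpace

/-- The closed rectangle. -/
def rectS (R : Rect) : Set ℂ := {z | (-R.A ≤ z.re ∧ z.re ≤ R.B) ∧ 0 ≤ z.im ∧ z.im ≤ R.H}

namespace SelL

theorem dense (R : Rect) {ε : ℝ} (hε : 0 < ε) : ∃ (N : ℕ) (δ0 r : ℝ), 0 < N ∧ 0 < δ0 ∧ 0 < r ∧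
    ∀ δ : ℝ, 0 < δ → δ < δ0 → ∃ m : ℤ, 0 < m ∧ r ≤ δ * m ∧ (N:ℤ)^2 * m ≤ R.y1 δ ∧
      ∀ P M : Finset Edg, P ⊆ R.edges δ →
        (∀ k ∈ Finset.range (N^2), LRc (R.x0 δ) (R.x1 δ) ((k:ℤ) * m) ((k:ℤ) * m + m - 1) P ∧
          LRc (R.x0 δ) (R.x1 δ) ((k:ℤ) * m) ((k:ℤ) * m + m - 1) (dmp (R.edges δ \ M))) →
        ∃ s : ℤ → ℤ, Metric.hausdorffDist (R.path δ (sel (R.edges δ) P M s)) (rectS R) ≤ ε := by
  obtain ⟨δ1, h1, h1', h2⟩ := sml R
  have hA := R.hA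
  have hB := R.hB
  have hH := R.hH
  obtain ⟨N, hN⟩ := exists_nat_gt (2 * (R.A + R.B + 2 * R.H) / ε)
  have hNr : (0:ℝ) < N := lt_trans (by positivity) hN
  have hN0 : 0 < N := by exact_mod_cast hNr
  have hNz0 : (0:ℤ) < (N:ℤ) := by exact_mod_cast hN0
  have hN1 : (1:ℝ) ≤ N := by exact_mod_cast hN0
  have hN2 : (R.A + R.B) / N + 2 * (R.H / N) ≤ ε / 2 := by
    rw [div_lt_iff₀ hε] at hN
    have e : (R.A + R.B) / N + 2 * (R.H / N) = (R.A + R.B + 2 * R.H) / N := by ring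
    rw [e, div_le_iff₀ hNr]
    nlinarith
  refine ⟨N, min δ1 (min (ε / (2 * ((N:ℝ)^2 + 12))) (R.H / (2 * ((N:ℝ)^2 + 2)))),
    R.H / (2 * (N:ℝ)^2), hN0, lt_min h1 (lt_min (by positivity) (by positivity)), by positivity, ?_⟩
  intro δ hδ hlt
  have l1 : δ < δ1 := lt_of_lt_of_le hlt (min_le_left _ _)
  have l2 : δ * ((N:ℝ)^2 + 12) ≤ ε / 2 := by
    have h := (lt_of_lt_of_le hlt ((min_le_right _ _).trans (min_le_left _ _))).le
    rw [le_div_iff₀ (by positivity)] at h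
    linarith
  have l3 : δ * ((N:ℝ)^2 + 2) ≤ R.H / 2 := by
    have h := (lt_of_lt_of_le hlt ((min_le_right _ _).trans (min_le_right _ _))).le
    rw [le_div_iff₀ (by positivity)] at h
    linarith
  obtain ⟨hsm, ⟨ha1, ha2⟩, ⟨hb1, hb2⟩, ⟨hc1, hc2⟩, _⟩ := h2 δ hδ l1
  have hx0 := hsm.x0
  have hx1 := hsm.x1
  obtain ⟨m, hm⟩ : ∃ m : ℤ, m = R.y1 δ / (N:ℤ)^2 := ⟨_, rfl⟩
  have hNz : (0:ℤ) < (N:ℤ)^2 := by positivity
  have hm1 : (N:ℤ)^2 * m ≤ R.y1 δ := by rw [hm]; exact Int.mul_ediv_self_le (ne_of_gt hNz)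
  have hm2 : R.y1 δ < (N:ℤ)^2 * m + (N:ℤ)^2 := by
    rw [hm]; exact Int.lt_mul_ediv_self_add hNz
  have hm1r : (N:ℝ)^2 * m ≤ R.y1 δ := by exact_mod_cast hm1
  have hm2r : (R.y1 δ : ℝ) < (N:ℝ)^2 * m + (N:ℝ)^2 := by exact_mod_cast hm2
  have hm3 : δ * ((N:ℝ)^2 * m) ≤ δ * R.y1 δ := mul_le_mul_of_nonneg_left hm1r hδ.le
  have hm4 : δ * (R.y1 δ : ℝ) ≤ δ * ((N:ℝ)^2 * m + (N:ℝ)^2) :=
    mul_le_mul_of_nonneg_left hm2r.le hδ.le
  have hr : R.H / (2 * (N:ℝ)^2) ≤ δ * m := by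
    rw [div_le_iff₀ (by positivity)]
    have e : δ * (m:ℝ) * (2 * (N:ℝ)^2) = 2 * (δ * ((N:ℝ)^2 * m)) := by ring
    rw [e]
    linarith
  have hmpos : 0 < m := by
    have h5 : 0 < δ * (m : ℝ) := lt_of_lt_of_le (by positivity) hr
    have h6 : (0:ℝ) < m := by
      by_contra hcon
      push Not at hcon
      have := mul_nonpos_of_nonneg_of_nonpos hδ.le hcon
      linarith
    exact_mod_cast h6
  have hmr : (0:ℝ) < m := by exact_mod_cast hmpos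
  refine ⟨m, hmpos, hr, hm1, ?_⟩
  intro P M hP hX
  obtain ⟨s, hs⟩ : ∃ s : ℤ → ℤ, ∀ j, s j =
      R.x0 δ + ((R.x1 δ - R.x0 δ) * ((j / m) % (N:ℤ))) / (N:ℤ) := ⟨_, fun _ => rfl⟩
  refine ⟨s, ?_⟩
  have hS : sel (R.edges δ) P M s ⊆ R.edges δ := sel_sub
  apply Metric.hausdorffDist_le_of_mem_dist hε.le
  · intro z hz
    obtain ⟨⟨v, w⟩, hk, hz1, hz2⟩ := HauL.corner_of_path hδ hz
    obtain ⟨hv, hf⟩ := hk
    simp only at hv hf hz1 hz2
    obtain ⟨⟨⟨a1, a2⟩, a3, a4⟩, -⟩ := PotL.clu_val hsm hS hv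
    have b1 : δ * (R.x0 δ : ℝ) ≤ δ * v.1 :=
      mul_le_mul_of_nonneg_left (by exact_mod_cast a1) hδ.le
    have b2 : δ * (v.1 : ℝ) ≤ δ * R.x1 δ :=
      mul_le_mul_of_nonneg_left (by exact_mod_cast a2) hδ.le
    have b3 : 0 ≤ δ * (v.2 : ℝ) := mul_nonneg hδ.le (by exact_mod_cast a3)
    have b4 : δ * (v.2 : ℝ) ≤ δ * R.y1 δ :=
      mul_le_mul_of_nonneg_left (by exact_mod_cast a4) hδ.le
    refine ⟨⟨δ * v.1, δ * (v.2 + 1)⟩, ⟨⟨?_, ?_⟩, ?_, ?_⟩, ?_⟩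
    · simp only; linarith
    · simp only; linarith
    · simp only; linarith
    · simp only; linarith
    · refine (HauL.dist_le_abs _ _).trans ?_
      simp only
      have l5 : 0 ≤ δ * (N:ℝ)^2 := by positivity
      linarith
  · intro p hp
    obtain ⟨⟨p1, p2⟩, p3, p4⟩ := hp
    obtain ⟨l, hl0, hl1, hl2⟩ := pick (L := R.A + R.B) (by linarith) hNz0
      (x := p.re + R.A) (by linarith) (by linarith)
    obtain ⟨b, hb0, hb3, hb4⟩ := pick (L := R.H) hH hNz0 (x := p.im) p3 p4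
    simp only [Int.cast_natCast] at hl2 hb4
    obtain ⟨k, hk⟩ : ∃ k : ℤ, k = (N:ℤ) * b + l := ⟨_, rfl⟩
    have hk0 : 0 ≤ k := by rw [hk]; positivity
    have hkN : k + 1 ≤ (N:ℤ)^2 := by rw [hk]; nlinarith
    obtain ⟨k', hk'⟩ := Int.eq_ofNat_of_zero_le hk0
    have hkr : k' ∈ Finset.range (N^2) := by
      rw [Finset.mem_range]
      have : (k':ℤ) < (N:ℤ)^2 := by rw [← hk']; omega
      exact_mod_cast this
    obtain ⟨c1, c2⟩ := hX k' hkr
    rw [← hk'] at c1 c2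
    obtain ⟨q, hq⟩ : ∃ q : ℤ, q = ((R.x1 δ - R.x0 δ) * l) / (N:ℤ) := ⟨_, rfl⟩
    have hD : 0 ≤ R.x1 δ - R.x0 δ := by omega
    have hq1 : q * N ≤ (R.x1 δ - R.x0 δ) * l := by
      rw [hq]; exact Int.ediv_mul_le _ (ne_of_gt hNz0)
    have hq2 : (R.x1 δ - R.x0 δ) * l < (q + 1) * N := by
      rw [hq]; exact Int.lt_ediv_add_one_mul_self _ hNz0
    have hq0 : 0 ≤ q := by
      rw [hq]; exact Int.ediv_nonneg (mul_nonneg hD hl0) hNz0.le
    have hq3 : q ≤ R.x1 δ - R.x0 δ := by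
      by_contra hcon
      push Not at hcon
      nlinarith
    have hsσ : ∀ j, k * m ≤ j → j ≤ k * m + m - 1 → s j = R.x0 δ + q := by
      intro j j1 j2
      have e1 : j / m = k := by
        apply le_antisymm
        · have : j / m < k + 1 := by
            rw [Int.ediv_lt_iff_lt_mul hmpos]
            nlinarith
          omega
        · rw [Int.le_ediv_iff_mul_le hmpos]
          exact j1
      have e2 : k % (N:ℤ) = l := by
        rw [hk, Int.mul_add_emod_self_left]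
        exact Int.emod_eq_of_lt hl0 hl1
      rw [hs, e1, e2, hq]
    have hkm : k * m + m ≤ R.y1 δ := by nlinarith
    have hkm0 : 0 ≤ k * m := mul_nonneg hk0 hmpos.le
    have A1 := left (M := M) hsm hP hsσ (by omega) (by omega) hkm0 (by omega) c1
    have A2 := right (P := P) hsm hsσ (by omega) (by omega) hkm0 (by omega) c2
    obtain ⟨κ, hκ, ⟨i1, i2⟩, i3, i4⟩ := pot R δ hsm _ hS _ _ _ _ A1 A2
    obtain ⟨z, hz, hz1, hz2⟩ := HauL.path_of_corner hδ hκ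
    refine ⟨z, hz, ?_⟩
    refine (HauL.dist_le_abs _ _).trans ?_
    -- the two coordinates
    have ha0 : (0:ℝ) ≤ (l:ℝ) / N := div_nonneg (by exact_mod_cast hl0) hNr.le
    have ha1' : (l:ℝ) / N ≤ 1 := by
      rw [div_le_one hNr]; exact_mod_cast hl1.le
    have hg0 : (0:ℝ) ≤ (b:ℝ) / N := div_nonneg (by exact_mod_cast hb0) hNr.le
    have hg1 : (b:ℝ) / N ≤ 1 := by
      rw [div_le_one hNr]; exact_mod_cast hb3.le
    have X : |p.re - z.re| ≤ (R.A + R.B) / N + 6 * δ := by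
      have t2 : (l:ℝ) * ((R.A + R.B) / N) - (l:ℝ) / N * (δ * (R.x1 δ - R.x0 δ)) =
          (l:ℝ) / N * ((R.A + R.B) - δ * (R.x1 δ - R.x0 δ)) := by ring
      have w0 : 0 ≤ (R.A + R.B) - δ * ((R.x1 δ:ℝ) - R.x0 δ) := by linarith
      have w1 : (R.A + R.B) - δ * ((R.x1 δ:ℝ) - R.x0 δ) ≤ 2 * δ := by linarith
      have t2a : 0 ≤ (l:ℝ) / N * ((R.A + R.B) - δ * (R.x1 δ - R.x0 δ)) := mul_nonneg ha0 w0
      have t2b : (l:ℝ) / N * ((R.A + R.B) - δ * (R.x1 δ - R.x0 δ)) ≤ 2 * δ :=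
        (mul_le_of_le_one_left w0 ha1').trans w1
      have q1r : (q:ℝ) * N ≤ ((R.x1 δ:ℝ) - R.x0 δ) * l := by exact_mod_cast hq1
      have q2r : ((R.x1 δ:ℝ) - R.x0 δ) * l ≤ ((q:ℝ) + 1) * N := by exact_mod_cast hq2.le
      have t3a : δ * (q:ℝ) ≤ (l:ℝ) / N * (δ * (R.x1 δ - R.x0 δ)) := by
        have e : (l:ℝ) / N * (δ * (R.x1 δ - R.x0 δ)) = δ * (((R.x1 δ:ℝ) - R.x0 δ) * l / N) := by
          ring
        rw [e]
        apply mul_le_mul_of_nonneg_left _ hδ.le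
        rw [le_div_iff₀ hNr]
        exact q1r
      have t3b : (l:ℝ) / N * (δ * (R.x1 δ - R.x0 δ)) ≤ δ * ((q:ℝ) + 1) := by
        have e : (l:ℝ) / N * (δ * (R.x1 δ - R.x0 δ)) = δ * (((R.x1 δ:ℝ) - R.x0 δ) * l / N) := by
          ring
        rw [e]
        apply mul_le_mul_of_nonneg_left _ hδ.le
        rw [div_le_iff₀ hNr]
        exact q2r
      have i1r : δ * ((R.x0 δ:ℝ) + q) ≤ δ * κ.1.1 :=
        mul_le_mul_of_nonneg_left (by exact_mod_cast i1) hδ.le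
      have i2r : δ * (κ.1.1:ℝ) ≤ δ * ((R.x0 δ:ℝ) + q + 1) :=
        mul_le_mul_of_nonneg_left (by exact_mod_cast i2) hδ.le
      have u1 := abs_le.mp hl2
      have u2 := abs_le.mp hz1
      rw [abs_le]
      constructor
      · linarith
      · linarith
    have Y : |p.im - z.im| ≤ 2 * (R.H / N) + δ * ((N:ℝ)^2 + 4) := by
      have t2 : (b:ℝ) * (R.H / N) - δ * (N * m * b) =
          (b:ℝ) / N * (R.H - δ * ((N:ℝ)^2 * m)) := by
        field_simp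
      have w0 : 0 ≤ R.H - δ * ((N:ℝ)^2 * m) := by linarith
      have w1 : R.H - δ * ((N:ℝ)^2 * m) ≤ δ * ((N:ℝ)^2 + 2) := by linarith
      have t2a : 0 ≤ (b:ℝ) / N * (R.H - δ * ((N:ℝ)^2 * m)) := mul_nonneg hg0 w0
      have t2b : (b:ℝ) / N * (R.H - δ * ((N:ℝ)^2 * m)) ≤ δ * ((N:ℝ)^2 + 2) :=
        (mul_le_of_le_one_left w0 hg1).trans w1
      have v1 : (N:ℝ) * m * b ≤ κ.1.2 := by
        have : (N:ℤ) * m * b ≤ κ.1.2 := by
          have h0 : 0 ≤ l * m := mul_nonneg hl0 hmpos.le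
          have e : k * m = (N:ℤ) * m * b + l * m := by rw [hk]; ring
          omega
        exact_mod_cast this
      have v2 : (κ.1.2:ℝ) ≤ (N:ℝ) * m * b + N * m := by
        have : κ.1.2 ≤ (N:ℤ) * m * b + N * m := by
          have h0 : (l + 1) * m ≤ (N:ℤ) * m := mul_le_mul_of_nonneg_right (by omega) hmpos.le
          have e : k * m + m = (N:ℤ) * m * b + (l + 1) * m := by rw [hk]; ring
          omega
        exact_mod_cast this
      have v1' := mul_le_mul_of_nonneg_left v1 hδ.le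
      have v2' := mul_le_mul_of_nonneg_left v2 hδ.le
      have v3 : δ * ((N:ℝ) * m) ≤ R.H / N := by
        rw [le_div_iff₀ hNr]
        have e : δ * ((N:ℝ) * m) * N = δ * ((N:ℝ)^2 * m) := by ring
        rw [e]
        linarith
      have u1 := abs_le.mp hb4
      have u2 := abs_le.mp hz2
      rw [abs_le]
      constructor
      · linarith
      · linarith
    have l4 : δ * ((N:ℝ)^2 + 4) + 6 * δ ≤ ε / 2 := by linarith
    linarith

theorem cross (R : Rect) {r : ℝ} (hr : 0 < r) : ∃ c C δ0 : ℝ, 0 < c ∧ 0 < C ∧ 0 < δ0 ∧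
    ∀ δ : ℝ, 0 < δ → δ < δ0 → ∀ y z : ℤ, 0 ≤ y → y ≤ z → z ≤ R.y1 δ - 1 →
      r ≤ δ * (z - y + 1) →
      (∀ q : ℝ, 1/2 ≤ q → q ≤ 1 →
        Pr (fun _ => q) (R.edges δ) (fun F => ¬ LRc (R.x0 δ) (R.x1 δ) y z F) ≤
          C * Real.exp (-(c * ((q - 1/2) ^ (4/3 : ℝ) / δ)))) ∧
      (∀ q : ℝ, 0 ≤ q → q ≤ 1/2 → Pr (fun _ => q) (R.edges δ)
        (fun F => ¬ LRc (R.x0 δ) (R.x1 δ) y z (dmp (R.edges δ \ F))) ≤
          C * Real.exp (-(c * ((1/2 - q) ^ (4/3 : ℝ) / δ)))) := by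
  obtain ⟨c, C, δ0, hc, hC, h1, h2, h3⟩ := BandL.band_bound sml wuF R hr
  refine ⟨c, C, δ0, hc, hC, h1, ?_⟩
  intro δ hδ hδ0 y z hy hyz hz hrz
  obtain ⟨⟨hsm, hH⟩, h4⟩ := h3 δ hδ hδ0
  have hx0 := hsm.x0
  have hx1 := hsm.x1
  have hh1 : r ≤ δ * ((z - y + 1 : ℤ) : ℝ) := by push_cast; exact hrz
  have hh2 : δ * ((z - y + 1 : ℤ) : ℝ) ≤ R.H := by
    have h6 : ((z - y + 1 : ℤ) : ℝ) ≤ (R.y1 δ : ℝ) + 1 := by
      have : z - y + 1 ≤ R.y1 δ + 1 := by omega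
      exact_mod_cast this
    have := mul_le_mul_of_nonneg_left h6 hδ.le
    linarith
  constructor
  · intro q hq0 hq1
    have hsub : LRE (R.x0 δ) (R.x1 δ) y z ⊆ R.edges δ := by
      intro e he
      unfold Rect.edges
      rw [mem_ES]
      obtain ⟨u, v, _ | _⟩ := e
      · rw [mem_LRE_false] at he
        simp only [src_mk, tgt_false, R.mem_verts']
        omega
      · rw [mem_LRE_true] at he
        simp only [src_mk, tgt_true, R.mem_verts']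
        omega
    have h5 := h4 (z - y + 1) hh1 hh2 (1 - q) (by linarith) (by linarith)
    rw [show (1/2 : ℝ) - (1 - q) = q - 1/2 by ring] at h5
    have h6 := hh_dual (q := q) (w := R.x1 δ - R.x0 δ) (h := z - y) (by omega) (by omega)
    have h7 : Pr (fun _ => q) (R.edges δ) (fun F => ¬ LRc (R.x0 δ) (R.x1 δ) y z F) =
        hh (1 - q) (z - y + 1) (R.x1 δ - R.x0 δ - 1) := by
      rw [Pr_not, pr_LRc q hsub, h6]
      ring
    rw [h7]
    exact h5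
  · intro q hq0 hq1
    have hsub : LRE (R.x0 δ) (R.x1 δ) y z ⊆ dmp (R.edges δ) := by
      intro e he
      rw [mem_dmp]
      unfold Rect.edges
      rw [mem_ES]
      obtain ⟨u, v, _ | _⟩ := e
      · rw [mem_LRE_false] at he
        simp only [dls_f, src_mk, tgt_true, R.mem_verts']
        omega
      · rw [mem_LRE_true] at he
        simp only [dls_t, src_mk, tgt_false, R.mem_verts']
        omega
    have h5 := h4 (z - y + 1) hh1 hh2 q hq0 hq1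
    have h6 := hh_dual (q := 1 - q) (w := R.x1 δ - R.x0 δ) (h := z - y) (by omega) (by omega)
    have e1 : (1:ℝ) - (1 - q) = q := by ring
    rw [e1] at h6
    have h7 : Pr (fun _ => 1 - q) (dmp (R.edges δ)) (fun F => ¬ LRc (R.x0 δ) (R.x1 δ) y z F) =
        hh q (z - y + 1) (R.x1 δ - R.x0 δ - 1) := by
      rw [Pr_not, pr_LRc (1 - q) hsub, h6]
      ring
    rw [← h7, pr_dmp, Pr_compl (fun _ : Edg => q)] at h5
    exact h5

end SelL

end NI38
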