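import Pool.Agent.Helper38K9.NI.Sel2

/-!
Above the density `δ^(3/4)`, the edges of a sparse set can be rewritten so that the interface is
close to the free arc, to the wired arc, or to every point of the rectangle.
-/

set_option maxHeartbeats 1000000

namespace NI38

open H974 H973 H934E Finset MeasureTheory TopologicalSpace

namespace SelL

theorem expb {c c1 C1 t δ : ℝ} (hδ : 0 < δ) (ht : 0 ≤ t) (hC1 : 0 ≤ C1)
    (hc : c ≤ c1 * (1/2:ℝ)^(4/3:ℝ)) :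
    C1 * Real.exp (-(c1 * ((t/2)^(4/3:ℝ)/δ))) ≤
      C1 * Real.exp (-(c * (t * δ^(-(3/4:ℝ)))^(4/3:ℝ))) := by
  rw [ArcL.lam_eq hδ ht]
  have e : (t/2)^(4/3:ℝ) = t^(4/3:ℝ) * (1/2:ℝ)^(4/3:ℝ) := by
    rw [← Real.mul_rpow ht (by norm_num)]
    congr 1
    ring
  rw [e]
  apply mul_le_mul_of_nonneg_left _ hC1
  rw [Real.exp_le_exp, neg_le_neg_iff]
  have h1 : 0 ≤ t^(4/3:ℝ) / δ := div_nonneg (Real.rpow_nonneg ht _) hδ.le
  calc c * (t^(4/3:ℝ) / δ) ≤ (c1 * (1/2:ℝ)^(4/3:ℝ)) * (t^(4/3:ℝ) / δ) :=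
        mul_le_mul_of_nonneg_right hc h1
    _ = c1 * (t^(4/3:ℝ) * (1/2:ℝ)^(4/3:ℝ) / δ) := by ring

end SelL

/-- `F'` agrees with `F` off `G`. -/
def Agr (S F G F' : Finset Edg) : Prop := F' ⊆ S ∧ ∀ e ∈ S, e ∉ G → (e ∈ F' ↔ e ∈ F)

theorem wild (R : Rect) (ε : ℝ) (hε : 0 < ε) : ∃ c C δ0 : ℝ, 0 < c ∧ 0 < C ∧ 0 < δ0 ∧
    ∀ (δ : ℝ), 0 < δ → δ < δ0 → ∀ t : ℝ, 0 ≤ t → t ≤ 1 →
    ∀ (Ω : Type) [MeasurableSpace Ω] (μ : Measure Ω) (F G : Ω → Finset Edg),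
      IsBer μ (R.edges δ) (fun _ => 1/2) F → IsBer μ (R.edges δ) (fun _ => t) G →
      (∀ T U : Finset Edg, T ⊆ R.edges δ → U ⊆ R.edges δ →
        μ {ω | F ω = T ∧ G ω = U} = μ {ω | F ω = T} * μ {ω | G ω = U}) →
      μ {ω | ¬ ∃ F1 F2 F3 : Finset Edg, (Agr (R.edges δ) (F ω) (G ω) F1 ∧
          Agr (R.edges δ) (F ω) (G ω) F2 ∧ Agr (R.edges δ) (F ω) (G ω) F3) ∧
          Metric.hausdorffDist (R.path δ F1) (farc R) ≤ ε ∧
          Metric.hausdorffDist (R.path δ F2) (warc R) ≤ ε ∧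
          Metric.hausdorffDist (R.path δ F3) (rectS R) ≤ ε} ≤
        ENNReal.ofReal (C * Real.exp (-(c * (t * δ ^ (-(3/4 : ℝ))) ^ (4/3 : ℝ)))) := by
  obtain ⟨c1, C1, d1, hc1, hC1, hd1, -, H1⟩ := farF R ε hε
  obtain ⟨c2, C2, d2, hc2, hC2, hd2, -, H2⟩ := warF R ε hε
  obtain ⟨N, d3, r, hN, hd3, hr, H3⟩ := SelL.dense R hε
  obtain ⟨c4, C4, d4, hc4, hC4, hd4, H4⟩ := SelL.cross R hr
  have hhalf : (0:ℝ) < (1/2:ℝ)^(4/3:ℝ) := Real.rpow_pos_of_pos (by norm_num) _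
  refine ⟨min c1 (min c2 c4) * (1/2:ℝ)^(4/3:ℝ), C1 + C2 + 2 * ((N:ℝ)^2 * C4),
    min (min d1 d2) (min d3 d4), by positivity, by positivity,
    lt_min (lt_min hd1 hd2) (lt_min hd3 hd4), ?_⟩
  intro δ hδ hlt t h0 h1 Ω _ μ F G hF hG hind
  have l1 : δ < d1 := lt_of_lt_of_le hlt ((min_le_left _ _).trans (min_le_left _ _))
  have l2 : δ < d2 := lt_of_lt_of_le hlt ((min_le_left _ _).trans (min_le_right _ _))
  have l3 : δ < d3 := lt_of_lt_of_le hlt ((min_le_right _ _).trans (min_le_left _ _))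
  have l4 : δ < d4 := lt_of_lt_of_le hlt ((min_le_right _ _).trans (min_le_right _ _))
  set Y : ℝ := Real.exp (-(min c1 (min c2 c4) * (1/2:ℝ)^(4/3:ℝ) *
    (t * δ ^ (-(3/4 : ℝ))) ^ (4/3 : ℝ))) with hY
  have k1 : min c1 (min c2 c4) * (1/2:ℝ)^(4/3:ℝ) ≤ c1 * (1/2:ℝ)^(4/3:ℝ) :=
    mul_le_mul_of_nonneg_right (min_le_left _ _) hhalf.le
  have k2 : min c1 (min c2 c4) * (1/2:ℝ)^(4/3:ℝ) ≤ c2 * (1/2:ℝ)^(4/3:ℝ) :=
    mul_le_mul_of_nonneg_right ((min_le_right _ _).trans (min_le_left _ _)) hhalf.le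
  have k4 : min c1 (min c2 c4) * (1/2:ℝ)^(4/3:ℝ) ≤ c4 * (1/2:ℝ)^(4/3:ℝ) :=
    mul_le_mul_of_nonneg_right ((min_le_right _ _).trans (min_le_right _ _)) hhalf.le
  obtain ⟨e1, e2⟩ := era (R.edges δ) t h0 h1 Ω μ F G hF hG hind
  have okp : ∀ e : Edg, 0 ≤ (fun _ : Edg => 1/2 + t/2) e ∧ (fun _ : Edg => 1/2 + t/2) e ≤ 1 :=
    fun _ => ⟨by simp only; linarith, by simp only; linarith⟩
  have okm : ∀ e : Edg, 0 ≤ (fun _ : Edg => 1/2 - t/2) e ∧ (fun _ : Edg => 1/2 - t/2) e ≤ 1 :=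
    fun _ => ⟨by simp only; linarith, by simp only; linarith⟩
  have s1 : 1/2 + t/2 - 1/2 = t/2 := by ring
  have s2 : 1/2 - (1/2 - t/2) = t/2 := by ring
  obtain ⟨m, hm, hrm, hNm, H⟩ := H3 δ hδ l3
  have f1 : μ {ω | ε < Metric.hausdorffDist (R.path δ (F ω ∪ G ω)) (farc R)} ≤
      ENNReal.ofReal (C1 * Y) := by
    rw [(ibp Ω μ (R.edges δ) _ _ okp e2
      (fun F => ε < Metric.hausdorffDist (R.path δ F) (farc R))).2]
    apply ENNReal.ofReal_le_ofReal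
    have := H1 δ hδ l1 (1/2 + t/2) (by linarith) (by linarith)
    rw [s1] at this
    exact this.trans (SelL.expb hδ h0 hC1.le k1)
  have f2 : μ {ω | ε < Metric.hausdorffDist (R.path δ (F ω \ G ω)) (warc R)} ≤
      ENNReal.ofReal (C2 * Y) := by
    rw [(ibp Ω μ (R.edges δ) _ _ okm e1
      (fun F => ε < Metric.hausdorffDist (R.path δ F) (warc R))).2]
    apply ENNReal.ofReal_le_ofReal
    have := H2 δ hδ l2 (1/2 - t/2) (by linarith) (by linarith)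
    rw [s2] at this
    exact this.trans (SelL.expb hδ h0 hC2.le k2)
  have hstrip : ∀ k ∈ Finset.range (N^2), 0 ≤ (k:ℤ) * m ∧ (k:ℤ) * m ≤ (k:ℤ) * m + m - 1 ∧
      (k:ℤ) * m + m - 1 ≤ R.y1 δ - 1 ∧ r ≤ δ * ((((k:ℤ) * m + m - 1 : ℤ) : ℝ) -
        (((k:ℤ) * m : ℤ) : ℝ) + 1) := by
    intro k hk
    rw [Finset.mem_range] at hk
    have hk1 : (k:ℤ) + 1 ≤ (N:ℤ)^2 := by exact_mod_cast hk
    have hk2 : ((k:ℤ) + 1) * m ≤ (N:ℤ)^2 * m := mul_le_mul_of_nonneg_right hk1 hm.le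
    refine ⟨by positivity, by omega, by nlinarith, ?_⟩
    have e : ((((k:ℤ) * m + m - 1 : ℤ) : ℝ) - (((k:ℤ) * m : ℤ) : ℝ) + 1) = m := by
      push_cast
      ring
    rw [e]
    exact hrm
  have hexp : 0 ≤ C4 * Real.exp (-(c4 * ((t/2)^(4/3:ℝ)/δ))) := by positivity
  have f3 : μ {ω | ∃ k ∈ Finset.range (N^2), (True ∧ ¬ LRc (R.x0 δ) (R.x1 δ) ((k:ℤ) * m)
      ((k:ℤ) * m + m - 1) (F ω ∪ G ω)) ∨ (False ∧ True)} ≤
      ENNReal.ofReal ((N:ℝ)^2 * C4 * Y) := by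
    rw [(ibp Ω μ (R.edges δ) _ _ okp e2 (fun F => ∃ k ∈ Finset.range (N^2),
      (True ∧ ¬ LRc (R.x0 δ) (R.x1 δ) ((k:ℤ) * m) ((k:ℤ) * m + m - 1) F) ∨
        (False ∧ True))).2]
    apply ENNReal.ofReal_le_ofReal
    refine (FwL.pr_bad okp (R.edges δ) (Finset.range (N^2)) (fun _ => True) (fun _ => False)
      (fun k F => ¬ LRc (R.x0 δ) (R.x1 δ) ((k:ℤ) * m) ((k:ℤ) * m + m - 1) F)
      (fun _ _ => True) hexp (le_refl 0) ?_ ?_).trans ?_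
    · intro k hk _
      obtain ⟨a1, a2, a3, a4⟩ := hstrip k hk
      have := (H4 δ hδ l4 _ _ a1 a2 a3 a4).1 (1/2 + t/2) (by linarith) (by linarith)
      rw [s1] at this
      exact this
    · intro k _ hk
      exact hk.elim
    · rw [Finset.card_range]
      push_cast
      have := SelL.expb hδ h0 hC4.le k4
      have h5 := mul_le_mul_of_nonneg_left this (by positivity : (0:ℝ) ≤ (N:ℝ)^2)
      rw [add_zero]
      refine h5.trans (le_of_eq ?_)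
      rw [hY]
      ring
  have f4 : μ {ω | ∃ k ∈ Finset.range (N^2), (True ∧ ¬ LRc (R.x0 δ) (R.x1 δ) ((k:ℤ) * m)
      ((k:ℤ) * m + m - 1) (dmp (R.edges δ \ (F ω \ G ω)))) ∨ (False ∧ True)} ≤
      ENNReal.ofReal ((N:ℝ)^2 * C4 * Y) := by
    rw [(ibp Ω μ (R.edges δ) _ _ okm e1 (fun F => ∃ k ∈ Finset.range (N^2),
      (True ∧ ¬ LRc (R.x0 δ) (R.x1 δ) ((k:ℤ) * m) ((k:ℤ) * m + m - 1)
        (dmp (R.edges δ \ F))) ∨ (False ∧ True))).2]
    apply ENNReal.ofReal_le_ofReal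
    refine (FwL.pr_bad okm (R.edges δ) (Finset.range (N^2)) (fun _ => True) (fun _ => False)
      (fun k F => ¬ LRc (R.x0 δ) (R.x1 δ) ((k:ℤ) * m) ((k:ℤ) * m + m - 1)
        (dmp (R.edges δ \ F)))
      (fun _ _ => True) hexp (le_refl 0) ?_ ?_).trans ?_
    · intro k hk _
      obtain ⟨a1, a2, a3, a4⟩ := hstrip k hk
      have := (H4 δ hδ l4 _ _ a1 a2 a3 a4).2 (1/2 - t/2) (by linarith) (by linarith)
      rw [s2] at this
      exact this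
    · intro k _ hk
      exact hk.elim
    · rw [Finset.card_range]
      push_cast
      have := SelL.expb hδ h0 hC4.le k4
      have h5 := mul_le_mul_of_nonneg_left this (by positivity : (0:ℝ) ≤ (N:ℝ)^2)
      rw [add_zero]
      refine h5.trans (le_of_eq ?_)
      rw [hY]
      ring
  have hY0 : 0 ≤ Y := (Real.exp_pos _).le
  have hsum : ENNReal.ofReal ((C1 + C2 + 2 * ((N:ℝ)^2 * C4)) * Y) =
      ENNReal.ofReal (C1 * Y) + ENNReal.ofReal (C2 * Y) + ENNReal.ofReal ((N:ℝ)^2 * C4 * Y) +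
        ENNReal.ofReal ((N:ℝ)^2 * C4 * Y) := by
    rw [← ENNReal.ofReal_add (by positivity) (by positivity),
      ← ENNReal.ofReal_add (by positivity) (by positivity),
      ← ENNReal.ofReal_add (by positivity) (by positivity)]
    congr 1
    ring
  rw [hsum]
  refine le_trans ?_ (add_le_add (add_le_add (add_le_add f1 f2) f3) f4)
  refine le_trans (measure_mono ?_) ((measure_union_le _ _).trans (add_le_add
    ((measure_union_le _ _).trans (add_le_add (measure_union_le _ _) (le_refl _))) (le_refl _)))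
  intro ω hω
  by_contra hcon
  apply hω
  rw [Set.mem_union, Set.mem_union, Set.mem_union, not_or, not_or, not_or] at hcon
  obtain ⟨⟨⟨g1, g2⟩, g3⟩, g4⟩ := hcon
  simp only [Set.mem_ofPred_eq, not_lt] at g1 g2
  simp only [Set.mem_ofPred_eq, not_exists, not_and, true_and, false_and, or_false,
    not_not] at g3 g4
  have hFS := hF.1 ω
  have hGS := hG.1 ω
  obtain ⟨s, hs⟩ := H (F ω ∪ G ω) (F ω \ G ω) (Finset.union_subset hFS hGS)
    (fun k hk => ⟨g3 k hk, g4 k hk⟩)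
  refine ⟨F ω ∪ G ω, F ω \ G ω, _, ⟨⟨Finset.union_subset hFS hGS, ?_⟩,
    ⟨Finset.sdiff_subset.trans hFS, ?_⟩, ⟨SelL.sel_sub, ?_⟩⟩, g1, g2, hs⟩
  · intro e _ he
    simp [he]
  · intro e _ he
    simp [he]
  · intro e heS he
    rw [SelL.mem_sel]
    simp only [heS, Finset.mem_union, Finset.mem_sdiff, he, or_false, not_false_eq_true,
      and_true, true_and]
    tauto

end NI38
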