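import Pool.Agent.Helper38K9.NI.Tgt
import Pool.Agent.Helper57K9.TG.Core

/-!
Choice of the columns (`S_SEL`).
-/

namespace NI38

open H974 H973 H934E Finset

theorem sel' : S_SEL := by
  intro R κ hκ
  obtain ⟨δ1, h1, _, h2⟩ := sml R
  obtain ⟨N, δ0, r, hN, hδ0, hr, h⟩ :=
    Pool.Agent.Helper57K9.TG.core R.A R.B R.H κ R.hA R.hB R.hH hκ
  refine ⟨N, min δ1 δ0, r, hN, lt_min h1 hδ0, hr, ?_⟩
  intro δ hδ hlt
  obtain ⟨hsm, ha, hb, hc, _⟩ := h2 δ hδ (lt_of_lt_of_le hlt (min_le_left _ _))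
  have hx0 := hsm.x0
  have hx1 := hsm.x1
  obtain ⟨m, hm, hrm, hmk, hNm, H⟩ := h δ hδ (lt_of_lt_of_le hlt (min_le_right _ _))
    (R.x0 δ) (R.x1 δ) (R.y1 δ) (by omega) ha hb hc
  refine ⟨m, hm, hrm, hmk, hNm, fun K hK => ?_⟩
  exact H K hK.1 (fun y y0 y1 => (hK.2.2.2 y y y0 le_rfl y1).nonempty)

end NI38
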