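import Pool.Agent.Helper38K9.NI.Hit
import Pool.Agent.Helper38K9.NI.Pot

/-!
[STA]: near-critical stability of the event that the wired cluster meets a box.
-/

set_option maxHeartbeats 1000000

namespace NI38

open H974 H12S H973 H934E Finset TH291.NW

namespace StaL

/-- The wired arc is connected. -/
theorem wired_reach {R : Rect} {δ : ℝ} (hs : Sm R δ) {v : Vtx} (hv : v ∈ wv R δ) :
    Reach (R.wired δ) (0, 0) v := by
  obtain ⟨h1, h2, h3, h4, h5⟩ := hs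
  have bot : ∀ n : ℕ, (n:ℤ) ≤ -R.x0 δ → Reach (R.wired δ) (0, 0) (-(n:ℤ), 0) := by
    intro n
    induction n with
    | zero => intro _; simpa using Reach.refl _ _
    | succ n ih =>
      intro hn
      push_cast at hn
      refine (ih (by omega)).trans (Adj.reach ⟨(-(n:ℤ) - 1, 0, true), ?_, Or.inr ⟨?_, ?_⟩⟩)
      · right; right
        refine ⟨rfl, rfl, ?_, ?_⟩ <;> simp only <;> omega
      · rw [src_mk]; push_cast; congr 1; ring
      · rw [tgt_true]; congr 1; ring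
  have left : ∀ n : ℕ, (n:ℤ) ≤ R.y1 δ → Reach (R.wired δ) (0, 0) (R.x0 δ, (n:ℤ)) := by
    intro n
    induction n with
    | zero =>
      intro _
      have := bot (-R.x0 δ).toNat (by omega)
      have e : ((-R.x0 δ).toNat : ℤ) = -R.x0 δ := Int.toNat_of_nonneg (by omega)
      rw [e] at this
      simpa using this
    | succ n ih =>
      intro hn
      push_cast at hn
      refine (ih (by omega)).trans (Adj.reach ⟨(R.x0 δ, (n:ℤ), false), ?_, Or.inl ⟨rfl, ?_⟩⟩)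
      · right; left
        refine ⟨rfl, rfl, ?_, ?_⟩ <;> simp only <;> omega
      · rw [tgt_false]; push_cast; rfl
  have top : ∀ n : ℕ, R.x0 δ + (n:ℤ) ≤ R.tc δ →
      Reach (R.wired δ) (0, 0) (R.x0 δ + (n:ℤ), R.y1 δ) := by
    intro n
    induction n with
    | zero =>
      intro _
      have := left (R.y1 δ).toNat (by omega)
      have e : ((R.y1 δ).toNat : ℤ) = R.y1 δ := Int.toNat_of_nonneg (by omega)
      rw [e] at this
      simpa using this
    | succ n ih =>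
      intro hn
      push_cast at hn
      refine (ih (by omega)).trans (Adj.reach ⟨(R.x0 δ + (n:ℤ), R.y1 δ, true), ?_,
        Or.inl ⟨rfl, ?_⟩⟩)
      · left
        refine ⟨rfl, rfl, ?_, ?_⟩ <;> simp only <;> omega
      · rw [tgt_true]; push_cast; congr 1; ring
  rcases hv with rfl | ⟨e, he, hve⟩
  · exact Reach.refl _ _
  · -- one end suffices
    have hsrc : Reach (R.wired δ) (0, 0) (src e) := by
      obtain ⟨x, y, b⟩ := e
      rcases he with ⟨a1, a2, a3, a4⟩ | ⟨a1, a2, a3, a4⟩ | ⟨a1, a2, a3, a4⟩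
      · simp only at a1 a2 a3 a4
        have := top (x - R.x0 δ).toNat (by omega)
        have e : ((x - R.x0 δ).toNat : ℤ) = x - R.x0 δ := Int.toNat_of_nonneg (by omega)
        rw [e] at this
        rw [src_mk, a2]
        simpa using this
      · simp only at a1 a2 a3 a4
        have := left y.toNat (by omega)
        have e : (y.toNat : ℤ) = y := Int.toNat_of_nonneg (by omega)
        rw [e] at this
        rw [src_mk, a2]
        exact this
      · simp only at a1 a2 a3 a4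
        have := bot (-x).toNat (by omega)
        have e : ((-x).toNat : ℤ) = -x := Int.toNat_of_nonneg (by omega)
        rw [e] at this
        rw [src_mk, a2]
        simpa using this
    rcases hve with rfl | rfl
    · exact hsrc
    · exact hsrc.trans (Adj.reach ⟨e, he, Or.inl ⟨rfl, rfl⟩⟩)

theorem wv_bdy {R : Rect} {δ : ℝ} (hs : Sm R δ) : wv R δ ⊆ bdy (R.x0 δ) (R.x1 δ) 0 (R.y1 δ) := by
  obtain ⟨h1, h2, h3, h4, h5⟩ := hs
  rintro v (rfl | ⟨⟨x, y, b⟩, he, hve⟩)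
  · refine ⟨⟨⟨?_, ?_⟩, ?_, ?_⟩, Or.inr (Or.inr (Or.inl rfl))⟩
    · show R.x0 δ ≤ 0; omega
    · show 0 ≤ R.x1 δ; omega
    · show (0:ℤ) ≤ 0; omega
    · show 0 ≤ R.y1 δ; omega
  · rcases he with ⟨a1, a2, a3, a4⟩ | ⟨a1, a2, a3, a4⟩ | ⟨a1, a2, a3, a4⟩ <;>
      simp only at a1 a2 a3 a4 <;> subst a1 <;> rcases hve with rfl | rfl <;>
      (unfold bdy inR; simp only [Set.mem_ofPred_eq, src_mk, tgt_true, tgt_false]; omega)

/-- The edges of the box for which the two descriptions agree. -/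
theorem SE_sub {R : Rect} {δ : ℝ} (hδ : 0 < δ) {N : ℕ} {a b c d : ℤ} :
    SE (Dm δ (R.x0 δ) (R.x1 δ) 0 (R.y1 δ) a b c d (Rc δ (R.x0 δ) (R.x1 δ) 0 (R.y1 δ))) δ N ⊆
      R.edges δ := by
  intro e he
  rw [mem_SE] at he
  have hsub : ∀ z ∈ Dm δ (R.x0 δ) (R.x1 δ) 0 (R.y1 δ) a b c d
      (Rc δ (R.x0 δ) (R.x1 δ) 0 (R.y1 δ)), z ∈ Rc δ (R.x0 δ) (R.x1 δ) 0 (R.y1 δ) := by
    rintro z ⟨hz | hz, _⟩
    · exact ⟨⟨hz.1.1.le, hz.1.2.le⟩, hz.2.1.le, hz.2.2.le⟩
    · exact hz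
  have cv : ∀ u w : ℤ, δ * (u:ℝ) ≤ δ * w → u ≤ w := by
    intro u w h
    have := le_of_mul_le_mul_left h hδ
    exact_mod_cast this
  have h1 := hsub _ (he.2 (left_mem_segment ℝ _ _))
  have h2 := hsub _ (he.2 (right_mem_segment ℝ _ _))
  unfold Rect.edges
  rw [mem_ES, R.mem_verts', R.mem_verts']
  have key : ∀ v : Vtx, TH291.NW.pt δ v ∈ Rc δ (R.x0 δ) (R.x1 δ) 0 (R.y1 δ) →
      (R.x0 δ ≤ v.1 ∧ v.1 ≤ R.x1 δ) ∧ (0 ≤ v.2 ∧ v.2 ≤ R.y1 δ) := by
    rintro v ⟨⟨b1, b2⟩, b3, b4⟩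
    simp only [TH291.NW.pt] at b1 b2 b3 b4
    exact ⟨⟨cv _ _ b1, cv _ _ b2⟩, cv _ _ b3, cv _ _ b4⟩
  exact ⟨key _ h1, key _ h2⟩

theorem mem_SE_of {R : Rect} {δ : ℝ} (hδ : 0 < δ) {N : ℕ} {a b c d : ℤ}
    (n1 : -(N:ℤ) ≤ R.x0 δ) (n2 : R.x1 δ ≤ N) (n3 : R.y1 δ ≤ N) {e : Edg}
    (he : e ∈ R.edges δ) (h : ¬ inR a b c d (src e) ∨ ¬ inR a b c d (tgt e)) :
    e ∈ SE (Dm δ (R.x0 δ) (R.x1 δ) 0 (R.y1 δ) a b c d
      (Rc δ (R.x0 δ) (R.x1 δ) 0 (R.y1 δ))) δ N := by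
  rw [mem_SE]
  have cv : ∀ u w : ℤ, u ≤ w → δ * (u:ℝ) ≤ δ * w := by
    intro u w h
    apply mul_le_mul_of_nonneg_left _ hδ.le
    exact_mod_cast h
  constructor
  · obtain ⟨x, y, s⟩ := e
    have := PotL.mem_edges.mp he
    cases s
    · simp only [Bool.false_eq_true, if_false] at this
      rw [mem_RE_false]; omega
    · simp only [if_true] at this
      rw [mem_RE_true]; omega
  · intro z hz
    refine ⟨Or.inr ?_, HitL.seg_avoid hδ h hz⟩
    obtain ⟨x, y, s⟩ := e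
    have hm := PotL.mem_edges.mp he
    cases s
    · simp only [Bool.false_eq_true, if_false] at hm
      obtain ⟨h1, h2, h3⟩ := HitL.segF hδ hz
      have c1 := cv _ _ hm.1.1.1
      have c2 := cv _ _ hm.1.1.2
      have c3 := cv _ _ hm.1.2.1
      have c4 := cv _ _ hm.2
      push_cast at c4
      refine ⟨⟨?_, ?_⟩, ?_, ?_⟩ <;> linarith
    · simp only [if_true] at hm
      obtain ⟨h1, h2, h3⟩ := HitL.segT hδ hz
      have c1 := cv _ _ hm.1.1.1
      have c2 := cv _ _ hm.2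
      have c3 := cv _ _ hm.1.2.1
      have c4 := cv _ _ hm.1.2.2
      push_cast at c2
      refine ⟨⟨?_, ?_⟩, ?_, ?_⟩ <;> linarith

end StaL

open StaL

theorem sta : StIn → S_SML → S_STB → S_STA := by
  intro hst hsml hstb R ρ hρ
  obtain ⟨δ1, hδ1, hδ11, hsm⟩ := hsml R
  have hA := R.hA
  have hB := R.hB
  have hH := R.hH
  obtain ⟨ρ', hρ'⟩ : ∃ ρ' : ℝ, ρ' = ρ + (R.A + R.B + R.H) := ⟨_, rfl⟩
  have hρ0 : 0 < ρ' := by rw [hρ']; positivity
  obtain ⟨C, hC, hmain⟩ := hstb hst ρ' hρ0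
  refine ⟨C, δ1, hC, hδ1, hδ11, ?_⟩
  intro δ hδ hlt a b c d hab hcd hb q h0 h1
  obtain ⟨hs, p1, p2, p3, p4⟩ := hsm δ hδ hlt
  by_cases hmeet : ∃ v ∈ wv R δ, inR a b c d v
  · obtain ⟨v, hv, hv1⟩ := hmeet
    have hall : ∀ F : Finset Edg, F ⊆ R.edges δ → HA R δ a b c d F := fun F _ =>
      ⟨v, Reach.mono Set.subset_union_right (wired_reach hs hv), hv1⟩
    rw [Pr_true _ hall, Pr_true _ hall, sub_self, abs_zero]
    have : 0 ≤ δ ^ (-(3/4 : ℝ)) := Real.rpow_nonneg hδ.le _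
    have := abs_nonneg (q - 1/2)
    positivity
  · push Not at hmeet
    obtain ⟨N, hN⟩ : ∃ N : ℕ, ρ' + δ ≤ δ * N := by
      refine ⟨⌈(ρ' + δ) / δ⌉₊, ?_⟩
      have := Nat.le_ceil ((ρ' + δ) / δ)
      rw [div_le_iff₀ hδ] at this
      linarith
    have cv : ∀ u w : ℤ, δ * (u:ℝ) ≤ δ * w → u ≤ w := by
      intro u w h
      have := le_of_mul_le_mul_left h hδ
      exact_mod_cast this
    have n1 : -(N:ℤ) ≤ R.x0 δ := by
      apply cv; push_cast; linarith [p1.1]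
    have n2 : R.x1 δ ≤ N := by
      apply cv; push_cast; linarith [p2.2]
    have n3 : R.y1 δ ≤ N := by
      apply cv; push_cast; linarith [p3.2]
    have q1 := hs.x0
    have q2 := hs.x1
    have q5 := hs.y1
    have sg1 : (R.x0 δ : ℝ) < 0 := by exact_mod_cast (by omega : R.x0 δ < 0)
    have sg2 : (0:ℝ) < R.x1 δ := by exact_mod_cast (by omega : 0 < R.x1 δ)
    have sg3 : (0:ℝ) < R.y1 δ := by exact_mod_cast (by omega : 0 < R.y1 δ)
    obtain ⟨S', hS'⟩ : ∃ S', S' = SE (Dm δ (R.x0 δ) (R.x1 δ) 0 (R.y1 δ) a b c d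
      (Rc δ (R.x0 δ) (R.x1 δ) 0 (R.y1 δ))) δ N := ⟨_, rfl⟩
    have hsub : S' ⊆ R.edges δ := by rw [hS']; exact SE_sub hδ
    have hcap : ∀ F : Finset Edg, (↑(F ∩ S') : Set Edg) = ↑F ∩ ↑S' := fun F => by
      rw [Finset.coe_inter]
    have hequiv : ∀ F : Finset Edg, F ⊆ R.edges δ →
        (HA R δ a b c d F ↔ Cn (wv R δ) (bdy a b c d) ↑(F ∩ S')) := by
      intro F hF
      rw [hcap]
      constructor
      · rintro ⟨v, hv, hv1⟩
        exact HitL.hit (G := ↑F) (W := R.wired δ) (E' := ↑S') (I := wv R δ) hmeet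
          (fun e he => ⟨Or.inr ⟨e, he, Or.inl rfl⟩, Or.inr ⟨e, he, Or.inr rfl⟩⟩)
          (fun e he h => by
            rw [hS']
            exact Finset.mem_coe.mpr (mem_SE_of hδ n1 n2 n3 (hF (Finset.mem_coe.mp he)) h))
          (Or.inl rfl) hv hv1
      · rintro ⟨u, hu, w, hw, hr⟩
        refine ⟨w, ?_, hw.1⟩
        have e1 : Reach (↑F ∪ R.wired δ) (0, 0) u :=
          Reach.mono Set.subset_union_right (wired_reach hs hu)
        exact e1.trans (Reach.mono (fun e he => Or.inl he.1) hr)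
    have hpr : ∀ p : ℝ, Pr (fun _ => p) (R.edges δ) (HA R δ a b c d) =
        Pr (fun _ => p) S' (fun F => Cn (wv R δ) (bdy a b c d) ↑F) := by
      intro p
      rw [Pr_congr (B := fun F => Cn (wv R δ) (bdy a b c d) ↑(F ∩ S')) hequiv,
        Pr_local hsub (fun F _ => by rw [Finset.inter_assoc, Finset.inter_self])]
      apply Pr_congr
      intro F hF
      rw [Finset.inter_eq_left.mpr hF]
    rw [hpr, hpr, hS']
    apply hmain δ hδ (by linarith) (R.x0 δ) (R.x1 δ) 0 (R.y1 δ) a b c d (by omega) (by omega)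
      hab hcd ?_ _ (Set.Subset.refl _) N hN _ (wv_bdy hs) q h0 h1
    obtain ⟨hb1, hb2, hb3, hb4⟩ := hb
    have hle : ρ ≤ ρ' := by rw [hρ']; linarith
    refine ⟨⟨?_, ?_, ?_, ?_⟩, hb1.trans hle, hb2.trans hle, hb3.trans hle, hb4.trans hle⟩
    · rw [abs_le]; constructor <;> nlinarith [p1.1]
    · rw [abs_le]; constructor <;> nlinarith [p2.2]
    · simp [hρ0.le]
    · rw [abs_le]; constructor <;> nlinarith [p3.2]

end NI38
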