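import Pool.Agent.H934R2.Expl.Model

/-!
Near-critical and noisy exploration paths in a rectangle: definitions and statements.
The model is `Pool.Agent.H934R2.Expl.Model` (`H934E.Rect`, `clu`, `dclu`, `corners`, `path`, `trace`).
-/

set_option maxHeartbeats 400000

namespace NI38

open H974 H973 H934E Finset MeasureTheory TopologicalSpace Filter Topology

/-! ### Definitions -/

/-- `δ` is small for the rectangle `R`. -/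
structure Sm (R : Rect) (δ : ℝ) : Prop where
  x0 : R.x0 δ < -1
  x1 : 1 < R.x1 δ
  t0 : R.x0 δ + 1 < R.tc δ
  t1 : R.tc δ + 1 < R.x1 δ
  y1 : 2 < R.y1 δ

/-- The wired cluster contains a vertex of the lattice box `[a,b] × [c,d]` (increasing in `F`). -/
def HA (R : Rect) (δ : ℝ) (a b c d : ℤ) (F : Finset Edg) : Prop :=
  ∃ v ∈ R.clu δ F, inR a b c d v

/-- The dual cluster of the free arc contains a face `(x, y)` with `(x, y)` in the lattice box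
`[a,b] × [c,d]` (decreasing in `F`). -/
def HB (R : Rect) (δ : ℝ) (a b c d : ℤ) (F : Finset Edg) : Prop :=
  ∃ f ∈ R.dclu δ F, inR a b c d f

/-- The vertices of the wired arc. -/
def wv (R : Rect) (δ : ℝ) : Set Vtx :=
  {v | v = (0, 0) ∨ ∃ e ∈ R.wired δ, v = src e ∨ v = tgt e}

/-- `F` is a random subset of `S` which contains the elements `e` of `S` independently with
probabilities `p e`. -/
def IsBer {Ω : Type} [MeasurableSpace Ω] (μ : Measure Ω) (S : Finset Edg) (p : Edg → ℝ)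
    (F : Ω → Finset Edg) : Prop :=
  (∀ ω, F ω ⊆ S) ∧ ∀ T : Finset Edg, T ⊆ S → MeasurableSet {ω | F ω = T} ∧
    μ {ω | F ω = T} = ENNReal.ofReal ((∏ e ∈ T, p e) * ∏ e ∈ S \ T, (1 - p e))

/-- The law of the trace at mesh `δ`, when the edges `e` are open independently with
probabilities `p e`. -/
noncomputable def lawpM (R : Rect) {δ : ℝ} (hδ : 0 < δ) (p : Edg → unitInterval) :
    Measure (NonemptyCompacts ℂ) :=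
  ∑ F ∈ (R.edges δ).powerset,
    ENNReal.ofReal ((∏ e ∈ F, (p e : ℝ)) * ∏ e ∈ R.edges δ \ F, (1 - (p e : ℝ))) •
      Measure.dirac (R.trace hδ F)

theorem lawpM_univ (R : Rect) {δ : ℝ} (hδ : 0 < δ) (p : Edg → unitInterval) :
    lawpM R hδ p Set.univ = 1 := by
  unfold lawpM
  rw [Measure.finsetSum_apply]
  have h1 : ∀ F ∈ (R.edges δ).powerset,
      (ENNReal.ofReal ((∏ e ∈ F, (p e : ℝ)) * ∏ e ∈ R.edges δ \ F, (1 - (p e : ℝ))) •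
        Measure.dirac (R.trace hδ F)) Set.univ =
      ENNReal.ofReal ((∏ e ∈ F, (p e : ℝ)) * ∏ e ∈ R.edges δ \ F, (1 - (p e : ℝ))) := by
    intro F _
    rw [Measure.smul_apply, measure_univ, smul_eq_mul, mul_one]
  rw [Finset.sum_congr rfl h1, ← ENNReal.ofReal_sum_of_nonneg]
  · have h2 := Ex_const (fun e => (p e : ℝ)) (R.edges δ) 1
    unfold Ex at h2
    simp only [mul_one] at h2
    rw [h2, ENNReal.ofReal_one]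
  · intro F _
    apply mul_nonneg
    · exact Finset.prod_nonneg (fun e _ => (p e).2.1)
    · exact Finset.prod_nonneg (fun e _ => by linarith [(p e).2.2])

/-- The law of the trace at mesh `δ`, as a probability measure. -/
noncomputable def lawp (R : Rect) {δ : ℝ} (hδ : 0 < δ) (p : Edg → unitInterval) :
    ProbabilityMeasure (NonemptyCompacts ℂ) :=
  ⟨lawpM R hδ p, ⟨lawpM_univ R hδ p⟩⟩

/-- The free boundary arc of the rectangle, from `b = 0` counterclockwise to `a = t + i H`. -/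
def farc (R : Rect) : Set ℂ :=
  {z | (z.im = 0 ∧ 0 ≤ z.re ∧ z.re ≤ R.B) ∨ (z.re = R.B ∧ 0 ≤ z.im ∧ z.im ≤ R.H) ∨
    (z.im = R.H ∧ R.t ≤ z.re ∧ z.re ≤ R.B)}

/-- The wired boundary arc of the rectangle, from `a = t + i H` counterclockwise to `b = 0`. -/
def warc (R : Rect) : Set ℂ :=
  {z | (z.im = 0 ∧ -R.A ≤ z.re ∧ z.re ≤ 0) ∨ (z.re = -R.A ∧ 0 ≤ z.im ∧ z.im ≤ R.H) ∨
    (z.im = R.H ∧ -R.A ≤ z.re ∧ z.re ≤ R.t)}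

/-- Upper bound for crossing probabilities below criticality (`W424.NC.win_upper`, proved). -/
def S_WU : Prop := ∀ K : ℕ, 1 ≤ K → ∃ c C : ℝ, 0 < c ∧ 0 < C ∧ ∀ p : ℝ, 0 ≤ p → p ≤ 1/2 →
    ∀ w h : ℕ, 1 ≤ w → w ≤ K * h → h ≤ K * w →
      hh p w h ≤ C * Real.exp (-(c * (w * (1/2 - p)^(4/3 : ℝ))))

/-! ### Deterministic leaves -/

/-- [SML] Small meshes, and the positions of the sides. -/
def S_SML : Prop := ∀ R : Rect, ∃ δ0 : ℝ, 0 < δ0 ∧ δ0 ≤ 1 ∧ ∀ δ : ℝ, 0 < δ → δ < δ0 → Sm R δ ∧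
  (-R.A < δ * R.x0 δ ∧ δ * R.x0 δ ≤ -R.A + δ) ∧ (R.B - δ ≤ δ * R.x1 δ ∧ δ * R.x1 δ < R.B) ∧
  (R.H - 2 * δ ≤ δ * R.y1 δ ∧ δ * R.y1 δ < R.H - δ) ∧ (R.t - δ < δ * R.tc δ ∧ δ * R.tc δ ≤ R.t)

/-- [POT] If both clusters meet a box then there is a corner of the exploration path next to it.
Proof by a potential with values in `ZMod 2`. -/
def S_POT : Prop := ∀ R : Rect, ∀ δ : ℝ, Sm R δ → ∀ F : Finset Edg, F ⊆ R.edges δ →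
  ∀ a b c d : ℤ, HA R δ a b c d F → HB R δ a b c d F →
    ∃ k ∈ R.corners δ F, inR a (b + 1) c (d + 1) k.1

/-- [HAU] Finitely many boxes determine the trace up to `ε`. -/
def S_HAU : Prop := ∀ R : Rect, ∀ ε : ℝ, 0 < ε → ∃ ρ δ0 : ℝ, ∃ M : ℕ, 0 < ρ ∧ 0 < δ0 ∧ δ0 ≤ 1 ∧
  ∀ δ : ℝ, ∀ hδ : 0 < δ, δ < δ0 → Sm R δ ∧ ∃ B : Finset (ℤ × ℤ × ℤ × ℤ), B.card ≤ M ∧
    (∀ k ∈ B, (k.1 ≤ k.2.1 ∧ k.2.2.1 ≤ k.2.2.2) ∧
      (|δ * k.1| ≤ ρ ∧ |δ * k.2.1| ≤ ρ ∧ |δ * k.2.2.1| ≤ ρ ∧ |δ * k.2.2.2| ≤ ρ)) ∧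
    ∀ F G : Finset Edg, F ⊆ R.edges δ → G ⊆ R.edges δ →
      (∀ k ∈ B, (HA R δ k.1 k.2.1 k.2.2.1 k.2.2.2 F ↔ HA R δ k.1 k.2.1 k.2.2.1 k.2.2.2 G) ∧
        (HB R δ k.1 k.2.1 k.2.2.1 k.2.2.2 F ↔ HB R δ k.1 k.2.1 k.2.2.1 k.2.2.2 G)) →
      dist (R.trace hδ F) (R.trace hδ G) ≤ ε

/-! ### Near-critical stability of the two cluster events -/

/-- [STA] Stability of `HA`. -/
def S_STA : Prop := ∀ R : Rect, ∀ ρ : ℝ, 0 < ρ → ∃ C δ0 : ℝ, 0 < C ∧ 0 < δ0 ∧ δ0 ≤ 1 ∧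
  ∀ δ : ℝ, 0 < δ → δ < δ0 → ∀ a b c d : ℤ, a ≤ b → c ≤ d →
    (|δ * a| ≤ ρ ∧ |δ * b| ≤ ρ ∧ |δ * c| ≤ ρ ∧ |δ * d| ≤ ρ) → ∀ q : ℝ, 0 ≤ q → q ≤ 1 →
    |Pr (fun _ => q) (R.edges δ) (HA R δ a b c d) -
      Pr (fun _ => 1/2) (R.edges δ) (HA R δ a b c d)| ≤ C * |q - 1/2| * δ ^ (-(3/4 : ℝ))

/-- [STD] Stability of `HB`. -/
def S_STD : Prop := ∀ R : Rect, ∀ ρ : ℝ, 0 < ρ → ∃ C δ0 : ℝ, 0 < C ∧ 0 < δ0 ∧ δ0 ≤ 1 ∧
  ∀ δ : ℝ, 0 < δ → δ < δ0 → ∀ a b c d : ℤ, a ≤ b → c ≤ d →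
    (|δ * a| ≤ ρ ∧ |δ * b| ≤ ρ ∧ |δ * c| ≤ ρ ∧ |δ * d| ≤ ρ) → ∀ q : ℝ, 0 ≤ q → q ≤ 1 →
    |Pr (fun _ => q) (R.edges δ) (HB R δ a b c d) -
      Pr (fun _ => 1/2) (R.edges δ) (HB R δ a b c d)| ≤ C * |q - 1/2| * δ ^ (-(3/4 : ℝ))

/-! ### The window -/

/-- [IBP] Probabilities of events. -/
def S_IBP : Prop := ∀ (Ω : Type) [MeasurableSpace Ω] (μ : Measure Ω) (S : Finset Edg)
  (p : Edg → ℝ) (F : Ω → Finset Edg), (∀ e, 0 ≤ p e ∧ p e ≤ 1) → IsBer μ S p F →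
  ∀ A : Finset Edg → Prop, MeasurableSet {ω | A (F ω)} ∧
    μ {ω | A (F ω)} = ENNReal.ofReal (Pr p S A)

/-- [CPL] Any two configurations between the two ends of a monotone coupling of the percolations
with parameters `1/2 - x` and `1/2 + x` have traces within `ε`, but for an event of probability
at most `C x δ^(-3/4)`. -/
def S_CPL : Prop := ∀ R : Rect, ∀ ε : ℝ, 0 < ε → ∃ C δ0 : ℝ, 0 < C ∧ 0 < δ0 ∧ δ0 ≤ 1 ∧
  ∀ δ : ℝ, ∀ hδ : 0 < δ, δ < δ0 → ∀ x : ℝ, 0 ≤ x → x ≤ 1/2 →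
    ∀ (Ω : Type) [MeasurableSpace Ω] (μ : Measure Ω) (Fm Fp : Ω → Finset Edg),
      IsBer μ (R.edges δ) (fun _ => 1/2 - x) Fm → IsBer μ (R.edges δ) (fun _ => 1/2 + x) Fp →
      (∀ ω, Fm ω ⊆ Fp ω) →
      μ {ω | ∃ F G : Finset Edg, (Fm ω ⊆ F ∧ F ⊆ Fp ω) ∧ (Fm ω ⊆ G ∧ G ⊆ Fp ω) ∧
        ε < dist (R.trace hδ F) (R.trace hδ G)} ≤ ENNReal.ofReal (C * x * δ ^ (-(3/4 : ℝ)))

/-- [UNI] Uniform labels. -/
def S_UNI : Prop := ∀ (S : Finset Edg) (p : Edg → ℝ), (∀ e, 0 ≤ p e ∧ p e ≤ 1) →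
  IsBer (Measure.infinitePi (fun _ : Edg => (volume : Measure unitInterval))) S p
    (fun U => S.filter (fun e => (U e : ℝ) ≤ p e))

/-- [LAW] In the window, the laws of the traces have the same limits as at `1/2`. -/
def S_LAW : Prop := ∀ (R : Rect) (δ : ℕ → ℝ) (hδ : ∀ n, 0 < δ n), Tendsto δ atTop (𝓝 0) →
  ∀ (p : ℕ → Edg → unitInterval) (x : ℕ → ℝ), (∀ n e, |(p n e : ℝ) - 1/2| ≤ x n) →
    Tendsto (fun n => x n * δ n ^ (-(3/4 : ℝ))) atTop (𝓝 0) →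
    ∀ μ : ProbabilityMeasure (NonemptyCompacts ℂ),
      Tendsto (fun n => lawp R (hδ n) (p n)) atTop (𝓝 μ) ↔
        Tendsto (fun n => R.law (hδ n)) atTop (𝓝 μ)

/-- [ERA] Erasing or adding the edges of an independent random set. -/
def S_ERA : Prop := ∀ (S : Finset Edg) (t : ℝ), 0 ≤ t → t ≤ 1 →
  ∀ (Ω : Type) [MeasurableSpace Ω] (μ : Measure Ω) (F G : Ω → Finset Edg),
    IsBer μ S (fun _ => 1/2) F → IsBer μ S (fun _ => t) G →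
    (∀ T U : Finset Edg, T ⊆ S → U ⊆ S →
      μ {ω | F ω = T ∧ G ω = U} = μ {ω | F ω = T} * μ {ω | G ω = U}) →
    IsBer μ S (fun _ => 1/2 - t/2) (fun ω => F ω \ G ω) ∧
      IsBer μ S (fun _ => 1/2 + t/2) (fun ω => F ω ∪ G ω)

/-! ### Beyond the window -/

/-- [CA] Above the window the wired cluster meets every box of the domain. -/
def S_CA : Prop := ∀ R : Rect, ∀ r : ℝ, 0 < r → ∃ c C δ0 : ℝ, 0 < c ∧ 0 < C ∧ 0 < δ0 ∧ δ0 ≤ 1 ∧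
  ∀ δ : ℝ, 0 < δ → δ < δ0 → ∀ a b y z : ℤ, R.x0 δ ≤ a → a ≤ b → b ≤ R.x1 δ →
    0 ≤ y → z ≤ R.y1 δ → r ≤ δ * (z - y) → ∀ q : ℝ, 1/2 ≤ q → q ≤ 1 →
    Pr (fun _ => q) (R.edges δ) (fun F => ¬ HA R δ a b y z F) ≤
      C * Real.exp (-(c * ((q - 1/2) ^ (4/3 : ℝ) / δ)))

/-- [CB] Above the window the dual cluster of the free arc does not meet a box away from the
free arc. -/
def S_CB : Prop := ∀ R : Rect, ∀ r : ℝ, 0 < r → ∃ c C δ0 : ℝ, 0 < c ∧ 0 < C ∧ 0 < δ0 ∧ δ0 ≤ 1 ∧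
  ∀ δ : ℝ, 0 < δ → δ < δ0 → ∀ a b y z m : ℤ, a ≤ b → y ≤ z → δ * (b - a) ≤ r → δ * (z - y) ≤ r →
    r ≤ δ * m → (∀ f ∈ R.outer δ, ¬ inR (a - m) (b + m) (y - m) (z + m) f) →
    ∀ q : ℝ, 1/2 ≤ q → q ≤ 1 →
    Pr (fun _ => q) (R.edges δ) (HB R δ a b y z) ≤
      C * Real.exp (-(c * ((q - 1/2) ^ (4/3 : ℝ) / δ)))

/-- [CC] Below the window the dual cluster of the free arc meets every box of the domain. -/
def S_CC : Prop := ∀ R : Rect, ∀ r : ℝ, 0 < r → ∃ c C δ0 : ℝ, 0 < c ∧ 0 < C ∧ 0 < δ0 ∧ δ0 ≤ 1 ∧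
  ∀ δ : ℝ, 0 < δ → δ < δ0 → ∀ a b y z : ℤ, R.x0 δ ≤ a → a ≤ b → b ≤ R.x1 δ →
    0 ≤ y → z ≤ R.y1 δ → r ≤ δ * (z - y) → ∀ q : ℝ, 0 ≤ q → q ≤ 1/2 →
    Pr (fun _ => q) (R.edges δ) (fun F => ¬ HB R δ a b y z F) ≤
      C * Real.exp (-(c * ((1/2 - q) ^ (4/3 : ℝ) / δ)))

/-- [CD] Below the window the wired cluster does not meet a box away from the wired arc. -/
def S_CD : Prop := ∀ R : Rect, ∀ r : ℝ, 0 < r → ∃ c C δ0 : ℝ, 0 < c ∧ 0 < C ∧ 0 < δ0 ∧ δ0 ≤ 1 ∧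
  ∀ δ : ℝ, 0 < δ → δ < δ0 → ∀ a b y z m : ℤ, a ≤ b → y ≤ z → δ * (b - a) ≤ r → δ * (z - y) ≤ r →
    r ≤ δ * m → (∀ v ∈ wv R δ, ¬ inR (a - m) (b + m) (y - m) (z + m) v) →
    ∀ q : ℝ, 0 ≤ q → q ≤ 1/2 →
    Pr (fun _ => q) (R.edges δ) (HA R δ a b y z) ≤
      C * Real.exp (-(c * ((1/2 - q) ^ (4/3 : ℝ) / δ)))

/-- [FAR] Above the window the trace is close to the free arc. -/
def S_FAR : Prop := ∀ R : Rect, ∀ ε : ℝ, 0 < ε → ∃ c C δ0 : ℝ, 0 < c ∧ 0 < C ∧ 0 < δ0 ∧ δ0 ≤ 1 ∧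
  ∀ δ : ℝ, 0 < δ → δ < δ0 → ∀ q : ℝ, 1/2 ≤ q → q ≤ 1 →
    Pr (fun _ => q) (R.edges δ) (fun F => ε < Metric.hausdorffDist (R.path δ F) (farc R)) ≤
      C * Real.exp (-(c * ((q - 1/2) ^ (4/3 : ℝ) / δ)))

/-- [WAR] Below the window the trace is close to the wired arc. -/
def S_WAR : Prop := ∀ R : Rect, ∀ ε : ℝ, 0 < ε → ∃ c C δ0 : ℝ, 0 < c ∧ 0 < C ∧ 0 < δ0 ∧ δ0 ≤ 1 ∧
  ∀ δ : ℝ, 0 < δ → δ < δ0 → ∀ q : ℝ, 0 ≤ q → q ≤ 1/2 →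
    Pr (fun _ => q) (R.edges δ) (fun F => ε < Metric.hausdorffDist (R.path δ F) (warc R)) ≤
      C * Real.exp (-(c * ((1/2 - q) ^ (4/3 : ℝ) / δ)))

end NI38
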