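import Pool.Agent.Helper38K9.NI.Tgt

/-! Leaf [UP]: no point of the path is far from the target. -/

set_option maxHeartbeats 1000000

namespace NI38

open H974 H973 H934E Finset MeasureTheory TopologicalSpace

theorem upQ : S_UP := by
  intro R δ κ L n m MM K hK s h1 h3 P M hP hM hF z hz
  by_contra hcon
  push Not at hcon
  have hd := MM.d0
  have h5 := MM.k5
  have hL := MM.L0
  have hL1 := MM.L1
  have hH := R.hH
  obtain ⟨p01, p02⟩ := MM.p0
  obtain ⟨p11, p12⟩ := MM.p1
  obtain ⟨p21, p22⟩ := MM.p2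
  obtain ⟨p31, p32⟩ := MM.p3
  have hx0 := MM.sm.x0
  have hx1 := MM.sm.x1
  have hκ0 : 0 < κ := by linarith
  obtain ⟨v, f, hv, hf, i, j, ⟨hi, hj⟩, hvb, hfb, hz1, hz2⟩ := FwL.part1 MM SelL.sel_sub hz
  obtain ⟨⟨⟨a1, a2⟩, a3, a4⟩, -⟩ := PotL.clu_val MM.sm SelL.sel_sub hv
  obtain ⟨g5, g6⟩ := hF i j hi hj
  obtain ⟨μ, hμ⟩ : ∃ μ : ℤ, μ = ⌈2 * κ / δ⌉ := ⟨_, rfl⟩
  have hμ1 : 2 * κ / δ ≤ μ := by rw [hμ]; exact Int.le_ceil _
  have hμ2 : (μ : ℝ) < 2 * κ / δ + 1 := by rw [hμ]; exact Int.ceil_lt_add_one _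
  have hμ3 : δ * (μ : ℝ) ≤ 2 * κ + δ := by
    have := mul_le_mul_of_nonneg_left hμ2.le hd.le
    have e : δ * (2 * κ / δ + 1) = 2 * κ + δ := by field_simp
    linarith
  have hμ0 : 0 < μ := by
    have : (0:ℝ) < μ := lt_of_lt_of_le (by positivity) hμ1
    exact_mod_cast this
  rw [← hμ] at g5 g6
  obtain ⟨⟨v1, v2⟩, v3, v4⟩ := hvb
  obtain ⟨⟨f1, f2⟩, f3, f4⟩ := hfb
  -- distances in the enlarged box
  have row : ∀ r : ℤ, j * L - 1 - μ ≤ r → r ≤ (j + 1) * L + 1 + μ →
      |δ * (r:ℝ) - δ * v.2| ≤ 4 * κ := by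
    intro r r1 r2
    have e : (j + 1) * L = j * L + L := by ring
    have := FwL.abs_le_of hd (a := r) (b := v.2) (c := L + 2 + μ) (by linarith) (by linarith)
    push_cast at this
    refine this.trans ?_
    linarith
  have col : ∀ c : ℤ, i * L - 1 - μ ≤ c → c ≤ (i + 1) * L + 1 + μ →
      |δ * (c:ℝ) - δ * v.1| ≤ 4 * κ := by
    intro r r1 r2
    have e : (i + 1) * L = i * L + L := by ring
    have := FwL.abs_le_of hd (a := r) (b := v.1) (c := L + 2 + μ) (by linarith) (by linarith)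
    push_cast at this
    refine this.trans ?_
    linarith
  have u1 := abs_le.mp hz1
  have u2 := abs_le.mp hz2
  -- the basic tool
  have bt : ∀ p ∈ K, ∀ q ∈ K, |p.im - z.im| ≤ 7 * κ → |q.im - z.im| ≤ 7 * κ →
      p.re ≤ z.re + 12 * κ → z.re - 12 * κ ≤ q.re → False := by
    intro p hp q hq hp1 hq1 hp2 hq2
    obtain ⟨⟨_, _⟩, hp3, hp4⟩ := hK.1 hp
    obtain ⟨⟨_, _⟩, hq3, hq4⟩ := hK.1 hq
    have w1 := abs_le.mp hp1
    have w2 := abs_le.mp hq1
    have hp5 : p.re ≤ z.re := by
      by_contra h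
      push Not at h
      have := hcon p hp (by rw [abs_le]; constructor <;> linarith)
      rw [abs_sub_comm] at this
      linarith
    have hq5 : z.re ≤ q.re := by
      by_contra h
      push Not at h
      have := hcon q hq (by rw [abs_le]; constructor <;> linarith)
      rw [abs_sub_comm] at this
      linarith
    obtain ⟨w, hw, ⟨hw1, hw2⟩, hw3⟩ := between hK (y₁ := max 0 (z.im - 7 * κ))
      (y₂ := min R.H (z.im + 7 * κ)) (le_max_left _ _)
      (by
        apply (max_le hp3 (by linarith : z.im - 7 * κ ≤ p.im)).trans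
        exact le_min hp4 (by linarith)) (min_le_left _ _) hp
      ⟨max_le hp3 (by linarith), le_min hp4 (by linarith)⟩ hq
      ⟨max_le hq3 (by linarith), le_min hq4 (by linarith)⟩ hp5 hq5
    have w3 : z.im - 7 * κ ≤ w.im := (le_max_right _ _).trans hw1
    have w4 : w.im ≤ z.im + 7 * κ := hw2.trans (min_le_right _ _)
    have := hcon w hw (by rw [hw3, sub_self, abs_zero]; linarith)
    rcases lt_abs.mp this with h | h <;> linarith
  -- points of `K` for the rows
  have rq : ∀ r : ℤ, 0 ≤ r → r ≤ R.y1 δ → j * L - 1 - μ ≤ r → r ≤ (j + 1) * L + 1 + μ →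
      ∃ q ∈ K, |q.im - z.im| ≤ 7 * κ ∧ |q.re - δ * s r| ≤ κ := by
    intro r r1 r2 r3 r4
    obtain ⟨q, hq, hq1, hq2⟩ := h3 r r1 r2
    refine ⟨q, hq, ?_, hq2⟩
    have w1 := abs_le.mp hq1
    have w2 := abs_le.mp (row r r3 r4)
    rw [abs_le]
    constructor <;> linarith
  have hvr1 : j * L - 1 - μ ≤ v.2 := by linarith
  have hvr2 : v.2 ≤ (j + 1) * L + 1 + μ := by linarith
  obtain ⟨q0, hq0, hq01, hq02⟩ := rq v.2 a3 a4 hvr1 hvr2
  have w0 := abs_le.mp hq02
  rcases le_or_gt z.re q0.re with hcase | hcase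
  · -- the columns are to the right of the box
    have hrow : ∀ r : ℤ, 0 ≤ r → r ≤ R.y1 δ → j * L - 1 - μ ≤ r → r ≤ (j + 1) * L + 1 + μ →
        ∀ c : ℤ, i * L - 1 - μ ≤ c → c ≤ (i + 1) * L + 1 + μ → c < s r := by
      intro r r1 r2 r3 r4 c c1 c2
      by_contra h
      push Not at h
      obtain ⟨q, hq, hq1, hq2⟩ := rq r r1 r2 r3 r4
      have w1 := abs_le.mp hq2
      have w2 := abs_le.mp (col c c1 c2)
      have h' : δ * (s r : ℝ) ≤ δ * c := mul_le_mul_of_nonneg_left (by exact_mod_cast h) hd.le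
      exact bt q hq q0 hq0 hq1 hq01 (by linarith) (by linarith)
    obtain ⟨g, hg, hgf⟩ := hf
    have hout : ¬ inR (i * L - 1 - μ) ((i + 1) * L + 1 + μ) (j * L - 1 - μ)
        ((j + 1) * L + 1 + μ) g := by
      rintro ⟨⟨b1, b2⟩, b3, b4⟩
      have w1 := abs_le.mp (col g.1 b1 b2)
      have w2 := abs_le.mp (row g.2 b3 b4)
      rcases hg with ⟨e1, e2, e3⟩ | ⟨e1, e2, e3⟩ | ⟨e1, e2, e3⟩
      · -- bottom
        have e2r : 0 ≤ δ * (g.1 : ℝ) := mul_nonneg hd.le (by exact_mod_cast e2)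
        rw [e1] at w2
        push_cast at w2
        have a3r : 0 ≤ δ * (v.2 : ℝ) := mul_nonneg hd.le (by exact_mod_cast a3)
        refine bt ⟨0, 0⟩ hK.2.1 q0 hq0 ?_ hq01 ?_ (by linarith)
        · simp only
          rw [abs_le]
          constructor <;> linarith
        · simp only
          linarith
      · -- right side
        have hs0 := (h1 v.2).2
        have := hrow v.2 a3 a4 hvr1 hvr2 g.1 b1 b2
        omega
      · -- top
        have e2r : δ * (R.tc δ : ℝ) ≤ δ * (g.1 : ℝ) :=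
          mul_le_mul_of_nonneg_left (by exact_mod_cast e2) hd.le
        rw [e1] at w2
        have a4r : δ * (v.2 : ℝ) ≤ δ * R.y1 δ :=
          mul_le_mul_of_nonneg_left (by exact_mod_cast a4) hd.le
        refine bt ⟨R.t, R.H⟩ hK.2.2.1 q0 hq0 ?_ hq01 ?_ (by linarith)
        · simp only
          rw [abs_le]
          constructor <;> linarith
        · simp only
          linarith
    have hr1 : Reach (dl '' (↑(R.edges δ) \ (↑(SelL.sel (R.edges δ) P M s) ∪ R.wired δ))) f g :=
      reach_dl.mpr hgf.symm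
    obtain ⟨w, hw1, hw2⟩ := BoxL.exit_box (by omega) ⟨⟨f1, f2⟩, f3, f4⟩ hr1 hout
    refine g5 (BoxL.four_of_reach (by omega) ⟨⟨f1, f2⟩, f3, f4⟩ (hw2.mono ?_) hw1)
    rintro e ⟨h3', h4'⟩
    refine ⟨?_, h4'⟩
    rw [Equiv.image_eq_preimage_symm] at h3'
    obtain ⟨h6, h7⟩ := h3'
    rw [mem_coe, mem_dmp, Finset.mem_sdiff]
    refine ⟨h6, fun h8 => h7 (Or.inl ?_)⟩
    rw [mem_coe, SelL.mem_sel]
    refine ⟨h6, Or.inl ⟨?_, h8⟩⟩
    rw [mem_coe] at h6 h4'
    obtain ⟨x, y, _ | _⟩ := e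
    · rw [mem_RE_false] at h4'
      rw [dls_f] at h6 ⊢
      rw [PotL.mem_edges] at h6
      exact hrow (y + 1) (by omega) (by omega) (by omega) (by omega) x (by omega) (by omega)
    · rw [mem_RE_true] at h4'
      rw [dls_t] at h6 ⊢
      rw [PotL.mem_edges] at h6
      exact hrow y (by omega) (by omega) (by omega) (by omega) (x + 1) (by omega) (by omega)
  · -- the columns are to the left of the box
    have hrow : ∀ r : ℤ, 0 ≤ r → r ≤ R.y1 δ → j * L - 1 - μ ≤ r → r ≤ (j + 1) * L + 1 + μ →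
        ∀ c : ℤ, i * L - 1 - μ ≤ c → c ≤ (i + 1) * L + 1 + μ → s r < c := by
      intro r r1 r2 r3 r4 c c1 c2
      by_contra h
      push Not at h
      obtain ⟨q, hq, hq1, hq2⟩ := rq r r1 r2 r3 r4
      have w1 := abs_le.mp hq2
      have w2 := abs_le.mp (col c c1 c2)
      have h' : δ * (c : ℝ) ≤ δ * s r := mul_le_mul_of_nonneg_left (by exact_mod_cast h) hd.le
      exact bt q0 hq0 q hq hq01 hq1 (by linarith) (by linarith)
    have hout : ∀ g ∈ wv R δ, ¬ inR (i * L - 1 - μ) ((i + 1) * L + 1 + μ) (j * L - 1 - μ)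
        ((j + 1) * L + 1 + μ) g := by
      have bot : ∀ g : Vtx, g.2 = 0 → g.1 ≤ 0 → ¬ inR (i * L - 1 - μ) ((i + 1) * L + 1 + μ)
          (j * L - 1 - μ) ((j + 1) * L + 1 + μ) g := by
        rintro g e1 e2 ⟨⟨b1, b2⟩, b3, b4⟩
        have w1 := abs_le.mp (col g.1 b1 b2)
        have w2 := abs_le.mp (row g.2 b3 b4)
        have e2r : δ * (g.1 : ℝ) ≤ 0 :=
          mul_nonpos_of_nonneg_of_nonpos hd.le (by exact_mod_cast e2)
        rw [e1] at w2
        push_cast at w2
        have a3r : 0 ≤ δ * (v.2 : ℝ) := mul_nonneg hd.le (by exact_mod_cast a3)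
        refine bt q0 hq0 ⟨0, 0⟩ hK.2.1 hq01 ?_ (by linarith) ?_
        · simp only
          rw [abs_le]
          constructor <;> linarith
        · simp only
          linarith
      have lef : ∀ g : Vtx, g.1 = R.x0 δ → ¬ inR (i * L - 1 - μ) ((i + 1) * L + 1 + μ)
          (j * L - 1 - μ) ((j + 1) * L + 1 + μ) g := by
        rintro g e1 ⟨⟨b1, b2⟩, b3, b4⟩
        have hs0 := (h1 v.2).1
        have := hrow v.2 a3 a4 hvr1 hvr2 g.1 b1 b2
        omega
      have top : ∀ g : Vtx, g.2 = R.y1 δ → g.1 ≤ R.tc δ → ¬ inR (i * L - 1 - μ)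
          ((i + 1) * L + 1 + μ) (j * L - 1 - μ) ((j + 1) * L + 1 + μ) g := by
        rintro g e1 e2 ⟨⟨b1, b2⟩, b3, b4⟩
        have w1 := abs_le.mp (col g.1 b1 b2)
        have w2 := abs_le.mp (row g.2 b3 b4)
        have e2r : δ * (g.1 : ℝ) ≤ δ * (R.tc δ : ℝ) :=
          mul_le_mul_of_nonneg_left (by exact_mod_cast e2) hd.le
        rw [e1] at w2
        have a4r : δ * (v.2 : ℝ) ≤ δ * R.y1 δ :=
          mul_le_mul_of_nonneg_left (by exact_mod_cast a4) hd.le
        refine bt q0 hq0 ⟨R.t, R.H⟩ hK.2.2.1 hq01 ?_ (by linarith) ?_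
        · simp only
          rw [abs_le]
          constructor <;> linarith
        · simp only
          linarith
      rintro g (rfl | ⟨e, he, hge⟩)
      · exact bot _ rfl le_rfl
      · obtain ⟨x, y, b⟩ := e
        rcases he with ⟨k1, k2, k3, k4⟩ | ⟨k1, k2, k3, k4⟩ | ⟨k1, k2, k3, k4⟩
        · simp only at k1 k2 k3 k4
          subst k1
          rcases hge with rfl | rfl
          · exact top _ (by simpa using k2) (by simp only [src_mk]; omega)
          · exact top _ (by simpa using k2) (by simp only [tgt_true]; omega)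
        · simp only at k1 k2 k3 k4
          subst k1
          rcases hge with rfl | rfl
          · exact lef _ (by simpa using k2)
          · exact lef _ (by simpa using k2)
        · simp only at k1 k2 k3 k4
          subst k1
          rcases hge with rfl | rfl
          · exact bot _ (by simpa using k2) (by simp only [src_mk]; omega)
          · exact bot _ (by simpa using k2) (by simp only [tgt_true]; omega)
    have hr1 : Reach (↑(SelL.sel (R.edges δ) P M s) ∪ R.wired δ) v (0, 0) :=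
      (show Reach (↑(SelL.sel (R.edges δ) P M s) ∪ R.wired δ) (0, 0) v from hv).symm
    obtain ⟨w, hw1, hw2⟩ := BoxL.exit_box (by omega) ⟨⟨v1, v2⟩, v3, v4⟩ hr1
      (hout (0, 0) (Or.inl rfl))
    refine g6 (BoxL.four_of_reach (by omega) ⟨⟨v1, v2⟩, v3, v4⟩ (hw2.mono ?_) hw1)
    rintro e ⟨h6, h4'⟩
    refine ⟨?_, h4'⟩
    rcases h6 with h6 | h6
    · rw [mem_coe, SelL.mem_sel] at h6
      rw [mem_coe]
      rcases h6.2 with ⟨h7, -⟩ | ⟨-, h7⟩
      · exfalso
        have h8 := h6.1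
        rw [mem_coe] at h4'
        obtain ⟨x, y, _ | _⟩ := e
        · rw [mem_RE_false] at h4'
          rw [PotL.mem_edges] at h8
          have := hrow y (by omega) (by omega) (by omega) (by omega) x (by omega) (by omega)
          simp only at h7
          omega
        · rw [mem_RE_true] at h4'
          rw [PotL.mem_edges] at h8
          have := hrow y (by omega) (by omega) (by omega) (by omega) x (by omega) (by omega)
          simp only at h7
          omega
      · exact h7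
    · exfalso
      apply hout (src e) (Or.inr ⟨e, h6, Or.inl rfl⟩)
      obtain ⟨x, y', _ | _⟩ := e
      · simp only [mem_coe, mem_RE_false] at h4'
        simp only [src_mk]
        unfold inR
        simp only
        omega
      · simp only [mem_coe, mem_RE_true] at h4'
        simp only [src_mk]
        unfold inR
        simp only
        omega

end NI38
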