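import Pool.Agent.Helper38K9.NI.Tgt
import Pool.Agent.Helper38K9.NI.Box
import Pool.Agent.Helper38K9.NI.Fw

/-! [UP]: no point of the path is far from the target. -/

set_option maxHeartbeats 1000000

namespace NI38

open H974 H973 H934E Finset MeasureTheory TopologicalSpace

namespace UpL

section
variable {R : Rect} {δ κ : ℝ} {L n m : ℤ}

/-- The enlargement. -/
theorem mu (Ms : FwL.Msh R δ κ L n m) :
    1 ≤ ⌈2 * κ / δ⌉ ∧ δ * ((⌈2 * κ / δ⌉ : ℤ) : ℝ) ≤ 2 * κ + δ := by
  have hδ := Ms.d0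
  have hκ : 0 < κ := by have := Ms.k5; linarith
  constructor
  · have : 0 < ⌈2 * κ / δ⌉ := Int.ceil_pos.mpr (by positivity)
    omega
  · have h1 := Int.ceil_lt_add_one (2 * κ / δ)
    have h2 := mul_lt_mul_of_pos_left h1 hδ
    have h3 : δ * (2 * κ / δ + 1) = 2 * κ + δ := by field_simp
    linarith

/-- Points of the enlarged box are near the points of the box: one coordinate. -/
theorem near (Ms : FwL.Msh R δ κ L n m) {i u c : ℤ} (hc1 : i * L - 1 ≤ c)
    (hc2 : c ≤ (i + 1) * L + 1) (hu1 : i * L - 1 - ⌈2 * κ / δ⌉ ≤ u)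
    (hu2 : u ≤ (i + 1) * L + 1 + ⌈2 * κ / δ⌉) :
    |δ * (u:ℝ) - δ * c| ≤ 4 * κ := by
  obtain ⟨h1, h2⟩ := mu Ms
  have e1 : (i + 1) * L = i * L + L := by ring
  have h3 := FwL.abs_le_of Ms.d0 (a := u) (b := c) (c := L + 2 + ⌈2 * κ / δ⌉)
    (by linarith) (by linarith)
  refine h3.trans ?_
  push_cast
  have h4 := Ms.L1
  have h5 := Ms.k5
  have h6 := Ms.d0
  linarith

/-- All points of the set in the band are on the same side. -/
theorem dich (Ms : FwL.Msh R δ κ L n m) {K : Set ℂ} (hK : Target R K) {x h : ℝ}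
    (h0 : 0 ≤ h) (h1 : h ≤ R.H)
    (far : ∀ q ∈ K, |q.im - h| ≤ 6 * κ → ¬ |q.re - x| ≤ 11 * κ) :
    (∀ q ∈ K, |q.im - h| ≤ 6 * κ → x + 11 * κ < q.re) ∨
      (∀ q ∈ K, |q.im - h| ≤ 6 * κ → q.re < x - 11 * κ) := by
  have hκ : 0 < κ := by have := Ms.k5; have := Ms.d0; linarith
  have hin : ∀ q ∈ K, |q.im - h| ≤ 6 * κ →
      max 0 (h - 6 * κ) ≤ q.im ∧ q.im ≤ min R.H (h + 6 * κ) := by
    intro q hq hq1
    rw [abs_le] at hq1
    obtain ⟨_, hq2, hq3⟩ := hK.1 hq
    exact ⟨max_le hq2 (by linarith), le_min hq3 (by linarith)⟩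
  by_cases hc : ∃ q ∈ K, |q.im - h| ≤ 6 * κ ∧ q.re ≤ x
  · obtain ⟨q, hq, hq1, hq2⟩ := hc
    right
    intro p hp hp1
    by_contra hlt
    rw [not_lt] at hlt
    have h2 := far p hp hp1
    have h3 : x < p.re := by
      by_contra h4
      rw [not_lt] at h4
      apply h2
      rw [abs_le]
      constructor <;> linarith
    obtain ⟨w, hw, ⟨hw1, hw2⟩, hw3⟩ := between hK (le_max_left 0 (h - 6 * κ))
      ((hin q hq hq1).1.trans (hin q hq hq1).2) (min_le_left R.H (h + 6 * κ)) hq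
      (hin q hq hq1) hp (hin p hp hp1) hq2 h3.le
    have h5 := (le_max_right 0 (h - 6 * κ)).trans hw1
    have h6 := hw2.trans (min_le_right R.H (h + 6 * κ))
    apply far w hw
    · rw [abs_le]
      constructor <;> linarith
    · rw [hw3, sub_self, abs_zero]
      linarith
  · left
    intro q hq hq1
    have h2 := far q hq hq1
    have h3 : x < q.re := by
      by_contra h4
      rw [not_lt] at h4
      exact hc ⟨q, hq, hq1, h4⟩
    by_contra h4
    rw [not_lt] at h4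
    apply h2
    rw [abs_le]
    constructor <;> linarith

/-- The vertices of the wired arc. -/
theorem wv_cases (Ms : FwL.Msh R δ κ L n m) {u : Vtx} (hu : u ∈ wv R δ) :
    (u.2 = R.y1 δ ∧ u.1 ≤ R.tc δ) ∨ u.1 = R.x0 δ ∨ (u.2 = 0 ∧ u.1 ≤ 0) := by
  rcases hu with hu | ⟨⟨x, y, b⟩, he, hu⟩
  · right; right
    rw [hu]
    exact ⟨rfl, le_refl _⟩
  · simp only [Rect.wired, Set.mem_ofPred_eq] at he
    rcases he with ⟨h1, h2, h3, h4⟩ | ⟨h1, h2, h3, h4⟩ | ⟨h1, h2, h3, h4⟩
    · subst h1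
      left
      rcases hu with hu | hu
      · rw [hu, src_mk]
        exact ⟨h2, h4.le⟩
      · rw [hu, tgt_true]
        exact ⟨h2, by simp only; omega⟩
    · subst h1
      right; left
      rcases hu with hu | hu
      · rw [hu, src_mk]
        exact h2
      · rw [hu, tgt_false]
        exact h2
    · subst h1
      right; right
      rcases hu with hu | hu
      · rw [hu, src_mk]
        exact ⟨h2, h4.le⟩
      · rw [hu, tgt_true]
        exact ⟨h2, by simp only; omega⟩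

end

end UpL

open UpL in
theorem up : S_UP := by
  intro R δ κ L n m Ms K hK s hs hq P M hP hM hno z hz
  by_contra hfar0
  obtain ⟨v, f, hv, hf, i, j, ⟨hi, hj⟩, hvR, hfR, hz1, hz2⟩ := FwL.part1 Ms SelL.sel_sub hz
  obtain ⟨⟨⟨v1, v2⟩, v3, v4⟩, -⟩ := PotL.clu_val Ms.sm SelL.sel_sub hv
  obtain ⟨f1, f2⟩ := hno i j hi hj
  obtain ⟨m1, m2⟩ := mu Ms
  have hδ := Ms.d0
  have hk5 := Ms.k5
  have hκ : 0 < κ := by linarith
  have hp2 := Ms.p2
  have hp3 := Ms.p3
  have cst : ∀ {a b : ℤ}, a ≤ b → δ * (a:ℝ) ≤ δ * b := by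
    intro a b h
    apply mul_le_mul_of_nonneg_left _ hδ.le
    exact_mod_cast h
  have far : ∀ q ∈ K, |q.im - δ * v.2| ≤ 6 * κ → ¬ |q.re - δ * v.1| ≤ 11 * κ := by
    intro q hqK h1 h2
    apply hfar0
    refine ⟨q, hqK, ?_, ?_⟩
    · rw [abs_le] at *
      constructor <;> linarith
    · rw [abs_le] at *
      constructor <;> linarith
  have hv0 : 0 ≤ δ * (v.2:ℝ) := by
    apply mul_nonneg hδ.le
    exact_mod_cast v3
  have hvH : δ * (v.2:ℝ) ≤ R.H := by
    have := cst v4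
    linarith
  obtain ⟨⟨b1, b2⟩, b3, b4⟩ := hvR
  -- coordinates of the points of the enlarged box
  have nr : ∀ u : Vtx, inR (i * L - 1 - ⌈2 * κ / δ⌉) ((i + 1) * L + 1 + ⌈2 * κ / δ⌉)
      (j * L - 1 - ⌈2 * κ / δ⌉) ((j + 1) * L + 1 + ⌈2 * κ / δ⌉) u →
      |δ * (u.1:ℝ) - δ * v.1| ≤ 4 * κ ∧ |δ * (u.2:ℝ) - δ * v.2| ≤ 4 * κ := by
    rintro u ⟨⟨u1, u2⟩, u3, u4⟩
    exact ⟨near Ms b1 b2 u1 u2, near Ms b3 b4 u3 u4⟩
  have hO : (⟨0, 0⟩ : ℂ) ∈ K := hK.2.1
  have hT : (⟨R.t, R.H⟩ : ℂ) ∈ K := hK.2.2.1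
  rcases dich Ms hK hv0 hvH far with hL | hR
  · -- the columns are to the right
    have row : ∀ r : ℤ, 0 ≤ r → r ≤ R.y1 δ → |δ * (r:ℝ) - δ * v.2| ≤ 4 * κ →
        δ * v.1 + 10 * κ < δ * s r := by
      intro r r0 r1 r2
      obtain ⟨q, hqK, hq1, hq2⟩ := hq r r0 r1
      rw [abs_le] at hq1 hq2 r2
      have := hL q hqK (by rw [abs_le]; constructor <;> linarith)
      linarith
    apply f1
    obtain ⟨g, hg, hgf⟩ := hf
    have hout : ¬ inR (i * L - 1 - ⌈2 * κ / δ⌉) ((i + 1) * L + 1 + ⌈2 * κ / δ⌉)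
        (j * L - 1 - ⌈2 * κ / δ⌉) ((j + 1) * L + 1 + ⌈2 * κ / δ⌉) g := by
      intro hin
      obtain ⟨n1, n2⟩ := nr g hin
      rw [abs_le] at n1 n2
      rcases hg with ⟨g1, g2, g3⟩ | ⟨g1, g2, g3⟩ | ⟨g1, g2, g3⟩
      · have h1 : (g.2 : ℝ) = -1 := by exact_mod_cast g1
        rw [h1] at n2
        have h2 := hL _ hO (by simp only; rw [abs_le]; constructor <;> linarith)
        simp only at h2
        have h3 := cst g2
        push_cast at h3
        linarith
      · have h2 := row v.2 v3 v4 (by rw [sub_self, abs_zero]; linarith)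
        have h3 := cst (hs v.2).2
        rw [← g1] at h3
        linarith
      · have h1 : (g.2 : ℝ) = R.y1 δ := by exact_mod_cast g1
        rw [h1] at n2
        have h2 := hL _ hT (by simp only; rw [abs_le]; constructor <;> linarith)
        simp only at h2
        have h3 := cst g2
        linarith
    have hr1 : Reach (dl '' (↑(R.edges δ) \ (↑(SelL.sel (R.edges δ) P M s) ∪ R.wired δ))) f g :=
      reach_dl.mpr hgf.symm
    obtain ⟨w, hw1, hw2⟩ := BoxL.exit_box m1 hfR hr1 hout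
    refine BoxL.four_of_reach m1 hfR (hw2.mono ?_) hw1
    rintro e ⟨h3, h4⟩
    refine ⟨?_, h4⟩
    rw [coe_dmp]
    obtain ⟨x, ⟨h5, h6⟩, rfl⟩ := h3
    refine ⟨x, ?_, rfl⟩
    rw [Finset.coe_sdiff]
    refine ⟨h5, fun h7 => h6 (Or.inl ?_)⟩
    rw [mem_coe, SelL.mem_sel]
    rw [mem_coe] at h5 h7
    refine ⟨h5, Or.inl ⟨?_, h7⟩⟩
    have key : ∀ x' y' : ℤ, (0 ≤ y' ∧ y' ≤ R.y1 δ) →
        inR (i * L - 1 - ⌈2 * κ / δ⌉) ((i + 1) * L + 1 + ⌈2 * κ / δ⌉)
        (j * L - 1 - ⌈2 * κ / δ⌉) ((j + 1) * L + 1 + ⌈2 * κ / δ⌉) (x', y') → x' < s y' := by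
      intro x' y' hy' hin
      obtain ⟨n1, n2⟩ := nr (x', y') hin
      simp only at n1 n2
      have h8 := row y' hy'.1 hy'.2 n2
      rw [abs_le] at n1
      by_contra hc
      rw [not_lt] at hc
      have := cst hc
      linarith
    have hrg := h5
    obtain ⟨x', y', _ | _⟩ := x
    · rw [dl_f, mem_coe, mem_RE_true] at h4
      rw [PotL.mem_edges] at hrg
      exact key x' y' hrg.1.2 ⟨⟨by simp only; omega, by simp only; omega⟩,
        by simp only; omega, by simp only; omega⟩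
    · rw [dl_t, mem_coe, mem_RE_false] at h4
      rw [PotL.mem_edges] at hrg
      exact key x' y' hrg.1.2 ⟨⟨by simp only; omega, by simp only; omega⟩,
        by simp only; omega, by simp only; omega⟩
  · -- the columns are to the left
    have row : ∀ r : ℤ, 0 ≤ r → r ≤ R.y1 δ → |δ * (r:ℝ) - δ * v.2| ≤ 4 * κ →
        δ * s r < δ * v.1 - 10 * κ := by
      intro r r0 r1 r2
      obtain ⟨q, hqK, hq1, hq2⟩ := hq r r0 r1
      rw [abs_le] at hq1 hq2 r2
      have := hR q hqK (by rw [abs_le]; constructor <;> linarith)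
      linarith
    apply f2
    have hout : ∀ u ∈ wv R δ, ¬ inR (i * L - 1 - ⌈2 * κ / δ⌉) ((i + 1) * L + 1 + ⌈2 * κ / δ⌉)
        (j * L - 1 - ⌈2 * κ / δ⌉) ((j + 1) * L + 1 + ⌈2 * κ / δ⌉) u := by
      intro u hu hin
      obtain ⟨n1, n2⟩ := nr u hin
      rw [abs_le] at n1 n2
      rcases wv_cases Ms hu with ⟨g1, g2⟩ | g1 | ⟨g1, g2⟩
      · have h1 : (u.2 : ℝ) = R.y1 δ := by exact_mod_cast g1
        rw [h1] at n2
        have h2 := hR _ hT (by simp only; rw [abs_le]; constructor <;> linarith)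
        simp only at h2
        have h3 := cst g2
        linarith
      · have h2 := row v.2 v3 v4 (by rw [sub_self, abs_zero]; linarith)
        have h3 := cst (hs v.2).1
        rw [← g1] at h3
        linarith
      · have h1 : (u.2 : ℝ) = 0 := by exact_mod_cast g1
        rw [h1] at n2
        have h2 := hR _ hO (by simp only; rw [abs_le]; constructor <;> linarith)
        simp only at h2
        have h3 := cst g2
        push_cast at h3
        linarith
    have hr1 : Reach (↑(SelL.sel (R.edges δ) P M s) ∪ R.wired δ) v (0, 0) :=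
      (show Reach (↑(SelL.sel (R.edges δ) P M s) ∪ R.wired δ) (0, 0) v from hv).symm
    obtain ⟨w, hw1, hw2⟩ := BoxL.exit_box m1 ⟨⟨b1, b2⟩, b3, b4⟩ hr1 (hout (0, 0) (Or.inl rfl))
    refine BoxL.four_of_reach m1 ⟨⟨b1, b2⟩, b3, b4⟩ (hw2.mono ?_) hw1
    rintro e ⟨h3, h4⟩
    refine ⟨?_, h4⟩
    rcases h3 with h3 | h3
    · rw [mem_coe, SelL.mem_sel] at h3
      obtain ⟨h5, h6 | h6⟩ := h3
      · exfalso
        have key : ∀ x' y' : ℤ, (0 ≤ y' ∧ y' ≤ R.y1 δ) →
            inR (i * L - 1 - ⌈2 * κ / δ⌉) ((i + 1) * L + 1 + ⌈2 * κ / δ⌉)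
            (j * L - 1 - ⌈2 * κ / δ⌉) ((j + 1) * L + 1 + ⌈2 * κ / δ⌉) (x', y') →
            ¬ x' < s y' := by
          intro x' y' hy' hin hc
          obtain ⟨n1, n2⟩ := nr (x', y') hin
          simp only at n1 n2
          have h8 := row y' hy'.1 hy'.2 n2
          rw [abs_le] at n1
          have := cst hc.le
          linarith
        obtain ⟨x', y', _ | _⟩ := e
        · rw [mem_coe, mem_RE_false] at h4
          rw [PotL.mem_edges] at h5
          exact key x' y' h5.1.2 ⟨⟨by simp only; omega, by simp only; omega⟩,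
            by simp only; omega, by simp only; omega⟩ h6.1
        · rw [mem_coe, mem_RE_true] at h4
          rw [PotL.mem_edges] at h5
          exact key x' y' h5.1.2 ⟨⟨by simp only; omega, by simp only; omega⟩,
            by simp only; omega, by simp only; omega⟩ h6.1
      · exact h6.2
    · exfalso
      apply hout (src e) (Or.inr ⟨e, h3, Or.inl rfl⟩)
      obtain ⟨x', y', _ | _⟩ := e
      · rw [mem_coe, mem_RE_false] at h4
        rw [src_mk]
        exact ⟨⟨by simp only; omega, by simp only; omega⟩,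
          by simp only; omega, by simp only; omega⟩
      · rw [mem_coe, mem_RE_true] at h4
        rw [src_mk]
        exact ⟨⟨by simp only; omega, by simp only; omega⟩,
          by simp only; omega, by simp only; omega⟩

end NI38
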